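import Mathlib

/-!
# Hereditarily permutable subgroups: definitions and basic facts

`B^x = x⁻¹ B x`; a subgroup `A` of `E` is `E`-permutable in `E` if every subgroup `B` of `E` has a
conjugate `B^x`, `x ∈ E`, with `A B^x = B^x A`; it is hereditarily permutable if it is
`E`-permutable in `E` for every overgroup `E`.
-/

open scoped Pointwise

namespace MP_5771ce_al

variable {G : Type*} [Group G]

/-- `A` and `B` permute: `AB = BA` as subsets of `G`. -/
def Permutes (A B : Subgroup G) : Prop :=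
  (A : Set G) * (B : Set G) = (B : Set G) * (A : Set G)

/-- The conjugate `B^x = x⁻¹ B x`. -/
def conjBy (B : Subgroup G) (x : G) : Subgroup G := B.map (MulAut.conj x⁻¹).toMonoidHom

/-- For `A ≤ E`: `A` is `E`-permutable in `E`, i.e. for every subgroup `B ≤ E` there is `x ∈ E`
with `A B^x = B^x A`. -/
def EPermutable (A E : Subgroup G) : Prop :=
  ∀ B : Subgroup G, B ≤ E → ∃ x ∈ E, Permutes A (conjBy B x)

/-- `A` is hereditarily `G`-permutable in `G`: `A` is `E`-permutable in `E` for every subgroup `E`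
with `A ≤ E ≤ G`. -/
def HerPermutable (A : Subgroup G) : Prop :=
  ∀ E : Subgroup G, A ≤ E → EPermutable A E

theorem mem_conjBy {B : Subgroup G} {x y : G} : y ∈ conjBy B x ↔ x * y * x⁻¹ ∈ B := by
  unfold conjBy
  rw [Subgroup.mem_map]
  constructor
  · rintro ⟨b, hb, rfl⟩
    simpa [mul_assoc] using hb
  · intro h
    exact ⟨_, h, by simp [mul_assoc]⟩

theorem conjBy_mul (B : Subgroup G) (x y : G) : conjBy B (x * y) = conjBy (conjBy B x) y := by
  ext z
  simp [mem_conjBy, mul_assoc]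

@[simp] theorem conjBy_one (B : Subgroup G) : conjBy B 1 = B := by
  ext z
  simp [mem_conjBy]

theorem conjBy_mono {B C : Subgroup G} (h : B ≤ C) (x : G) : conjBy B x ≤ conjBy C x :=
  fun _ hy => mem_conjBy.2 (h (mem_conjBy.1 hy))

theorem conjBy_le_iff {B C : Subgroup G} (x : G) : conjBy B x ≤ conjBy C x ↔ B ≤ C := by
  refine ⟨fun h => ?_, fun h => conjBy_mono h x⟩
  have := conjBy_mono h x⁻¹
  rwa [← conjBy_mul, ← conjBy_mul, mul_inv_cancel, conjBy_one, conjBy_one] at this

theorem conjBy_eq_self {B : Subgroup G} {x : G} (hx : x ∈ B) : conjBy B x = B := by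
  ext y
  rw [mem_conjBy]
  constructor
  · intro h
    have := B.mul_mem (B.mul_mem (B.inv_mem hx) h) hx
    simpa [mul_assoc] using this
  · intro h
    exact B.mul_mem (B.mul_mem hx h) (B.inv_mem hx)

theorem conjBy_eq_self_of_forall {B : Subgroup G} {x : G} (hB : ∀ y, x * y * x⁻¹ ∈ B ↔ y ∈ B) :
    conjBy B x = B := by
  ext y
  rw [mem_conjBy, hB]

theorem card_conjBy (B : Subgroup G) (x : G) : Nat.card (conjBy B x) = Nat.card B :=
  Nat.card_congr (B.equivMapOfInjective _ (MulAut.conj x⁻¹).injective).symm.toEquiv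

theorem permutes_iff {A B : Subgroup G} :
    Permutes A B ↔ ∀ a ∈ A, ∀ b ∈ B, ∃ b' ∈ B, ∃ a' ∈ A, a * b = b' * a' := by
  constructor
  · intro h a ha b hb
    have : a * b ∈ (A : Set G) * (B : Set G) := Set.mul_mem_mul ha hb
    rw [h] at this
    obtain ⟨b', hb', a', ha', e⟩ := Set.mem_mul.1 this
    exact ⟨b', hb', a', ha', e.symm⟩
  · intro h
    apply Set.Subset.antisymm
    · rintro _ ⟨a, ha, b, hb, rfl⟩
      obtain ⟨b', hb', a', ha', e⟩ := h a ha b hb
      exact ⟨b', hb', a', ha', e.symm⟩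
    · rintro _ ⟨b, hb, a, ha, rfl⟩
      obtain ⟨b', hb', a', ha', e⟩ := h a⁻¹ (A.inv_mem ha) b⁻¹ (B.inv_mem hb)
      refine ⟨a'⁻¹, A.inv_mem ha', b'⁻¹, B.inv_mem hb', ?_⟩
      have : (a⁻¹ * b⁻¹)⁻¹ = (b' * a')⁻¹ := by rw [e]
      simpa using this.symm

theorem Permutes.symm {A B : Subgroup G} (h : Permutes A B) : Permutes B A := Eq.symm h

/-- If `AB = BA` then `AB` is a subgroup, equal to `A ⊔ B`. -/
theorem Permutes.mem_sup {A B : Subgroup G} (h : Permutes A B) {g : G} :
    g ∈ A ⊔ B ↔ ∃ a ∈ A, ∃ b ∈ B, a * b = g := by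
  constructor
  · intro hg
    let S : Subgroup G :=
      { carrier := (A : Set G) * (B : Set G)
        mul_mem' := by
          rintro _ _ ⟨a, ha, b, hb, rfl⟩ ⟨a', ha', b', hb', rfl⟩
          obtain ⟨a2, ha2, b2, hb2, e⟩ := permutes_iff.1 h.symm b hb a' ha'
          refine ⟨a * a2, A.mul_mem ha ha2, b2 * b', B.mul_mem hb2 hb', ?_⟩
          show a * a2 * (b2 * b') = a * b * (a' * b')
          have : b * a' = a2 * b2 := e
          calc a * a2 * (b2 * b') = a * (a2 * b2) * b' := by group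
            _ = a * (b * a') * b' := by rw [this]
            _ = a * b * (a' * b') := by group
        one_mem' := ⟨1, A.one_mem, 1, B.one_mem, by simp⟩
        inv_mem' := by
          rintro _ ⟨a, ha, b, hb, rfl⟩
          obtain ⟨a2, ha2, b2, hb2, e⟩ := permutes_iff.1 h.symm b⁻¹ (B.inv_mem hb) a⁻¹
            (A.inv_mem ha)
          exact ⟨a2, ha2, b2, hb2, by show a2 * b2 = (a * b)⁻¹; rw [← e]; group⟩ }
    have hS : A ⊔ B ≤ S := by
      refine sup_le ?_ ?_
      · intro a ha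
        exact ⟨a, ha, 1, B.one_mem, by simp⟩
      · intro b hb
        exact ⟨1, A.one_mem, b, hb, by simp⟩
    obtain ⟨a, ha, b, hb, e⟩ := hS hg
    exact ⟨a, ha, b, hb, e⟩
  · rintro ⟨a, ha, b, hb, rfl⟩
    exact mul_mem (Subgroup.mem_sup_left ha) (Subgroup.mem_sup_right hb)

theorem Permutes.mem_sup' {A B : Subgroup G} (h : Permutes A B) {g : G} :
    g ∈ A ⊔ B ↔ ∃ b ∈ B, ∃ a ∈ A, b * a = g := by
  rw [sup_comm, h.symm.mem_sup]

theorem permutes_conj {A B : Subgroup G} (h : Permutes A B) (x : G) :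
    Permutes (conjBy A x) (conjBy B x) := by
  rw [permutes_iff] at h ⊢
  intro a ha b hb
  rw [mem_conjBy] at ha hb
  obtain ⟨b', hb', a', ha', e⟩ := h _ ha _ hb
  refine ⟨x⁻¹ * b' * x, mem_conjBy.2 (by simpa [mul_assoc] using hb'), x⁻¹ * a' * x,
    mem_conjBy.2 (by simpa [mul_assoc] using ha'), ?_⟩
  have : x * a * x⁻¹ * (x * b * x⁻¹) = x * (a * b) * x⁻¹ := by group
  rw [this] at e
  have e2 : a * b = x⁻¹ * (b' * a') * x := by rw [← e]; group
  rw [e2]; group

/-- L2: if `AB = BA`, `A` is permutable in `AB` and `N ⊴ B` then `AN = NA`. -/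
theorem permutes_of_normal {A B N : Subgroup G} (hAB : Permutes A B)
    (hE : EPermutable A (A ⊔ B)) (hN : N ≤ B) (hn : ∀ b ∈ B, ∀ n ∈ N, b * n * b⁻¹ ∈ N) :
    Permutes A N := by
  obtain ⟨x, hx, hp⟩ := hE N (hN.trans le_sup_right)
  obtain ⟨b, hb, a, ha, rfl⟩ := hAB.mem_sup'.1 hx
  rw [conjBy_mul] at hp
  have hNb : conjBy N b = N := by
    apply conjBy_eq_self_of_forall
    intro y
    constructor
    · intro h
      have := hn b⁻¹ (B.inv_mem hb) _ h
      simpa [mul_assoc] using this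
    · exact hn b hb y
  rw [hNb] at hp
  have := permutes_conj hp a⁻¹
  rwa [← conjBy_mul, mul_inv_cancel, conjBy_one, conjBy_eq_self (A.inv_mem ha)] at this

theorem HerPermutable.exists_permutes {A : Subgroup G} (hA : HerPermutable A) (B : Subgroup G) :
    ∃ x, Permutes A (conjBy B x) := by
  obtain ⟨x, -, h⟩ := hA ⊤ le_top B le_top
  exact ⟨x, h⟩

theorem HerPermutable.permutes_of_normal {A B N : Subgroup G} (hA : HerPermutable A)
    (hAB : Permutes A B) (hN : N ≤ B) (hn : ∀ b ∈ B, ∀ n ∈ N, b * n * b⁻¹ ∈ N) :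
    Permutes A N :=
  MP_5771ce_al.permutes_of_normal hAB (hA _ le_sup_left) hN hn

variable {H : Type*} [Group H]

theorem map_conjBy (f : G →* H) (B : Subgroup G) (x : G) :
    (conjBy B x).map f = conjBy (B.map f) (f x) := by
  ext y
  rw [mem_conjBy, Subgroup.mem_map, Subgroup.mem_map]
  constructor
  · rintro ⟨b, hb, rfl⟩
    exact ⟨_, mem_conjBy.1 hb, by simp⟩
  · rintro ⟨b, hb, e⟩
    refine ⟨x⁻¹ * b * x, mem_conjBy.2 (by simpa [mul_assoc] using hb), ?_⟩
    rw [map_mul, map_mul, e, map_inv]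
    group

theorem permutes_map {A B : Subgroup G} (h : Permutes A B) (f : G →* H) :
    Permutes (A.map f) (B.map f) := by
  rw [permutes_iff] at h ⊢
  rintro _ ⟨a, ha, rfl⟩ _ ⟨b, hb, rfl⟩
  obtain ⟨b', hb', a', ha', e⟩ := h a ha b hb
  refine ⟨f b', ⟨b', hb', rfl⟩, f a', ⟨a', ha', rfl⟩, ?_⟩
  rw [← map_mul, ← map_mul, e]

theorem permutes_of_map {A B : Subgroup G} {f : G →* H} (hf : Function.Injective f)
    (h : Permutes (A.map f) (B.map f)) : Permutes A B := by
  rw [permutes_iff] at h ⊢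
  intro a ha b hb
  obtain ⟨_, ⟨b', hb', rfl⟩, _, ⟨a', ha', rfl⟩, e⟩ := h _ ⟨a, ha, rfl⟩ _ ⟨b, hb, rfl⟩
  exact ⟨b', hb', a', ha', hf (by simpa using e)⟩

/-- Heredity in subgroups, in the form of injective homomorphisms. -/
theorem HerPermutable.of_map {A : Subgroup G} {f : G →* H} (hf : Function.Injective f)
    (h : HerPermutable (A.map f)) : HerPermutable A := by
  intro E hE B hB
  obtain ⟨y, ⟨x, hx, rfl⟩, hp⟩ := h (E.map f) (Subgroup.map_mono hE) (B.map f)
    (Subgroup.map_mono hB)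
  refine ⟨x, hx, permutes_of_map hf ?_⟩
  rwa [map_conjBy]

theorem HerPermutable.subgroupOf {A : Subgroup G} (h : HerPermutable A) {E : Subgroup G}
    (hE : A ≤ E) : HerPermutable (A.subgroupOf E) := by
  refine HerPermutable.of_map (f := E.subtype) E.subtype_injective ?_
  rwa [Subgroup.subgroupOf_map_subtype, inf_of_le_left hE]

/-- Passage to quotients, in the form of surjective homomorphisms. -/
theorem HerPermutable.map {A : Subgroup G} (h : HerPermutable A) {f : G →* H}
    (hf : Function.Surjective f) : HerPermutable (A.map f) := by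
  intro E hE B hB
  obtain ⟨x, hx, hp⟩ := h (E.comap f) (Subgroup.map_le_iff_le_comap.1 hE) (B.comap f)
    (Subgroup.comap_mono hB)
  refine ⟨f x, hx, ?_⟩
  have := permutes_map hp f
  rwa [map_conjBy, Subgroup.map_comap_eq_self_of_surjective hf] at this

/-- `A ⊔ B = ⊤` and `AB = BA` give `G = BA`. -/
theorem Permutes.exists_eq {A B : Subgroup G} (h : Permutes A B) (ht : A ⊔ B = ⊤) (g : G) :
    ∃ b ∈ B, ∃ a ∈ A, b * a = g :=
  h.mem_sup'.1 (ht ▸ Subgroup.mem_top g)

/-- If `AB = BA` then `|AB : A| = |B : A ∩ B|`. -/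
theorem Permutes.relIndex_sup {A B : Subgroup G} (h : Permutes A B) :
    A.relIndex (A ⊔ B) = A.relIndex B := by
  unfold Subgroup.relIndex
  rw [Subgroup.index_eq_card, Subgroup.index_eq_card]
  symm
  let f : (B ⧸ A.subgroupOf B) → ((A ⊔ B : Subgroup G) ⧸ A.subgroupOf (A ⊔ B)) :=
    Quotient.map' (fun b => ⟨b.1, Subgroup.mem_sup_right b.2⟩) (by
      intro a b hab
      rw [QuotientGroup.leftRel_apply] at hab ⊢
      exact hab)
  refine Nat.card_congr (Equiv.ofBijective f ⟨?_, ?_⟩)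
  · intro a b
    induction a using QuotientGroup.induction_on with
    | H a =>
    induction b using QuotientGroup.induction_on with
    | H b =>
    intro hab
    have : (QuotientGroup.mk (⟨a.1, Subgroup.mem_sup_right a.2⟩ : (A ⊔ B : Subgroup G)) :
      ((A ⊔ B : Subgroup G) ⧸ A.subgroupOf (A ⊔ B))) =
      QuotientGroup.mk ⟨b.1, Subgroup.mem_sup_right b.2⟩ := hab
    rw [QuotientGroup.eq] at this ⊢
    exact this
  · intro g
    induction g using QuotientGroup.induction_on with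
    | H g =>
    obtain ⟨b, hb, a, ha, e⟩ := h.mem_sup'.1 g.2
    refine ⟨QuotientGroup.mk ⟨b, hb⟩, ?_⟩
    show (QuotientGroup.mk (⟨b, Subgroup.mem_sup_right hb⟩ : (A ⊔ B : Subgroup G)) :
      ((A ⊔ B : Subgroup G) ⧸ A.subgroupOf (A ⊔ B))) = QuotientGroup.mk g
    rw [QuotientGroup.eq, Subgroup.mem_subgroupOf]
    show b⁻¹ * g.1 ∈ A
    rw [← e]
    simpa using ha

end MP_5771ce_al
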