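import Pool.Agent.Lib.MP_5771ce_al.EStarC

set_option autoImplicit false

/-!
Case (E*): a finite `2`-group `A`, a group `L = A P` with `|A : K| = 2` for the core `K` and an
abelian `3`-group `P` inverted modulo `K` and not centralising `K`, and an element `x` of prime
power order (prime at least `5`) normalising `A`.  Then some nontrivial subgroup of `A` is
normalised by `L` and by `x L x⁻¹`.
-/

namespace MP_5771ce_al

variable {G : Type*} [Group G]

/-- The conjugate `x H x⁻¹`. -/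
def cj (x : G) (H : Subgroup G) : Subgroup G := H.map (MulAut.conj x).toMonoidHom

theorem mem_cj {x y : G} {H : Subgroup G} : y ∈ cj x H ↔ x⁻¹ * y * x ∈ H := by
  constructor
  · rintro ⟨c, hc, rfl⟩
    show x⁻¹ * (x * c * x⁻¹) * x ∈ H
    have : x⁻¹ * (x * c * x⁻¹) * x = c := by group
    rwa [this]
  · intro h
    refine ⟨x⁻¹ * y * x, h, ?_⟩
    show x * (x⁻¹ * y * x) * x⁻¹ = y
    group

theorem card_cj (x : G) (H : Subgroup G) : Nat.card (cj x H) = Nat.card H :=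
  Subgroup.card_map_of_injective (MulAut.conj x).injective

/-- `H` for `false`, `x H x⁻¹` for `true`. -/
def two (x : G) (H : Subgroup G) : Bool → Subgroup G
  | false => H
  | true => cj x H

variable {A K P L : Subgroup G} {x : G}

theorem TL.gr (h : TL A K P L) [Finite G] {r k : ℕ} (hr : r.Prime) (hr5 : 5 ≤ r)
    (hxr : x ^ (r ^ k) = 1) (hx : ∀ a, a ∈ A ↔ x * a * x⁻¹ ∈ A)
    (hno : ∀ Y ≤ A, Nrm L x Y → Y = ⊥) :
    ∃ z, Gr (two x L) (two x K) (two x (vcl L A)) A z := by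
  obtain ⟨hZ, hV⟩ := h.four hr hr5 hxr hx hno
  -- the involution of `omz A`
  obtain ⟨z, hzZ, hz1⟩ : ∃ z ∈ omz A, z ≠ 1 := by
    by_contra hcon
    have : omz A = ⊥ := by
      rw [eq_bot_iff]
      intro c hc
      rw [Subgroup.mem_bot]
      by_contra h1
      exact hcon ⟨c, hc, h1⟩
    rw [this] at hZ
    simp at hZ
  have hzu : ∀ c ∈ omz A, c = 1 ∨ c = z := by
    intro c hc
    rw [Nat.card_eq_two_iff' (1 : omz A)] at hZ
    obtain ⟨w, hw1, hw⟩ := hZ
    by_cases hc1 : c = 1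
    · left; exact hc1
    · right
      have e1 : (⟨c, hc⟩ : omz A) = w := hw _ (by
        intro h1; apply hc1; exact congrArg Subtype.val h1)
      have e2 : (⟨z, hzZ⟩ : omz A) = w := hw _ (by
        intro h1; apply hz1; exact congrArg Subtype.val h1)
      have := e1.trans e2.symm
      exact congrArg Subtype.val this
  have hzx : x * z * x⁻¹ = z := by
    rcases hzu _ ((omz_conj hx z).1 hzZ) with h1 | h1
    · exfalso; apply hz1
      calc z = x⁻¹ * (x * z * x⁻¹) * x := by group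
        _ = 1 := by rw [h1]; group
    · exact h1
  have hzx' : x⁻¹ * z * x = z := by
    calc x⁻¹ * z * x = x⁻¹ * (x * z * x⁻¹) * x := by rw [hzx]
      _ = z := by group
  have hxA' : ∀ a, a ∈ A ↔ x⁻¹ * a * x ∈ A := by
    intro a
    rw [hx (x⁻¹ * a * x)]
    have : x * (x⁻¹ * a * x) * x⁻¹ = a := by group
    rw [this]
  have hzV : z ∈ vcl L A := omz_le_vcl L A hzZ
  have hcA : Nat.card A = 2 * Nat.card K := by
    have := eStar_card_mul_relIndex h.KA
    rw [h.idx] at this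
    omega
  obtain ⟨-, b, hb, hbK⟩ := h.card_vcl hx hno
  -- centraliser of `V` in `A`
  have hCV : ∀ a ∈ A, (∀ v ∈ vcl L A, a * v = v * a) → a ∈ K := by
    intro a ha hav
    by_contra haK
    have hle : vcl L A ≤ omz A := fun v hv => h.mem_omz_of_comm ha haK hv (hav v hv)
    have := Subgroup.card_le_of_le hle
    omega
  have hmv : ∃ l ∈ L, l * z * l⁻¹ ≠ z := by
    by_contra hcon
    have hcon' : ∀ l ∈ L, l * z * l⁻¹ = z := by
      intro l hl
      by_contra h1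
      exact hcon ⟨l, hl, h1⟩
    have hle : vcl L A ≤ omz A := by
      rw [vcl, Subgroup.closure_le]
      rintro w ⟨g, hg, c, hc, rfl⟩
      rcases hzu c hc with rfl | rfl
      · have : g * 1 * g⁻¹ = 1 := by group
        rw [this]; exact (omz A).one_mem
      · rw [hcon' g hg]; exact hzZ
    have := Subgroup.card_le_of_le hle
    omega
  refine ⟨z, ?_⟩
  constructor
  · -- TA
    rintro (_ | _)
    · exact h.KA
    · intro a ha
      have h1 := h.KA (mem_cj.1 ha)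
      exact (hxA' a).2 h1
  · -- AL
    rintro (_ | _)
    · exact h.AL
    · intro a ha
      exact mem_cj.2 (h.AL ((hxA' a).1 ha))
  · -- Tn
    rintro (_ | _) g hg t ht
    · exact h.Kn g hg t ht
    · have h1 := h.Kn _ (mem_cj.1 hg) _ (mem_cj.1 ht)
      refine mem_cj.2 ?_
      have e : x⁻¹ * (g * t * g⁻¹) * x = (x⁻¹ * g * x) * (x⁻¹ * t * x) * (x⁻¹ * g * x)⁻¹ := by group
      rwa [e]
  · -- Vn
    rintro (_ | _) g hg t ht
    · exact vcl_conj hg ht
    · have h1 := vcl_conj (mem_cj.1 hg) (mem_cj.1 ht)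
      refine mem_cj.2 ?_
      have e : x⁻¹ * (g * t * g⁻¹) * x = (x⁻¹ * g * x) * (x⁻¹ * t * x) * (x⁻¹ * g * x)⁻¹ := by group
      rwa [e]
  · -- VT
    rintro (_ | _)
    · exact h.vcl_le_K
    · intro v hv
      exact mem_cj.2 (h.vcl_le_K (mem_cj.1 hv))
  · -- Tcard
    rintro (_ | _)
    · exact hcA
    · show Nat.card A = 2 * Nat.card (cj x K)
      rw [card_cj]; exact hcA
  · -- Vcard
    rintro (_ | _)
    · exact hV
    · show Nat.card (cj x (vcl L A)) = 4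
      rw [card_cj]; exact hV
  · -- Vsq
    rintro (_ | _) v hv
    · exact h.vcl_sq hv
    · have h1 := h.vcl_sq (mem_cj.1 hv)
      calc v * v = x * ((x⁻¹ * v * x) * (x⁻¹ * v * x)) * x⁻¹ := by group
        _ = 1 := by rw [h1]; group
  · -- zV
    rintro (_ | _)
    · exact hzV
    · refine mem_cj.2 ?_
      rw [hzx']; exact hzV
  · exact hz1
  · exact fun a ha => hzZ.2.2 a ha
  · exact fun c hc hc2 hca => hzu c ⟨hc, hc2, hca⟩
  · -- TV
    rintro (_ | _) t ht v hv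
    · exact h.K_comm_vcl ht hv
    · have h1 := h.K_comm_vcl (mem_cj.1 ht) (mem_cj.1 hv)
      calc t * v = x * ((x⁻¹ * t * x) * (x⁻¹ * v * x)) * x⁻¹ := by group
        _ = x * ((x⁻¹ * v * x) * (x⁻¹ * t * x)) * x⁻¹ := by rw [h1]
        _ = v * t := by group
  · -- CV
    rintro (_ | _) a ha hav
    · exact hCV a ha hav
    · refine mem_cj.2 (hCV _ ((hxA' a).1 ha) ?_)
      intro v hv
      have h1 : x * v * x⁻¹ ∈ cj x (vcl L A) := by
        refine mem_cj.2 ?_
        have : x⁻¹ * (x * v * x⁻¹) * x = v := by group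
        rwa [this]
      have h2 := hav _ h1
      calc x⁻¹ * a * x * v = x⁻¹ * (a * (x * v * x⁻¹)) * x := by group
        _ = x⁻¹ * ((x * v * x⁻¹) * a) * x := by rw [h2]
        _ = v * (x⁻¹ * a * x) := by group
  · -- mv
    rintro (_ | _)
    · exact hmv
    · obtain ⟨l, hl, hlz⟩ := hmv
      refine ⟨x * l * x⁻¹, ?_, ?_⟩
      · refine mem_cj.2 ?_
        have : x⁻¹ * (x * l * x⁻¹) * x = l := by group
        rwa [this]
      · intro h1
        apply hlz
        calc l * z * l⁻¹ = l * (x⁻¹ * z * x) * l⁻¹ := by rw [hzx']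
          _ = x⁻¹ * ((x * l * x⁻¹) * z * (x * l * x⁻¹)⁻¹) * x := by group
          _ = x⁻¹ * z * x := by rw [h1]
          _ = z := hzx'
  · -- no
    intro Y hY hn
    apply hno Y hY
    refine ⟨fun g hg y hy => hn false g hg y hy, fun g hg y hy => hn true _ ?_ y hy⟩
    refine mem_cj.2 ?_
    have : x⁻¹ * (x * g * x⁻¹) * x = g := by group
    rwa [this]

/-- **Case (E\*)**. -/
theorem TL.false (h : TL A K P L) [Finite G] {r k : ℕ} (hr : r.Prime) (hr5 : 5 ≤ r)
    (hxr : x ^ (r ^ k) = 1) (hx : ∀ a, a ∈ A ↔ x * a * x⁻¹ ∈ A)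
    (hno : ∀ Y ≤ A, Nrm L x Y → Y = ⊥) : False := by
  obtain ⟨z, hg⟩ := h.gr hr hr5 hxr hx hno
  by_cases h1 : ∀ i, two x (vcl L A) i ≤ two x K (!i)
  · exact hg.far h1
  · refine hg.near hr hr5 hxr hx ?_ ?_
    · intro v
      show v ∈ vcl L A ↔ x * v * x⁻¹ ∈ cj x (vcl L A)
      rw [mem_cj]
      have : x⁻¹ * (x * v * x⁻¹) * x = v := by group
      rw [this]
    · by_contra h2
      apply h1
      intro i
      by_contra h3
      exact h2 ⟨i, h3⟩

/-- Case (E*), explicit form. -/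
theorem eStar {G : Type*} [Group G] [Finite G] {A L K P : Subgroup G} {x : G} {r k : ℕ}
    (hA : IsPGroup 2 A) (hAL : A ≤ L) (hKn : ∀ g ∈ L, ∀ n ∈ K, g * n * g⁻¹ ∈ K) (hKA : K ≤ A)
    (hidx : K.relIndex A = 2) (hP : IsPGroup 3 P) (hPL : P ≤ L)
    (hPab : ∀ a ∈ P, ∀ b ∈ P, a * b = b * a) (hL : ∀ g ∈ L, ∃ a ∈ A, ∃ y ∈ P, g = a * y)
    (hinv : ∀ a ∈ A, a ∉ K → ∀ y ∈ P, a * y * a⁻¹ * y ∈ K)
    (hni : ∃ n ∈ K, ∃ y ∈ P, n * y ≠ y * n)
    (hx : ∀ a, a ∈ A ↔ x * a * x⁻¹ ∈ A) (hr : r.Prime) (hr5 : 5 ≤ r) (hxr : x ^ (r ^ k) = 1)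
    (hno : ∀ Y : Subgroup G, Y ≤ A → (∀ g ∈ L, ∀ y ∈ Y, g * y * g⁻¹ ∈ Y) →
      (∀ g ∈ L, ∀ y ∈ Y, (x * g * x⁻¹) * y * (x * g * x⁻¹)⁻¹ ∈ Y) → Y = ⊥) : False :=
  (TL.mk hA hAL hKn hKA hidx hP hPL hPab hL hinv hni).false hr hr5 hxr hx
    (fun Y hY hn => hno Y hY hn.1 hn.2)

end MP_5771ce_al
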