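import Pool.Agent.Lib.MP_5771ce_al.EStarT

set_option autoImplicit false

/-!
The group `P` acts on `V = vcl L A` as a group of order three, and `V` is a four-group.
-/

namespace MP_5771ce_al

variable {G : Type*} [Group G]

namespace TL

variable {A K P L : Subgroup G} {x : G}

theorem vcl_conj_iff (_h : TL A K P L) {g : G} (hg : g ∈ L) (v : G) :
    v ∈ vcl L A ↔ g * v * g⁻¹ ∈ vcl L A := by
  constructor
  · exact vcl_conj hg
  · intro hv
    have := vcl_conj (L.inv_mem hg) hv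
    have e : g⁻¹ * (g * v * g⁻¹) * g⁻¹⁻¹ = v := by group
    rwa [e] at this

theorem pow3 (h : TL A K P L) {y : G} (hy : y ∈ P) : ∃ l : ℕ, y ^ (3 ^ l) = 1 := by
  obtain ⟨l, hl⟩ := h.P3 ⟨y, hy⟩
  exact ⟨l, by simpa using congrArg (fun t : P => (t : G)) hl⟩

/-- For a `y`-invariant subgroup `C` of `V` the index of the centraliser of `y ∈ P` is `1` or at
least `4`. -/
theorem index_cent (h : TL A K P L) [Finite G] {C : Subgroup G} (hC : C ≤ vcl L A) {y : G}
    (hy : y ∈ P) (hyC : ∀ v, v ∈ C ↔ y * v * y⁻¹ ∈ C) :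
    (cent C y).relIndex C = 1 ∨ 4 ≤ (cent C y).relIndex C := by
  obtain ⟨l, hl⟩ := h.pow3 hy
  have hmod := card_modEq_cent (H := C) Nat.prime_three hyC (k := l)
    (fun a _ => by rw [hl, one_mul, mul_one])
  have hmul := eStar_card_mul_relIndex (cent_le C y)
  have hC2 : IsPGroup 2 C := h.A2.to_le (le_trans hC (le_trans h.vcl_le_K h.KA))
  have hpos : 0 < Nat.card (cent C y) := Nat.card_pos
  have hle : Nat.card (cent C y) ≤ Nat.card C := Subgroup.card_le_of_le (cent_le C y)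
  have hd : 3 ∣ Nat.card C - Nat.card (cent C y) := (Nat.modEq_iff_dvd' hle).1 hmod.symm
  have hd2 : 3 ∣ Nat.card (cent C y) * ((cent C y).relIndex C - 1) := by
    rw [Nat.mul_sub, hmul, mul_one]
    exact hd
  have hcop : Nat.Coprime 3 (Nat.card (cent C y)) := by
    have h1 : IsPGroup 2 (cent C y) := hC2.to_le (cent_le C y)
    have : Fact (Nat.Prime 2) := ⟨Nat.prime_two⟩
    obtain ⟨n, hn⟩ := h1.exists_card_eq
    rw [hn]
    exact Nat.Coprime.pow_right _ (by norm_num)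
  have hd3 : 3 ∣ (cent C y).relIndex C - 1 := (Nat.Coprime.dvd_of_dvd_mul_left hcop hd2)
  have hne : (cent C y).relIndex C ≠ 0 := by
    intro h0
    rw [h0, mul_zero] at hmul
    have : 0 < Nat.card C := Nat.card_pos
    omega
  omega

/-- `|V : C_V(y)| ≤ 4` for `y ∈ P`, and the intersection of `omz A` with its conjugate. -/
theorem card_cent_ge (h : TL A K P L) [Finite G] {b : G} (hb : b ∈ A) (hbK : b ∉ K)
    (hV : Nat.card (vcl L A) = 2 * Nat.card (omz A)) {y : G} (hy : y ∈ P) :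
    ∃ D : Subgroup G, D ≤ omz A ∧ D ≤ cent (vcl L A) y ∧ Nat.card (vcl L A) ≤ 4 * Nat.card D := by
  set Z' : Subgroup G := (omz A).map (MulAut.conj y).toMonoidHom with hZ'
  have hyL : y ∈ L := h.PL hy
  have hmem : ∀ v, v ∈ Z' → y⁻¹ * v * y ∈ omz A := by
    rintro _ ⟨c, hc, rfl⟩
    show y⁻¹ * (y * c * y⁻¹) * y ∈ omz A
    have e : y⁻¹ * (y * c * y⁻¹) * y = c := by group
    rwa [e]
  have hZ'V : Z' ≤ vcl L A := by
    rintro _ ⟨c, hc, rfl⟩
    exact vcl_conj hyL (omz_le_vcl L A hc)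
  refine ⟨omz A ⊓ Z', inf_le_left, ?_, ?_⟩
  · intro v hv
    exact ⟨omz_le_vcl L A hv.1, h.comm_of_two hb hbK hy hv.1 (hmem v hv.2)⟩
  · have h1 : (omz A).relIndex (vcl L A) = 2 := by
      have := eStar_card_mul_relIndex (omz_le_vcl L A)
      rw [hV, mul_comm] at this
      exact Nat.eq_of_mul_eq_mul_right Nat.card_pos this
    have h2 : Z'.relIndex (vcl L A) = 2 := by
      have h3 := eStar_card_mul_relIndex hZ'V
      have h4 : Nat.card Z' = Nat.card (omz A) :=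
        Subgroup.card_map_of_injective (MulAut.conj y).injective
      rw [h4, hV, mul_comm] at h3
      exact Nat.eq_of_mul_eq_mul_right Nat.card_pos h3
    have h3 := Subgroup.relIndex_inf_le (H := omz A) (K := Z') (L := vcl L A)
    rw [h1, h2] at h3
    have h4 := eStar_card_mul_relIndex (H := omz A ⊓ Z') (K := vcl L A)
      (le_trans inf_le_left (omz_le_vcl L A))
    rw [← h4, mul_comm]
    exact Nat.mul_le_mul_right _ h3

/-- There is `y ∈ P` with `|V : C_V(y)| = 4`, and `C_V(y) ≤ omz A` is centralised by `P`. -/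
theorem exists_y (h : TL A K P L) [Finite G] {b : G} (hb : b ∈ A) (hbK : b ∉ K)
    (hV : Nat.card (vcl L A) = 2 * Nat.card (omz A)) :
    ∃ C : Subgroup G, C ≤ omz A ∧ (∀ y ∈ P, ∀ c ∈ C, y * c = c * y) ∧
      Nat.card (vcl L A) = 4 * Nat.card C := by
  -- some element of `P` does not centralise `V`
  have hex : ∃ y₁ ∈ P, ∃ v ∈ vcl L A, y₁ * v ≠ v * y₁ := by
    by_contra hcon
    have hcon' : ∀ y ∈ P, ∀ v ∈ vcl L A, y * v = v * y := by
      intro y hy v hv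
      by_contra hne
      exact hcon ⟨y, hy, v, hv, hne⟩
    have hle : vcl L A ≤ omz A := by
      rw [vcl, Subgroup.closure_le]
      rintro w ⟨g, hg, c, hc, rfl⟩
      obtain ⟨a, ha, y, hy, rfl⟩ := h.Leq g hg
      have h1 := hcon' y hy c (omz_le_vcl L A hc)
      have h2 := hc.2.2 a ha
      have e : a * y * c * (a * y)⁻¹ = c := by
        calc a * y * c * (a * y)⁻¹ = a * (y * c) * y⁻¹ * a⁻¹ := by group
          _ = a * (c * y) * y⁻¹ * a⁻¹ := by rw [h1]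
          _ = (a * c) * a⁻¹ := by group
          _ = c := by rw [h2]; group
      rw [e]; exact hc
    have h1 := Subgroup.card_le_of_le hle
    have h2 : 0 < Nat.card (omz A) := Nat.card_pos
    omega
  obtain ⟨y₁, hy₁, v₀, hv₀, hne⟩ := hex
  have hinvV : ∀ y ∈ P, ∀ v, v ∈ vcl L A ↔ y * v * y⁻¹ ∈ vcl L A := fun y hy v =>
    h.vcl_conj_iff (h.PL hy) v
  obtain ⟨D, hDZ, hDC, hDcard⟩ := h.card_cent_ge hb hbK hV hy₁
  set C₁ := cent (vcl L A) y₁ with hC₁
  have hC₁V : C₁ ≤ vcl L A := cent_le _ _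
  have hmul₁ := eStar_card_mul_relIndex hC₁V
  have hcase := h.index_cent le_rfl hy₁ (hinvV y₁ hy₁)
  rw [← hC₁] at hcase
  have hidx₁ : C₁.relIndex (vcl L A) = 4 := by
    rcases hcase with h1 | h1
    · exfalso
      rw [Subgroup.relIndex_eq_one] at h1
      exact hne (h1 hv₀).2
    · have h2 : Nat.card D ≤ Nat.card C₁ := Subgroup.card_le_of_le hDC
      have h3 : 0 < Nat.card C₁ := Nat.card_pos
      have h4 : C₁.relIndex (vcl L A) ≤ 4 := by
        by_contra hcon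
        have : 5 ≤ C₁.relIndex (vcl L A) := by omega
        nlinarith
      omega
  rw [hidx₁] at hmul₁
  have hDeq : D = C₁ := by
    apply Subgroup.eq_of_le_of_card_ge hDC
    omega
  have hC₁Z : C₁ ≤ omz A := hDeq ▸ hDZ
  refine ⟨C₁, hC₁Z, ?_, by omega⟩
  intro y₂ hy₂ c hc
  by_contra hne₂
  -- all of `P` normalises `C₁`
  have hinvC : ∀ y ∈ P, ∀ v, v ∈ C₁ ↔ y * v * y⁻¹ ∈ C₁ := by
    have key : ∀ y ∈ P, ∀ v ∈ C₁, y * v * y⁻¹ ∈ C₁ := by
      rintro y hy v ⟨hv, hv'⟩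
      refine ⟨(hinvV y hy v).1 hv, ?_⟩
      have h1 := h.Pab y₁ hy₁ y hy
      calc y₁ * (y * v * y⁻¹) = (y₁ * y) * v * y⁻¹ := by group
        _ = y * (y₁ * v) * y⁻¹ := by rw [h1]; group
        _ = y * v * (y⁻¹ * (y * y₁) * y⁻¹) := by rw [hv']; group
        _ = y * v * (y⁻¹ * (y₁ * y) * y⁻¹) := by rw [h1]
        _ = y * v * y⁻¹ * y₁ := by group
    intro y hy v
    refine ⟨key y hy v, fun hv => ?_⟩
    have := key y⁻¹ (P.inv_mem hy) _ hv
    have e : y⁻¹ * (y * v * y⁻¹) * y⁻¹⁻¹ = v := by group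
    rwa [e] at this
  -- for `y'` acting like `y₂` on `C₁`, `y'` centralises `V / C₁`
  have main : ∀ y' ∈ P, (∀ v ∈ C₁, y' * v = v * y' ↔ y₂ * v = v * y₂) →
      ∀ v ∈ vcl L A, y' * v * y'⁻¹ * v⁻¹ ∈ C₁ := by
    intro y' hy' hlike v hv
    obtain ⟨D', -, hD'C, hD'card⟩ := h.card_cent_ge hb hbK hV hy'
    set F := cent (vcl L A) y' with hF
    have hFV : F ≤ vcl L A := cent_le _ _
    have hFcard : Nat.card (vcl L A) ≤ 4 * Nat.card F := by
      have := Subgroup.card_le_of_le hD'C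
      omega
    have hperm : Permutes F C₁ := by
      rw [permutes_iff]
      intro f hf c hc
      exact ⟨c, hc, f, hf, h.vcl_comm hf.1 hc.1⟩
    have hidx := hperm.relIndex_sup
    have h1 : F.relIndex C₁ = (cent C₁ y').relIndex C₁ := by
      rw [← Subgroup.inf_relIndex_right]
      congr 1
      ext w
      constructor
      · rintro ⟨⟨_, hw⟩, hw'⟩
        exact ⟨hw', hw⟩
      · rintro ⟨hw, hw'⟩
        exact ⟨⟨hC₁V hw, hw'⟩, hw⟩
    have h2 := h.index_cent hC₁V hy' (hinvC y' hy')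
    have h3 : 4 ≤ (cent C₁ y').relIndex C₁ := by
      rcases h2 with h2 | h2
      · exfalso
        rw [Subgroup.relIndex_eq_one] at h2
        exact hne₂ ((hlike c hc).1 (h2 hc).2)
      · exact h2
    have h4 := eStar_card_mul_relIndex (H := F) (K := F ⊔ C₁) le_sup_left
    rw [hidx, h1] at h4
    have h5 : F ⊔ C₁ = vcl L A := by
      apply Subgroup.eq_of_le_of_card_ge (sup_le hFV hC₁V)
      rw [← h4]
      calc Nat.card (vcl L A) ≤ 4 * Nat.card F := hFcard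
        _ = Nat.card F * 4 := mul_comm _ _
        _ ≤ Nat.card F * (cent C₁ y').relIndex C₁ := Nat.mul_le_mul_left _ h3
    rw [← h5] at hv
    obtain ⟨f, hf, c', hc', rfl⟩ := hperm.mem_sup.1 hv
    have h6 : y' * f = f * y' := hf.2
    have h7 : f * (y' * c' * y'⁻¹) = (y' * c' * y'⁻¹) * f :=
      h.vcl_comm hf.1 (hC₁V ((hinvC y' hy' c').1 hc'))
    have e : y' * (f * c') * y'⁻¹ * (f * c')⁻¹ = (y' * c' * y'⁻¹) * c'⁻¹ := by
      calc y' * (f * c') * y'⁻¹ * (f * c')⁻¹ = (y' * f) * c' * y'⁻¹ * c'⁻¹ * f⁻¹ := by group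
        _ = f * (y' * c' * y'⁻¹) * c'⁻¹ * f⁻¹ := by rw [h6]; group
        _ = (y' * c' * y'⁻¹) * (f * c'⁻¹) * f⁻¹ := by rw [h7]; group
        _ = (y' * c' * y'⁻¹) * (c'⁻¹ * f) * f⁻¹ := by
            rw [h.vcl_comm hf.1 (hC₁V (C₁.inv_mem hc'))]
        _ = (y' * c' * y'⁻¹) * c'⁻¹ := by group
    rw [e]
    exact C₁.mul_mem ((hinvC y' hy' c').1 hc') (C₁.inv_mem hc')
  have m₂ := main y₂ hy₂ (fun v _ => Iff.rfl)
  have m₁₂ := main (y₁ * y₂) (P.mul_mem hy₁ hy₂) (by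
    intro v hv
    have hv₁ : y₁ * v = v * y₁ := hv.2
    constructor
    · intro h1
      calc y₂ * v = y₁⁻¹ * (y₁ * y₂ * v) := by group
        _ = y₁⁻¹ * (v * (y₁ * y₂)) := by rw [h1]
        _ = y₁⁻¹ * (v * y₁) * y₂ := by group
        _ = y₁⁻¹ * (y₁ * v) * y₂ := by rw [hv₁]
        _ = v * y₂ := by group
    · intro h1
      calc y₁ * y₂ * v = y₁ * (y₂ * v) := by group
        _ = (y₁ * v) * y₂ := by rw [h1]; group
        _ = v * (y₁ * y₂) := by rw [hv₁]; group)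
  -- hence `y₁` centralises `V / C₁`
  have m₁ : ∀ v ∈ vcl L A, y₁ * v * y₁⁻¹ * v⁻¹ ∈ C₁ := by
    intro v hv
    set w := y₂⁻¹ * v * y₂ with hw
    have hwV : w ∈ vcl L A := by
      rw [hinvV y₂ hy₂]
      have : y₂ * w * y₂⁻¹ = v := by rw [hw]; group
      rwa [this]
    have h1 := m₁₂ w hwV
    have h2 := m₂ w hwV
    have e : y₁ * v * y₁⁻¹ * v⁻¹ = (y₁ * y₂ * w * (y₁ * y₂)⁻¹ * w⁻¹) *
        (y₂ * w * y₂⁻¹ * w⁻¹)⁻¹ := by rw [hw]; group
    rw [e]
    exact C₁.mul_mem h1 (C₁.inv_mem h2)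
  -- so `y₁` centralises `V`
  obtain ⟨l, hl⟩ := h.pow3 hy₁
  set d := y₁ * v₀ * y₁⁻¹ * v₀⁻¹ with hd
  have hdC : d ∈ C₁ := m₁ v₀ hv₀
  have hdc : y₁ * d = d * y₁ := hdC.2
  have hpow : ∀ n : ℕ, y₁ ^ n * v₀ * (y₁ ^ n)⁻¹ = d ^ n * v₀ := by
    intro n
    induction n with
    | zero => simp
    | succ n ih =>
      have h1 : ∀ m : ℕ, y₁ * d ^ m = d ^ m * y₁ := fun m =>
        (show Commute y₁ d from hdc).pow_right m
      calc y₁ ^ (n + 1) * v₀ * (y₁ ^ (n + 1))⁻¹ = y₁ * (y₁ ^ n * v₀ * (y₁ ^ n)⁻¹) * y₁⁻¹ := by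
            rw [pow_succ']; group
        _ = (y₁ * d ^ n) * v₀ * y₁⁻¹ := by rw [ih]; group
        _ = d ^ n * (y₁ * v₀ * y₁⁻¹ * v₀⁻¹) * v₀ := by rw [h1]; group
        _ = d ^ (n + 1) * v₀ := by rw [← hd, pow_succ]
  have h1 := hpow (3 ^ l)
  rw [hl] at h1
  have h2 : d ^ (3 ^ l) = 1 := by
    have h3 : 1 * v₀ * 1⁻¹ = d ^ (3 ^ l) * v₀ := h1
    have : v₀ = d ^ (3 ^ l) * v₀ := by simpa using h3
    exact (mul_eq_right.1 this.symm)
  have h3 : d ^ 2 = 1 := by rw [pow_two]; exact h.vcl_sq (hC₁V hdC)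
  have h4 : d ∈ (⊥ : Subgroup G) := by
    apply mem_of_coprime_pow (m := 2) (n := 3 ^ l)
    · rw [h3]; exact Subgroup.one_mem _
    · rw [h2]; exact Subgroup.one_mem _
    · exact Nat.Coprime.pow_right _ (by norm_num)
  rw [Subgroup.mem_bot] at h4
  apply hne
  have h5 : y₁ * v₀ * y₁⁻¹ * v₀⁻¹ = 1 := by rw [← hd, h4]
  calc y₁ * v₀ = (y₁ * v₀ * y₁⁻¹ * v₀⁻¹) * (v₀ * y₁) := by group
    _ = v₀ * y₁ := by rw [h5, one_mul]

/-- `omz A` has order two and `V` is a four-group. -/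
theorem four (h : TL A K P L) [Finite G] {r k : ℕ} (hr : r.Prime) (hr5 : 5 ≤ r)
    (hxr : x ^ (r ^ k) = 1) (hx : ∀ a, a ∈ A ↔ x * a * x⁻¹ ∈ A)
    (hno : ∀ Y ≤ A, Nrm L x Y → Y = ⊥) :
    Nat.card (omz A) = 2 ∧ Nat.card (vcl L A) = 4 := by
  obtain ⟨hV, b, hb, hbK⟩ := h.card_vcl hx hno
  obtain ⟨C, hCZ, hCP, hcard⟩ := h.exists_y hb hbK hV
  have hCL : ∀ g ∈ L, ∀ c ∈ C, g * c = c * g := by
    intro g hg c hc
    obtain ⟨a, ha, y, hy, rfl⟩ := h.Leq g hg
    rw [mul_assoc, hCP y hy c hc, ← mul_assoc, (hCZ hc).2.2 a ha, mul_assoc]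
  set C' : Subgroup G := C.map (MulAut.conj x).toMonoidHom with hC'
  have hC'card : Nat.card C' = Nat.card C :=
    Subgroup.card_map_of_injective (MulAut.conj x).injective
  have hC'Z : C' ≤ omz A := by
    rintro _ ⟨c, hc, rfl⟩
    exact (omz_conj hx c).1 (hCZ hc)
  have hbot : C ⊓ C' = ⊥ := by
    apply hno
    · exact le_trans inf_le_left (le_trans hCZ (omz_le A))
    · constructor
      · rintro g hg c ⟨hc, hc'⟩
        have : g * c * g⁻¹ = c := by rw [hCL g hg c hc]; group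
        rw [this]; exact ⟨hc, hc'⟩
      · rintro g hg c ⟨hc, hc'⟩
        obtain ⟨d, hd, rfl⟩ := hc'
        have e : (x * g * x⁻¹) * (x * d * x⁻¹) * (x * g * x⁻¹)⁻¹ = x * d * x⁻¹ := by
          calc (x * g * x⁻¹) * (x * d * x⁻¹) * (x * g * x⁻¹)⁻¹ = x * (g * d) * g⁻¹ * x⁻¹ := by group
            _ = x * (d * g) * g⁻¹ * x⁻¹ := by rw [hCL g hg d hd]
            _ = x * d * x⁻¹ := by group
        show (x * g * x⁻¹) * (x * d * x⁻¹) * (x * g * x⁻¹)⁻¹ ∈ C ⊓ C'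
        rw [e]
        exact ⟨hc, d, hd, rfl⟩
  have hCpos : 0 < Nat.card C := Nat.card_pos
  have hZC : Nat.card (omz A) = 2 * Nat.card C := by omega
  have i1 : C.relIndex (omz A) = 2 := by
    have := eStar_card_mul_relIndex hCZ
    rw [hZC, mul_comm] at this
    exact Nat.eq_of_mul_eq_mul_right hCpos this
  have i2 : C'.relIndex (omz A) = 2 := by
    have := eStar_card_mul_relIndex hC'Z
    rw [hZC, hC'card, mul_comm] at this
    exact Nat.eq_of_mul_eq_mul_right hCpos this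
  have i3 := Subgroup.relIndex_inf_le (H := C) (K := C') (L := omz A)
  rw [hbot, i1, i2, Subgroup.relIndex_bot_left] at i3
  -- `x` centralises `omz A`
  have hmod := card_modEq_cent (H := omz A) hr (omz_conj hx) (k := k)
    (fun a _ => by rw [hxr, one_mul, mul_one])
  have hle : Nat.card (cent (omz A) x) ≤ Nat.card (omz A) := Subgroup.card_le_of_le (cent_le _ _)
  have hd : r ∣ Nat.card (omz A) - Nat.card (cent (omz A) x) := (Nat.modEq_iff_dvd' hle).1 hmod.symm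
  have hpos : 0 < Nat.card (cent (omz A) x) := Nat.card_pos
  have hzero : Nat.card (omz A) - Nat.card (cent (omz A) x) = 0 := by
    apply Nat.eq_zero_of_dvd_of_lt hd
    omega
  have hceq : cent (omz A) x = omz A := Subgroup.eq_of_le_of_card_ge (cent_le _ _) (by omega)
  have hCC' : C' = C := by
    apply Subgroup.eq_of_le_of_card_ge
    · rintro _ ⟨c, hc, rfl⟩
      have h1 : c ∈ cent (omz A) x := hceq.symm ▸ hCZ hc
      show x * c * x⁻¹ ∈ C
      have : x * c * x⁻¹ = c := by rw [h1.2]; group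
      rwa [this]
    · rw [hC'card]
  rw [hCC', inf_idem] at hbot
  rw [hbot] at hcard hZC
  simp only [Subgroup.card_bot, mul_one] at hcard hZC
  exact ⟨hZC, hcard⟩

end TL

end MP_5771ce_al
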