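import Mathlib

set_option autoImplicit false

/-!
The coset graph argument for the last non-isolated configuration (a pair of subgroups `L false`,
`L true` over a common `2`-subgroup `A`, both acting as `S₃` on a four-group).  Vertices of the
graph are replaced by alternating products of elements of `L false` and `L true`.
-/

namespace MP_5771ce_al

variable {G : Type*} [Group G]

/-- The configuration: `T i` is the kernel of `L i` on the cosets of `A`, `V i` a four-group. -/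
structure Gr (L T V : Bool → Subgroup G) (A : Subgroup G) (z : G) : Prop where
  TA : ∀ i, T i ≤ A
  AL : ∀ i, A ≤ L i
  Tn : ∀ i, ∀ g ∈ L i, ∀ t ∈ T i, g * t * g⁻¹ ∈ T i
  Vn : ∀ i, ∀ g ∈ L i, ∀ v ∈ V i, g * v * g⁻¹ ∈ V i
  VT : ∀ i, V i ≤ T i
  Tcard : ∀ i, Nat.card A = 2 * Nat.card (T i)
  Vcard : ∀ i, Nat.card (V i) = 4
  Vsq : ∀ i, ∀ v ∈ V i, v * v = 1
  zV : ∀ i, z ∈ V i
  z1 : z ≠ 1
  zA : ∀ a ∈ A, a * z = z * a
  zu : ∀ c ∈ A, c * c = 1 → (∀ a ∈ A, a * c = c * a) → c = 1 ∨ c = z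
  TV : ∀ i, ∀ t ∈ T i, ∀ v ∈ V i, t * v = v * t
  CV : ∀ i, ∀ a ∈ A, (∀ v ∈ V i, a * v = v * a) → a ∈ T i
  mv : ∀ i, ∃ l ∈ L i, l * z * l⁻¹ ≠ z
  no : ∀ Y : Subgroup G, Y ≤ A → (∀ i, ∀ g ∈ L i, ∀ y ∈ Y, g * y * g⁻¹ ∈ Y) → Y = ⊥

/-- Alternating products `L i * L (!i) * L i * ⋯` with `n + 1` factors. -/
def alt (L : Bool → Subgroup G) : ℕ → Bool → Set G
  | 0, i => (L i : Set G)
  | n + 1, i => {g | ∃ l ∈ L i, ∃ w ∈ alt L n (!i), g = l * w}

/-- Type of the last factor. -/
def fin' : ℕ → Bool → Bool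
  | 0, i => i
  | n + 1, i => fin' n (!i)

theorem fin'_succ (n : ℕ) (i : Bool) : fin' (n + 1) i = !(fin' n i) := by
  induction n generalizing i with
  | zero => rfl
  | succ n ih =>
    show fin' (n + 1) (!i) = !(fin' n (!i))
    exact ih (!i)

theorem fin'_not (n : ℕ) (i : Bool) : fin' n (!i) = !(fin' n i) := fin'_succ n i

theorem fin'_fin' (n : ℕ) (i : Bool) : fin' n (fin' n i) = i := by
  induction n generalizing i with
  | zero => rfl
  | succ n ih =>
    rw [fin'_succ n (fin' (n + 1) i), fin'_succ n i, fin'_not, ih, Bool.not_not]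

variable {L T V : Bool → Subgroup G} {A : Subgroup G} {z : G}

theorem alt_snoc {n : ℕ} {i : Bool} {w l : G} (hw : w ∈ alt L n i) (hl : l ∈ L (!(fin' n i))) :
    w * l ∈ alt L (n + 1) i := by
  induction n generalizing i w with
  | zero =>
    refine ⟨w, hw, l, ?_, rfl⟩
    exact hl
  | succ n ih =>
    obtain ⟨a, ha, u, hu, rfl⟩ := hw
    refine ⟨a, ha, u * l, ih hu ?_, by rw [mul_assoc]⟩
    exact hl

theorem alt_right {n : ℕ} {i : Bool} {w l : G} (hw : w ∈ alt L n i) (hl : l ∈ L (fin' n i)) :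
    w * l ∈ alt L n i := by
  induction n generalizing i w with
  | zero => exact (L i).mul_mem hw hl
  | succ n ih =>
    obtain ⟨a, ha, u, hu, rfl⟩ := hw
    exact ⟨a, ha, u * l, ih hu hl, by rw [mul_assoc]⟩

theorem alt_unsnoc {n : ℕ} {i : Bool} {w : G} (hw : w ∈ alt L (n + 1) i) :
    ∃ u ∈ alt L n i, ∃ l ∈ L (fin' (n + 1) i), w = u * l := by
  induction n generalizing i w with
  | zero =>
    obtain ⟨a, ha, u, hu, rfl⟩ := hw
    exact ⟨a, ha, u, hu, rfl⟩
  | succ n ih =>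
    obtain ⟨a, ha, u, hu, rfl⟩ := hw
    obtain ⟨u', hu', l, hl, rfl⟩ := ih hu
    exact ⟨a * u', ⟨a, ha, u', hu', rfl⟩, l, hl, by rw [mul_assoc]⟩

theorem alt_inv {n : ℕ} {i : Bool} {w : G} (hw : w ∈ alt L n i) : w⁻¹ ∈ alt L n (fin' n i) := by
  induction n generalizing i w with
  | zero => exact (L i).inv_mem hw
  | succ n ih =>
    obtain ⟨a, ha, u, hu, rfl⟩ := hw
    rw [mul_inv_rev]
    have h1 := ih hu
    have h2 : a⁻¹ ∈ L (!(fin' n (fin' n (!i)))) := by
      rw [fin'_fin', Bool.not_not]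
      exact (L i).inv_mem ha
    exact alt_snoc h1 h2

theorem alt_cons {n : ℕ} {i : Bool} {w : G} (hw : w ∈ alt L n (!i)) : w ∈ alt L (n + 1) i :=
  ⟨1, (L i).one_mem, w, hw, by rw [one_mul]⟩

/-- `V i` lies in the kernel at all vertices at distance `n`. -/
def PP (L T V : Bool → Subgroup G) (n : ℕ) (i : Bool) : Prop :=
  ∀ w ∈ alt L n i, ∀ v ∈ V i, w⁻¹ * v * w ∈ T (fin' n i)

namespace Gr

theorem inv_conj {i : Bool} (h : Gr L T V A z) {g v : G} (hg : g ∈ L i) (hv : v ∈ V i) :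
    g⁻¹ * v * g ∈ V i := by
  have := h.Vn i g⁻¹ ((L i).inv_mem hg) v hv
  rwa [inv_inv] at this

theorem inv_conjT {i : Bool} (h : Gr L T V A z) {g v : G} (hg : g ∈ L i) (hv : v ∈ T i) :
    g⁻¹ * v * g ∈ T i := by
  have := h.Tn i g⁻¹ ((L i).inv_mem hg) v hv
  rwa [inv_inv] at this

theorem exists_fail (h : Gr L T V A z) : ∃ n, ∃ i, ¬ PP L T V n i := by
  by_contra hcon
  simp only [not_exists, not_not] at hcon
  let S : Set G := {y | ∃ n i, ∃ w ∈ alt L n i, ∃ v ∈ V i, y = w⁻¹ * v * w}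
  have hY := h.no (Subgroup.closure S) ?_ ?_
  · have hz : z ∈ Subgroup.closure S := by
      apply Subgroup.subset_closure
      exact ⟨0, false, 1, (L false).one_mem, z, h.zV false, by group⟩
    rw [hY, Subgroup.mem_bot] at hz
    exact h.z1 hz
  · rw [Subgroup.closure_le]
    rintro y ⟨n, i, w, hw, v, hv, rfl⟩
    exact h.TA _ (hcon n i w hw v hv)
  · intro j g hg y hy
    induction hy using Subgroup.closure_induction with
    | mem y hy =>
      obtain ⟨n, i, w, hw, v, hv, rfl⟩ := hy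
      apply Subgroup.subset_closure
      have e : g * (w⁻¹ * v * w) * g⁻¹ = (w * g⁻¹)⁻¹ * v * (w * g⁻¹) := by group
      rw [e]
      by_cases hj : j = fin' n i
      · exact ⟨n, i, w * g⁻¹, alt_right hw (hj ▸ (L j).inv_mem hg), v, hv, rfl⟩
      · have hj' : j = !(fin' n i) := by
          cases hj1 : j <;> cases hj2 : fin' n i <;> simp_all
        exact ⟨n + 1, i, w * g⁻¹, alt_snoc hw (hj' ▸ (L j).inv_mem hg), v, hv, rfl⟩
    | one =>
      have : g * 1 * g⁻¹ = 1 := by group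
      rw [this]; exact Subgroup.one_mem _
    | mul a b _ _ ha hb =>
      have : g * (a * b) * g⁻¹ = (g * a * g⁻¹) * (g * b * g⁻¹) := by group
      rw [this]; exact Subgroup.mul_mem _ ha hb
    | inv a _ ha =>
      have : g * a⁻¹ * g⁻¹ = (g * a * g⁻¹)⁻¹ := by group
      rw [this]; exact Subgroup.inv_mem _ ha

/-- Two elements outside an index two subgroup have their quotient in it. -/
theorem mul_mem_T [Finite G] (h : Gr L T V A z) {i : Bool} {a b : G} (ha : a ∈ A) (hb : b ∈ A)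
    (ha' : a ∉ T i) (hb' : b ∉ T i) : a⁻¹ * b ∈ T i := by
  have hidx : ((T i).subgroupOf A).index = 2 := by
    have h1 := ((T i).subgroupOf A).card_mul_index
    have h2 : Nat.card ((T i).subgroupOf A) = Nat.card (T i) :=
      Nat.card_congr (Subgroup.subgroupOfEquivOfLe (h.TA i)).toEquiv
    rw [h2, h.Tcard i, mul_comm] at h1
    have h3 : 0 < Nat.card (T i) := Nat.card_pos
    exact Nat.eq_of_mul_eq_mul_right h3 h1
  have := (Subgroup.mul_mem_iff_of_index_two hidx (a := (⟨a, ha⟩ : A)⁻¹) (b := ⟨b, hb⟩)).2 (by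
    rw [Subgroup.inv_mem_iff]
    simp only [Subgroup.mem_subgroupOf]
    constructor
    · intro h1; exact absurd h1 ha'
    · intro h1; exact absurd h1 hb')
  simpa [Subgroup.mem_subgroupOf] using this

/-- An element of `V i` commuting with an element of `A` outside `T i` is `1` or `z`. -/
theorem eq_of_comm [Finite G] (h : Gr L T V A z) {i : Bool} {t v : G} (ht : t ∈ A) (ht' : t ∉ T i)
    (hv : v ∈ V i) (hc : t * v = v * t) : v = 1 ∨ v = z := by
  refine h.zu v (h.TA i (h.VT i hv)) (h.Vsq i v hv) ?_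
  intro a ha
  by_cases hai : a ∈ T i
  · exact h.TV i a hai v hv
  · have h1 := h.mul_mem_T ht ha ht' hai
    have h2 := h.TV i _ h1 v hv
    have e : a = t * (t⁻¹ * a) := by group
    rw [e, mul_assoc, h2, ← mul_assoc, hc, mul_assoc]

/-- Commutators of `A` with `V i` lie in `{1, z}`. -/
theorem comm_mem [Finite G] (h : Gr L T V A z) {i : Bool} {a v : G} (ha : a ∈ A) (hv : v ∈ V i) :
    a * v * a⁻¹ * v⁻¹ = 1 ∨ a * v * a⁻¹ * v⁻¹ = z := by
  by_cases hai : a ∈ T i
  · left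
    rw [h.TV i a hai v hv]; group
  · have hc : a * v * a⁻¹ * v⁻¹ ∈ V i :=
      (V i).mul_mem (h.Vn i a (h.AL i ha) v hv) ((V i).inv_mem hv)
    refine h.eq_of_comm ha hai hc ?_
    have h2 : a * a ∈ T i := by
      have := h.mul_mem_T (A.inv_mem ha) ha (by rwa [Subgroup.inv_mem_iff]) hai
      simpa using this
    have h3 := h.TV i _ h2 v hv
    have hab : ∀ u ∈ V i, ∀ w ∈ V i, u * w = w * u := fun u hu w hw => h.TV i u (h.VT i hu) w hw
    have h4 : a * v * a⁻¹ ∈ V i := h.Vn i a (h.AL i ha) v hv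
    have h5 : a * (a * v * a⁻¹) * a⁻¹ = v := by
      have : a * (a * v * a⁻¹) * a⁻¹ = (a * a) * v * (a * a)⁻¹ := by group
      rw [this, h3]; group
    have h6 : v⁻¹ = v := inv_eq_of_mul_eq_one_left (h.Vsq i v hv)
    have h7 : a * (a * v * a⁻¹ * v⁻¹) * a⁻¹ = a * v * a⁻¹ * v⁻¹ := by
      have e1 : a * (a * v * a⁻¹ * v⁻¹) * a⁻¹ = (a * (a * v * a⁻¹) * a⁻¹) * (a * v⁻¹ * a⁻¹) := by
        group
      rw [e1, h5, h6]
      exact hab v hv _ h4
    calc a * (a * v * a⁻¹ * v⁻¹) = (a * (a * v * a⁻¹ * v⁻¹) * a⁻¹) * a := by group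
      _ = (a * v * a⁻¹ * v⁻¹) * a := by rw [h7]

/-- The commutator of the two ends of a critical walk: if all shorter distances are fine and
`V i` is not in the kernel at `u L j`, then `u` commutes with `z`. -/
theorem crit [Finite G] (h : Gr L T V A z) {n : ℕ} (hPP : ∀ j, PP L T V (n + 1) j)
    {i : Bool} {u : G} (hu : u ∈ alt L n (!i))
    (hV : ¬ ∀ v ∈ V i, u⁻¹ * v * u ∈ T (fin' (n + 2) i)) :
    u * z * u⁻¹ = z ∧ ∃ v ∈ V i, ∃ t, u⁻¹ * t * u ∈ V (fin' (n + 2) i) ∧ t ∈ T (!i) ∧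
      t * v ≠ v * t := by
  set j := fin' (n + 2) i with hj
  have hj' : fin' (n + 1) i = !j := by rw [hj, fin'_succ (n + 1) i, Bool.not_not]
  -- `V i ≤ u A u⁻¹`
  have h1 : ∀ v ∈ V i, u⁻¹ * v * u ∈ T (!j) := by
    intro v hv
    have := hPP i u (alt_cons hu) v hv
    rwa [hj'] at this
  -- `u V j u⁻¹ ≤ T (!i)`
  have h2 : ∀ v ∈ V j, u * v * u⁻¹ ∈ T (!i) := by
    intro v hv
    have hui : u⁻¹ ∈ alt L (n + 1) j := by
      have h3 := alt_inv hu
      have h4 : fin' n (!i) = !j := by rw [← hj']; rfl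
      rw [h4] at h3
      exact alt_cons h3
    have h5 := hPP j u⁻¹ hui v hv
    have h6 : fin' (n + 1) j = !i := by
      have h7 := fin'_fin' (n + 1) i
      rw [hj', fin'_not] at h7
      rw [← Bool.not_not (fin' (n + 1) j), h7]
    rw [h6, inv_inv] at h5
    exact h5
  -- a pair which does not commute
  have h3 : ∃ v ∈ V i, u⁻¹ * v * u ∉ T j := by
    by_contra hcon
    apply hV
    intro v hv
    by_contra h4
    exact hcon ⟨v, hv, h4⟩
  obtain ⟨v, hv, hvT⟩ := h3
  have h4 : ∃ s ∈ V j, (u⁻¹ * v * u) * s ≠ s * (u⁻¹ * v * u) := by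
    by_contra hcon
    apply hvT
    apply h.CV j _ (h.TA _ (h1 v hv))
    intro s hs
    by_contra h5
    exact hcon ⟨s, hs, h5⟩
  obtain ⟨s, hs, hcs⟩ := h4
  have hne : (u * s * u⁻¹) * v ≠ v * (u * s * u⁻¹) := by
    intro h5
    apply hcs
    calc (u⁻¹ * v * u) * s = u⁻¹ * (v * (u * s * u⁻¹)) * u := by group
      _ = u⁻¹ * ((u * s * u⁻¹) * v) * u := by rw [h5]
      _ = s * (u⁻¹ * v * u) := by group
  refine ⟨?_, v, hv, u * s * u⁻¹, ?_, h2 s hs, hne⟩
  · -- compare the two expressions of the commutator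
    have e1 := h.comm_mem (i := i) (h.TA _ (h2 s hs)) hv
    have e2 := h.comm_mem (i := j) (h.TA _ (h1 v hv)) hs
    have e1' : (u * s * u⁻¹) * v * (u * s * u⁻¹)⁻¹ * v⁻¹ = z := by
      rcases e1 with e1 | e1
      · exfalso; apply hne
        calc (u * s * u⁻¹) * v = ((u * s * u⁻¹) * v * (u * s * u⁻¹)⁻¹ * v⁻¹) * (v * (u * s * u⁻¹)) := by
              group
          _ = v * (u * s * u⁻¹) := by rw [e1, one_mul]
      · exact e1
    have e2' : (u⁻¹ * v * u) * s * (u⁻¹ * v * u)⁻¹ * s⁻¹ = z := by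
      rcases e2 with e2 | e2
      · exfalso; apply hcs
        calc (u⁻¹ * v * u) * s
            = ((u⁻¹ * v * u) * s * (u⁻¹ * v * u)⁻¹ * s⁻¹) * (s * (u⁻¹ * v * u)) := by group
          _ = s * (u⁻¹ * v * u) := by rw [e2, one_mul]
      · exact e2
    have hzz : z⁻¹ = z := inv_eq_of_mul_eq_one_left (h.Vsq i z (h.zV i))
    calc u * z * u⁻¹ = u * ((u⁻¹ * v * u) * s * (u⁻¹ * v * u)⁻¹ * s⁻¹) * u⁻¹ := by rw [e2']
      _ = ((u * s * u⁻¹) * v * (u * s * u⁻¹)⁻¹ * v⁻¹)⁻¹ := by group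
      _ = z⁻¹ := by rw [e1']
      _ = z := hzz
  · have : u⁻¹ * (u * s * u⁻¹) * u = s := by group
    rw [this]; exact hs

/-- A subgroup containing `1`, `z` and a further element of the four-group `V i` contains it. -/
theorem V_le [Finite G] (h : Gr L T V A z) {i : Bool} {W : Subgroup G} {y : G} (hz : z ∈ W)
    (hy : y ∈ W) (hyV : y ∈ V i) (hy1 : y ≠ 1) (hyz : y ≠ z) : V i ≤ W := by
  have hle : W ⊓ V i ≤ V i := inf_le_right
  have hdvd : Nat.card (W ⊓ V i : Subgroup G) ∣ 4 := h.Vcard i ▸ Subgroup.card_dvd_of_le hle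
  have h3 : 3 ≤ Nat.card (W ⊓ V i : Subgroup G) := by
    let f : Fin 3 → (W ⊓ V i : Subgroup G) := ![⟨1, Subgroup.one_mem _⟩, ⟨z, hz, h.zV i⟩, ⟨y, hy, hyV⟩]
    have hf : Function.Injective f := by
      intro a b hab
      have hab' : (f a : G) = (f b : G) := by rw [hab]
      fin_cases a <;> fin_cases b <;> simp [f] at hab' ⊢ <;>
        first
          | exact h.z1 hab'.symm
          | exact h.z1 hab'
          | exact hy1 hab'
          | exact hy1 hab'.symm
          | exact hyz hab'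
          | exact hyz hab'.symm
    have := Nat.card_le_card_of_injective f hf
    simpa using this
  have h4 : Nat.card (W ⊓ V i : Subgroup G) = 4 := by
    have : Nat.card (W ⊓ V i : Subgroup G) ≤ 4 := Nat.le_of_dvd (by norm_num) hdvd
    interval_cases hh : Nat.card (W ⊓ V i : Subgroup G)
    · norm_num at hdvd
    · rfl
  have h5 : W ⊓ V i = V i := by
    apply Subgroup.eq_of_le_of_card_ge hle
    rw [h4, h.Vcard i]
  rw [← h5]
  exact inf_le_left

/-- The distance two or more case. -/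
theorem far [Finite G] (h : Gr L T V A z) (h1 : ∀ i, V i ≤ T (!i)) : False := by
  classical
  obtain ⟨n, hn, hmin⟩ : ∃ n, (∃ i, ¬ PP L T V n i) ∧ ∀ m < n, ∀ i, PP L T V m i := by
    refine ⟨Nat.find h.exists_fail, Nat.find_spec h.exists_fail, ?_⟩
    intro m hm i
    by_contra hcon
    exact Nat.find_min h.exists_fail hm ⟨i, hcon⟩
  obtain ⟨i, hi⟩ := hn
  -- the distance is at least two
  match n, hi, hmin with
  | 0, hi, _ =>
    apply hi
    intro w hw v hv
    exact h.VT i (h.inv_conj hw hv)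
  | 1, hi, _ =>
    apply hi
    rintro w ⟨a, ha, b, hb, rfl⟩ v hv
    have e : (a * b)⁻¹ * v * (a * b) = b⁻¹ * (a⁻¹ * v * a) * b := by group
    rw [e]
    exact h.inv_conjT (i := !i) hb (h1 i (h.inv_conj ha hv))
  | n + 2, hi, hmin =>
    have hPP : ∀ j, PP L T V (n + 1) j := fun j => hmin (n + 1) (by omega) j
    set j := fin' (n + 2) i with hj
    have hj' : fin' (n + 1) i = !j := by rw [hj, fin'_succ (n + 1) i, Bool.not_not]
    -- extract the critical walk
    have hex : ∃ u ∈ alt L n (!i), ¬ ∀ v ∈ V i, u⁻¹ * v * u ∈ T j := by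
      by_contra hcon
      apply hi
      intro w hw v hv
      obtain ⟨w', ⟨a, ha, u, hu, rfl⟩, l, hl, rfl⟩ := alt_unsnoc hw
      have h2 : ∀ v ∈ V i, u⁻¹ * v * u ∈ T j := by
        by_contra h3
        exact hcon ⟨u, hu, h3⟩
      have e : (a * u * l)⁻¹ * v * (a * u * l) = l⁻¹ * (u⁻¹ * (a⁻¹ * v * a) * u) * l := by group
      rw [e]
      exact h.inv_conjT hl (h2 _ (h.inv_conj ha hv))
    obtain ⟨u, hu, hV⟩ := hex
    obtain ⟨huz, v₀, hv₀, t, htV, htT, htc⟩ := h.crit hPP hu hV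
    obtain ⟨l, hl, hlz⟩ := h.mv i
    have hzlV : l * z * l⁻¹ ∈ V i := h.Vn i l hl z (h.zV i)
    have hzl1 : l * z * l⁻¹ ≠ 1 := by
      intro h2
      apply h.z1
      calc z = l⁻¹ * (l * z * l⁻¹) * l := by group
        _ = 1 := by rw [h2]; group
    by_cases hA : ∀ e ∈ V (!i), u⁻¹ * (l * e * l⁻¹) * u ∈ T (!j)
    · -- `T i` centralises `l V (!i) l⁻¹`
      have htA : t ∈ A := h.TA _ htT
      have htTi : t ∉ T i := fun h2 => htc (h.TV i t h2 v₀ hv₀)
      have hzz : z * z = 1 := h.Vsq i z (h.zV i)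
      have htz : t * (l * z * l⁻¹) * t⁻¹ = z * (l * z * l⁻¹) := by
        rcases h.comm_mem htA hzlV with h2 | h2
        · exfalso
          have h3 : t * (l * z * l⁻¹) = (l * z * l⁻¹) * t := by
            calc t * (l * z * l⁻¹)
                = (t * (l * z * l⁻¹) * t⁻¹ * (l * z * l⁻¹)⁻¹) * ((l * z * l⁻¹) * t) := by group
              _ = (l * z * l⁻¹) * t := by rw [h2, one_mul]
          rcases h.eq_of_comm htA htTi hzlV h3 with h4 | h4
          · exact hzl1 h4
          · exact hlz h4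
        · calc t * (l * z * l⁻¹) * t⁻¹
              = (t * (l * z * l⁻¹) * t⁻¹ * (l * z * l⁻¹)⁻¹) * (l * z * l⁻¹) := by group
            _ = z * (l * z * l⁻¹) := by rw [h2]
      -- commutators of `T i` with `l V (!i) l⁻¹`
      have hcm : ∀ q ∈ T i, ∀ e ∈ V (!i), q * (l * e * l⁻¹) * q⁻¹ * (l * e * l⁻¹)⁻¹ = 1 ∨
          q * (l * e * l⁻¹) * q⁻¹ * (l * e * l⁻¹)⁻¹ = l * z * l⁻¹ := by
        intro q hq e he
        have h2 : l⁻¹ * q * l ∈ A := h.TA i (h.inv_conjT hl hq)
        have e2 : q * (l * e * l⁻¹) * q⁻¹ * (l * e * l⁻¹)⁻¹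
            = l * ((l⁻¹ * q * l) * e * (l⁻¹ * q * l)⁻¹ * e⁻¹) * l⁻¹ := by group
        rcases h.comm_mem h2 he with h3 | h3
        · left; rw [e2, h3]; group
        · right; rw [e2, h3]
      have hcomm : ∀ q ∈ T i, ∀ e ∈ V (!i), q * (l * e * l⁻¹) = (l * e * l⁻¹) * q := by
        intro q hq e he
        rcases hcm q hq e he with h2 | h2
        · calc q * (l * e * l⁻¹)
              = (q * (l * e * l⁻¹) * q⁻¹ * (l * e * l⁻¹)⁻¹) * ((l * e * l⁻¹) * q) := by group
            _ = (l * e * l⁻¹) * q := by rw [h2, one_mul]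
        · exfalso
          -- `e' := l e l⁻¹`, `t e' t⁻¹ = ζ e'` with `ζ ∈ {1, z}`
          have heT : e ∈ T i := by
            have := h1 (!i) he
            rwa [Bool.not_not] at this
          have heT' : l * e * l⁻¹ ∈ T i := h.Tn i l hl e heT
          have h3 := h.comm_mem (i := j) (h.TA _ (hA e he)) htV
          obtain ⟨ζ, hζ, hte⟩ : ∃ ζ : G, (ζ = 1 ∨ ζ = z) ∧ t * (l * e * l⁻¹) * t⁻¹ =
              ζ * (l * e * l⁻¹) := by
            have e3 : (l * e * l⁻¹) * t * (l * e * l⁻¹)⁻¹ * t⁻¹ =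
                u * ((u⁻¹ * (l * e * l⁻¹) * u) * (u⁻¹ * t * u) * (u⁻¹ * (l * e * l⁻¹) * u)⁻¹ *
                  (u⁻¹ * t * u)⁻¹) * u⁻¹ := by group
            have h4 : (l * e * l⁻¹) * t * (l * e * l⁻¹)⁻¹ * t⁻¹ = 1 ∨
                (l * e * l⁻¹) * t * (l * e * l⁻¹)⁻¹ * t⁻¹ = z := by
              rcases h3 with h3 | h3
              · left; rw [e3, h3]; group
              · right; rw [e3, h3]; exact huz
            refine ⟨((l * e * l⁻¹) * t * (l * e * l⁻¹)⁻¹ * t⁻¹)⁻¹, ?_, by group⟩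
            rcases h4 with h4 | h4
            · left; rw [h4, inv_one]
            · right; rw [h4]; exact inv_eq_of_mul_eq_one_left hzz
          have hζV : ζ ∈ V i := by
            rcases hζ with rfl | rfl
            · exact (V i).one_mem
            · exact h.zV i
          have hq' : t * q * t⁻¹ ∈ T i := h.Tn i t (h.AL i htA) q hq
          have h5 : (t * q * t⁻¹) * ζ = ζ * (t * q * t⁻¹) := h.TV i _ hq' _ hζV
          have h6 : (l * e * l⁻¹) * ζ = ζ * (l * e * l⁻¹) := h.TV i _ heT' _ hζV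
          have h7 : (t * q * t⁻¹) * (l * e * l⁻¹) * (t * q * t⁻¹)⁻¹ * (l * e * l⁻¹)⁻¹ =
              z * (l * z * l⁻¹) := by
            calc (t * q * t⁻¹) * (l * e * l⁻¹) * (t * q * t⁻¹)⁻¹ * (l * e * l⁻¹)⁻¹
                = ζ⁻¹ * (ζ * (t * q * t⁻¹)) * (l * e * l⁻¹) * (t * q * t⁻¹)⁻¹ * (l * e * l⁻¹)⁻¹ := by
                  group
              _ = ζ⁻¹ * ((t * q * t⁻¹) * (ζ * (l * e * l⁻¹)) * (t * q * t⁻¹)⁻¹ *
                    (ζ * (l * e * l⁻¹))⁻¹) * ζ := by
                  rw [← h5]; group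
              _ = ζ⁻¹ * ((t * q * t⁻¹) * (t * (l * e * l⁻¹) * t⁻¹) * (t * q * t⁻¹)⁻¹ *
                    (t * (l * e * l⁻¹) * t⁻¹)⁻¹) * ζ := by rw [hte]
              _ = ζ⁻¹ * (t * (q * (l * e * l⁻¹) * q⁻¹ * (l * e * l⁻¹)⁻¹) * t⁻¹) * ζ := by group
              _ = ζ⁻¹ * (z * (l * z * l⁻¹)) * ζ := by rw [h2, htz]
              _ = z * (l * z * l⁻¹) := by
                  have h8 : z * (l * z * l⁻¹) ∈ V i := (V i).mul_mem (h.zV i) hzlV
                  have h9 := h.TV i ζ (h.VT i hζV) _ h8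
                  rw [mul_assoc, ← h9]; group
          rcases hcm _ hq' e he with h8 | h8
          · rw [h8] at h7
            apply hlz
            calc l * z * l⁻¹ = z * (z * (l * z * l⁻¹)) := by rw [← mul_assoc, hzz, one_mul]
              _ = z := by rw [← h7, mul_one]
          · rw [h8] at h7
            apply h.z1
            exact (mul_eq_right.1 h7.symm)
      -- hence `T i = T (!i)`
      have hle : T i ≤ T (!i) := by
        intro q hq
        apply h.CV (!i) q (h.TA i hq)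
        intro e he
        have h2 := hcomm (l * q * l⁻¹) (h.Tn i l hl q hq) e he
        calc q * e = l⁻¹ * ((l * q * l⁻¹) * (l * e * l⁻¹)) * l := by group
          _ = l⁻¹ * ((l * e * l⁻¹) * (l * q * l⁻¹)) * l := by rw [h2]
          _ = e * q := by group
      have heq : T i = T (!i) := by
        apply Subgroup.eq_of_le_of_card_ge hle
        have h2 := h.Tcard i
        have h3 := h.Tcard (!i)
        omega
      have hbot := h.no (T i) (h.TA i) (by
        intro k g hg y hy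
        by_cases hk : k = i
        · subst hk; exact h.Tn _ g hg y hy
        · have hk' : k = !i := by cases k <;> cases i <;> simp_all
          subst hk'
          rw [heq] at hy ⊢
          exact h.Tn _ g hg y hy)
      have hz : z ∈ T i := h.VT i (h.zV i)
      rw [hbot, Subgroup.mem_bot] at hz
      exact h.z1 hz
    · -- the shifted walk is critical too
      have hlu : l⁻¹ * u ∈ alt L (n + 1) i := ⟨l⁻¹, (L i).inv_mem hl, u, hu, rfl⟩
      obtain ⟨u', hu', lb, hlb, he⟩ := alt_unsnoc hlu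
      rw [hj'] at hlb
      have hfin : fin' (n + 2) (!i) = !j := by rw [fin'_not]
      have hV' : ¬ ∀ e ∈ V (!i), u'⁻¹ * e * u' ∈ T (fin' (n + 2) (!i)) := by
        intro h2
        apply hA
        intro e hee
        have h3 := h2 e hee
        rw [hfin] at h3
        have e2 : u⁻¹ * (l * e * l⁻¹) * u = (l⁻¹ * u)⁻¹ * e * (l⁻¹ * u) := by group
        rw [e2, he]
        have e3 : (u' * lb)⁻¹ * e * (u' * lb) = lb⁻¹ * (u'⁻¹ * e * u') * lb := by group
        rw [e3]
        exact h.inv_conjT hlb h3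
      have hu'' : u' ∈ alt L n (!(!i)) := by rwa [Bool.not_not]
      obtain ⟨hz', -⟩ := h.crit hPP hu'' hV'
      -- both involutions lie in `u V (!j) u⁻¹`
      have h2 : u⁻¹ * (l * z * l⁻¹) * u ∈ V (!j) := by
        have e1 : u = l * (u' * lb) := by rw [← he]; group
        have e2 : u⁻¹ * (l * z * l⁻¹) * u = lb⁻¹ * (u'⁻¹ * z * u') * lb := by rw [e1]; group
        have e3 : u'⁻¹ * z * u' = z := by
          calc u'⁻¹ * z * u' = u'⁻¹ * (u' * z * u'⁻¹) * u' := by rw [hz']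
            _ = z := by group
        rw [e2, e3]
        exact h.inv_conj hlb (h.zV _)
      have h3 : u⁻¹ * z * u ∈ V (!j) := by
        have e3 : u⁻¹ * z * u = z := by
          calc u⁻¹ * z * u = u⁻¹ * (u * z * u⁻¹) * u := by rw [huz]
            _ = z := by group
        rw [e3]; exact h.zV _
      have h4 : V i ≤ (V (!j)).comap (MulAut.conj u⁻¹).toMonoidHom := by
        apply h.V_le (y := l * z * l⁻¹) _ _ hzlV hzl1 hlz
        · simpa [Subgroup.mem_comap, MulAut.conj_apply] using h3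
        · simpa [Subgroup.mem_comap, MulAut.conj_apply, mul_assoc] using h2
      apply hV
      intro v hv
      have h5 := h4 hv
      have h6 : u⁻¹ * v * u ∈ V (!j) := by
        simpa [Subgroup.mem_comap, MulAut.conj_apply] using h5
      have h7 := h1 (!j) h6
      rwa [Bool.not_not] at h7

end Gr

end MP_5771ce_al
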