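import Pool.Agent.Lib.MP_5771ce_al.EStarGraph

set_option autoImplicit false

/-!
Fixed point counting for an element of prime power order acting by conjugation, and the
distance one case of the last non-isolated configuration.
-/

namespace MP_5771ce_al

/-- A permutation of `p`-power order has as many fixed points as points, modulo `p`. -/
theorem card_modEq_fixed {α : Type*} [Finite α] {p k : ℕ} (hp : p.Prime) (σ : Equiv.Perm α)
    (hσ : σ ^ (p ^ k) = 1) : Nat.card α ≡ Nat.card {a : α // σ a = a} [MOD p] := by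
  have : Fact p.Prime := ⟨hp⟩
  have hK : IsPGroup p (Subgroup.zpowers σ) := by
    rintro ⟨τ, n, rfl⟩
    refine ⟨k, ?_⟩
    ext1
    simp only [Subgroup.coe_pow, OneMemClass.coe_one]
    show (σ ^ n) ^ (p ^ k) = 1
    rw [← zpow_natCast, ← zpow_mul, mul_comm, zpow_mul, zpow_natCast, hσ, one_zpow]
  have h := hK.card_modEq_card_fixedPoints α
  have e : Nat.card (MulAction.fixedPoints (Subgroup.zpowers σ) α) =
      Nat.card {a : α // σ a = a} := by
    apply Nat.card_congr
    refine Equiv.subtypeEquivRight ?_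
    intro a
    constructor
    · intro ha
      exact ha ⟨σ, Subgroup.mem_zpowers σ⟩
    · rintro ha ⟨τ, n, rfl⟩
      show (σ ^ n) a = a
      exact Function.IsFixedPt.perm_zpow ha n
  rw [e] at h
  exact h

variable {G : Type*} [Group G]

/-- The elements of `H` commuting with `x`. -/
def cent (H : Subgroup G) (x : G) : Subgroup G where
  carrier := {a | a ∈ H ∧ x * a = a * x}
  mul_mem' := by
    rintro a b ⟨ha, ha'⟩ ⟨hb, hb'⟩
    refine ⟨H.mul_mem ha hb, ?_⟩
    rw [← mul_assoc, ha', mul_assoc, hb', mul_assoc]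
  one_mem' := ⟨H.one_mem, by rw [mul_one, one_mul]⟩
  inv_mem' := by
    rintro a ⟨ha, ha'⟩
    refine ⟨H.inv_mem ha, ?_⟩
    calc x * a⁻¹ = a⁻¹ * (a * x) * a⁻¹ := by group
      _ = a⁻¹ * (x * a) * a⁻¹ := by rw [ha']
      _ = a⁻¹ * x := by group

theorem mem_cent {H : Subgroup G} {x a : G} : a ∈ cent H x ↔ a ∈ H ∧ x * a = a * x := Iff.rfl

theorem cent_le (H : Subgroup G) (x : G) : cent H x ≤ H := fun _ h => h.1

/-- Conjugation by `x` on a subgroup normalised by `x`. -/
def conjPerm (H : Subgroup G) (x : G) (hx : ∀ a, a ∈ H ↔ x * a * x⁻¹ ∈ H) : Equiv.Perm H where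
  toFun a := ⟨x * a * x⁻¹, (hx a).1 a.2⟩
  invFun a := ⟨x⁻¹ * a * x, by
    rw [hx]
    have : x * (x⁻¹ * (a : G) * x) * x⁻¹ = a := by group
    rw [this]; exact a.2⟩
  left_inv a := by
    ext1
    show x⁻¹ * (x * a * x⁻¹) * x = a
    group
  right_inv a := by
    ext1
    show x * (x⁻¹ * a * x) * x⁻¹ = a
    group

theorem conjPerm_pow (H : Subgroup G) (x : G) (hx : ∀ a, a ∈ H ↔ x * a * x⁻¹ ∈ H) (n : ℕ)
    (a : H) : (((conjPerm H x hx) ^ n) a : G) = x ^ n * a * (x ^ n)⁻¹ := by
  induction n with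
  | zero => simp
  | succ n ih =>
    rw [pow_succ', Equiv.Perm.mul_apply]
    show x * (((conjPerm H x hx) ^ n) a : G) * x⁻¹ = _
    rw [ih, pow_succ']
    group

/-- An element of `p`-power order acting on `H` by conjugation: fixed points modulo `p`. -/
theorem card_modEq_cent {H : Subgroup G} [Finite H] {x : G} {p k : ℕ} (hp : p.Prime)
    (hx : ∀ a, a ∈ H ↔ x * a * x⁻¹ ∈ H) (hxk : ∀ a ∈ H, x ^ (p ^ k) * a = a * x ^ (p ^ k)) :
    Nat.card H ≡ Nat.card (cent H x) [MOD p] := by
  have h := card_modEq_fixed hp (conjPerm H x hx) (k := k) (by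
    ext a
    rw [conjPerm_pow, hxk a a.2]
    simp)
  have e : Nat.card {a : H // conjPerm H x hx a = a} = Nat.card (cent H x) := by
    apply Nat.card_congr
    refine ⟨fun a => ⟨a.1.1, a.1.2, ?_⟩, fun a => ⟨⟨a.1, a.2.1⟩, ?_⟩, fun a => ?_, fun a => ?_⟩
    · have := congrArg Subtype.val a.2
      have h2 : x * (a.1 : G) * x⁻¹ = a.1 := this
      calc x * (a.1 : G) = (x * (a.1 : G) * x⁻¹) * x := by group
        _ = a.1 * x := by rw [h2]
    · ext1
      show x * (a.1 : G) * x⁻¹ = a.1
      rw [a.2.2]; group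
    · rfl
    · rfl
  rw [e] at h
  exact h

variable {L T V : Bool → Subgroup G} {A : Subgroup G} {z : G}

/-- The distance one case. -/
theorem Gr.near [Finite G] (h : Gr L T V A z) {x : G} {r k : ℕ} (hr : r.Prime) (hr5 : 5 ≤ r)
    (hxr : x ^ (r ^ k) = 1) (hx : ∀ a, a ∈ A ↔ x * a * x⁻¹ ∈ A)
    (hxV : ∀ v, v ∈ V false ↔ x * v * x⁻¹ ∈ V true) (hne : ∃ i, ¬ V i ≤ T (!i)) : False := by
  -- both inclusions fail
  have hboth : ∀ i, ∃ v ∈ V i, v ∉ T (!i) := by
    obtain ⟨i, hi⟩ := hne
    obtain ⟨v, hv, hvT⟩ := SetLike.not_le_iff_exists.1 hi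
    have h2 : ∃ w ∈ V (!i), w ∉ T i := by
      by_contra hcon
      apply hvT
      apply h.CV (!i) v (h.TA i (h.VT i hv))
      intro w hw
      have h3 : w ∈ T i := by
        by_contra h4
        exact hcon ⟨w, hw, h4⟩
      exact (h.TV i w h3 v hv).symm
    intro j
    by_cases hj : j = i
    · subst hj; exact ⟨v, hv, hvT⟩
    · have hj' : j = !i := by revert hj; cases j <;> cases i <;> decide
      subst hj'
      rw [Bool.not_not]
      exact h2
  choose v hvV hvT using hboth
  have hvi : ∀ i, v i ∈ T i := fun i => h.VT i (hvV i)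
  have hvA : ∀ i, v i ∈ A := fun i => h.TA i (hvi i)
  set D : Subgroup G := T false ⊓ T true with hD
  have hDT : ∀ i, D ≤ T i := by
    intro i
    cases i
    · exact inf_le_left
    · exact inf_le_right
  have hDi : ∀ i q, q ∈ T i → q ∈ T (!i) → q ∈ D := by
    intro i q h1 h2
    cases i
    · exact ⟨h1, h2⟩
    · exact ⟨h2, h1⟩
  have hsplit : ∀ i, ∀ q ∈ T i, q ∈ D ∨ ∃ d ∈ D, q = v i * d := by
    intro i q hq
    by_cases h1 : q ∈ T (!i)
    · left; exact hDi i q hq h1
    · right
      refine ⟨(v i)⁻¹ * q, hDi i _ ((T i).mul_mem ((T i).inv_mem (hvi i)) hq) ?_, by group⟩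
      exact h.mul_mem_T (i := !i) (hvA i) (h.TA i hq) (hvT i) h1
  have hcomV : ∀ i, ∀ d ∈ D, d * v i = v i * d := fun i d hd => h.TV i d (hDT i hd) _ (hvV i)
  have hsq : ∀ i, ∀ q ∈ T i, ∃ d ∈ D, q * q = d * d := by
    intro i q hq
    rcases hsplit i q hq with h1 | ⟨d, hd, rfl⟩
    · exact ⟨q, h1, rfl⟩
    · refine ⟨d, hd, ?_⟩
      have h2 := hcomV i d hd
      calc v i * d * (v i * d) = v i * (d * v i) * d := by group
        _ = (v i * v i) * (d * d) := by rw [h2]; group
        _ = d * d := by rw [h.Vsq i _ (hvV i), one_mul]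
  -- squares are trivial
  let S : Set G := {y | ∃ d ∈ D, y = d * d}
  have hS : Subgroup.closure S = ⊥ := by
    apply h.no
    · rw [Subgroup.closure_le]
      rintro y ⟨d, hd, rfl⟩
      exact A.mul_mem (h.TA false (hDT false hd)) (h.TA false (hDT false hd))
    · intro i g hg y hy
      induction hy using Subgroup.closure_induction with
      | mem y hy =>
        obtain ⟨d, hd, rfl⟩ := hy
        obtain ⟨d', hd', e⟩ := hsq i (g * d * g⁻¹) (h.Tn i g hg d (hDT i hd))
        apply Subgroup.subset_closure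
        exact ⟨d', hd', by rw [← e]; group⟩
      | one =>
        have : g * 1 * g⁻¹ = 1 := by group
        rw [this]; exact Subgroup.one_mem _
      | mul a b _ _ ha hb =>
        have : g * (a * b) * g⁻¹ = (g * a * g⁻¹) * (g * b * g⁻¹) := by group
        rw [this]; exact Subgroup.mul_mem _ ha hb
      | inv a _ ha =>
        have : g * a⁻¹ * g⁻¹ = (g * a * g⁻¹)⁻¹ := by group
        rw [this]; exact Subgroup.inv_mem _ ha
  have hD2 : ∀ d ∈ D, d * d = 1 := by
    intro d hd
    have : d * d ∈ Subgroup.closure S := Subgroup.subset_closure ⟨d, hd, rfl⟩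
    rwa [hS, Subgroup.mem_bot] at this
  have hDab : ∀ d ∈ D, ∀ e ∈ D, d * e = e * d := by
    intro d hd e he
    have h1 := hD2 _ (D.mul_mem hd he)
    have h2 := hD2 d hd
    have h3 := hD2 e he
    calc d * e = d * e * ((d * e) * (d * e))⁻¹ * (d * d) * (e * e) := by
          rw [h1, h2, h3]; group
      _ = (e⁻¹ * d⁻¹) * (d * d) * (e * e) := by group
      _ = e⁻¹ * (d * (e * e)) := by group
      _ = e⁻¹ * d := by rw [h3, mul_one]
      _ = e * d := by rw [inv_eq_of_mul_eq_one_left h3]
  have hDcT : ∀ i, ∀ d ∈ D, ∀ q ∈ T i, d * q = q * d := by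
    intro i d hd q hq
    rcases hsplit i q hq with h1 | ⟨e, he, rfl⟩
    · exact hDab d hd q h1
    · rw [← mul_assoc, hcomV i d hd, mul_assoc, hDab d hd e he, mul_assoc]
  have hDcA : ∀ d ∈ D, ∀ a ∈ A, a * d = d * a := by
    intro d hd a ha
    by_cases h1 : a ∈ T true
    · exact (hDcT true d hd a h1).symm
    · have h2 : (v false)⁻¹ * a ∈ T true := h.mul_mem_T (i := true) (hvA false) ha (hvT false) h1
      have h3 := hDcT true d hd _ h2
      have h4 := hcomV false d hd
      calc a * d = v false * (((v false)⁻¹ * a) * d) := by group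
        _ = v false * (d * ((v false)⁻¹ * a)) := by rw [h3]
        _ = (v false * d) * ((v false)⁻¹ * a) := by group
        _ = (d * v false) * ((v false)⁻¹ * a) := by rw [h4]
        _ = d * a := by group
  have hDz : ∀ d ∈ D, d = 1 ∨ d = z := fun d hd =>
    h.zu d (h.TA false (hDT false hd)) (hD2 d hd) (fun a ha => hDcA d hd a ha)
  have hDV : ∀ i, D ≤ V i := by
    intro i d hd
    rcases hDz d hd with rfl | rfl
    · exact (V i).one_mem
    · exact h.zV i
  have hTV : ∀ i, T i = V i := by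
    intro i
    apply le_antisymm _ (h.VT i)
    intro q hq
    rcases hsplit i q hq with h1 | ⟨e, he, rfl⟩
    · exact hDV i h1
    · exact (V i).mul_mem (hvV i) (hDV i he)
  have hA8 : Nat.card A = 8 := by
    rw [h.Tcard false, hTV false, h.Vcard false]
  -- `x` centralises `A`
  have hzx : x * z = z * x := by
    have h1 : x * z * x⁻¹ ∈ A := (hx z).1 (h.TA false (h.VT false (h.zV false)))
    have hzz : z * z = 1 := h.Vsq false z (h.zV false)
    have h2 : (x * z * x⁻¹) * (x * z * x⁻¹) = 1 := by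
      calc (x * z * x⁻¹) * (x * z * x⁻¹) = x * (z * z) * x⁻¹ := by group
        _ = 1 := by rw [hzz]; group
    have h3 : ∀ a ∈ A, a * (x * z * x⁻¹) = (x * z * x⁻¹) * a := by
      intro a ha
      have h4 : x⁻¹ * a * x ∈ A := by
        rw [hx]
        have : x * (x⁻¹ * a * x) * x⁻¹ = a := by group
        rwa [this]
      have h5 := h.zA _ h4
      calc a * (x * z * x⁻¹) = x * ((x⁻¹ * a * x) * z) * x⁻¹ := by group
        _ = x * (z * (x⁻¹ * a * x)) * x⁻¹ := by rw [h5]
        _ = (x * z * x⁻¹) * a := by group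
    rcases h.zu _ h1 h2 h3 with h4 | h4
    · exfalso; apply h.z1
      calc z = x⁻¹ * (x * z * x⁻¹) * x := by group
        _ = 1 := by rw [h4]; group
    · calc x * z = (x * z * x⁻¹) * x := by group
        _ = z * x := by rw [h4]
  have hmod := card_modEq_cent (H := A) hr hx (k := k) (fun a _ => by rw [hxr, one_mul, mul_one])
  have hdvd : Nat.card (cent A x) ∣ 8 := hA8 ▸ Subgroup.card_dvd_of_le (cent_le A x)
  have h2 : 2 ≤ Nat.card (cent A x) := by
    have hz : z ∈ cent A x := ⟨h.TA false (h.VT false (h.zV false)), hzx⟩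
    by_contra hcon
    have h1 : Nat.card (cent A x) = 1 := by
      have : 0 < Nat.card (cent A x) := Nat.card_pos
      omega
    rw [Subgroup.card_eq_one] at h1
    rw [h1, Subgroup.mem_bot] at hz
    exact h.z1 hz
  have h8 : Nat.card (cent A x) = 8 := by
    have hle : Nat.card (cent A x) ≤ 8 := Nat.le_of_dvd (by norm_num) hdvd
    rw [hA8] at hmod
    have hd : r ∣ 8 - Nat.card (cent A x) := (Nat.modEq_iff_dvd' hle).1 hmod.symm
    by_contra hne8
    have hlt : Nat.card (cent A x) < 8 := lt_of_le_of_ne hle hne8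
    have h24 : Nat.card (cent A x) = 2 ∨ Nat.card (cent A x) = 4 := by
      interval_cases hc : Nat.card (cent A x) <;> first | omega | (norm_num at hdvd)
    rcases h24 with h24 | h24 <;> rw [h24] at hd <;> norm_num at hd
    · have h6 : r ∣ 2 * 3 := hd
      rcases (hr.dvd_mul).1 h6 with h7 | h7
      · have := Nat.le_of_dvd (by norm_num) h7; omega
      · have := Nat.le_of_dvd (by norm_num) h7; omega
    · have := Nat.le_of_dvd (by norm_num) hd; 
      interval_cases r
  have hxA : ∀ a ∈ A, x * a = a * x := by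
    have heq : cent A x = A := Subgroup.eq_of_le_of_card_ge (cent_le A x) (by rw [h8, hA8])
    intro a ha
    rw [← heq] at ha
    exact ha.2
  -- so the two four-groups are equal
  have : v false ∈ T true := by
    apply h.VT true
    have h3 := (hxV (v false)).1 (hvV false)
    rw [hxA _ (hvA false)] at h3
    simpa using h3
  exact hvT false this

end MP_5771ce_al
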