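import Pool.Agent.Lib.MP_5771ce_al.EStarV

set_option autoImplicit false

/-!
Thompson's argument: an elementary abelian subgroup of maximal order not contained in `K`, and the
order of the normal closure of the central involutions.
-/

namespace MP_5771ce_al

variable {G : Type*} [Group G]

/-- Elementary abelian `2`-subgroups of `A`. -/
def EA (A B : Subgroup G) : Prop := B ≤ A ∧ ∀ b ∈ B, b * b = 1

/-- `Y` is normalised by `L` and by `x L x⁻¹`. -/
def Nrm (L : Subgroup G) (x : G) (Y : Subgroup G) : Prop :=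
  (∀ g ∈ L, ∀ y ∈ Y, g * y * g⁻¹ ∈ Y) ∧
    ∀ g ∈ L, ∀ y ∈ Y, (x * g * x⁻¹) * y * (x * g * x⁻¹)⁻¹ ∈ Y

theorem EA.comm {A B : Subgroup G} (h : EA A B) {a b : G} (ha : a ∈ B) (hb : b ∈ B) :
    a * b = b * a := by
  have h1 := h.2 _ (B.mul_mem ha hb)
  have h2 := h.2 a ha
  have h3 := h.2 b hb
  calc a * b = (a * (a * b * (a * b)) * b)  := by rw [h1, mul_one]
    _ = (a * a) * b * a * (b * b) := by group
    _ = b * a := by rw [h2, h3, one_mul, mul_one]

theorem nrm_of {L Y : Subgroup G} {x : G} (h1 : ∀ g ∈ L, ∀ y ∈ Y, g * y * g⁻¹ ∈ Y)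
    (h2 : ∀ y, y ∈ Y ↔ x * y * x⁻¹ ∈ Y) : Nrm L x Y := by
  refine ⟨h1, ?_⟩
  intro g hg y hy
  have h3 : x⁻¹ * y * x ∈ Y := by
    rw [h2]
    have : x * (x⁻¹ * y * x) * x⁻¹ = y := by group
    rwa [this]
  have h4 := h1 g hg _ h3
  have h5 := (h2 _).1 h4
  have e : (x * g * x⁻¹) * y * (x * g * x⁻¹)⁻¹ = x * (g * (x⁻¹ * y * x) * g⁻¹) * x⁻¹ := by group
  rwa [e]

/-- `x` normalises `omz A` if it normalises `A`. -/
theorem omz_conj {A : Subgroup G} {x : G} (hx : ∀ a, a ∈ A ↔ x * a * x⁻¹ ∈ A) (c : G) :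
    c ∈ omz A ↔ x * c * x⁻¹ ∈ omz A := by
  constructor
  · rintro ⟨hc, hc2, hca⟩
    refine ⟨(hx c).1 hc, ?_, ?_⟩
    · calc x * c * x⁻¹ * (x * c * x⁻¹) = x * (c * c) * x⁻¹ := by group
        _ = 1 := by rw [hc2]; group
    · intro a ha
      have h4 : x⁻¹ * a * x ∈ A := by
        rw [hx]
        have : x * (x⁻¹ * a * x) * x⁻¹ = a := by group
        rwa [this]
      have h5 := hca _ h4
      calc a * (x * c * x⁻¹) = x * ((x⁻¹ * a * x) * c) * x⁻¹ := by group
        _ = x * (c * (x⁻¹ * a * x)) * x⁻¹ := by rw [h5]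
        _ = (x * c * x⁻¹) * a := by group
  · rintro ⟨hc, hc2, hca⟩
    refine ⟨(hx c).2 hc, ?_, ?_⟩
    · calc c * c = x⁻¹ * (x * c * x⁻¹ * (x * c * x⁻¹)) * x := by group
        _ = 1 := by rw [hc2]; group
    · intro a ha
      have h5 := hca _ ((hx a).1 ha)
      calc a * c = x⁻¹ * ((x * a * x⁻¹) * (x * c * x⁻¹)) * x := by group
        _ = x⁻¹ * ((x * c * x⁻¹) * (x * a * x⁻¹)) * x := by rw [h5]
        _ = c * a := by group

namespace TL

variable {A K P L : Subgroup G} {x : G}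

theorem vcl_ne (h : TL A K P L) [Finite G] (hx : ∀ a, a ∈ A ↔ x * a * x⁻¹ ∈ A)
    (hno : ∀ Y ≤ A, Nrm L x Y → Y = ⊥) : ¬ vcl L A ≤ omz A := by
  intro hle
  have heq : vcl L A = omz A := le_antisymm hle (omz_le_vcl L A)
  apply omz_ne_bot h.A2 h.A_ne_bot
  apply hno _ (omz_le A)
  apply nrm_of
  · intro g hg y hy
    have h1 := vcl_conj hg (omz_le_vcl L A hy)
    rwa [heq] at h1
  · exact omz_conj hx

/-- An elementary abelian subgroup of maximal order outside `K`. -/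
theorem exists_off (h : TL A K P L) [Finite G] (hx : ∀ a, a ∈ A ↔ x * a * x⁻¹ ∈ A)
    (hno : ∀ Y ≤ A, Nrm L x Y → Y = ⊥) :
    ∃ B, EA A B ∧ ¬ B ≤ K ∧ ∀ B', EA A B' → Nat.card B' ≤ Nat.card B := by
  classical
  obtain ⟨B₀, hB₀, hmax⟩ := Set.exists_max_image {B : Subgroup G | EA A B}
    (fun B => Nat.card B) (Set.toFinite _) ⟨⊥, bot_le, by
      intro b hb
      rw [Subgroup.mem_bot] at hb
      rw [hb, one_mul]⟩
  by_cases hall : ∀ B, EA A B → Nat.card B = Nat.card B₀ → B ≤ K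
  · exfalso
    set J : Subgroup G := sSup {B : Subgroup G | EA A B ∧ Nat.card B = Nat.card B₀} with hJ
    have hJA : J ≤ A := sSup_le fun B hB => hB.1.1
    have hmem : ∀ B, EA A B → Nat.card B = Nat.card B₀ → B ≤ J := fun B h1 h2 =>
      le_sSup ⟨h1, h2⟩
    -- general invariance principle
    have hinv : ∀ g : G, (∀ B, EA A B → Nat.card B = Nat.card B₀ → ∀ b ∈ B, g * b * g⁻¹ ∈ A) →
        ∀ y ∈ J, g * y * g⁻¹ ∈ J := by
      intro g hg y hy
      have h1 : J ≤ J.comap (MulAut.conj g).toMonoidHom := by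
        apply sSup_le
        rintro B ⟨hB, hBc⟩
        have h2 : B.map (MulAut.conj g).toMonoidHom ≤ J := by
          apply hmem
          · constructor
            · rintro _ ⟨b, hb, rfl⟩
              exact hg B hB hBc b hb
            · rintro _ ⟨b, hb, rfl⟩
              show (g * b * g⁻¹) * (g * b * g⁻¹) = 1
              calc (g * b * g⁻¹) * (g * b * g⁻¹) = g * (b * b) * g⁻¹ := by group
                _ = 1 := by rw [hB.2 b hb]; group
          · rw [← hBc]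
            exact Subgroup.card_map_of_injective (MulAut.conj g).injective
        exact Subgroup.map_le_iff_le_comap.1 h2
      exact h1 hy
    have hLJ : ∀ g ∈ L, ∀ y ∈ J, g * y * g⁻¹ ∈ J := by
      intro g hg
      apply hinv g
      intro B hB hBc b hb
      exact h.KA (h.Kn g hg b (hall B hB hBc hb))
    have hxJ : ∀ y ∈ J, x * y * x⁻¹ ∈ J := by
      apply hinv x
      intro B hB hBc b hb
      exact (hx b).1 (hB.1 hb)
    have hxJ' : ∀ y ∈ J, x⁻¹ * y * x⁻¹⁻¹ ∈ J := by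
      apply hinv x⁻¹
      intro B hB hBc b hb
      rw [hx]
      have : x * (x⁻¹ * b * x⁻¹⁻¹) * x⁻¹ = b := by group
      rw [this]
      exact hB.1 hb
    have hJb : J = ⊥ := by
      apply hno J hJA
      apply nrm_of hLJ
      intro y
      constructor
      · exact hxJ y
      · intro hy
        have := hxJ' _ hy
        have e : x⁻¹ * (x * y * x⁻¹) * x⁻¹⁻¹ = y := by group
        rwa [e] at this
    have h1 : B₀ ≤ J := hmem B₀ hB₀ rfl
    rw [hJb, le_bot_iff] at h1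
    have h2 : omz A ≤ A := omz_le A
    have h3 := hmax (omz A) ⟨h2, fun b hb => hb.2.1⟩
    have h4 : Nat.card (omz A) ≤ 1 := by
      rw [h1] at h3
      simpa using h3
    have h5 : omz A = ⊥ := by
      rw [← Subgroup.card_eq_one]
      have : 0 < Nat.card (omz A) := Nat.card_pos
      omega
    exact omz_ne_bot h.A2 h.A_ne_bot h5
  · simp only [not_forall] at hall
    obtain ⟨B, hB, hBc, hBK⟩ := hall
    exact ⟨B, hB, hBK, fun B' hB' => by rw [hBc]; exact hmax B' hB'⟩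

/-- The product of two commuting elementary abelian subgroups. -/
theorem EA_sup {B C : Subgroup G} (hB : EA A B) (hC : EA A C) (hc : ∀ b ∈ B, ∀ c ∈ C, b * c = c * b) :
    EA A (B ⊔ C) ∧ Permutes B C := by
  have hp : Permutes B C := by
    rw [permutes_iff]
    intro b hb c hc'
    exact ⟨c, hc', b, hb, hc b hb c hc'⟩
  refine ⟨⟨sup_le hB.1 hC.1, ?_⟩, hp⟩
  intro w hw
  obtain ⟨b, hb, c, hc', rfl⟩ := hp.mem_sup.1 hw
  calc b * c * (b * c) = b * (c * b) * c := by group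
    _ = (b * b) * (c * c) := by rw [← hc b hb c hc']; group
    _ = 1 := by rw [hB.2 b hb, hC.2 c hc', one_mul]

theorem card_vcl (h : TL A K P L) [Finite G] (hx : ∀ a, a ∈ A ↔ x * a * x⁻¹ ∈ A)
    (hno : ∀ Y ≤ A, Nrm L x Y → Y = ⊥) :
    Nat.card (vcl L A) = 2 * Nat.card (omz A) ∧ ∃ b ∈ A, b ∉ K := by
  obtain ⟨B, hB, hBK, hmax⟩ := h.exists_off hx hno
  obtain ⟨b, hb, hbK⟩ := SetLike.not_le_iff_exists.1 hBK
  refine ⟨?_, b, hB.1 hb, hbK⟩
  have hVA : EA A (vcl L A) := ⟨le_trans h.vcl_le_K h.KA, fun v hv => h.vcl_sq hv⟩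
  have hBK' : EA A (B ⊓ K) := ⟨le_trans inf_le_left hB.1, fun c hc => hB.2 c hc.1⟩
  obtain ⟨hW, hperm⟩ := EA_sup hBK' hVA (fun c hc v hv => h.K_comm_vcl hc.2 hv)
  -- `|B| = 2 |B ∩ K|`
  have h1 : K.relIndex B = 2 := by
    unfold Subgroup.relIndex
    rw [Subgroup.index_eq_two_iff']
    refine ⟨⟨b, hb⟩⁻¹, ?_⟩
    rintro ⟨c, hc⟩
    simp only [Subgroup.mem_subgroupOf, Subgroup.coe_mul, InvMemClass.coe_inv]
    by_cases hcK : c ∈ K
    · right
      refine ⟨hcK, ?_⟩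
      intro h2
      apply hbK
      have := K.mul_mem hcK (K.inv_mem h2)
      simpa using this
    · left
      exact ⟨h.split (hB.1 hb) (hB.1 hc) hbK hcK, hcK⟩
  have h2 : Nat.card (B ⊓ K : Subgroup G) * 2 = Nat.card B := by
    have := eStar_card_mul_relIndex (H := B ⊓ K) (K := B) inf_le_left
    rwa [Subgroup.inf_relIndex_left, h1] at this
  -- `|(B ∩ K) V| ≤ |B|`
  have h3 := eStar_card_mul_relIndex (H := B ⊓ K) (K := (B ⊓ K) ⊔ vcl L A) le_sup_left
  rw [hperm.relIndex_sup] at h3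
  have h4 := hmax _ hW
  rw [← h3, ← h2] at h4
  have hpos : 0 < Nat.card (B ⊓ K : Subgroup G) := Nat.card_pos
  have h5 : (B ⊓ K).relIndex (vcl L A) ≤ 2 := Nat.le_of_mul_le_mul_left h4 hpos
  -- `(B ∩ K) ∩ V ≤ omz A`
  have h6 : (B ⊓ K) ⊓ vcl L A ≤ omz A := by
    intro v hv
    exact h.mem_omz_of_comm (hB.1 hb) hbK hv.2 (hB.comm hb hv.1.1)
  have h7 := eStar_card_mul_relIndex (H := (B ⊓ K) ⊓ vcl L A) (K := vcl L A) inf_le_right
  rw [Subgroup.inf_relIndex_right] at h7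
  have h8 : Nat.card ((B ⊓ K) ⊓ vcl L A : Subgroup G) ≤ Nat.card (omz A) :=
    Subgroup.card_le_of_le h6
  have h9 : Nat.card (vcl L A) ≤ 2 * Nat.card (omz A) := by
    rw [← h7, mul_comm]
    exact Nat.mul_le_mul h5 h8
  have h10 := eStar_card_mul_relIndex (omz_le_vcl L A)
  have h11 : (omz A).relIndex (vcl L A) ≠ 1 := by
    rw [Ne, Subgroup.relIndex_eq_one]
    exact h.vcl_ne hx hno
  have h12 : 0 < Nat.card (omz A) := Nat.card_pos
  have h13 : 0 < Nat.card (vcl L A) := Nat.card_pos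
  have h14 : (omz A).relIndex (vcl L A) ≤ 2 := by
    by_contra hcon
    have : 3 ≤ (omz A).relIndex (vcl L A) := by omega
    nlinarith
  have h15 : (omz A).relIndex (vcl L A) ≠ 0 := by
    intro h0
    rw [h0, mul_zero] at h10
    omega
  have h16 : (omz A).relIndex (vcl L A) = 2 := by omega
  rw [h16] at h10
  omega

end TL

end MP_5771ce_al
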