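import Pool.Agent.Lib.MP_5771ce_al.Basic
import Pool.Agent.Lib.MP_5771ce_al.EStarNear

set_option autoImplicit false

/-!
A `2`-group `A` of index two over `K` in a group `L = A P` with an abelian `3`-group `P` inverted
modulo `K`: the structure of the normal closure `V` of the involutions of the centre of `A`
when neither of the two Thompson subgroups is normal.
-/

namespace MP_5771ce_al

variable {G : Type*} [Group G]

theorem eStar_card_mul_relIndex {H K : Subgroup G} (h : H ≤ K) :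
    Nat.card H * H.relIndex K = Nat.card K := by
  have := Subgroup.relIndex_mul_relIndex ⊥ H K bot_le h
  rwa [Subgroup.relIndex_bot_left, Subgroup.relIndex_bot_left] at this

/-- If `x ^ m` and `x ^ n` lie in a subgroup and `m, n` are coprime then so does `x`. -/
theorem mem_of_coprime_pow {H : Subgroup G} {x : G} {m n : ℕ} (hm : x ^ m ∈ H) (hn : x ^ n ∈ H)
    (hc : Nat.Coprime m n) : x ∈ H := by
  have h1 : x = x ^ ((m : ℤ) * Nat.gcdA m n) * x ^ ((n : ℤ) * Nat.gcdB m n) := by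
    rw [← zpow_add, ← Nat.gcd_eq_gcd_ab, hc]
    simp
  rw [h1]
  apply H.mul_mem
  · rw [zpow_mul, zpow_natCast]; exact H.zpow_mem hm _
  · rw [zpow_mul, zpow_natCast]; exact H.zpow_mem hn _

/-- Involutions of the centre of `A`. -/
def omz (A : Subgroup G) : Subgroup G where
  carrier := {c | c ∈ A ∧ c * c = 1 ∧ ∀ a ∈ A, a * c = c * a}
  mul_mem' := by
    rintro c d ⟨hc, hc2, hca⟩ ⟨hd, hd2, hda⟩
    refine ⟨A.mul_mem hc hd, ?_, ?_⟩
    · calc c * d * (c * d) = c * (d * c) * d := by group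
        _ = (c * c) * (d * d) := by rw [hca d hd]; group
        _ = 1 := by rw [hc2, hd2, one_mul]
    · intro a ha
      rw [← mul_assoc, hca a ha, mul_assoc, hda a ha, mul_assoc]
  one_mem' := ⟨A.one_mem, by rw [one_mul], fun a _ => by rw [mul_one, one_mul]⟩
  inv_mem' := by
    rintro c ⟨hc, hc2, hca⟩
    have h : c⁻¹ = c := inv_eq_of_mul_eq_one_left hc2
    rw [h]
    exact ⟨hc, hc2, hca⟩

theorem mem_omz {A : Subgroup G} {c : G} :
    c ∈ omz A ↔ c ∈ A ∧ c * c = 1 ∧ ∀ a ∈ A, a * c = c * a := Iff.rfl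

theorem omz_le (A : Subgroup G) : omz A ≤ A := fun _ h => h.1

/-- A nontrivial `2`-group has a central involution. -/
theorem omz_ne_bot [Finite G] {A : Subgroup G} (hA : IsPGroup 2 A) (h1 : A ≠ ⊥) : omz A ≠ ⊥ := by
  intro h
  have : Fact (Nat.Prime 2) := ⟨Nat.prime_two⟩
  have hnt : Nontrivial A := (Subgroup.nontrivial_iff_ne_bot A).2 h1
  have hc := hA.center_nontrivial
  have hcp : IsPGroup 2 (Subgroup.center A) := hA.to_subgroup _
  have hdvd : 2 ∣ Nat.card (Subgroup.center A) := by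
    obtain ⟨n, hn⟩ := hcp.exists_card_eq
    have : n ≠ 0 := by
      rintro rfl
      rw [pow_zero, Nat.card_eq_one_iff_unique] at hn
      exact not_subsingleton _ hn.1
    rw [hn]
    exact dvd_pow_self 2 this
  obtain ⟨c, hc2⟩ := exists_prime_orderOf_dvd_card' 2 hdvd
  have hcm : ((c : A) : G) ∈ omz A := by
    refine ⟨(c : A).2, ?_, ?_⟩
    · have h3 : c * c = 1 := by
        have := pow_orderOf_eq_one c
        rwa [hc2, pow_two] at this
      have h4 := congrArg (fun y : Subgroup.center A => ((y : A) : G)) h3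
      simpa using h4
    · intro a ha
      have h5 := (Subgroup.mem_center_iff.1 c.2) ⟨a, ha⟩
      have h6 := congrArg (fun y : A => (y : G)) h5
      simpa using h6
  rw [h, Subgroup.mem_bot] at hcm
  have h7 : c = 1 := by
    ext1; ext1
    simpa using hcm
  rw [h7, orderOf_one] at hc2
  norm_num at hc2

/-- The normal closure of `omz A` in `L`. -/
def vcl (L A : Subgroup G) : Subgroup G :=
  Subgroup.closure {y | ∃ g ∈ L, ∃ c ∈ omz A, y = g * c * g⁻¹}

theorem omz_le_vcl (L A : Subgroup G) : omz A ≤ vcl L A := by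
  intro c hc
  exact Subgroup.subset_closure ⟨1, L.one_mem, c, hc, by group⟩

theorem vcl_conj {L A : Subgroup G} {g y : G} (hg : g ∈ L) (hy : y ∈ vcl L A) :
    g * y * g⁻¹ ∈ vcl L A := by
  induction hy using Subgroup.closure_induction with
  | mem y hy =>
    obtain ⟨l, hl, c, hc, rfl⟩ := hy
    exact Subgroup.subset_closure ⟨g * l, L.mul_mem hg hl, c, hc, by group⟩
  | one =>
    have : g * 1 * g⁻¹ = 1 := by group
    rw [this]; exact Subgroup.one_mem _
  | mul a b _ _ ha hb =>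
    have : g * (a * b) * g⁻¹ = (g * a * g⁻¹) * (g * b * g⁻¹) := by group
    rw [this]; exact Subgroup.mul_mem _ ha hb
  | inv a _ ha =>
    have : g * a⁻¹ * g⁻¹ = (g * a * g⁻¹)⁻¹ := by group
    rw [this]; exact Subgroup.inv_mem _ ha

/-- The hypotheses on `A`, `K`, `P`, `L`. -/
structure TL (A K P L : Subgroup G) : Prop where
  A2 : IsPGroup 2 A
  AL : A ≤ L
  Kn : ∀ g ∈ L, ∀ n ∈ K, g * n * g⁻¹ ∈ K
  KA : K ≤ A
  idx : K.relIndex A = 2
  P3 : IsPGroup 3 P
  PL : P ≤ L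
  Pab : ∀ a ∈ P, ∀ b ∈ P, a * b = b * a
  Leq : ∀ g ∈ L, ∃ a ∈ A, ∃ y ∈ P, g = a * y
  inv : ∀ a ∈ A, a ∉ K → ∀ y ∈ P, a * y * a⁻¹ * y ∈ K
  ni : ∃ n ∈ K, ∃ y ∈ P, n * y ≠ y * n

namespace TL

variable {A K P L : Subgroup G}

theorem A_ne_bot (h : TL A K P L) : A ≠ ⊥ := by
  obtain ⟨n, hn, y, hy, hc⟩ := h.ni
  rintro rfl
  have := h.KA hn
  rw [Subgroup.mem_bot] at this
  subst this
  apply hc; rw [one_mul, mul_one]

theorem split (h : TL A K P L) {a b : G} (ha : a ∈ A) (hb : b ∈ A) (ha' : a ∉ K) (hb' : b ∉ K) :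
    a⁻¹ * b ∈ K := by
  have hidx : (K.subgroupOf A).index = 2 := h.idx
  have := (Subgroup.mul_mem_iff_of_index_two hidx (a := (⟨a, ha⟩ : A)⁻¹) (b := ⟨b, hb⟩)).2 (by
    rw [Subgroup.inv_mem_iff]
    simp only [Subgroup.mem_subgroupOf]
    constructor
    · intro h1; exact absurd h1 ha'
    · intro h1; exact absurd h1 hb')
  simpa [Subgroup.mem_subgroupOf] using this

theorem conj_inv_K (h : TL A K P L) {g n : G} (hg : g ∈ L) (hn : n ∈ K) : g⁻¹ * n * g ∈ K := by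
  have := h.Kn g⁻¹ (L.inv_mem hg) n hn
  rwa [inv_inv] at this

/-- The involutions of the centre lie in `K`. -/
theorem omz_le_K (h : TL A K P L) : omz A ≤ K := by
  intro c hc
  by_contra hcK
  obtain ⟨n₀, hn₀, y, hy, hne⟩ := h.ni
  apply hne
  have hcA : c ∈ A := hc.1
  have hcc : ∀ n ∈ K, c * n = n * c := fun n hn => (hc.2.2 n (h.KA hn)).symm
  set κ := c * y * c⁻¹ * y with hκ
  have hκK : κ ∈ K := h.inv c hcA hcK y hy
  have hyL : y ∈ L := h.PL hy
  have key : ∀ n ∈ K, κ * n * κ⁻¹ = (y * y) * n * (y * y)⁻¹ := by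
    intro n hn
    have h1 : y * n * y⁻¹ ∈ K := h.Kn y hyL n hn
    have h2 : y * (y * n * y⁻¹) * y⁻¹ ∈ K := h.Kn y hyL _ h1
    have h3 := hcc _ h1
    have h4 := hcc _ h2
    calc κ * n * κ⁻¹ = c * y * (c⁻¹ * (y * n * y⁻¹) * c) * y⁻¹ * c⁻¹ := by rw [hκ]; group
      _ = c * y * (c⁻¹ * ((y * n * y⁻¹) * c)) * y⁻¹ * c⁻¹ := by group
      _ = c * y * (c⁻¹ * (c * (y * n * y⁻¹))) * y⁻¹ * c⁻¹ := by rw [h3]
      _ = (c * (y * (y * n * y⁻¹) * y⁻¹)) * c⁻¹ := by group
      _ = ((y * (y * n * y⁻¹) * y⁻¹) * c) * c⁻¹ := by rw [h4]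
      _ = (y * y) * n * (y * y)⁻¹ := by group
  have keyp : ∀ m : ℕ, ∀ n ∈ K, κ ^ m * n * (κ ^ m)⁻¹ = (y * y) ^ m * n * ((y * y) ^ m)⁻¹ := by
    intro m
    induction m with
    | zero => intro n _; simp
    | succ m ih =>
      intro n hn
      have h1 : κ * n * κ⁻¹ ∈ K := K.mul_mem (K.mul_mem hκK hn) (K.inv_mem hκK)
      calc κ ^ (m + 1) * n * (κ ^ (m + 1))⁻¹ = κ ^ m * (κ * n * κ⁻¹) * (κ ^ m)⁻¹ := by
            rw [pow_succ]; group
        _ = (y * y) ^ m * (κ * n * κ⁻¹) * ((y * y) ^ m)⁻¹ := ih _ h1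
        _ = (y * y) ^ m * ((y * y) * n * (y * y)⁻¹) * ((y * y) ^ m)⁻¹ := by rw [key n hn]
        _ = (y * y) ^ (m + 1) * n * ((y * y) ^ (m + 1))⁻¹ := by rw [pow_succ]; group
  obtain ⟨k, hk⟩ := h.A2 ⟨κ, h.KA hκK⟩
  have hk' : κ ^ (2 ^ k) = 1 := by simpa using congrArg (fun t : A => (t : G)) hk
  obtain ⟨l, hl⟩ := h.P3 ⟨y, hy⟩
  have hl' : y ^ (3 ^ l) = 1 := by simpa using congrArg (fun t : P => (t : G)) hl
  let C : Subgroup G := Subgroup.centralizer (K : Set G)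
  have h1 : y ^ (2 * 2 ^ k) ∈ C := by
    rw [Subgroup.mem_centralizer_iff]
    intro n hn
    have h2 := keyp (2 ^ k) n hn
    rw [hk', ← pow_two, ← pow_mul] at h2
    have h3 : n = y ^ (2 * 2 ^ k) * n * (y ^ (2 * 2 ^ k))⁻¹ := by
      rw [← h2]; group
    calc n * y ^ (2 * 2 ^ k) = (y ^ (2 * 2 ^ k) * n * (y ^ (2 * 2 ^ k))⁻¹) * y ^ (2 * 2 ^ k) := by
          rw [← h3]
      _ = y ^ (2 * 2 ^ k) * n := by group
  have h2 : y ^ (3 ^ l) ∈ C := by rw [hl']; exact C.one_mem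
  have h3 : Nat.Coprime (2 * 2 ^ k) (3 ^ l) := by
    rw [← pow_succ']
    exact Nat.Coprime.pow _ _ (by norm_num)
  have h4 := mem_of_coprime_pow h1 h2 h3
  rw [Subgroup.mem_centralizer_iff] at h4
  exact h4 n₀ hn₀

theorem vcl_le_K (h : TL A K P L) : vcl L A ≤ K := by
  rw [vcl, Subgroup.closure_le]
  rintro y ⟨g, hg, c, hc, rfl⟩
  exact h.Kn g hg c (h.omz_le_K hc)

theorem K_comm_vcl (h : TL A K P L) {n v : G} (hn : n ∈ K) (hv : v ∈ vcl L A) : n * v = v * n := by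
  induction hv using Subgroup.closure_induction with
  | mem y hy =>
    obtain ⟨g, hg, c, hc, rfl⟩ := hy
    have h1 := hc.2.2 _ (h.KA (h.conj_inv_K hg hn))
    calc n * (g * c * g⁻¹) = g * ((g⁻¹ * n * g) * c) * g⁻¹ := by group
      _ = g * (c * (g⁻¹ * n * g)) * g⁻¹ := by rw [h1]
      _ = g * c * g⁻¹ * n := by group
  | one => rw [mul_one, one_mul]
  | mul a b _ _ ha hb => rw [← mul_assoc, ha, mul_assoc, hb, mul_assoc]
  | inv a _ ha =>
    calc n * a⁻¹ = a⁻¹ * (a * n) * a⁻¹ := by group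
      _ = a⁻¹ * (n * a) * a⁻¹ := by rw [ha]
      _ = a⁻¹ * n := by group

theorem vcl_comm (h : TL A K P L) {u v : G} (hu : u ∈ vcl L A) (hv : v ∈ vcl L A) :
    u * v = v * u := h.K_comm_vcl (h.vcl_le_K hu) hv

theorem vcl_sq (h : TL A K P L) {v : G} (hv : v ∈ vcl L A) : v * v = 1 := by
  induction hv using Subgroup.closure_induction with
  | mem y hy =>
    obtain ⟨g, hg, c, hc, rfl⟩ := hy
    calc g * c * g⁻¹ * (g * c * g⁻¹) = g * (c * c) * g⁻¹ := by group
      _ = 1 := by rw [hc.2.1]; group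
  | one => rw [mul_one]
  | mul a b ha' hb' ha hb =>
    have := h.vcl_comm ha' hb'
    calc a * b * (a * b) = a * (b * a) * b := by group
      _ = a * (a * b) * b := by rw [this]
      _ = (a * a) * (b * b) := by group
      _ = 1 := by rw [ha, hb, one_mul]
  | inv a _ ha =>
    rw [inv_eq_of_mul_eq_one_left ha]; exact ha

/-- An element of `vcl L A` commuting with some `b ∈ A`, `b ∉ K`, lies in `omz A`. -/
theorem mem_omz_of_comm (h : TL A K P L) {b v : G} (hb : b ∈ A) (hbK : b ∉ K)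
    (hv : v ∈ vcl L A) (hc : b * v = v * b) : v ∈ omz A := by
  refine ⟨h.KA (h.vcl_le_K hv), h.vcl_sq hv, ?_⟩
  intro a ha
  by_cases haK : a ∈ K
  · exact h.K_comm_vcl haK hv
  · have h1 := h.split hb ha hbK haK
    have h2 := h.K_comm_vcl h1 hv
    calc a * v = b * ((b⁻¹ * a) * v) := by group
      _ = b * (v * (b⁻¹ * a)) := by rw [h2]
      _ = (b * v) * (b⁻¹ * a) := by group
      _ = (v * b) * (b⁻¹ * a) := by rw [hc]
      _ = v * a := by group

/-- `v ∈ omz A` and `y⁻¹ v y ∈ omz A` force `v` to commute with `y ∈ P`. -/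
theorem comm_of_two (h : TL A K P L) {b : G} (hb : b ∈ A) (hbK : b ∉ K) {y v : G} (hy : y ∈ P)
    (hv : v ∈ omz A) (hv' : y⁻¹ * v * y ∈ omz A) : y * v = v * y := by
  have hκ := h.inv b hb hbK y hy
  have hvV : v ∈ vcl L A := omz_le_vcl L A hv
  have h1 := h.K_comm_vcl hκ hvV
  have h2 := hv.2.2 b hb
  have h3 := hv'.2.2 b hb
  -- `v` commutes with `y b y⁻¹`
  have h4 : (y * b * y⁻¹) * v = v * (y * b * y⁻¹) := by
    calc (y * b * y⁻¹) * v = y * (b * (y⁻¹ * v * y)) * y⁻¹ := by group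
      _ = y * ((y⁻¹ * v * y) * b) * y⁻¹ := by rw [h3]
      _ = v * (y * b * y⁻¹) := by group
  let C : Subgroup G := Subgroup.centralizer {v}
  have hC : ∀ g : G, g ∈ C ↔ v * g = g * v := by
    intro g
    rw [Subgroup.mem_centralizer_iff]
    constructor
    · intro hg; exact hg v rfl
    · rintro hg w rfl; exact hg
  have hbC : b ∈ C := (hC b).2 h2.symm
  have hyb : y * b * y⁻¹ ∈ C := (hC _).2 h4.symm
  have hκC : b * y * b⁻¹ * y ∈ C := (hC _).2 h1.symm
  have hyy : y * y ∈ C := by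
    have e : y * y = (y * b * y⁻¹) * b⁻¹ * (b * y * b⁻¹ * y) := by group
    rw [e]
    exact C.mul_mem (C.mul_mem hyb (C.inv_mem hbC)) hκC
  obtain ⟨l, hl⟩ := h.P3 ⟨y, hy⟩
  have hl' : y ^ (3 ^ l) = 1 := by simpa using congrArg (fun t : P => (t : G)) hl
  have h5 : y ∈ C := by
    apply mem_of_coprime_pow (m := 2) (n := 3 ^ l)
    · rw [pow_two]; exact hyy
    · rw [hl']; exact C.one_mem
    · exact Nat.Coprime.pow_right _ (by norm_num)
  exact ((hC y).1 h5).symm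

end TL

end MP_5771ce_al
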