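import Pool.Agent.Lib.MP_5771ce_al.MC

/-!
# From `there is no minimal counterexample` to the main theorem
-/

open scoped Pointwise commutatorElement

universe u

namespace MP_5771ce_al

/-- If there is no minimal counterexample then every soluble hereditarily permutable subgroup lies
in the soluble radical. -/
theorem le_rad_of_no_MC (hno : ∀ (G : Type u) [Group G] [Finite G] (A : Subgroup G), ¬ MC A)
    (G : Type u) [Group G] [Finite G] (A : Subgroup G) (hA : HerPermutable A)
    (hs : Group.IsSolvable A) : A ≤ rad (⊤ : Subgroup G) := by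
  suffices h : ∀ (n : ℕ) (G : Type u) [Group G] [Finite G] (A : Subgroup G), Nat.card G = n →
      HerPermutable A → Group.IsSolvable A → A ≤ rad (⊤ : Subgroup G) from h _ G A rfl hA hs
  intro n
  induction n using Nat.strong_induction_on with
  | _ n ih =>
  intro G _ _ A hn hA hs
  by_contra hle
  apply hno G A
  refine ⟨hA, hs, hle, ?_⟩
  intro E _ _ B hlt hB hBs
  exact ih (Nat.card E) (by omega) E B rfl hB hBs

/-- If there is no minimal counterexample, then `A^G / A_G` is soluble for every hereditarily
permutable subgroup `A`. -/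
theorem isSolvable_normalClosure_quotient
    (hno : ∀ (G : Type u) [Group G] [Finite G] (A : Subgroup G), ¬ MC A)
    (G : Type u) [Group G] [Finite G] (A : Subgroup G) (hA : HerPermutable A) :
    Group.IsSolvable (Subgroup.normalClosure (A : Set G) ⧸
      A.normalCore.subgroupOf (Subgroup.normalClosure (A : Set G))) := by
  set N := A.normalCore with hN
  set π := QuotientGroup.mk' N with hπ
  have hπs : Function.Surjective π := QuotientGroup.mk'_surjective N
  have hker : ∀ x : G, π x = 1 ↔ x ∈ N := fun x => by
    rw [hπ, QuotientGroup.mk'_apply, QuotientGroup.eq_one_iff]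
  have hq := isSolvable_quotient_core hA
  have hAs : Group.IsSolvable (A.map π) := by
    let f : A →* A.map π := π.subgroupMap A
    have hf : Function.Surjective f := π.subgroupMap_surjective A
    have hle : N.subgroupOf A ≤ f.ker := by
      intro x hx
      rw [MonoidHom.mem_ker]
      apply Subtype.ext
      exact (hker x).2 hx
    refine Group.isSolvable_of_surjective (f := QuotientGroup.lift (N.subgroupOf A) f
      (fun x hx => hle hx)) ?_
    intro y
    obtain ⟨x, rfl⟩ := hf y
    exact ⟨QuotientGroup.mk x, rfl⟩
  have hle := le_rad_of_no_MC hno (G ⧸ N) (A.map π) (hA.map hπs) hAs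
  set R := (rad (⊤ : Subgroup (G ⧸ N))).comap π with hR
  have hRn : R.Normal := (normalIn_top.1 (rad_normalIn _)).comap _
  have hAR : A ≤ R := Subgroup.map_le_iff_le_comap.1 hle
  have hCR : Subgroup.normalClosure (A : Set G) ≤ R := Subgroup.normalClosure_le_normal hAR
  have hRs : Group.IsSolvable (rad (⊤ : Subgroup (G ⧸ N))) := rad_isSolvable ⊤
  let g : Subgroup.normalClosure (A : Set G) →* rad (⊤ : Subgroup (G ⧸ N)) :=
    (π.subgroupComap (rad (⊤ : Subgroup (G ⧸ N)))).comp (Subgroup.inclusion hCR)
  have hg : ∀ x, g x = 1 ↔ x ∈ N.subgroupOf (Subgroup.normalClosure (A : Set G)) := by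
    intro x
    rw [Subgroup.mem_subgroupOf, ← hker, Subtype.ext_iff]
    rfl
  refine Group.isSolvable_of_isSolvable_injective (f := QuotientGroup.lift
    (N.subgroupOf (Subgroup.normalClosure (A : Set G))) g (fun x hx => (hg x).2 hx)) ?_
  rw [injective_iff_map_eq_one]
  intro y
  refine QuotientGroup.induction_on y ?_
  intro x hx
  rw [QuotientGroup.eq_one_iff]
  exact (hg x).1 hx

/-- If there is no minimal counterexample, then a finite nonabelian simple group has no nontrivial
proper hereditarily permutable subgroup. -/
theorem no_simple (hno : ∀ (G : Type u) [Group G] [Finite G] (A : Subgroup G), ¬ MC A)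
    (G : Type u) [Group G] [Finite G] [IsSimpleGroup G] (hna : ∃ a b : G, a * b ≠ b * a)
    (A : Subgroup G) (hA : HerPermutable A) : A = ⊥ ∨ A = ⊤ := by
  by_cases hAt : A = ⊤
  · exact Or.inr hAt
  left
  have hs := isSolvable_of_simple hA hAt
  have hle := le_rad_of_no_MC hno G A hA hs
  have hrn : (rad (⊤ : Subgroup G)).Normal := normalIn_top.1 (rad_normalIn _)
  rcases IsSimpleGroup.eq_bot_or_eq_top_of_normal (rad (⊤ : Subgroup G)) hrn with h | h
  · rw [h] at hle
    exact le_bot_iff.1 hle
  · exfalso
    have h1 : Group.IsSolvable G := isSolvable_of_top h (rad_isSolvable ⊤)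
    obtain ⟨a, b, hab⟩ := hna
    exact hab (IsSimpleGroup.comm_iff_isSolvable.2 h1 a b)

end MP_5771ce_al
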