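import Pool.Agent.Lib.MP_5771ce_al.Prime

/-!
# Characteristic functors and hereditarily permutable subgroups of prime power index
-/

open scoped Pointwise

universe u

namespace MP_5771ce_al

/-- The soluble residual of `A`, as the join of all perfect subgroups of `A`. -/
def perfCore {G : Type u} [Group G] (A : Subgroup G) : Subgroup G :=
  sSup {S | S ≤ A ∧ ⁅S, S⁆ = S}

/-- The subgroup of `A` generated by all elements of `A` whose order is a power of `q`. -/
def qgen (q : ℕ) {G : Type u} [Group G] (A : Subgroup G) : Subgroup G :=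
  Subgroup.closure {x | x ∈ A ∧ ∃ k, orderOf x = q ^ k}

/-- A functor choosing a characteristic subgroup of every subgroup of a finite group. -/
structure Funct (Φ : ∀ (G : Type u) [Group G], Subgroup G → Subgroup G) : Prop where
  le : ∀ (G : Type u) [Group G] [Finite G] (A : Subgroup G), Φ G A ≤ A
  mono : ∀ (G : Type u) [Group G] [Finite G] (A B : Subgroup G), A ≤ B → Φ G A ≤ Φ G B
  idem : ∀ (G : Type u) [Group G] [Finite G] (A : Subgroup G), Φ G (Φ G A) = Φ G A
  map : ∀ (G H : Type u) [Group G] [Group H] [Finite G] [Finite H] (f : G →* H)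
    (A : Subgroup G), Φ H (A.map f) = (Φ G A).map f

variable {G : Type u} [Group G]

theorem perfCore_le (A : Subgroup G) : perfCore A ≤ A := sSup_le fun _ h => h.1

theorem perfCore_mono {A B : Subgroup G} (h : A ≤ B) : perfCore A ≤ perfCore B :=
  sSup_le_sSup fun _ hS => ⟨hS.1.trans h, hS.2⟩

theorem commutator_self_le (A : Subgroup G) : ⁅A, A⁆ ≤ A := by
  rw [Subgroup.commutator_le]
  intro x hx y hy
  exact A.mul_mem (A.mul_mem (A.mul_mem hx hy) (A.inv_mem hx)) (A.inv_mem hy)

theorem perfCore_perfect (A : Subgroup G) : ⁅perfCore A, perfCore A⁆ = perfCore A := by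
  apply le_antisymm (commutator_self_le _)
  conv_lhs => unfold perfCore
  refine sSup_le fun S hS => ?_
  have h : S ≤ perfCore A := le_sSup hS
  calc S = ⁅S, S⁆ := hS.2.symm
    _ ≤ _ := Subgroup.commutator_mono h h

theorem le_perfCore {A S : Subgroup G} (h : S ≤ A) (hS : ⁅S, S⁆ = S) : S ≤ perfCore A :=
  le_sSup ⟨h, hS⟩

theorem funct_perfCore : Funct (fun _ _ A => perfCore A : ∀ (G : Type u) [Group G],
    Subgroup G → Subgroup G) where
  le := by
    intro G _ _ A
    exact perfCore_le A
  mono := by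
    intro G _ _ A B h
    exact perfCore_mono h
  idem := by
    intro G _ _ A
    exact le_antisymm (perfCore_le _) (le_perfCore le_rfl (perfCore_perfect A))
  map := by
    intro G H _ _ _ _ f A
    apply le_antisymm
    · show perfCore (A.map f) ≤ (perfCore A).map f
      refine sSup_le ?_
      rintro S ⟨hSA, hS⟩
      let T : Set (Subgroup G) := {T | T ≤ A ∧ T.map f = S}
      have hT : T.Nonempty := by
        refine ⟨A ⊓ S.comap f, inf_le_left, ?_⟩
        apply le_antisymm
        · rintro _ ⟨x, hx, rfl⟩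
          exact hx.2
        · intro y hy
          obtain ⟨x, hx, rfl⟩ := hSA hy
          exact ⟨x, ⟨hx, hy⟩, rfl⟩
      obtain ⟨T₀, hT₀, hmin⟩ := Set.Finite.exists_minimal (Set.toFinite T) hT
      have h1 : ⁅T₀, T₀⁆ ∈ T := by
        refine ⟨(commutator_self_le _).trans hT₀.1, ?_⟩
        rw [Subgroup.map_commutator, hT₀.2, hS]
      have h2 := hmin h1 (commutator_self_le _)
      rw [← hT₀.2]
      exact Subgroup.map_mono (le_perfCore hT₀.1 (le_antisymm (commutator_self_le _) h2))
    · refine le_perfCore (Subgroup.map_mono (perfCore_le A)) ?_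
      rw [← Subgroup.map_commutator, perfCore_perfect]

theorem qgen_le (q : ℕ) (A : Subgroup G) : qgen q A ≤ A := by
  rw [qgen, Subgroup.closure_le]
  exact fun x hx => hx.1

theorem mem_qgen {q : ℕ} {A : Subgroup G} {x : G} (hx : x ∈ A) {k : ℕ} (hk : orderOf x = q ^ k) :
    x ∈ qgen q A :=
  Subgroup.subset_closure ⟨hx, k, hk⟩

theorem funct_qgen {q : ℕ} (hq : q.Prime) : Funct (fun _ _ A => qgen q A :
    ∀ (G : Type u) [Group G], Subgroup G → Subgroup G) where
  le := by
    intro G _ _ A
    exact qgen_le q A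
  mono := by
    intro G _ _ A B h
    exact Subgroup.closure_mono fun x hx => ⟨h hx.1, hx.2⟩
  idem := by
    intro G _ _ A
    apply le_antisymm (qgen_le _ _)
    show qgen q A ≤ qgen q (qgen q A)
    conv_lhs => unfold qgen
    rw [Subgroup.closure_le]
    rintro x ⟨hx, k, hk⟩
    exact mem_qgen (mem_qgen hx hk) hk
  map := by
    intro G H _ _ _ _ f A
    apply le_antisymm
    · show qgen q (A.map f) ≤ (qgen q A).map f
      conv_lhs => unfold qgen
      rw [Subgroup.closure_le]
      rintro _ ⟨⟨a, ha, rfl⟩, k, hk⟩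
      have hn : orderOf a ≠ 0 := (orderOf_pos a).ne'
      have hcop : (orderOf a / q ^ (orderOf a).factorization q).Coprime (orderOf (f a)) := by
        rw [hk]
        exact ((Nat.coprime_ordCompl hq hn).pow_left k).symm
      obtain ⟨t, ht⟩ := exists_pow_eq_self_of_coprime hcop
      have hd : orderOf ((a ^ (orderOf a / q ^ (orderOf a).factorization q)) ^ t) ∣
          q ^ (orderOf a).factorization q := by
        rw [orderOf_dvd_iff_pow_eq_one, ← pow_mul a, ← pow_mul a]
        have : orderOf a / q ^ (orderOf a).factorization q * t *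
            q ^ (orderOf a).factorization q = orderOf a * t := by
          have h1 := Nat.ordProj_mul_ordCompl_eq_self (orderOf a) q
          calc _ = (q ^ (orderOf a).factorization q *
            (orderOf a / q ^ (orderOf a).factorization q)) * t := by ring
            _ = orderOf a * t := by rw [h1]
        rw [this, pow_mul, pow_orderOf_eq_one, one_pow]
      obtain ⟨s, -, hs⟩ := (Nat.dvd_prime_pow hq).1 hd
      refine ⟨(a ^ (orderOf a / q ^ (orderOf a).factorization q)) ^ t,
        mem_qgen (pow_mem (pow_mem ha _) _) hs, ?_⟩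
      rw [map_pow, map_pow, ht]
    · show (qgen q A).map f ≤ qgen q (A.map f)
      rw [Subgroup.map_le_iff_le_comap]
      conv_lhs => unfold qgen
      rw [Subgroup.closure_le]
      rintro x ⟨hx, k, hk⟩
      have hd : orderOf (f x) ∣ q ^ k := by
        rw [← hk]; exact orderOf_map_dvd f x
      obtain ⟨s, -, hs⟩ := (Nat.dvd_prime_pow hq).1 hd
      exact mem_qgen ⟨x, hx, rfl⟩ hs

/-! ### General properties -/

variable {Φ : ∀ (G : Type u) [Group G], Subgroup G → Subgroup G}

theorem Funct.normal (hΦ : Funct Φ) [Finite G] {D : Subgroup G} (hD : D.Normal) :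
    (Φ G D).Normal := by
  refine ⟨fun x hx g => ?_⟩
  have h1 : D.map (MulAut.conj g).toMonoidHom = D := by
    apply Subgroup.eq_of_le_of_card_ge
    · rintro _ ⟨y, hy, rfl⟩
      exact hD.conj_mem y hy g
    · exact (Nat.card_congr (D.equivMapOfInjective _ (MulAut.conj g).injective).symm.toEquiv).ge
  have h2 := hΦ.map G G (MulAut.conj g).toMonoidHom D
  rw [h1] at h2
  rw [h2]
  exact ⟨x, hx, rfl⟩

/-- `Φ` computed inside a subgroup. -/
theorem Funct.eq_map_top (hΦ : Funct Φ) [Finite G] (M : Subgroup G) :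
    Φ G M = (Φ M ⊤).map M.subtype := by
  rw [← hΦ.map]
  congr 1
  ext x; simp

theorem Funct.eq_map_subgroupOf (hΦ : Funct Φ) [Finite G] {A M : Subgroup G} (h : A ≤ M) :
    Φ G A = (Φ M (A.subgroupOf M)).map M.subtype := by
  rw [← hΦ.map, Subgroup.subgroupOf_map_subtype, inf_of_le_left h]

/-- Induction step. -/
theorem Funct.step (hΦ : Funct Φ) [Finite G] {A M N : Subgroup G} [N.Normal] (hNM : N ≤ M)
    (hAM : A ≤ M) (hM : Φ G M ≤ Φ G A)
    (h : (Φ (G ⧸ N) (A.map (QuotientGroup.mk' N))).Normal) : (Φ G A).Normal := by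
  set D := (Φ (G ⧸ N) (A.map (QuotientGroup.mk' N))).comap (QuotientGroup.mk' N) with hDdef
  have hDn : D.Normal := h.comap _
  have hD2 : D = Φ G A ⊔ N := by
    rw [hDdef, hΦ.map, Subgroup.comap_map_eq, QuotientGroup.ker_mk']
  have hDM : D ≤ M := by
    rw [hD2]
    exact sup_le ((hΦ.le G A).trans hAM) hNM
  have hΦD : Φ G D = Φ G A := by
    apply le_antisymm
    · exact (hΦ.mono G _ _ hDM).trans hM
    · rw [← hΦ.idem G A]
      apply hΦ.mono
      rw [hD2]
      exact le_sup_left
  rw [← hΦD]
  exact hΦ.normal hDn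

/-- A maximal permutable subgroup has prime index, and functors vanishing on metabelian groups of
order dividing `p (p - 1)` have their value on `G` inside `A`. -/
theorem coatom_main [Finite G] {A : Subgroup G} (hA : IsCoatom A) (hE : EPermutable A ⊤) :
    ∃ p : ℕ, p.Prime ∧ A.index = p ∧
      ∀ Φ : (∀ (G : Type u) [Group G], Subgroup G → Subgroup G), Funct Φ →
        (∀ (H : Type u) [Group H] [Finite H], Nat.card H ∣ p * (p - 1) →
          ⁅commutator H, commutator H⁆ = ⊥ → Φ H ⊤ = ⊥) → Φ G ⊤ ≤ A := by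
  let f := (MulAction.toPermHom G (G ⧸ A)).rangeRestrict
  have hf : Function.Surjective f := MonoidHom.rangeRestrict_surjective _
  have hfs : ∀ (g : G) (i : G ⧸ A), f g • i = g • i := fun g i => rfl
  have hD : FixOrTrans (MulAction.toPermHom G (G ⧸ A)).range (G ⧸ A) := by
    intro B
    obtain ⟨x, -, hp⟩ := hE (B.comap f) le_top
    by_cases hle : conjBy (B.comap f) x ≤ A
    · left
      refine ⟨QuotientGroup.mk x, fun b hb => ?_⟩
      obtain ⟨g, rfl⟩ := hf b
      rw [hfs]
      have h1 : x⁻¹ * g * x ∈ A := hle (mem_conjBy.2 (by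
        have : x * (x⁻¹ * g * x) * x⁻¹ = g := by group
        rw [this]; exact hb))
      show (QuotientGroup.mk (g * x) : G ⧸ A) = QuotientGroup.mk x
      rw [QuotientGroup.eq]
      have h2 := A.inv_mem h1
      have h3 : (x⁻¹ * g * x)⁻¹ = (g * x)⁻¹ * x := by group
      rwa [h3] at h2
    · right
      have ht : A ⊔ conjBy (B.comap f) x = ⊤ := by
        apply hA.2
        rw [lt_iff_le_and_ne]
        exact ⟨le_sup_left, fun h => hle (le_of_le_of_eq le_sup_right h.symm)⟩
      have key : ∀ j : G ⧸ A, ∃ b ∈ B, b • (QuotientGroup.mk x : G ⧸ A) = j := by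
        intro j
        induction j using QuotientGroup.induction_on with
        | H y =>
        obtain ⟨c, hc, a, ha, e⟩ := hp.exists_eq ht (x⁻¹ * y)
        refine ⟨f (x * c * x⁻¹), mem_conjBy.1 hc, ?_⟩
        rw [hfs]
        show (QuotientGroup.mk (x * c * x⁻¹ * x) : G ⧸ A) = QuotientGroup.mk y
        rw [QuotientGroup.eq]
        have : (x * c * x⁻¹ * x)⁻¹ * y = a := by
          have h4 : y = x * (c * a) := by rw [e]; group
          rw [h4]; group
        rwa [this]
      intro i j
      obtain ⟨b, hb, h1⟩ := key i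
      obtain ⟨c, hc, h2⟩ := key j
      refine ⟨c * b⁻¹, B.mul_mem hc (B.inv_mem hb), ?_⟩
      rw [mul_smul, ← h1, inv_smul_smul, h2]
  have hpre : MulAction.IsPretransitive (MulAction.toPermHom G (G ⧸ A)).range (G ⧸ A) := by
    refine ⟨fun i j => ?_⟩
    obtain ⟨g, hg⟩ := MulAction.exists_smul_eq G i j
    exact ⟨f g, hg⟩
  have hnt : Nontrivial (G ⧸ A) := by
    rw [← Finite.one_lt_card_iff_nontrivial, ← Subgroup.index_eq_card]
    exact Subgroup.one_lt_index_of_ne_top hA.1
  have hfaith : FaithfulSMul (MulAction.toPermHom G (G ⧸ A)).range (G ⧸ A) := by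
    refine ⟨fun {a b} h => ?_⟩
    apply Subtype.ext
    ext i
    exact h i
  obtain ⟨p, hp, h1, h2, h3⟩ := fixOrTrans_main hD
  refine ⟨p, hp, by rw [Subgroup.index_eq_card, h1], ?_⟩
  intro Φ hΦ hv
  have h4 := hv _ h2 h3
  have h5 : (Φ G ⊤).map f = ⊥ := by
    rw [← hΦ.map, Subgroup.map_top_of_surjective f hf, h4]
  intro x hx
  have h6 : f x = 1 := by
    have : f x ∈ (Φ G ⊤).map f := ⟨x, hx, rfl⟩
    rw [h5] at this
    exact this
  have h7 : x • (QuotientGroup.mk 1 : G ⧸ A) = QuotientGroup.mk 1 := by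
    rw [← hfs, h6, one_smul]
  have h8 : (QuotientGroup.mk (x * 1) : G ⧸ A) = QuotientGroup.mk 1 := h7
  rw [QuotientGroup.eq] at h8
  simpa using h8

theorem perfCore_top_of_metabelian {H : Type u} [Group H]
    (h : ⁅commutator H, commutator H⁆ = ⊥) : perfCore (⊤ : Subgroup H) = ⊥ := by
  have h1 : perfCore (⊤ : Subgroup H) ≤ commutator H := by
    rw [← perfCore_perfect]
    exact Subgroup.commutator_mono le_top le_top
  rw [eq_bot_iff, ← h, ← perfCore_perfect]
  exact Subgroup.commutator_mono h1 h1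

theorem qgen_eq_bot_of_not_dvd {q : ℕ} {H : Type u} [Group H] [Finite H]
    {A : Subgroup H} (h : ¬ q ∣ Nat.card A) : qgen q A = ⊥ := by
  rw [eq_bot_iff]
  conv_lhs => unfold qgen
  rw [Subgroup.closure_le]
  rintro x ⟨hx, k, hk⟩
  rw [SetLike.mem_coe, Subgroup.mem_bot, ← orderOf_eq_one_iff, hk]
  rcases Nat.eq_zero_or_pos k with rfl | hk0
  · simp
  · exfalso
    apply h
    have h1 : orderOf x ∣ Nat.card A := Subgroup.orderOf_dvd_natCard A hx
    rw [hk] at h1
    exact (dvd_pow_self q hk0.ne').trans h1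

/-- The soluble residual of a group with a maximal permutable subgroup `A` lies in `A`. -/
theorem perfCore_le_of_coatom [Finite G] {A : Subgroup G} (hA : IsCoatom A)
    (hE : EPermutable A ⊤) : perfCore (⊤ : Subgroup G) ≤ A := by
  obtain ⟨p, hp, -, h⟩ := coatom_main hA hE
  exact h _ funct_perfCore fun H _ _ _ h2 => perfCore_top_of_metabelian h2

theorem isCoatom_of_index_prime {A : Subgroup G} (h : A.index.Prime) : IsCoatom A := by
  refine ⟨fun h1 => ?_, fun B hB => ?_⟩
  · rw [h1, Subgroup.index_top] at h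
    exact Nat.not_prime_one h
  · have h1 := Subgroup.relIndex_mul_index hB.le
    have h2 : B.index ∣ A.index := Subgroup.index_dvd_of_le hB.le
    rcases (Nat.dvd_prime h).1 h2 with h3 | h3
    · exact Subgroup.index_eq_one.1 h3
    · exfalso
      rw [h3] at h1
      have h4 : A.relIndex B = 1 := Nat.mul_eq_right h.pos.ne' |>.1 h1
      exact hB.not_ge (Subgroup.relIndex_eq_one.1 h4)

theorem qgen_le_of_index [Finite G] {A : Subgroup G} {p q : ℕ} (hp : p.Prime) (hq : q.Prime)
    (hqp : q ≠ p) (hqp1 : ¬ q ∣ p - 1) (hi : A.index = p) (hE : EPermutable A ⊤) :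
    qgen q (⊤ : Subgroup G) ≤ A := by
  obtain ⟨p', hp', hi', h⟩ := coatom_main (isCoatom_of_index_prime (hi ▸ hp)) hE
  have : p' = p := hi'.symm.trans hi
  subst this
  refine h _ (funct_qgen hq) fun H _ _ h1 h2 => ?_
  apply qgen_eq_bot_of_not_dvd
  intro h3
  rw [Subgroup.card_top] at h3
  rcases (Nat.Prime.dvd_mul hq).1 (h3.trans h1) with h4 | h4
  · exact hqp ((Nat.prime_dvd_prime_iff_eq hq hp).1 h4)
  · exact hqp1 h4

end MP_5771ce_al
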