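import Pool.Agent.Lib.MP_5771ce_al.LemQ

open scoped Pointwise commutatorElement

universe u

namespace MP_5771ce_al

variable {G : Type u} [Group G]

/-!
# Power automorphisms, isolated pairs, Theorem M (`MP_5771ce_al`, sections 1.2, 1.3)
-/

/-- Every element of `A` acts on every cyclic subgroup of the `p`-group `R`, with an exponent
which modulo `p` does not depend on the cyclic subgroup. -/
theorem exists_uniform_mod [Finite G] {A R : Subgroup G} {p : ℕ} [hp : Fact p.Prime]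
    (hR : IsPGroup p R) (hinv : ∀ Y ≤ R, ∀ a ∈ A, ∀ y ∈ Y, a * y * a⁻¹ ∈ Y) {a : G}
    (ha : a ∈ A) : ∃ k₀ : ℕ, ∀ y ∈ R, ∃ k : ℕ, k ≡ k₀ [MOD p] ∧ a * y * a⁻¹ = y ^ k := by
  classical
  -- exponents for single elements
  have hex : ∀ y ∈ R, ∃ k : ℕ, a * y * a⁻¹ = y ^ k := by
    intro y hy
    have h1 := hinv (Subgroup.zpowers y) (by rwa [Subgroup.zpowers_le]) a ha y
      (Subgroup.mem_zpowers y)
    rw [← mem_powers_iff_mem_zpowers] at h1
    obtain ⟨k, hk⟩ := h1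
    exact ⟨k, hk.symm⟩
  by_cases hRb : R = ⊥
  · refine ⟨1, fun y hy => ⟨1, rfl, ?_⟩⟩
    rw [hRb, Subgroup.mem_bot] at hy
    rw [hy]; simp
  obtain ⟨z₀, hz₀R, hz₀, hz₀c⟩ := exists_central hR hRb
  obtain ⟨k₀, hk₀⟩ := hex z₀ hz₀R
  refine ⟨k₀, ?_⟩
  -- elements of order `p`
  have hordp : ∀ z ∈ R, z ^ p = 1 → a * z * a⁻¹ = z ^ k₀ := by
    intro z hz hzp
    have hcz : Commute z z₀ := by
      have := hz₀c z hz
      exact mul_inv_eq_iff_eq_mul.1 this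
    let Z : Subgroup G :=
      { carrier := {q | ∃ i j : ℤ, q = z ^ i * z₀ ^ j}
        mul_mem' := by
          rintro _ _ ⟨i, j, rfl⟩ ⟨i', j', rfl⟩
          refine ⟨i + i', j + j', ?_⟩
          rw [zpow_add, zpow_add]
          have h1 : z₀ ^ j * z ^ i' = z ^ i' * z₀ ^ j := ((hcz.zpow_zpow i' j).symm).eq
          calc z ^ i * z₀ ^ j * (z ^ i' * z₀ ^ j') = z ^ i * (z₀ ^ j * z ^ i') * z₀ ^ j' := by
                group
            _ = z ^ i * (z ^ i' * z₀ ^ j) * z₀ ^ j' := by rw [h1]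
            _ = _ := by group
        one_mem' := ⟨0, 0, by simp⟩
        inv_mem' := by
          rintro _ ⟨i, j, rfl⟩
          refine ⟨-i, -j, ?_⟩
          have h1 : z₀ ^ j * z ^ i = z ^ i * z₀ ^ j := ((hcz.zpow_zpow i j).symm).eq
          rw [← h1, mul_inv_rev, zpow_neg, zpow_neg] }
    have hZR : Z ≤ R := by
      rintro _ ⟨i, j, rfl⟩
      exact R.mul_mem (R.zpow_mem hz _) (R.zpow_mem hz₀R _)
    obtain ⟨k, hk⟩ := exists_uniform_exponent (r := p) Z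
      (by
        rintro _ ⟨i, j, rfl⟩ _ ⟨i', j', rfl⟩
        have h1 : Commute (z ^ i) (z ^ i') := (Commute.refl z).zpow_zpow _ _
        have h2 : Commute (z₀ ^ j) (z₀ ^ j') := (Commute.refl z₀).zpow_zpow _ _
        have h3 : Commute (z ^ i) (z₀ ^ j') := hcz.zpow_zpow _ _
        have h4 : Commute (z₀ ^ j) (z ^ i') := (hcz.zpow_zpow _ _).symm
        exact ((h1.mul_right h3).mul_left (h4.mul_right h2)).eq)
      (by
        rintro _ ⟨i, j, rfl⟩
        rw [(hcz.zpow_zpow i j).mul_pow, ← zpow_natCast, ← zpow_natCast, ← zpow_mul, ← zpow_mul,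
          mul_comm i, mul_comm j, zpow_mul, zpow_mul, zpow_natCast, zpow_natCast, hzp, ← hz₀,
          pow_orderOf_eq_one]
        simp)
      (MulAut.conj a).toMonoidHom
      (fun x hx => by
        obtain ⟨k, hk⟩ := hex x (hZR hx)
        exact ⟨k, hk⟩)
    have h1 : a * z * a⁻¹ = z ^ k := hk z ⟨1, 0, by simp⟩
    have h2 : a * z₀ * a⁻¹ = z₀ ^ k := hk z₀ ⟨0, 1, by simp⟩
    rw [hk₀] at h2
    rw [pow_eq_pow_iff_modEq, hz₀] at h2
    rw [h1]
    by_cases hz1 : z = 1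
    · simp [hz1]
    rw [pow_eq_pow_iff_modEq, orderOf_eq_prime hzp hz1]
    exact h2.symm
  intro y hy
  by_cases hy1 : y = 1
  · exact ⟨k₀, rfl, by simp [hy1]⟩
  obtain ⟨k, hk⟩ := hex y hy
  refine ⟨k, ?_, hk⟩
  -- a power of order `p`
  obtain ⟨n, hn⟩ := IsPGroup.iff_orderOf.1 hR ⟨y, hy⟩
  rw [Subgroup.orderOf_mk] at hn
  have hn0 : n ≠ 0 := by
    rintro rfl
    rw [pow_zero, orderOf_eq_one_iff] at hn
    exact hy1 hn
  obtain ⟨m, rfl⟩ := Nat.exists_eq_succ_of_ne_zero hn0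
  have hzo : orderOf (y ^ p ^ m) = p := by
    rw [orderOf_pow, hn]
    have h1 : Nat.gcd (p ^ (m + 1)) (p ^ m) = p ^ m :=
      Nat.gcd_eq_right (pow_dvd_pow p (Nat.le_succ m))
    rw [h1, pow_succ]
    exact Nat.mul_div_cancel_left _ (pow_pos hp.out.pos m)
  have h1 := hordp (y ^ p ^ m) (R.pow_mem hy _) (by
    have := pow_orderOf_eq_one (y ^ p ^ m)
    rwa [hzo] at this)
  have h2 : a * y ^ p ^ m * a⁻¹ = (y ^ p ^ m) ^ k := by
    rw [← conj_pow, hk, ← pow_mul, ← pow_mul, mul_comm]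
  rw [h2, pow_eq_pow_iff_modEq, hzo] at h1
  exact h1

/-- An element of `A` with exponent not `1` modulo `p`. -/
theorem exists_exponent_ne_one [Finite G] {A R X : Subgroup G} {p : ℕ} [hp : Fact p.Prime]
    (hR : IsPGroup p R) (hinv : ∀ Y ≤ R, ∀ a ∈ A, ∀ y ∈ Y, a * y * a⁻¹ ∈ Y) (hXR : X ≤ R)
    (hX : X ≠ ⊥) (hXA : X ≤ ⁅X, A⁆) :
    ∃ a ∈ A, ∃ k₀ : ℕ, ¬ k₀ ≡ 1 [MOD p] ∧
      ∀ y ∈ R, ∃ k : ℕ, k ≡ k₀ [MOD p] ∧ a * y * a⁻¹ = y ^ k := by
  by_contra hno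
  push Not at hno
  -- a maximal subgroup `M` of `X`
  have hXp : IsPGroup p X := hR.to_le hXR
  obtain ⟨n, hn⟩ := IsPGroup.iff_card.1 hXp
  have hn0 : n ≠ 0 := by
    rintro rfl
    rw [pow_zero] at hn
    exact hX (Subgroup.card_eq_one.1 hn)
  obtain ⟨m, rfl⟩ := Nat.exists_eq_succ_of_ne_zero hn0
  obtain ⟨M, hM⟩ := Sylow.exists_subgroup_card_pow_prime (G := X) p (n := m)
    (by rw [hn]; exact pow_dvd_pow p (Nat.le_succ m))
  have hMi : M.index = p := by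
    have h1 := Subgroup.card_mul_index M
    rw [hn, hM, pow_succ] at h1
    exact Nat.eq_of_mul_eq_mul_left (pow_pos hp.out.pos m) h1
  have hMn : M.Normal := by
    apply Subgroup.normal_of_index_eq_minFac_card
    rw [hMi, hn, Nat.Prime.pow_minFac hp.out (Nat.succ_ne_zero m)]
  have hpow : ∀ x : X, x ^ p ∈ M := by
    intro x
    rw [← hMi]
    exact Subgroup.pow_index_mem M x
  have hle : ⁅X, A⁆ ≤ M.map X.subtype := by
    rw [Subgroup.commutator_le]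
    intro x hx a ha
    obtain ⟨k₀, hk₀⟩ := exists_uniform_mod hR hinv ha
    have hk1 : k₀ ≡ 1 [MOD p] := by
      by_contra h
      obtain ⟨y, hy, hy'⟩ := hno a ha k₀ h
      obtain ⟨k, h1, h2⟩ := hk₀ y hy
      exact hy' k h1 h2
    obtain ⟨k, h1, h2⟩ := hk₀ x⁻¹ (R.inv_mem (hXR hx))
    have h3 : (k : ℤ) ≡ 1 [ZMOD p] := (Int.natCast_modEq_iff.2 (h1.trans hk1))
    obtain ⟨j, hj⟩ := (Int.modEq_iff_dvd.1 h3.symm)
    have h4 : ⁅x, a⁆ = (x ^ (p : ℤ)) ^ (-j) := by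
      rw [commutatorElement_def]
      have h5 : x * a * x⁻¹ * a⁻¹ = x * (a * x⁻¹ * a⁻¹) := by group
      rw [h5, h2, ← zpow_natCast, inv_zpow, ← zpow_neg, ← zpow_one_add, ← zpow_mul]
      congr 1
      have : (k : ℤ) = 1 + p * j := by linarith [hj]
      rw [this]; ring
    rw [h4]
    refine Subgroup.zpow_mem _ ?_ _
    refine ⟨(⟨x, hx⟩ : X) ^ p, hpow _, ?_⟩
    simp
  have h1 : M = ⊤ := by
    rw [eq_top_iff]
    intro x _
    obtain ⟨y, hy, e⟩ := hle (hXA x.2)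
    have : y = x := Subtype.ext e
    rwa [← this]
  rw [h1, Subgroup.index_top] at hMi
  exact hp.out.one_lt.ne hMi

/-- `R` is abelian. -/
theorem comm_of_power [Finite G] {A R X : Subgroup G} {p : ℕ} [hp : Fact p.Prime]
    (hR : IsPGroup p R) (hinv : ∀ Y ≤ R, ∀ a ∈ A, ∀ y ∈ Y, a * y * a⁻¹ ∈ Y) (hXR : X ≤ R)
    (hX : X ≠ ⊥) (hXA : X ≤ ⁅X, A⁆) : ∀ u ∈ R, ∀ v ∈ R, u * v = v * u := by
  by_contra hab
  obtain ⟨a, ha, k₀, hk₀, hk⟩ := exists_exponent_ne_one hR hinv hXR hX hXA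
  -- `u ∈ Z₂(R) - Z(R)`
  have hcen : Subgroup.center R ≠ ⊤ := by
    intro h
    apply hab
    intro u hu v hv
    have h1 : (⟨v, hv⟩ : R) ∈ Subgroup.center R := h ▸ Subgroup.mem_top _
    exact congrArg Subtype.val (Subgroup.mem_center_iff.1 h1 ⟨u, hu⟩)
  have hq : IsPGroup p (R ⧸ Subgroup.center R) := hR.to_quotient _
  have hnt : Nontrivial (R ⧸ Subgroup.center R) := by
    rw [← Finite.one_lt_card_iff_nontrivial, ← Subgroup.index_eq_card]
    refine lt_of_le_of_ne (Nat.pos_of_ne_zero Subgroup.index_ne_zero_of_finite) ?_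
    intro h
    exact hcen (Subgroup.index_eq_one.1 h.symm)
  have hcn : Nontrivial (Subgroup.center (R ⧸ Subgroup.center R)) := hq.center_nontrivial
  obtain ⟨ub, hub⟩ := exists_ne (1 : Subgroup.center (R ⧸ Subgroup.center R))
  obtain ⟨u, hu⟩ := QuotientGroup.mk'_surjective (Subgroup.center R) ub.1
  have huc : u ∉ Subgroup.center R := by
    intro h
    apply hub
    apply Subtype.ext
    rw [← hu]
    show (QuotientGroup.mk u : R ⧸ Subgroup.center R) = 1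
    rwa [QuotientGroup.eq_one_iff]
  have hucen : ∀ v : R, ∀ w : R, Commute (u * v * u⁻¹ * v⁻¹) w := by
    intro v w
    have h1 := Subgroup.mem_center_iff.1 ub.2 (QuotientGroup.mk' _ v)
    rw [← hu] at h1
    have h2 : (QuotientGroup.mk' (Subgroup.center R)) (u * v * u⁻¹ * v⁻¹) = 1 := by
      rw [map_mul, map_mul, map_mul, map_inv, map_inv, ← h1]; group
    rw [QuotientGroup.mk'_apply, QuotientGroup.eq_one_iff] at h2
    exact (Subgroup.mem_center_iff.1 h2 w).symm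
  obtain ⟨v, hv⟩ : ∃ v : R, u * v ≠ v * u := by
    by_contra h
    push Not at h
    exact huc (Subgroup.mem_center_iff.2 fun w => (h w).symm)
  set c : R := u * v * u⁻¹ * v⁻¹ with hc
  have hc1 : c ≠ 1 := by
    intro h
    rw [hc, mul_inv_eq_one, mul_inv_eq_iff_eq_mul] at h
    exact hv h
  obtain ⟨k, hkk, hku⟩ := hk u u.2
  obtain ⟨l, hlk, hlv⟩ := hk v v.2
  obtain ⟨m, hmk, hmc⟩ := hk c c.2
  -- `[u^k, v^l] = c^{kl}`
  have h1 : ∀ l : ℕ, u * v ^ l * u⁻¹ = c ^ l * v ^ l := by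
    intro l
    have h2 : u * v * u⁻¹ = c * v := by rw [hc]; group
    rw [← conj_pow, h2, (hucen v v).mul_pow]
  have h2 : ∀ l k : ℕ, u ^ k * v ^ l * (u ^ k)⁻¹ = c ^ (l * k) * v ^ l := by
    intro l k
    induction k with
    | zero => simp
    | succ k ih =>
      have h3 : u ^ (k + 1) * v ^ l * (u ^ (k + 1))⁻¹ = u * (u ^ k * v ^ l * (u ^ k)⁻¹) * u⁻¹ := by
        rw [pow_succ']; group
      have h4 : u * c ^ (l * k) = c ^ (l * k) * u := ((hucen v u).pow_left _).eq.symm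
      rw [h3, ih, ← mul_assoc, h4, mul_assoc (c ^ (l * k)), mul_assoc (c ^ (l * k)), h1,
        ← mul_assoc, ← pow_add, mul_add, mul_one]
  have h3 : (c : G) ^ m = (c : G) ^ (l * k) := by
    rw [← hmc]
    have h4 : a * (c : G) * a⁻¹ = (a * u * a⁻¹) * (a * v * a⁻¹) * (a * u * a⁻¹)⁻¹ *
        (a * v * a⁻¹)⁻¹ := by
      rw [hc]; push_cast; group
    rw [h4, hku, hlv]
    have h5 : u ^ k * v ^ l * (u ^ k)⁻¹ * (v ^ l)⁻¹ = c ^ (l * k) := by
      rw [h2 l k]; group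
    exact_mod_cast congrArg Subtype.val h5
  -- orders
  obtain ⟨n, hn⟩ := IsPGroup.iff_orderOf.1 hR c
  have hn0 : n ≠ 0 := by
    rintro rfl
    rw [pow_zero, orderOf_eq_one_iff] at hn
    exact hc1 hn
  rw [pow_eq_pow_iff_modEq, Subgroup.orderOf_coe, hn] at h3
  have h4 : m ≡ l * k [MOD p] := h3.of_dvd (dvd_pow_self p hn0)
  have h5 : k₀ ≡ k₀ * k₀ [MOD p] := (hmk.symm.trans h4).trans (hlk.mul hkk)
  -- `k₀` is prime to `p`
  have h6 : ¬ p ∣ k₀ := by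
    intro h
    have h7 : p ∣ m := (Nat.modEq_zero_iff_dvd.1 (hmk.trans (Nat.modEq_zero_iff_dvd.2 h)))
    obtain ⟨m', rfl⟩ := h7
    obtain ⟨n', rfl⟩ := Nat.exists_eq_succ_of_ne_zero hn0
    have h8 : ((c : G) ^ (p ^ n')) = 1 := by
      have h9 : a * ((c : G) ^ (p ^ n')) * a⁻¹ = 1 := by
        rw [← conj_pow, hmc, ← pow_mul, mul_right_comm, ← pow_succ', ]
        rw [pow_mul, ← hn, ← Subgroup.orderOf_coe, pow_orderOf_eq_one, one_pow]
      have h10 : (c : G) ^ (p ^ n') = a⁻¹ * (a * ((c : G) ^ (p ^ n')) * a⁻¹) * a := by group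
      rw [h10, h9]; group
    have h11 := orderOf_dvd_of_pow_eq_one h8
    rw [Subgroup.orderOf_coe, hn] at h11
    have h12 := (Nat.pow_dvd_pow_iff_le_right hp.out.one_lt).1 h11
    omega
  apply hk₀
  have h7 : k₀ * 1 ≡ k₀ * k₀ [MOD p] := by rwa [mul_one]
  exact (Nat.ModEq.cancel_left_of_coprime
    ((Nat.Prime.coprime_iff_not_dvd hp.out).2 h6) h7).symm


/-- Every subgroup `Y` of `R` satisfies `Y ≤ [Y, A]`. -/
theorem le_commutator_of_power [Finite G] {A R X Y : Subgroup G} {p : ℕ} [hp : Fact p.Prime]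
    (hR : IsPGroup p R) (hinv : ∀ Y ≤ R, ∀ a ∈ A, ∀ y ∈ Y, a * y * a⁻¹ ∈ Y) (hXR : X ≤ R)
    (hX : X ≠ ⊥) (hXA : X ≤ ⁅X, A⁆) (hY : Y ≤ R) : Y ≤ ⁅Y, A⁆ := by
  obtain ⟨a, ha, k₀, hk₀, hk⟩ := exists_exponent_ne_one hR hinv hXR hX hXA
  intro y hy
  obtain ⟨k, hkk, e⟩ := hk y⁻¹ (R.inv_mem (hY hy))
  have h1 : ⁅y, a⁆ = y ^ (1 - (k : ℤ)) := by
    rw [commutatorElement_def]
    have h5 : y * a * y⁻¹ * a⁻¹ = y * (a * y⁻¹ * a⁻¹) := by group
    rw [h5, e, ← zpow_natCast, inv_zpow, ← zpow_neg, ← zpow_one_add]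
    rfl
  have h2 : ⁅y, a⁆ ∈ ⁅Y, A⁆ := Subgroup.commutator_mem_commutator hy ha
  obtain ⟨n, hn⟩ := IsPGroup.iff_orderOf.1 hR ⟨y, hY hy⟩
  rw [Subgroup.orderOf_mk] at hn
  have h3 : IsCoprime (1 - (k : ℤ)) ((p : ℤ) ^ n) := by
    apply IsCoprime.pow_right
    rw [isCoprime_comm, (Nat.prime_iff_prime_int.1 hp.out).coprime_iff_not_dvd]
    intro h
    apply hk₀
    have h4 : (k : ℤ) ≡ 1 [ZMOD p] := Int.modEq_iff_dvd.2 h
    exact hkk.symm.trans (Int.natCast_modEq_iff.1 (by exact_mod_cast h4))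
  obtain ⟨u, v, huv⟩ := h3
  have h4 : y = (y ^ (1 - (k : ℤ))) ^ u := by
    have h5 : y ^ (u * (1 - (k : ℤ)) + v * (p : ℤ) ^ n) = y := by rw [huv, zpow_one]
    have h6 : y ^ (v * (p : ℤ) ^ n) = 1 := by
      rw [mul_comm, zpow_mul]
      have : y ^ ((p : ℤ) ^ n) = 1 := by
        have h7 := pow_orderOf_eq_one y
        rw [hn] at h7
        exact_mod_cast h7
      rw [this, one_zpow]
    rw [zpow_add, h6, mul_one, mul_comm, zpow_mul] at h5
    exact h5.symm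
  rw [h4, ← h1]
  exact Subgroup.zpow_mem _ h2 u

/-- Fixed points: an element of `R` centralised by `A` is trivial. -/
theorem eq_one_of_power [Finite G] {A R X : Subgroup G} {p : ℕ} [hp : Fact p.Prime]
    (hR : IsPGroup p R) (hinv : ∀ Y ≤ R, ∀ a ∈ A, ∀ y ∈ Y, a * y * a⁻¹ ∈ Y) (hXR : X ≤ R)
    (hX : X ≠ ⊥) (hXA : X ≤ ⁅X, A⁆) {y : G} (hy : y ∈ R) (hya : ∀ a ∈ A, a * y = y * a) :
    y = 1 := by
  have h1 := le_commutator_of_power (Y := Subgroup.zpowers y) hR hinv hXR hX hXA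
    (by rwa [Subgroup.zpowers_le]) (Subgroup.mem_zpowers y)
  have h2 : ⁅Subgroup.zpowers y, A⁆ = ⊥ := by
    rw [Subgroup.commutator_eq_bot_iff_le_centralizer, Subgroup.zpowers_le,
      Subgroup.mem_centralizer_iff]
    exact hya
  rwa [h2, Subgroup.mem_bot] at h1

/-! ### Isolated pairs -/

/-- `(p, D)` is an isolated pair of `A`. -/
structure IsoPair (A : Subgroup G) (p : ℕ) (D : Subgroup G) : Prop where
  opA : opc p A = ⊥
  isPGroup : IsPGroup p D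
  ne_bot : D ≠ ⊥
  norm : ∀ a ∈ A, ∀ d ∈ D, a * d * a⁻¹ ∈ D
  perm : ∀ Y ≤ D, Permutes A Y
  comm : D ≤ ⁅D, A⁆

theorem inf_eq_bot_of_opc [Finite G] {A R : Subgroup G} {p : ℕ} [hp : Fact p.Prime]
    (hA : opc p A = ⊥) (hR : IsPGroup p R) (hAR : ∀ a ∈ A, ∀ n ∈ R, a * n * a⁻¹ ∈ R) :
    A ⊓ R = ⊥ := by
  rw [← le_bot_iff, ← hA]
  apply le_opc
  · refine ⟨inf_le_left, ?_⟩
    rintro e he n ⟨hn1, hn2⟩
    exact ⟨A.mul_mem (A.mul_mem he hn1) (A.inv_mem he), hAR e he n hn2⟩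
  · exact hR.to_le inf_le_right

/-- All subgroups of `R` are `A`-invariant. -/
theorem conj_mem_of_opc [Finite G] {A R : Subgroup G} {p : ℕ} [hp : Fact p.Prime]
    (hA : opc p A = ⊥) (hR : IsPGroup p R) (hAR : ∀ a ∈ A, ∀ n ∈ R, a * n * a⁻¹ ∈ R)
    (hperm : ∀ Y ≤ R, Permutes A Y) : ∀ Y ≤ R, ∀ a ∈ A, ∀ y ∈ Y, a * y * a⁻¹ ∈ Y := by
  intro Y hY
  exact conj_mem_of_permutes (hperm Y hY) hY (by rw [inf_eq_bot_of_opc hA hR hAR]; exact bot_le)
    hAR

variable {A D : Subgroup G} {p : ℕ}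

theorem IsoPair.conj_mem [Finite G] [hp : Fact p.Prime] (h : IsoPair A p D) :
    ∀ Y ≤ D, ∀ a ∈ A, ∀ y ∈ Y, a * y * a⁻¹ ∈ Y :=
  conj_mem_of_opc h.opA h.isPGroup h.norm h.perm

theorem IsoPair.inf_eq_bot [Finite G] [hp : Fact p.Prime] (h : IsoPair A p D) : A ⊓ D = ⊥ :=
  inf_eq_bot_of_opc h.opA h.isPGroup h.norm

theorem IsoPair.mono [Finite G] [hp : Fact p.Prime] (h : IsoPair A p D) {X : Subgroup G}
    (hX : X ≤ D) (hne : X ≠ ⊥) : IsoPair A p X where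
  opA := h.opA
  isPGroup := h.isPGroup.to_le hX
  ne_bot := hne
  norm := h.conj_mem X hX
  perm := fun Y hY => h.perm Y (hY.trans hX)
  comm := le_commutator_of_power h.isPGroup h.conj_mem le_rfl h.ne_bot h.comm hX

theorem IsoPair.commute [Finite G] [hp : Fact p.Prime] (h : IsoPair A p D) :
    ∀ u ∈ D, ∀ v ∈ D, u * v = v * u :=
  comm_of_power h.isPGroup h.conj_mem le_rfl h.ne_bot h.comm

/-- `A` permutes with all subgroups of `O_p(E)`. -/
theorem HerPermutable.permutes_of_le_opc [Finite G] [hp : Fact p.Prime] (hA : HerPermutable A)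
    {E : Subgroup G} (hAE : A ≤ E) {Y : Subgroup G} (hY : Y ≤ opc p E) : Permutes A Y :=
  hA.permutes_of_isPGroup (opc_isPGroup p E)
    (permutes_of_conj_mem fun a ha => (opc_normalIn p E).2 a (hAE ha)) hY

theorem MC.isoPair_opc [Finite G] [hp : Fact p.Prime] (h : MC A) (hD : IsoPair A p D)
    {E : Subgroup G} (hAE : A ≤ E) (hE : E ≠ ⊤) (hDE : D ≤ E) :
    D ≤ opc p E ∧ IsoPair A p (opc p E) := by
  have h1 : D ≤ opc p E := h.lemmaP hAE hE hDE hD.isPGroup hD.norm hD.comm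
  have hR := opc_isPGroup p E
  have hAR : ∀ a ∈ A, ∀ n ∈ opc p E, a * n * a⁻¹ ∈ opc p E := fun a ha =>
    (opc_normalIn p E).2 a (hAE ha)
  have hperm : ∀ Y ≤ opc p E, Permutes A Y := fun Y hY => h.her.permutes_of_le_opc hAE hY
  have hinv := conj_mem_of_opc hD.opA hR hAR hperm
  refine ⟨h1, hD.opA, hR, ?_, hAR, hperm, ?_⟩
  · intro hb
    rw [hb, le_bot_iff] at h1
    exact hD.ne_bot h1
  · exact le_commutator_of_power hR hinv h1 hD.ne_bot hD.comm le_rfl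

theorem le_normalizer_of_conj_mem {A X : Subgroup G} (h : ∀ a ∈ A, ∀ x ∈ X, a * x * a⁻¹ ∈ X) :
    A ≤ Subgroup.normalizer (X : Set G) := by
  intro t ht
  rw [Subgroup.mem_normalizer_iff]
  intro c
  refine ⟨h t ht c, fun h' => ?_⟩
  have := h t⁻¹ (A.inv_mem ht) _ h'
  simpa [mul_assoc] using this

private theorem le_normalizer_of_commute {B X : Subgroup G} (h : ∀ b ∈ B, ∀ x ∈ X, b * x = x * b) :
    B ≤ Subgroup.normalizer (X : Set G) :=
  le_normalizer_of_conj_mem fun b hb x hx => by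
    rw [h b hb x hx, mul_inv_cancel_right]; exact hx

theorem IsCoatom.eq_normalizer_opc [Finite G] [hp : Fact p.Prime] (h : MC A) {E : Subgroup G}
    (hE : IsCoatom E) (hne : opc p E ≠ ⊥) : E = Subgroup.normalizer (opc p E : Set G) := by
  have h1 : E ≤ Subgroup.normalizer (opc p E : Set G) :=
    le_normalizer_of_conj_mem (opc_normalIn p E).2
  rcases eq_or_lt_of_le h1 with h2 | h2
  · exact h2
  · exact absurd (hE.2 _ h2) (h.normalizer_ne_top hne (isSolvable_of_isPGroup (opc_isPGroup p E)))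

theorem MC.unique_coatom [Finite G] [hp : Fact p.Prime] (h : MC A) {X : Subgroup G}
    (hX : IsoPair A p X) {E E' : Subgroup G} (hE : IsCoatom E) (hE' : IsCoatom E') (hAE : A ≤ E)
    (hAE' : A ≤ E') (hXE : X ≤ E) (hXE' : X ≤ E') : E = E' := by
  obtain ⟨hXR, hR⟩ := h.isoPair_opc hX hAE hE.1 hXE
  obtain ⟨hXR', hR'⟩ := h.isoPair_opc hX hAE' hE'.1 hXE'
  set E₁ := Subgroup.normalizer (X : Set G) with hE₁
  have hAE₁ : A ≤ E₁ := le_normalizer_of_conj_mem hX.norm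
  have hE₁t : E₁ ≠ ⊤ := h.normalizer_ne_top hX.ne_bot (isSolvable_of_isPGroup hX.isPGroup)
  obtain ⟨-, hR₁⟩ := h.isoPair_opc hX hAE₁ hE₁t Subgroup.le_normalizer
  have h1 : opc p E ≤ E₁ := le_normalizer_of_commute fun b hb x hx => hR.commute b hb x (hXR hx)
  have h1' : opc p E' ≤ E₁ := le_normalizer_of_commute fun b hb x hx =>
    hR'.commute b hb x (hXR' hx)
  obtain ⟨h2, -⟩ := h.isoPair_opc hR hAE₁ hE₁t h1
  obtain ⟨h2', -⟩ := h.isoPair_opc hR' hAE₁ hE₁t h1'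
  have key : ∀ F F' : Subgroup G, IsCoatom F → IsCoatom F' → A ≤ F → A ≤ F' →
      IsoPair A p (opc p F) → IsoPair A p (opc p F') → opc p F ≤ opc p E₁ →
      opc p F' ≤ opc p E₁ → opc p F' ≤ opc p F := by
    intro F F' hF hF' hAF hAF' hRF hRF' h3 h3'
    have h4 : opc p F' ≤ F := by
      rw [IsCoatom.eq_normalizer_opc h hF hRF.ne_bot]
      exact le_normalizer_of_commute fun b hb x hx => hR₁.commute b (h3' hb) x (h3 hx)
    exact (h.isoPair_opc hRF' hAF hF.1 h4).1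
  have h3 : opc p E = opc p E' := le_antisymm (key E' E hE' hE hAE' hAE hR' hR h2' h2)
    (key E E' hE hE' hAE hAE' hR hR' h2 h2')
  rw [IsCoatom.eq_normalizer_opc h hE hR.ne_bot, h3,
    ← IsCoatom.eq_normalizer_opc h hE' hR'.ne_bot]

/-- Theorem M: the unique maximal overgroup of an isolated pair. -/
theorem MC.exists_M [Finite G] [hp : Fact p.Prime] (h : MC A) (hD : IsoPair A p D) :
    ∃ M : Subgroup G, IsCoatom M ∧ A ≤ M ∧ D ≤ opc p M ∧ IsoPair A p (opc p M) ∧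
      M = Subgroup.normalizer (opc p M : Set G) ∧
      ∀ X ≤ opc p M, X ≠ ⊥ → ∀ E : Subgroup G, E ≠ ⊤ → A ≤ E → X ≤ E → E ≤ M := by
  have hN : Subgroup.normalizer (D : Set G) ≠ ⊤ :=
    h.normalizer_ne_top hD.ne_bot (isSolvable_of_isPGroup hD.isPGroup)
  obtain ⟨M, hM, hNM⟩ := (eq_top_or_exists_le_coatom (Subgroup.normalizer (D : Set G))).resolve_left
    hN
  have hAM : A ≤ M := (le_normalizer_of_conj_mem hD.norm).trans hNM
  have hDM : D ≤ M := Subgroup.le_normalizer.trans hNM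
  obtain ⟨h1, h2⟩ := h.isoPair_opc hD hAM hM.1 hDM
  refine ⟨M, hM, hAM, h1, h2, IsCoatom.eq_normalizer_opc h hM h2.ne_bot, ?_⟩
  intro X hX hne E hE hAE hXE
  obtain ⟨E', hE', hEE'⟩ := (eq_top_or_exists_le_coatom E).resolve_left hE
  have h3 := h.unique_coatom (h2.mono hX hne) hE' hM (hAE.trans hEE') hAM (hXE.trans hEE')
    (hX.trans (opc_normalIn p M).1)
  rw [← h3]
  exact hEE'

end MP_5771ce_al
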