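import Pool.Agent.Lib.MP_5771ce_al.MC

/-!
# Lemma Q and Lemma P' (`MP_5771ce_al`, section 1.2)
-/

open scoped Pointwise commutatorElement

universe u

namespace MP_5771ce_al

variable {G : Type u} [Group G] {A : Subgroup G}

/-! ### Lemma Q -/

/-- An endomorphism of an elementary abelian `r`-group which maps every element to a power of
itself is a power map. -/
theorem exists_uniform_exponent {Q : Type*} [Group Q] {r : ℕ} [hr : Fact r.Prime]
    (Z : Subgroup Q) (hc : ∀ x ∈ Z, ∀ y ∈ Z, x * y = y * x) (hZ : ∀ x ∈ Z, x ^ r = 1)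
    (f : Q →* Q) (hf : ∀ x ∈ Z, ∃ k : ℕ, f x = x ^ k) : ∃ k : ℕ, ∀ x ∈ Z, f x = x ^ k := by
  by_cases htr : ∀ x ∈ Z, x = 1
  · exact ⟨0, fun x hx => by rw [htr x hx, map_one, one_pow]⟩
  push Not at htr
  obtain ⟨q₀, hq₀, hne⟩ := htr
  obtain ⟨k, hk⟩ := hf q₀ hq₀
  refine ⟨k, fun q hq => ?_⟩
  have hord : orderOf q₀ = r := orderOf_eq_prime (hZ q₀ hq₀) hne
  by_cases hmem : q ∈ Subgroup.zpowers q₀
  · obtain ⟨j, rfl⟩ := hmem
    show f (q₀ ^ j) = (q₀ ^ j) ^ k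
    rw [map_zpow, hk, ← zpow_natCast, ← zpow_natCast, ← zpow_mul, ← zpow_mul, mul_comm]
  obtain ⟨l, hl⟩ := hf q hq
  obtain ⟨m, hm⟩ := hf (q * q₀) (Z.mul_mem hq hq₀)
  have hcom : Commute q q₀ := hc q hq q₀ hq₀
  rw [map_mul, hl, hk, hcom.mul_pow] at hm
  -- `q^l q₀^k = q^m q₀^m`
  have h1 : (q ^ m)⁻¹ * q ^ l = q₀ ^ m * (q₀ ^ k)⁻¹ := by
    rw [inv_mul_eq_iff_eq_mul, ← mul_assoc, eq_mul_inv_iff_mul_eq]
    exact hm
  have hqord : orderOf q = r := by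
    apply orderOf_eq_prime (hZ q hq)
    rintro rfl
    exact hmem (one_mem _)
  have h2 : (q ^ m)⁻¹ * q ^ l = 1 := by
    by_contra hne1
    apply hmem
    -- the element `(q ^ m)⁻¹ * q ^ l` generates `<q>`
    have h3 : (q ^ m)⁻¹ * q ^ l ∈ Subgroup.zpowers q₀ := by
      rw [h1]
      exact mul_mem (pow_mem (Subgroup.mem_zpowers _) _)
        (inv_mem (pow_mem (Subgroup.mem_zpowers _) _))
    have h4 : (q ^ m)⁻¹ * q ^ l = q ^ ((l : ℤ) - m) := by
      rw [zpow_sub, zpow_natCast, zpow_natCast]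
      exact ((Commute.refl q).pow_pow l m).inv_right.eq.symm
    rw [h4] at h3 hne1
    have h5 : ¬ (r : ℤ) ∣ ((l : ℤ) - m) := by
      intro h
      apply hne1
      rw [← hqord] at h
      exact orderOf_dvd_iff_zpow_eq_one.1 h
    have h6 : IsCoprime (r : ℤ) ((l : ℤ) - m) :=
      (Nat.prime_iff_prime_int.1 hr.out).coprime_iff_not_dvd.2 h5
    obtain ⟨u, v, huv⟩ := h6
    have h7 : q = (q ^ ((l : ℤ) - m)) ^ v := by
      rw [← zpow_mul]
      have : q ^ (u * (r : ℤ) + v * ((l : ℤ) - m)) = q := by rw [huv, zpow_one]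
      rw [zpow_add, zpow_mul', zpow_natCast, hZ q hq, one_zpow, one_mul] at this
      rw [mul_comm ((l : ℤ) - m) v]
      exact this.symm
    rw [h7]
    exact zpow_mem h3 v
  have h3 : q ^ l = q ^ m := by
    rwa [inv_mul_eq_one, eq_comm] at h2
  have h4 : q₀ ^ m = q₀ ^ k := by
    rw [h2] at h1
    exact (mul_inv_eq_one.1 h1.symm)
  rw [hl, h3]
  rw [pow_eq_pow_iff_modEq, hord] at h4
  rw [pow_eq_pow_iff_modEq, hqord]
  exact h4

theorem commutator_conj_eq {Q : Type*} [Group Q] {Z : Subgroup Q} {a b : Q} {k : ℕ}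
    (ha : ∀ z ∈ Z, a * z * a⁻¹ = z ^ k) (ha' : ∀ z ∈ Z, a⁻¹ * z * a ∈ Z)
    (hb' : ∀ z ∈ Z, b⁻¹ * z * b ∈ Z) {z : Q} (hz : z ∈ Z) :
    ⁅b, a⁆ * z = z * ⁅b, a⁆ := by
  set z' := a⁻¹ * z * a with hz'
  have h1 : z'  ^ k = z := by
    rw [← ha z' (ha' z hz), hz']; group
  set w := b⁻¹ * z' * b with hw
  have h2 : a * w * a⁻¹ = w ^ k := ha w (hb' z' (ha' z hz))
  have h3 : b * w ^ k * b⁻¹ = z := by
    rw [← conj_pow, ← h1]
    congr 1
    rw [hw]; group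
  have h4 : ⁅b, a⁆ * z * ⁅b, a⁆⁻¹ = z := by
    have h5 : ⁅b, a⁆ * z * ⁅b, a⁆⁻¹ = b * (a * w * a⁻¹) * b⁻¹ := by
      rw [hw, hz', commutatorElement_def]; group
    rw [h5, h2, h3]
  exact mul_inv_eq_iff_eq_mul.1 h4

theorem exists_mem_normalizer [Finite G] {N C : Subgroup G} {r : ℕ} [hr : Fact r.Prime]
    (hN : IsPGroup r N) (hCN : C ≤ N) (hne : ¬ N ≤ C) :
    ∃ n ∈ N, n ∉ C ∧ n ∈ Subgroup.normalizer (C : Set G) := by
  have hnil : Group.IsNilpotent N := hN.isNilpotent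
  have hnc := Group.normalizerCondition_of_isNilpotent (G := N)
  have hlt' : C.subgroupOf N < ⊤ := by
    rw [lt_top_iff_ne_top]
    intro h
    apply hne
    rwa [Subgroup.subgroupOf_eq_top] at h
  have h1 := hnc _ hlt'
  obtain ⟨n, hn, hnC⟩ := SetLike.exists_of_lt h1
  rw [Subgroup.mem_subgroupOf] at hnC
  refine ⟨n.1, n.2, hnC, ?_⟩
  rw [Subgroup.mem_normalizer_iff]
  have key : ∀ m : N, m ∈ Subgroup.normalizer ((C.subgroupOf N : Subgroup N) : Set N) →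
      ∀ c ∈ C, (m : G) * c * (m : G)⁻¹ ∈ C := by
    intro m hm c hc
    have h2 := (Subgroup.mem_normalizer_iff.1 hm ⟨c, hCN hc⟩).1 (by
      show (⟨c, hCN hc⟩ : N) ∈ C.subgroupOf N
      rwa [Subgroup.mem_subgroupOf])
    have h3 : m * ⟨c, hCN hc⟩ * m⁻¹ ∈ C.subgroupOf N := h2
    rw [Subgroup.mem_subgroupOf] at h3
    simpa using h3
  intro c
  refine ⟨key n hn c, fun h => ?_⟩
  have := key n⁻¹ (inv_mem hn) _ h
  simpa [mul_assoc] using this

/-- Lemma Q. `A` permutes with all subgroups of the `r`-group `N`; `X` is an `r'`-group,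
`X ≤ [B, A]`, where `A` and `B` normalise `N`, `B` normalises `X`; `X` centralises `A ∩ N`.
Then `X` centralises `N`. -/
theorem lemmaQ [Finite G] {A B X N : Subgroup G} {r : ℕ} [hr : Fact r.Prime]
    (hN : IsPGroup r N) (hperm : ∀ Y ≤ N, Permutes A Y)
    (hAN : ∀ a ∈ A, ∀ n ∈ N, a * n * a⁻¹ ∈ N) (hBN : ∀ b ∈ B, ∀ n ∈ N, b * n * b⁻¹ ∈ N)
    (hBX : ∀ b ∈ B, ∀ x ∈ X, b * x * b⁻¹ ∈ X) (hXB : X ≤ ⁅B, A⁆)
    (hX : ¬ r ∣ Nat.card X) (hAX : ∀ n ∈ A ⊓ N, ∀ x ∈ X, n * x = x * n) :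
    ∀ x ∈ X, ∀ n ∈ N, x * n = n * x := by
  classical
  set C := N ⊓ Subgroup.centralizer (X : Set G) with hC
  have hCN : C ≤ N := inf_le_left
  suffices hmain : N ≤ C by
    intro x hx n hn
    have h1 := (Subgroup.mem_centralizer_iff.1 (hmain hn).2) x hx
    exact h1
  by_contra hNC
  have hCX : ∀ c ∈ C, ∀ x ∈ X, x * c = c * x := fun c hc x hx =>
    (Subgroup.mem_centralizer_iff.1 hc.2) x hx
  -- every `Y` with `C ≤ Y ≤ N` is `A`-invariant
  have hANC : A ⊓ N ≤ C := fun n hn => ⟨hn.2, Subgroup.mem_centralizer_iff.2 fun x hx =>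
    (hAX n hn x hx).symm⟩
  have hAY : ∀ Y : Subgroup G, C ≤ Y → Y ≤ N → ∀ a ∈ A, ∀ y ∈ Y, a * y * a⁻¹ ∈ Y :=
    fun Y hCY hYN => conj_mem_of_permutes (hperm Y hYN) hYN (hANC.trans hCY) hAN
  have hBC : ∀ b ∈ B, ∀ c ∈ C, b * c * b⁻¹ ∈ C := by
    intro b hb c hc
    refine ⟨hBN b hb c hc.1, Subgroup.mem_centralizer_iff.2 fun x hx => ?_⟩
    have h1 : b⁻¹ * x * b ∈ X := by simpa using hBX b⁻¹ (B.inv_mem hb) x hx
    have h2 := hCX c hc _ h1
    have h3 : x * (b * c * b⁻¹) = b * ((b⁻¹ * x * b) * c) * b⁻¹ := by group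
    rw [h3, h2]; group
  set H := Subgroup.normalizer (C : Set G) with hH
  have hCH : C ≤ H := Subgroup.le_normalizer
  have hleH : ∀ T : Subgroup G, (∀ t ∈ T, ∀ c ∈ C, t * c * t⁻¹ ∈ C) → T ≤ H := by
    intro T hT t ht
    rw [hH, Subgroup.mem_normalizer_iff]
    intro c
    refine ⟨hT t ht c, fun h => ?_⟩
    have := hT t⁻¹ (T.inv_mem ht) _ h
    simpa [mul_assoc] using this
  have hAH : A ≤ H := hleH A (hAY C le_rfl hCN)
  have hBH : B ≤ H := hleH B hBC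
  -- the quotient
  let Q := H ⧸ C.subgroupOf H
  let π : H →* Q := QuotientGroup.mk' (C.subgroupOf H)
  have hπ : ∀ x : H, π x = 1 ↔ (x : G) ∈ C := by
    intro x
    show (QuotientGroup.mk x : Q) = 1 ↔ _
    rw [QuotientGroup.eq_one_iff, Subgroup.mem_subgroupOf]
  set Nb : Subgroup Q := ((N ⊓ H).subgroupOf H).map π with hNb
  have hNbP : IsPGroup r Nb := by
    apply IsPGroup.map
    exact (hN.to_le inf_le_left).comap_subtype
  have hNbne : Nontrivial Nb := by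
    obtain ⟨n, hn, hnC, hnn⟩ := exists_mem_normalizer hN hCN hNC
    refine ⟨⟨⟨π ⟨n, hnn⟩, ⟨⟨n, hnn⟩, ?_, rfl⟩⟩, 1, fun h => hnC ?_⟩⟩
    · rw [SetLike.mem_coe, Subgroup.mem_subgroupOf]
      exact ⟨hn, hnn⟩
    · exact (hπ ⟨n, hnn⟩).1 (congrArg Subtype.val h)
  -- `Z = Ω₁(Z(Nb))`
  let Z : Subgroup Q :=
    { carrier := {q | q ∈ Nb ∧ q ^ r = 1 ∧ ∀ m ∈ Nb, m * q = q * m}
      mul_mem' := by
        rintro x y ⟨hx1, hx2, hx3⟩ ⟨hy1, hy2, hy3⟩
        refine ⟨Nb.mul_mem hx1 hy1, ?_, ?_⟩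
        · have : Commute x y := hy3 x hx1
          rw [this.mul_pow, hx2, hy2, one_mul]
        · intro m hm
          rw [← mul_assoc, hx3 m hm, mul_assoc, hy3 m hm, mul_assoc]
      one_mem' := ⟨Nb.one_mem, one_pow _, fun m _ => by simp⟩
      inv_mem' := by
        rintro x ⟨hx1, hx2, hx3⟩
        refine ⟨Nb.inv_mem hx1, by rw [inv_pow, hx2, inv_one], fun m hm => ?_⟩
        have : Commute m x := hx3 m hm
        exact this.inv_right }
  have hZc : ∀ x ∈ Z, ∀ y ∈ Z, x * y = y * x := fun x hx y hy => hy.2.2 x hx.1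
  have hZr : ∀ x ∈ Z, x ^ r = 1 := fun x hx => hx.2.1
  -- elements of `H` normalising `N` normalise `Z`
  have hconjNb : ∀ h : H, (∀ n ∈ N, (h : G) * n * (h : G)⁻¹ ∈ N) → ∀ q ∈ Nb,
      π h * q * (π h)⁻¹ ∈ Nb := by
    rintro h hh _ ⟨n, hn, rfl⟩
    refine ⟨h * n * h⁻¹, ?_, by simp⟩
    rw [SetLike.mem_coe, Subgroup.mem_subgroupOf] at hn ⊢
    exact ⟨hh _ hn.1, H.mul_mem (H.mul_mem h.2 hn.2) (H.inv_mem h.2)⟩
  have hconjZ : ∀ h : H, (∀ n ∈ N, (h : G) * n * (h : G)⁻¹ ∈ N) →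
      (∀ n ∈ N, (h : G)⁻¹ * n * (h : G) ∈ N) → ∀ q ∈ Z, π h * q * (π h)⁻¹ ∈ Z := by
    rintro h hh hh' q ⟨h1, h2, h3⟩
    refine ⟨hconjNb h hh q h1, ?_, ?_⟩
    · rw [conj_pow, h2]; simp
    · intro m hm
      have h4 : (π h)⁻¹ * m * π h ∈ Nb := by
        have := hconjNb h⁻¹ (by simpa using hh') m hm
        rwa [map_inv, inv_inv] at this
      have h5 := h3 _ h4
      have h6 : m * (π h * q * (π h)⁻¹) = π h * (((π h)⁻¹ * m * π h) * q) * (π h)⁻¹ := by group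
      rw [h6, h5]; group
  have hinvN : ∀ T : Subgroup G, (∀ t ∈ T, ∀ n ∈ N, t * n * t⁻¹ ∈ N) →
      ∀ t ∈ T, ∀ n ∈ N, t⁻¹ * n * t ∈ N := by
    intro T hT t ht n hn
    simpa using hT t⁻¹ (T.inv_mem ht) n hn
  have hZA : ∀ a : H, (a : G) ∈ A → ∀ q ∈ Z, π a * q * (π a)⁻¹ ∈ Z := fun a ha =>
    hconjZ a (hAN _ ha) (hinvN A hAN _ ha)
  have hZA' : ∀ a : H, (a : G) ∈ A → ∀ q ∈ Z, (π a)⁻¹ * q * (π a) ∈ Z := by
    intro a ha q hq
    have := hZA a⁻¹ (by simpa using ha) q hq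
    rwa [map_inv, inv_inv] at this
  have hZB' : ∀ b : H, (b : G) ∈ B → ∀ q ∈ Z, (π b)⁻¹ * q * (π b) ∈ Z := by
    intro b hb q hq
    have := hconjZ b⁻¹ (by simpa using hinvN B hBN _ hb) (by simpa using hBN _ hb) q hq
    rwa [map_inv, inv_inv] at this
  -- `A` acts by scalars
  have hscal : ∀ a : H, (a : G) ∈ A → ∃ k : ℕ, ∀ q ∈ Z, π a * q * (π a)⁻¹ = q ^ k := by
    intro a ha
    obtain ⟨k, hk⟩ := exists_uniform_exponent Z hZc hZr (MulAut.conj (π a)).toMonoidHom (by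
      rintro q ⟨⟨n, hn, rfl⟩, -, -⟩
      rw [SetLike.mem_coe, Subgroup.mem_subgroupOf] at hn
      have hn' : (n : G) ∈ N := hn.1
      have h1 := hAY (C ⊔ Subgroup.zpowers (n : G)) le_sup_left
        (sup_le hCN (by rwa [Subgroup.zpowers_le])) a ha n
        (Subgroup.mem_sup_right (Subgroup.mem_zpowers _))
      have h2 : C ⊔ Subgroup.zpowers (n : G) ≤
          ((Subgroup.zpowers (π n)).comap π).map H.subtype := by
        refine sup_le ?_ ?_
        · intro c hc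
          refine ⟨⟨c, hCH hc⟩, ?_, rfl⟩
          rw [SetLike.mem_coe, Subgroup.mem_comap, (hπ ⟨c, hCH hc⟩).2 hc]
          exact one_mem _
        · rw [Subgroup.zpowers_le]
          exact ⟨n, Subgroup.mem_zpowers _, rfl⟩
      obtain ⟨m, hm, e⟩ := h2 h1
      have h3 : m = a * n * a⁻¹ := Subtype.ext e
      rw [h3] at hm
      have h4 : π a * π n * (π a)⁻¹ ∈ Subgroup.zpowers (π n) := by
        have : π (a * n * a⁻¹) ∈ Subgroup.zpowers (π n) := hm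
        simpa using this
      rw [← mem_powers_iff_mem_zpowers] at h4
      obtain ⟨k, hk⟩ := h4
      exact ⟨k, hk.symm⟩)
    exact ⟨k, hk⟩
  -- the centralizer of `Z`
  have hcomm : ⁅B, A⁆ ≤ ((Subgroup.centralizer (Z : Set Q)).comap π).map H.subtype := by
    rw [Subgroup.commutator_le]
    intro b hb a ha
    obtain ⟨k, hk⟩ := hscal ⟨a, hAH ha⟩ ha
    refine ⟨⁅(⟨b, hBH hb⟩ : H), (⟨a, hAH ha⟩ : H)⁆, ?_, ?_⟩
    · rw [SetLike.mem_coe, Subgroup.mem_comap, Subgroup.mem_centralizer_iff]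
      intro z hz
      rw [map_commutatorElement]
      exact (commutator_conj_eq hk (hZA' ⟨a, hAH ha⟩ ha) (hZB' ⟨b, hBH hb⟩ hb) hz).symm
    · simp [commutatorElement_def]
  -- a nontrivial element of `Z`
  have hcen : Nontrivial (Subgroup.center Nb) := hNbP.center_nontrivial
  obtain ⟨z, hz⟩ : ∃ z : Subgroup.center Nb, orderOf z = r := by
    apply exists_prime_orderOf_dvd_card'
    rcases (hNbP.to_subgroup (Subgroup.center Nb)).card_eq_or_dvd with h | h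
    · exact absurd h Finite.one_lt_card.ne'
    · exact h
  have hzZ : (z.1.1 : Q) ∈ Z := by
    refine ⟨z.1.2, ?_, ?_⟩
    · have h1 : z ^ r = 1 := by rw [← hz]; exact pow_orderOf_eq_one z
      exact congrArg (fun t : Subgroup.center Nb => (t.1.1 : Q)) h1
    · intro m hm
      exact congrArg Subtype.val (Subgroup.mem_center_iff.1 z.2 ⟨m, hm⟩)
  have hzne : (z.1.1 : Q) ≠ 1 := by
    intro h
    have h1 : z = 1 := Subtype.ext (Subtype.ext h)
    rw [h1, orderOf_one] at hz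
    exact hr.out.one_lt.ne hz
  obtain ⟨n, hn, hnz⟩ := hzZ.1
  rw [SetLike.mem_coe, Subgroup.mem_subgroupOf] at hn
  apply hzne
  rw [← hnz, hπ]
  refine Subgroup.mem_inf.2 ⟨hn.1, Subgroup.mem_centralizer_iff.2 fun x hx => ?_⟩
  -- `x n x⁻¹ = c n`
  obtain ⟨x', hx', rfl⟩ := hcomm (hXB hx)
  rw [SetLike.mem_coe, Subgroup.mem_comap, Subgroup.mem_centralizer_iff] at hx'
  have h1 := hx' _ hzZ
  rw [← hnz] at h1
  have h2 : π (x' * n * x'⁻¹ * n⁻¹) = 1 := by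
    rw [map_mul, map_mul, map_mul, map_inv, map_inv, ← h1]; group
  have h3 := (hπ _).1 h2
  set c : G := (x' : G) * n * (x' : G)⁻¹ * (n : G)⁻¹ with hc
  have h4 : c ∈ C := by simpa using h3
  have h5 : (x' : G) * n * (x' : G)⁻¹ = c * n := by rw [hc]; group
  have h6 : (x' : G) * c = c * x' := hCX c h4 _ hx
  have h7 : ∀ i : ℕ, (x' : G) ^ i * n * ((x' : G) ^ i)⁻¹ = c ^ i * n := by
    intro i
    induction i with
    | zero => simp
    | succ i ih =>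
      have h8 : (x' : G) ^ (i + 1) * n * ((x' : G) ^ (i + 1))⁻¹ =
          (x' : G) * ((x' : G) ^ i * n * ((x' : G) ^ i)⁻¹) * (x' : G)⁻¹ := by
        rw [pow_succ']; group
      have h9 : (x' : G) * c ^ i = c ^ i * x' := (Commute.pow_right h6 i)
      rw [h8, ih, ← mul_assoc, h9, mul_assoc (c ^ i), mul_assoc (c ^ i), h5, ← mul_assoc,
        ← pow_succ]
  have h8 : c ^ Nat.card X = 1 := by
    have h9 := h7 (Nat.card X)
    have h10 : (x' : G) ^ Nat.card X = 1 := by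
      have := pow_card_eq_one' (x := (⟨(x' : G), hx⟩ : X))
      exact congrArg Subtype.val this
    rw [h10] at h9
    simpa using h9.symm
  have h9 : c = 1 := by
    obtain ⟨k, hk⟩ := hN ⟨c, hCN h4⟩
    have h10 : c ^ r ^ k = 1 := congrArg Subtype.val hk
    have h11 : Nat.Coprime (Nat.card X) (r ^ k) :=
      Nat.Coprime.pow_right k ((Nat.Prime.coprime_iff_not_dvd hr.out).2 hX).symm
    have h12 : orderOf c = 1 := Nat.eq_one_of_dvd_coprimes h11 (orderOf_dvd_of_pow_eq_one h8)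
      (orderOf_dvd_of_pow_eq_one h10)
    exact orderOf_eq_one_iff.1 h12
  rw [h9, one_mul] at h5
  exact mul_inv_eq_iff_eq_mul.1 h5


/-! ### Lemma P' -/

theorem le_opc_top_of_centralizes [Finite G] {p : ℕ} [Fact p.Prime] {X : Subgroup G}
    (hX : IsPGroup p X) (hXr : X ≤ rad ⊤)
    (hc : ∀ r : ℕ, r.Prime → ∀ x ∈ X, ∀ n ∈ opc r (⊤ : Subgroup G), x * n = n * x) :
    X ≤ opc p ⊤ := by
  rw [← opc_rad p (⊤ : Subgroup G)]
  refine le_opc_of_centralizes (rad_isSolvable ⊤) hXr hX fun r hr x hx => ?_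
  have : Fact r.Prime := ⟨hr⟩
  rw [opc_rad, Subgroup.mem_centralizer_iff]
  intro n hn
  exact (hc r hr x hx n hn).symm

theorem eq_one_of_coprime_groups [Finite G] {p r : ℕ} [hp : Fact p.Prime] [hr : Fact r.Prime]
    (hpr : p ≠ r) {P R : Subgroup G} (hP : IsPGroup p P) (hR : IsPGroup r R) {x : G} (hx : x ∈ P)
    (hx' : x ∈ R) : x = 1 := by
  obtain ⟨k, hk⟩ := hP ⟨x, hx⟩
  obtain ⟨l, hl⟩ := hR ⟨x, hx'⟩
  have h1 : x ^ p ^ k = 1 := congrArg Subtype.val hk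
  have h2 : x ^ r ^ l = 1 := congrArg Subtype.val hl
  have h3 : Nat.Coprime (p ^ k) (r ^ l) :=
    Nat.Coprime.pow _ _ ((Nat.coprime_primes hp.out hr.out).2 hpr)
  exact orderOf_eq_one_iff.1 (Nat.eq_one_of_dvd_coprimes h3 (orderOf_dvd_of_pow_eq_one h1)
    (orderOf_dvd_of_pow_eq_one h2))

/-- Lemma P', the case `O_p(G) = 1`. -/
theorem lemmaP_aux [Finite G] {A X : Subgroup G} (hA : HerPermutable A) (hAr : A ≤ rad ⊤)
    {p : ℕ} [hp : Fact p.Prime] (hX : IsPGroup p X) (hAX : ∀ a ∈ A, ∀ x ∈ X, a * x * a⁻¹ ∈ X)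
    (hXA : X ≤ ⁅X, A⁆) (hO : opc p (⊤ : Subgroup G) = ⊥) : X = ⊥ := by
  have hradn : (rad (⊤ : Subgroup G)).Normal := normalIn_top.1 (rad_normalIn ⊤)
  have hXr : X ≤ rad ⊤ := by
    refine hXA.trans ?_
    rw [Subgroup.commutator_le]
    intro x _ a ha
    rw [commutatorElement_def]
    exact mul_mem (hradn.conj_mem a (hAr ha) x) (inv_mem (hAr ha))
  rw [← le_bot_iff, ← hO]
  refine le_opc_top_of_centralizes hX hXr ?_
  intro r hr
  have _ : Fact r.Prime := ⟨hr⟩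
  by_cases hpr : p = r
  · subst hpr
    intro x _ n hn
    rw [hO, Subgroup.mem_bot] at hn
    rw [hn]; simp
  have hNn : (opc r (⊤ : Subgroup G)).Normal := normalIn_top.1 (opc_normalIn r ⊤)
  have hNr : IsPGroup r (opc r (⊤ : Subgroup G)) := opc_isPGroup r ⊤
  have hAN : Permutes A (opc r (⊤ : Subgroup G)) :=
    permutes_of_conj_mem fun a _ n hn => hNn.conj_mem n hn a
  refine lemmaQ (A := A) (B := X) hNr (fun Y hY => hA.permutes_of_isPGroup hNr hAN hY)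
    (fun a _ n hn => hNn.conj_mem n hn a) (fun a _ n hn => hNn.conj_mem n hn a)
    (fun b hb x hx => X.mul_mem (X.mul_mem hb hx) (X.inv_mem hb)) hXA
    (not_dvd_card_of_isPGroup hr hp.out hpr hX) ?_
  rintro n ⟨hnA, hnN⟩ x hx
  have h1 : n * x * n⁻¹ * x⁻¹ ∈ X := X.mul_mem (hAX n hnA x hx) (X.inv_mem hx)
  have h2 : n * x * n⁻¹ * x⁻¹ ∈ opc r (⊤ : Subgroup G) := by
    have : n * x * n⁻¹ * x⁻¹ = n * (x * n⁻¹ * x⁻¹) := by group
    rw [this]
    exact mul_mem hnN (hNn.conj_mem _ (inv_mem hnN) x)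
  have h3 := eq_one_of_coprime_groups hpr hX hNr h1 h2
  rw [mul_inv_eq_one, mul_inv_eq_iff_eq_mul] at h3
  exact h3

/-- Lemma P'. -/
theorem lemmaP [Finite G] {A X : Subgroup G} (hA : HerPermutable A) (hAr : A ≤ rad ⊤)
    {p : ℕ} [hp : Fact p.Prime] (hX : IsPGroup p X) (hAX : ∀ a ∈ A, ∀ x ∈ X, a * x * a⁻¹ ∈ X)
    (hXA : X ≤ ⁅X, A⁆) : X ≤ opc p ⊤ := by
  have hOn : (opc p (⊤ : Subgroup G)).Normal := normalIn_top.1 (opc_normalIn p ⊤)
  set N := opc p (⊤ : Subgroup G) with hN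
  set f := QuotientGroup.mk' N with hf
  have hfs : Function.Surjective f := QuotientGroup.mk'_surjective N
  have h1 : X.map f = ⊥ := by
    refine lemmaP_aux (A := A.map f) (hA.map hfs) ?_ (hX.map f) ?_ ?_ (opc_quotient_opc p)
    · refine (Subgroup.map_mono hAr).trans ((map_rad_le ⊤ f).trans ?_)
      rw [Subgroup.map_top_of_surjective f hfs]
    · rintro _ ⟨a, ha, rfl⟩ _ ⟨x, hx, rfl⟩
      exact ⟨a * x * a⁻¹, hAX a ha x hx, by simp⟩
    · rw [← Subgroup.map_commutator]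
      exact Subgroup.map_mono hXA
  rw [Subgroup.map_eq_bot_iff, hf, QuotientGroup.ker_mk'] at h1
  exact h1

/-- Lemma P', relative form. -/
theorem lemmaP' [Finite G] {A X E : Subgroup G} (hA : HerPermutable A) (hAE : A ≤ E)
    (hAr : A ≤ rad E) (hXE : X ≤ E)
    {p : ℕ} [hp : Fact p.Prime] (hX : IsPGroup p X) (hAX : ∀ a ∈ A, ∀ x ∈ X, a * x * a⁻¹ ∈ X)
    (hXA : X ≤ ⁅X, A⁆) : X ≤ opc p E := by
  have h1 : X.subgroupOf E ≤ opc p ⊤ := by
    refine lemmaP (A := A.subgroupOf E) (hA.subgroupOf hAE) ?_ hX.comap_subtype ?_ ?_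
    · intro a ha
      rw [Subgroup.mem_subgroupOf] at ha
      have h2 := hAr ha
      rw [rad_eq_map_top] at h2
      obtain ⟨b, hb, e⟩ := h2
      have : b = a := Subtype.ext e
      rwa [← this]
    · intro a ha x hx
      rw [Subgroup.mem_subgroupOf] at ha hx ⊢
      exact hAX _ ha _ hx
    · intro x hx
      rw [Subgroup.mem_subgroupOf] at hx
      have h2 := hXA hx
      have h3 : ⁅X, A⁆ = ⁅X.subgroupOf E, A.subgroupOf E⁆.map E.subtype := by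
        rw [Subgroup.map_commutator, Subgroup.subgroupOf_map_subtype,
          Subgroup.subgroupOf_map_subtype, inf_of_le_left hXE, inf_of_le_left hAE]
      rw [h3] at h2
      obtain ⟨b, hb, e⟩ := h2
      have : b = x := Subtype.ext e
      rwa [← this]
  have h2 := Subgroup.map_mono (f := E.subtype) h1
  rwa [Subgroup.subgroupOf_map_subtype, inf_of_le_left hXE, ← opc_eq_map_top] at h2

theorem MC.lemmaP [Finite G] (h : MC A) {X E : Subgroup G} (hAE : A ≤ E) (hE : E ≠ ⊤)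
    (hXE : X ≤ E) {p : ℕ} [hp : Fact p.Prime] (hX : IsPGroup p X)
    (hAX : ∀ a ∈ A, ∀ x ∈ X, a * x * a⁻¹ ∈ X) (hXA : X ≤ ⁅X, A⁆) : X ≤ opc p E :=
  lemmaP' h.her hAE (h.le_rad hAE hE) hXE hX hAX hXA

end MP_5771ce_al
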