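import Pool.Agent.Lib.MP_5771ce_al.LibCoprime

/-!
# Nilpotent action, the `A × B` lemma, action on the Frattini quotient
-/

open Subgroup
open scoped Pointwise commutatorElement

namespace MP_5771ce_al

variable {G : Type*} [Group G]

theorem card_lt_of_lt [Finite G] {H K : Subgroup G} (h : H < K) : Nat.card H < Nat.card K := by
  refine lt_of_le_of_ne (Subgroup.card_le_of_le h.le) fun he => h.ne ?_
  exact Subgroup.eq_of_le_of_card_ge h.le he.ge

/-- In a nilpotent group `P`, a subgroup `V` with `V ≤ [V,P]`, `V ≤ P` is trivial. -/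
theorem eq_bot_of_le_commutator {V P : Subgroup G} (hP : Group.IsNilpotent P) (hVP : V ≤ P)
    (h : V ≤ ⁅V, P⁆) : V = ⊥ := by
  obtain ⟨n, hn⟩ := (Subgroup.isNilpotent_iff_lowerCentralSeries (S := P)).1 hP
  have key : ∀ k, V ≤ P.lowerCentralSeries k := by
    intro k
    induction k with
    | zero => exact hVP
    | succ k ih => exact h.trans (commutator_mono ih le_rfl)
  have := key n
  rw [hn] at this
  exact eq_bot_iff.2 this

/-- A `p`-group `B` acting on a nontrivial `p`-group `V`: `[V,B] < V`. -/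
theorem commutator_lt_of_pgroup [Finite G] {p : ℕ} [Fact p.Prime] {V B : Subgroup G}
    (hV : IsPGroup p V) (hB : IsPGroup p B) (hBV : B ≤ normalizer V) (hne : V ≠ ⊥) :
    ⁅V, B⁆ < V := by
  have hle : ⁅V, B⁆ ≤ V := le_normalizer_iff_commutator_le_left.1 hBV
  refine lt_of_le_of_ne hle ?_
  intro heq
  apply hne
  have hPgrp : IsPGroup p (B ⊔ V : Subgroup G) := IsPGroup.to_sup_of_normal_right' hB hV hBV
  refine eq_bot_of_le_commutator (P := B ⊔ V) hPgrp.isNilpotent le_sup_right ?_
  calc V ≤ ⁅V, B⁆ := heq.ge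
    _ ≤ ⁅V, B ⊔ V⁆ := commutator_mono le_rfl le_sup_left

/-- If `B` normalises `V` and centralises `X`, then `B` normalises `[V,X]`. -/
theorem le_normalizer_commutator {V X B : Subgroup G} (hBV : B ≤ normalizer V)
    (hBX : B ≤ normalizer X) : B ≤ normalizer (⁅V, X⁆ : Subgroup G) := by
  intro b hb
  have h : ∀ c ∈ B, ∀ y ∈ ⁅V, X⁆, c * y * c⁻¹ ∈ ⁅V, X⁆ := by
    intro c hc y hy
    have hmap : (⁅V, X⁆).map (MulAut.conj c).toMonoidHom ≤ ⁅V, X⁆ := by
      rw [map_commutator]
      apply commutator_mono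
      · rintro _ ⟨v, hv, rfl⟩
        exact mem_normalizer_conj (hBV hc) hv
      · rintro _ ⟨v, hv, rfl⟩
        exact mem_normalizer_conj (hBX hc) hv
    exact hmap ⟨y, hy, rfl⟩
  rw [mem_normalizer_iff]
  intro y
  refine ⟨h b hb y, fun hy => ?_⟩
  have := h b⁻¹ (inv_mem hb) _ hy
  convert this using 1
  group

/-- **Thompson's `A × B` lemma.** `V`, `B` are `p`-groups, `X` a `q`-group, `q ≠ p`, `B` and `X`
normalise `V`, `[B,X] = 1`, and `X` centralises `C_V(B)`. Then `X` centralises `V`. -/
theorem axb [Finite G] {p q : ℕ} [Fact p.Prime] [Fact q.Prime] (hpq : p ≠ q)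
    {V B X : Subgroup G} (hV : IsPGroup p V) (hB : IsPGroup p B) (hX : IsPGroup q X)
    (hBV : B ≤ normalizer V) (hXV : X ≤ normalizer V) (hBX : ⁅B, X⁆ = ⊥)
    (hC : ⁅V ⊓ centralizer (B : Set G), X⁆ = ⊥) : ⁅V, X⁆ = ⊥ := by
  have hq : ∀ W : Subgroup G, IsPGroup p W → ¬ q ∣ Nat.card W := by
    intro W hW hd
    obtain ⟨n, hn⟩ := (IsPGroup.iff_card).1 hW
    rw [hn] at hd
    exact hpq ((Nat.prime_dvd_prime_iff_eq Fact.out Fact.out).1
      ((Fact.out : q.Prime).dvd_of_dvd_pow hd)).symm
  have hBX' : B ≤ normalizer X := by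
    have : B ≤ centralizer (X : Set G) := commutator_eq_bot_iff_le_centralizer.1 hBX
    exact this.trans (centralizer_le_normalizer (X : Set G))
  have hXB' : X ≤ normalizer B := by
    have : X ≤ centralizer (B : Set G) := by
      rw [← commutator_eq_bot_iff_le_centralizer, commutator_comm]
      exact hBX
    exact this.trans (centralizer_le_normalizer (B : Set G))
  induction hn : Nat.card V using Nat.strong_induction_on generalizing V with
  | _ n ih =>
    by_contra hne
    have hWV : ⁅V, X⁆ ≤ V := le_normalizer_iff_commutator_le_left.1 hXV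
    have hproper : ∀ W : Subgroup G, W < V → B ≤ normalizer W → X ≤ normalizer W →
        ⁅W, X⁆ = ⊥ := by
      intro W hW hBW hXW
      refine ih (Nat.card W) ?_ (V := W) (hV.to_le hW.le) hBW hXW ?_ rfl
      · rw [← hn]
        exact card_lt_of_lt hW
      · rw [eq_bot_iff, ← hC]
        exact commutator_mono (inf_le_inf_right _ hW.le) le_rfl
    have hW : ⁅V, X⁆ = V := by
      by_contra h
      have h1 := hproper _ (lt_of_le_of_ne hWV h) (le_normalizer_commutator hBV hBX')
        (normalizer_commutator_ge_right V X)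
      rw [commutator_commutator_eq hX hXV (hq V hV)] at h1
      exact hne h1
    have hVne : V ≠ ⊥ := by
      rintro rfl
      exact hne hW
    have hlt := commutator_lt_of_pgroup hV hB hBV hVne
    have h1 : ⁅⁅V, B⁆, X⁆ = ⊥ := hproper _ hlt (normalizer_commutator_ge_right V B)
      (le_normalizer_commutator hXV hXB')
    have h2 : ⁅⁅B, X⁆, V⁆ = ⊥ := by rw [hBX, commutator_bot_left]
    have h3 : ⁅⁅X, V⁆, B⁆ = ⊥ := by
      refine commutator_commutator_eq_bot_of_rotate (H₁ := X) (H₂ := V) (H₃ := B) ?_ ?_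
      · exact h1
      · exact h2
    rw [commutator_comm X V, hW] at h3
    have h4 : V ≤ centralizer (B : Set G) := commutator_eq_bot_iff_le_centralizer.1 h3
    rw [inf_eq_left.2 h4] at hC
    exact hne hC

end MP_5771ce_al
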