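import Pool.Agent.Lib.MP_5771ce_al.Basic

/-!
# Coprime action (library file LIB-B for `MP_5771ce_al`)

Internal formulation: `V`, `N`, `X` are subgroups of a group `G`, `X` is a `q`-group normalising
them and `q` does not divide their order.
-/

open Subgroup
open scoped Pointwise commutatorElement

namespace MP_5771ce_al

variable {G : Type*} [Group G]

theorem mem_normalizer_conj {N : Subgroup G} {x n : G} (hx : x ∈ normalizer N) (hn : n ∈ N) :
    x * n * x⁻¹ ∈ N := (mem_normalizer_iff.1 hx n).1 hn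

theorem mem_normalizer_conj' {N : Subgroup G} {x n : G} (hx : x ∈ normalizer N) (hn : n ∈ N) :
    x⁻¹ * n * x ∈ N := by
  have := mem_normalizer_conj (inv_mem hx) hn
  simpa using this

/-- If the coset `v N` is invariant under conjugation by the `q`-group `X`, and `q` does not divide
`|N|`, then some element of `v N` centralises `X`. -/
theorem exists_mul_mem_centralizer {q : ℕ} [Fact q.Prime] {N X : Subgroup G}
    (hX : IsPGroup q X) (hXN : X ≤ normalizer N) (hN : ¬ q ∣ Nat.card N) {v : G}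
    (hv : ∀ x ∈ X, v⁻¹ * (x * v * x⁻¹) ∈ N) :
    ∃ n ∈ N, v * n ∈ centralizer (X : Set G) := by
  classical
  have hfin : Finite N := by
    by_contra h
    rw [not_finite_iff_infinite] at h
    exact hN (by rw [Nat.card_eq_zero_of_infinite]; exact dvd_zero q)
  have hmem : ∀ (x : X) (n : N), v⁻¹ * (x : G) * v * n * (x : G)⁻¹ ∈ N := by
    intro x n
    have h1 := hv x x.2
    have h2 := mem_normalizer_conj (hXN x.2) n.2
    have := mul_mem h1 h2
    convert this using 1
    group
  let act : MulAction X N :=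
    { smul := fun x n => ⟨v⁻¹ * (x : G) * v * n * (x : G)⁻¹, hmem x n⟩
      one_smul := by
        intro n
        apply Subtype.ext
        change v⁻¹ * ((1 : X) : G) * v * n * ((1 : X) : G)⁻¹ = n
        simp
      mul_smul := by
        intro x y n
        apply Subtype.ext
        change v⁻¹ * ((x * y : X) : G) * v * n * ((x * y : X) : G)⁻¹ =
          v⁻¹ * (x : G) * v * (v⁻¹ * (y : G) * v * n * (y : G)⁻¹) * (x : G)⁻¹
        push_cast
        group }
  have hmod := @IsPGroup.card_modEq_card_fixedPoints q X _ hX _ N act _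
  have hne : Nonempty (@MulAction.fixedPoints X N _ act) := by
    by_contra h
    rw [not_nonempty_iff] at h
    have h0 : Nat.card (@MulAction.fixedPoints X N _ act) = 0 := Nat.card_of_isEmpty
    rw [h0] at hmod
    exact hN ((Nat.modEq_zero_iff_dvd).1 hmod)
  obtain ⟨⟨n, hn⟩⟩ := hne
  refine ⟨n, n.2, ?_⟩
  rw [mem_centralizer_iff]
  intro x hx
  have h := hn ⟨x, hx⟩
  have h' : v⁻¹ * x * v * n * x⁻¹ = n := congrArg Subtype.val h
  have : x * (v * n) = v * (v⁻¹ * x * v * n * x⁻¹) * x := by group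
  rw [SetLike.mem_coe] at hx
  rw [this, h']

/-- Fixed points lift to quotients, right coset form. -/
theorem exists_mul_mem_centralizer' {q : ℕ} [Fact q.Prime] {N X : Subgroup G}
    (hX : IsPGroup q X) (hXN : X ≤ normalizer N) (hN : ¬ q ∣ Nat.card N) {v : G}
    (hv : ∀ x ∈ X, ⁅x, v⁆ ∈ N) :
    ∃ n ∈ N, n * v ∈ centralizer (X : Set G) := by
  obtain ⟨n, hn, h⟩ := exists_mul_mem_centralizer hX hXN hN (v := v⁻¹) (by
    intro x hx
    have := inv_mem (hv x hx)
    rw [commutatorElement_def] at this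
    convert this using 1
    group)
  refine ⟨n⁻¹, inv_mem hn, ?_⟩
  have := inv_mem h
  simpa using this

variable {q : ℕ} [Fact q.Prime]

/-- `V = [V,X] C_V(X)`, elementwise form. -/
theorem exists_eq_mul_of_coprime {V X : Subgroup G} (hX : IsPGroup q X)
    (hXV : X ≤ normalizer V) (hV : ¬ q ∣ Nat.card V) {v : G} (hv : v ∈ V) :
    ∃ w ∈ ⁅V, X⁆, ∃ c ∈ V ⊓ centralizer (X : Set G), w * c = v := by
  have hle : ⁅V, X⁆ ≤ V := le_normalizer_iff_commutator_le_left.1 hXV
  have hcard : ¬ q ∣ Nat.card (⁅V, X⁆ : Subgroup G) :=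
    fun h => hV (h.trans (Subgroup.card_dvd_of_le hle))
  obtain ⟨n, hn, hc⟩ := exists_mul_mem_centralizer' hX (v := v)
    (N := ⁅V, X⁆) (normalizer_commutator_ge_right V X) hcard (by
      intro x hx
      rw [commutator_comm]
      exact commutator_mem_commutator hx hv)
  exact ⟨n⁻¹, inv_mem hn, n * v, ⟨mul_mem (hle hn) hv, hc⟩, by group⟩

/-- `V = [V,X] C_V(X)`. -/
theorem sup_centralizer_eq {V X : Subgroup G} (hX : IsPGroup q X)
    (hXV : X ≤ normalizer V) (hV : ¬ q ∣ Nat.card V) :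
    ⁅V, X⁆ ⊔ (V ⊓ centralizer (X : Set G)) = V := by
  apply le_antisymm
  · exact sup_le (le_normalizer_iff_commutator_le_left.1 hXV) inf_le_left
  · intro v hv
    obtain ⟨w, hw, c, hc, rfl⟩ := exists_eq_mul_of_coprime hX hXV hV hv
    exact mul_mem (mem_sup_left hw) (mem_sup_right hc)

/-- `[V,X,X] = [V,X]`. -/
theorem commutator_commutator_eq {V X : Subgroup G} (hX : IsPGroup q X)
    (hXV : X ≤ normalizer V) (hV : ¬ q ∣ Nat.card V) :
    ⁅⁅V, X⁆, X⁆ = ⁅V, X⁆ := by
  have hle : ⁅V, X⁆ ≤ V := le_normalizer_iff_commutator_le_left.1 hXV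
  apply le_antisymm
  · exact commutator_mono hle le_rfl
  · rw [commutator_le]
    intro v hv x hx
    obtain ⟨w, hw, c, hc, rfl⟩ := exists_eq_mul_of_coprime hX hXV hV hv
    have hcx : c * x = x * c := ((mem_centralizer_iff.1 hc.2) x hx).symm
    have : ⁅w * c, x⁆ = ⁅w, x⁆ := by
      rw [commutatorElement_def, commutatorElement_def]
      calc w * c * x * (w * c)⁻¹ * x⁻¹ = w * (c * x) * c⁻¹ * w⁻¹ * x⁻¹ := by group
        _ = w * x * w⁻¹ * x⁻¹ := by rw [hcx]; group
    rw [this]
    exact commutator_mem_commutator hw hx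

/-- If `[V,X] ≤ N` and `[N,X] = 1` then `[V,X] = 1`. -/
theorem commutator_eq_bot_of_series {V N X : Subgroup G} (hX : IsPGroup q X)
    (hXV : X ≤ normalizer V) (hV : ¬ q ∣ Nat.card V) (h1 : ⁅V, X⁆ ≤ N) (h2 : ⁅N, X⁆ = ⊥) :
    ⁅V, X⁆ = ⊥ := by
  rw [← commutator_commutator_eq hX hXV hV, eq_bot_iff, ← h2]
  exact commutator_mono h1 le_rfl

/-- For abelian `V`: `[V,X] ∩ C_V(X) = 1`. -/
theorem inf_centralizer_eq_bot [Finite G] {V X : Subgroup G} (hX : IsPGroup q X)
    (hXV : X ≤ normalizer V) (hV : ¬ q ∣ Nat.card V)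
    (hab : ∀ a ∈ V, ∀ b ∈ V, a * b = b * a) :
    ⁅V, X⁆ ⊓ centralizer (X : Set G) = ⊥ := by
  classical
  have hle : ⁅V, X⁆ ≤ V := le_normalizer_iff_commutator_le_left.1 hXV
  let _ : CommGroup V :=
    { (inferInstance : Group V) with
      mul_comm := fun a b => Subtype.ext (hab a a.2 b b.2) }
  have _ : Fintype X := Fintype.ofFinite X
  let c : X → V → V := fun x v => ⟨(x : G) * v * (x : G)⁻¹, mem_normalizer_conj (hXV x.2) v.2⟩
  let N : V →* V :=
    { toFun := fun v => ∏ x : X, c x v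
      map_one' := by
        apply Finset.prod_eq_one
        intro x _
        apply Subtype.ext
        simp [c]
      map_mul' := by
        intro v w
        rw [← Finset.prod_mul_distrib]
        apply Finset.prod_congr rfl
        intro x _
        apply Subtype.ext
        change (x : G) * ((v * w : V) : G) * (x : G)⁻¹ =
          (x : G) * v * (x : G)⁻¹ * ((x : G) * w * (x : G)⁻¹)
        push_cast
        group }
  have hN : ∀ v, N v = ∏ x : X, c x v := fun v => rfl
  have hNc : ∀ (y : X) (v : V), N (c y v) = N v := by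
    intro y v
    rw [hN, hN]
    refine Fintype.prod_equiv (Equiv.mulRight y) _ _ ?_
    intro x
    apply Subtype.ext
    change (x : G) * ((y : G) * v * (y : G)⁻¹) * (x : G)⁻¹ =
      ((x * y : X) : G) * v * ((x * y : X) : G)⁻¹
    push_cast
    group
  have hker : ∀ w (hw : w ∈ ⁅V, X⁆), N ⟨w, hle hw⟩ = 1 := by
    have : ⁅V, X⁆ ≤ N.ker.map V.subtype := by
      rw [commutator_le]
      intro v hv x hx
      refine ⟨⟨⁅v, x⁆, hle (commutator_mem_commutator hv hx)⟩, ?_, rfl⟩
      rw [SetLike.mem_coe, MonoidHom.mem_ker]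
      have : (⟨⁅v, x⁆, hle (commutator_mem_commutator hv hx)⟩ : V) =
          ⟨v, hv⟩ * (c ⟨x, hx⟩ ⟨v, hv⟩)⁻¹ := by
        apply Subtype.ext
        change ⁅v, x⁆ = v * (x * v * x⁻¹)⁻¹
        rw [commutatorElement_def]
        group
      rw [this, map_mul, map_inv, hNc]
      simp
    intro w hw
    obtain ⟨u, hu, huw⟩ := this hw
    have : (⟨w, hle hw⟩ : V) = u := Subtype.ext huw.symm
    rw [this]
    exact hu
  rw [eq_bot_iff]
  intro w hw
  obtain ⟨hw1, hw2⟩ := mem_inf.1 hw
  have h1 := hker w hw1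
  have h2 : N ⟨w, hle hw1⟩ = ⟨w, hle hw1⟩ ^ Fintype.card X := by
    rw [hN, Finset.prod_congr rfl (g := fun _ => (⟨w, hle hw1⟩ : V)), Finset.prod_const,
      Finset.card_univ]
    intro x _
    apply Subtype.ext
    change (x : G) * w * (x : G)⁻¹ = w
    rw [(mem_centralizer_iff.1 hw2) x x.2]
    group
  rw [h2] at h1
  have h3 : w ^ Fintype.card X = 1 := by
    have := congrArg Subtype.val h1
    simpa using this
  have hXcard : ∃ n, Nat.card X = q ^ n := (IsPGroup.iff_card).1 hX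
  obtain ⟨n, hn⟩ := hXcard
  rw [← Nat.card_eq_fintype_card, hn] at h3
  have h4 : w ^ Nat.card V = 1 := by
    have h5 := pow_card_eq_one' (x := (⟨w, hle hw1⟩ : V))
    exact congrArg Subtype.val h5
  have hcop : Nat.Coprime (q ^ n) (Nat.card V) :=
    Nat.Coprime.pow_left _ ((Nat.Prime.coprime_iff_not_dvd Fact.out).2 hV)
  have h5 : orderOf w ∣ Nat.gcd (q ^ n) (Nat.card V) :=
    Nat.dvd_gcd (orderOf_dvd_of_pow_eq_one h3) (orderOf_dvd_of_pow_eq_one h4)
  rw [hcop, Nat.dvd_one] at h5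
  exact orderOf_eq_one_iff.1 h5

/-- A `q`-group acting on an abelian group `V` of order prime to `q` with
`C_V(X) ≥` all elements of prime order acts trivially. -/
theorem commutator_eq_bot_of_omega [Finite G] {V X : Subgroup G} (hX : IsPGroup q X)
    (hXV : X ≤ normalizer V) (hV : ¬ q ∣ Nat.card V)
    (hab : ∀ a ∈ V, ∀ b ∈ V, a * b = b * a)
    (hom : ∀ v ∈ V, (orderOf v).Prime → v ∈ centralizer (X : Set G)) :
    ⁅V, X⁆ = ⊥ := by
  have hle : ⁅V, X⁆ ≤ V := le_normalizer_iff_commutator_le_left.1 hXV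
  by_contra hne
  obtain ⟨⟨w, hw⟩, hw0⟩ := (Subgroup.ne_bot_iff_exists_ne_one (H := ⁅V, X⁆)).1 hne
  have hw1 : w ≠ 1 := fun h => hw0 (Subtype.ext h)
  obtain ⟨p, hp, hpd⟩ := Nat.exists_prime_and_dvd (fun h => hw1 (orderOf_eq_one_iff.1 h))
  obtain ⟨k, hk⟩ := hpd
  have hpos : 0 < orderOf w := orderOf_pos w
  have hk0 : k ≠ 0 := by
    rintro rfl
    omega
  have hord : orderOf (w ^ k) = p := by
    rw [orderOf_pow' w hk0, hk, Nat.gcd_eq_right (Dvd.intro_left p rfl)]
    exact Nat.mul_div_cancel _ (Nat.pos_of_ne_zero hk0)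
  have hmem : w ^ k ∈ ⁅V, X⁆ := pow_mem hw k
  have hc := hom (w ^ k) (hle hmem) (by rw [hord]; exact hp)
  have : w ^ k ∈ (⊥ : Subgroup G) := by
    rw [← inf_centralizer_eq_bot hX hXV hV hab]
    exact ⟨hmem, hc⟩
  rw [mem_bot] at this
  rw [this, orderOf_one] at hord
  exact hp.one_lt.ne hord

end MP_5771ce_al
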