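import Pool.Agent.Lib.MP_5771ce_al.LibAxB

/-!
# Cores and radicals of subgroups (library file LIB-A for `MP_5771ce_al`)

Relative formulation: everything is a `Subgroup G`. `NormalIn N E`: `N` is a normal subgroup of
`E`; `opc p E = O_p(E)`; `opp p E` is the largest normal subgroup of `E` of order prime to `p`;
`rad E` is the soluble radical of `E`.
-/

open Subgroup
open scoped Pointwise commutatorElement

namespace MP_5771ce_al

variable {G : Type*} [Group G] {H : Type*} [Group H]

/-- `N` is a normal subgroup of `E`. -/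
def NormalIn (N E : Subgroup G) : Prop := N ≤ E ∧ ∀ e ∈ E, ∀ n ∈ N, e * n * e⁻¹ ∈ N

/-- `O_p(E)`, the largest normal `p`-subgroup of `E`. -/
def opc (p : ℕ) (E : Subgroup G) : Subgroup G := sSup {N | NormalIn N E ∧ IsPGroup p N}

/-- The soluble radical of `E`. -/
def rad (E : Subgroup G) : Subgroup G := sSup {N | NormalIn N E ∧ Group.IsSolvable N}

/-- The largest normal subgroup of `E` of order prime to `p`. -/
def opp (p : ℕ) (E : Subgroup G) : Subgroup G := sSup {N | NormalIn N E ∧ ¬ p ∣ Nat.card N}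

/-! ### Normal subgroups of subgroups -/

theorem NormalIn.le {N E : Subgroup G} (h : NormalIn N E) : N ≤ E := h.1

theorem NormalIn.conj_mem {N E : Subgroup G} (h : NormalIn N E) {e n : G} (he : e ∈ E)
    (hn : n ∈ N) : e * n * e⁻¹ ∈ N := h.2 e he n hn

theorem NormalIn.conj_mem' {N E : Subgroup G} (h : NormalIn N E) {e n : G} (he : e ∈ E)
    (hn : n ∈ N) : e⁻¹ * n * e ∈ N := by
  have := h.2 e⁻¹ (inv_mem he) n hn
  simpa using this

theorem normalIn_iff_le_normalizer {N E : Subgroup G} :
    NormalIn N E ↔ N ≤ E ∧ E ≤ normalizer (N : Set G) := by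
  rw [NormalIn, le_normalizer_iff]

theorem NormalIn.le_normalizer {N E : Subgroup G} (h : NormalIn N E) :
    E ≤ normalizer (N : Set G) := (normalIn_iff_le_normalizer.1 h).2

theorem normalIn_of_le_normalizer {N E : Subgroup G} (h1 : N ≤ E)
    (h2 : E ≤ normalizer (N : Set G)) : NormalIn N E := normalIn_iff_le_normalizer.2 ⟨h1, h2⟩

theorem normalIn_top {N : Subgroup G} : NormalIn N ⊤ ↔ N.Normal := by
  constructor
  · intro h
    exact ⟨fun n hn g => h.2 g (mem_top g) n hn⟩
  · intro h
    exact ⟨le_top, fun g _ n hn => h.conj_mem n hn g⟩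

theorem normalIn_of_normal {N E : Subgroup G} [hN : N.Normal] (h : N ≤ E) : NormalIn N E :=
  ⟨h, fun g _ n hn => hN.conj_mem n hn g⟩

theorem normalIn_iff_subgroupOf {N E : Subgroup G} (h : N ≤ E) :
    NormalIn N E ↔ (N.subgroupOf E).Normal := by
  rw [normal_subgroupOf_iff_le_normalizer h, normalIn_iff_le_normalizer]
  exact ⟨fun h => h.2, fun h' => ⟨h, h'⟩⟩

theorem NormalIn.subgroupOf_normal {N E : Subgroup G} (h : NormalIn N E) :
    (N.subgroupOf E).Normal := (normalIn_iff_subgroupOf h.1).1 h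

theorem normalIn_bot (E : Subgroup G) : NormalIn ⊥ E := by
  refine ⟨bot_le, ?_⟩
  intro e _ n hn
  rw [mem_bot] at hn ⊢
  rw [hn]; simp

theorem normalIn_refl (E : Subgroup G) : NormalIn E E :=
  ⟨le_rfl, fun _ he _ hn => mul_mem (mul_mem he hn) (inv_mem he)⟩

theorem NormalIn.inf {N M E : Subgroup G} (hN : NormalIn N E) (hM : NormalIn M E) :
    NormalIn (N ⊓ M) E :=
  ⟨inf_le_left.trans hN.1, fun e he n hn => ⟨hN.2 e he n hn.1, hM.2 e he n hn.2⟩⟩

/-- `N ∩ F` is normal in `F` for every subgroup `F ≤ E`. -/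
theorem NormalIn.inf_of_le {N E F : Subgroup G} (hN : NormalIn N E) (hF : F ≤ E) :
    NormalIn (N ⊓ F) F :=
  ⟨inf_le_right, fun e he n hn => ⟨hN.2 e (hF he) n hn.1, (normalIn_refl F).2 e he n hn.2⟩⟩

/-- `N` is normal in every `F` with `N ≤ F ≤ E`. -/
theorem NormalIn.of_le {N E F : Subgroup G} (hN : NormalIn N E) (h : N ≤ F) (hF : F ≤ E) :
    NormalIn N F := ⟨h, fun e he n hn => hN.2 e (hF he) n hn⟩

theorem NormalIn.sup {N M E : Subgroup G} (hN : NormalIn N E) (hM : NormalIn M E) :
    NormalIn (N ⊔ M) E := by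
  refine ⟨sup_le hN.1 hM.1, fun e he => ?_⟩
  have h : (N ⊔ M).map (MulAut.conj e).toMonoidHom ≤ N ⊔ M := by
    rw [Subgroup.map_sup]
    apply sup_le_sup
    · rintro _ ⟨v, hv, rfl⟩
      exact hN.2 e he v hv
    · rintro _ ⟨v, hv, rfl⟩
      exact hM.2 e he v hv
  exact fun n hn => h ⟨n, hn, rfl⟩

theorem NormalIn.commutator {N M E : Subgroup G} (hN : NormalIn N E) (hM : NormalIn M E) :
    NormalIn ⁅N, M⁆ E := by
  refine ⟨?_, fun e he => ?_⟩
  · rw [commutator_le]
    intro a ha b hb
    rw [commutatorElement_def]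
    exact mul_mem (mul_mem (mul_mem (hN.1 ha) (hM.1 hb)) (inv_mem (hN.1 ha)))
      (inv_mem (hM.1 hb))
  · have h : (⁅N, M⁆).map (MulAut.conj e).toMonoidHom ≤ ⁅N, M⁆ := by
      rw [map_commutator]
      apply commutator_mono
      · rintro _ ⟨v, hv, rfl⟩
        exact hN.2 e he v hv
      · rintro _ ⟨v, hv, rfl⟩
        exact hM.2 e he v hv
    exact fun n hn => h ⟨n, hn, rfl⟩

/-- If `E` normalises `N`, it normalises the centraliser of `N`. -/
theorem conj_mem_centralizer {N : Subgroup G} {e c : G} (he : e ∈ normalizer (N : Set G))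
    (hc : c ∈ centralizer (N : Set G)) : e * c * e⁻¹ ∈ centralizer (N : Set G) := by
  rw [mem_centralizer_iff]
  intro n hn
  have h1 := (mem_centralizer_iff.1 hc) _ (mem_normalizer_conj' he hn)
  calc n * (e * c * e⁻¹) = e * (e⁻¹ * n * e * c) * e⁻¹ := by group
    _ = e * (c * (e⁻¹ * n * e)) * e⁻¹ := by rw [h1]
    _ = e * c * e⁻¹ * n := by group

/-- The centraliser in `E` of a subgroup normalised by `E`. -/
theorem normalIn_inf_centralizer {N E : Subgroup G} (hN : E ≤ normalizer (N : Set G)) :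
    NormalIn (E ⊓ centralizer (N : Set G)) E :=
  ⟨inf_le_left, fun e he _ hc => ⟨(normalIn_refl E).2 e he _ hc.1,
    conj_mem_centralizer (hN he) hc.2⟩⟩

/-- The centraliser in `E` of a normal subgroup of `E`. -/
theorem NormalIn.inf_centralizer {N E : Subgroup G} (hN : NormalIn N E) :
    NormalIn (E ⊓ centralizer (N : Set G)) E := normalIn_inf_centralizer hN.le_normalizer

theorem NormalIn.map {N E : Subgroup G} (hN : NormalIn N E) (f : G →* H) :
    NormalIn (N.map f) (E.map f) := by
  refine ⟨map_mono hN.1, ?_⟩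
  rintro _ ⟨e, he, rfl⟩ _ ⟨n, hn, rfl⟩
  exact ⟨e * n * e⁻¹, hN.2 e he n hn, by simp⟩

theorem NormalIn.comap {N E : Subgroup H} (hN : NormalIn N E) (f : G →* H) :
    NormalIn (N.comap f) (E.comap f) := by
  refine ⟨comap_mono hN.1, ?_⟩
  intro e he n hn
  rw [mem_comap] at he hn ⊢
  rw [map_mul, map_mul, map_inv]
  exact hN.2 _ he _ hn

theorem NormalIn.conjBy {N E : Subgroup G} (hN : NormalIn N E) (x : G) :
    NormalIn (conjBy N x) (conjBy E x) := NormalIn.map hN _

theorem conjBy_eq_of_mem_normalizer {N : Subgroup G} {x : G}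
    (hx : x ∈ normalizer (N : Set G)) : conjBy N x = N := by
  apply conjBy_eq_self_of_forall
  intro y
  refine ⟨fun h => ?_, fun h => mem_normalizer_conj hx h⟩
  have := mem_normalizer_conj' hx h
  simpa [mul_assoc] using this

theorem NormalIn.conjBy_eq {N E : Subgroup G} (hN : NormalIn N E) {x : G} (hx : x ∈ E) :
    MP_5771ce_al.conjBy N x = N := conjBy_eq_of_mem_normalizer (hN.le_normalizer hx)

/-! ### A generic core -/

/-- If a class of subgroups is closed under products of two normal subgroups of `E`, the join of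
all normal subgroups of `E` in the class is one of them. -/
theorem sSup_mem_of_sup [Finite G] {P : Subgroup G → Prop} {E : Subgroup G} (hbot : P ⊥)
    (hsup : ∀ N M, NormalIn N E → NormalIn M E → P N → P M → P (N ⊔ M)) :
    NormalIn (sSup {N | NormalIn N E ∧ P N}) E ∧ P (sSup {N | NormalIn N E ∧ P N}) := by
  obtain ⟨M, hM, hmax⟩ := Set.Finite.exists_maximal
    (Set.toFinite {N : Subgroup G | NormalIn N E ∧ P N}) ⟨⊥, normalIn_bot E, hbot⟩
  have h : sSup {N | NormalIn N E ∧ P N} = M := by
    apply le_antisymm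
    · refine sSup_le fun N hN => ?_
      have h1 : M ⊔ N ∈ {N : Subgroup G | NormalIn N E ∧ P N} :=
        ⟨hM.1.sup hN.1, hsup M N hM.1 hN.1 hM.2 hN.2⟩
      exact le_sup_right.trans (hmax h1 le_sup_left)
    · exact le_sSup hM
  rw [h]
  exact hM

/-! ### Soluble subgroups -/

theorem isSolvable_of_le {N M : Subgroup G} (h : Group.IsSolvable M) (hNM : N ≤ M) :
    Group.IsSolvable N :=
  @Group.isSolvable_of_isSolvable_injective _ _ _ _ (inclusion hNM) (inclusion_injective hNM) h

theorem isSolvable_map {N : Subgroup G} (h : Group.IsSolvable N) (f : G →* H) :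
    Group.IsSolvable (N.map f) :=
  @Group.isSolvable_of_surjective _ _ _ _ (f.subgroupMap N) (f.subgroupMap_surjective N) h

theorem isSolvable_of_map_injective {N : Subgroup G} {f : G →* H}
    (hf : Function.Injective f) (h : Group.IsSolvable (N.map f)) : Group.IsSolvable N := by
  refine @Group.isSolvable_of_isSolvable_injective _ _ _ _ (f.subgroupMap N) ?_ h
  intro a b hab
  exact Subtype.ext (hf (congrArg Subtype.val hab))

theorem isSolvable_bot : Group.IsSolvable (⊥ : Subgroup G) := inferInstance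

theorem isSolvable_of_isPGroup {N : Subgroup G} [Finite G] {p : ℕ} [Fact p.Prime]
    (h : IsPGroup p N) : Group.IsSolvable N := by
  have := h.isNilpotent
  infer_instance

/-- Extensions: `E` is soluble if its image under `f` and `E ∩ ker f` are. -/
theorem isSolvable_of_map_of_ker {E : Subgroup G} (f : G →* H)
    (h1 : Group.IsSolvable (E ⊓ f.ker : Subgroup G)) (h2 : Group.IsSolvable (E.map f)) :
    Group.IsSolvable E := by
  refine @Group.isSolvable_of_ker_le_range E _ (E ⊓ f.ker : Subgroup G) (E.map f) _ _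
    (inclusion inf_le_left) (f.subgroupMap E) ?_ h1 h2
  intro x hx
  rw [MonoidHom.mem_ker] at hx
  have hx' : f x = 1 := congrArg Subtype.val hx
  exact ⟨⟨x.1, x.2, hx'⟩, rfl⟩

/-- Elements of `NB` when `B` normalises `N`. -/
theorem mem_sup_of_le_normalizer {N B : Subgroup G} (h : B ≤ normalizer (N : Set G)) {x : G} :
    x ∈ N ⊔ B ↔ ∃ b ∈ B, ∃ n ∈ N, b * n = x := by
  rw [sup_comm, ← SetLike.mem_coe, coe_mul_of_left_le_normalizer_right B N h, Set.mem_mul]
  rfl

theorem mem_sup_of_le_normalizer' {N B : Subgroup G} (h : B ≤ normalizer (N : Set G)) {x : G} :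
    x ∈ N ⊔ B ↔ ∃ n ∈ N, ∃ b ∈ B, n * b = x := by
  rw [← SetLike.mem_coe, coe_mul_of_right_le_normalizer_left N B h, Set.mem_mul]
  rfl

/-- `E` is soluble if it has a normal subgroup `N` and a subgroup `B`, both soluble, with
`E = NB`. -/
theorem isSolvable_sup {N B : Subgroup G} (hN : Group.IsSolvable N) (hB : Group.IsSolvable B)
    (h : B ≤ normalizer (N : Set G)) : Group.IsSolvable (N ⊔ B : Subgroup G) := by
  have hle : N ⊔ B ≤ normalizer (N : Set G) := sup_le le_normalizer h
  have hnorm : (N.subgroupOf (N ⊔ B)).Normal :=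
    (normal_subgroupOf_iff_le_normalizer le_sup_left).2 hle
  have h1 : Group.IsSolvable (N.subgroupOf (N ⊔ B)) := by
    refine isSolvable_of_map_injective (f := (N ⊔ B).subtype) (subtype_injective _) ?_
    rwa [subgroupOf_map_subtype, inf_of_le_left le_sup_left]
  refine (Group.isSolvable_iff_subgroup_quotient (N.subgroupOf (N ⊔ B))).2 ⟨h1, ?_⟩
  refine @Group.isSolvable_of_surjective _ _ _ _
    ((QuotientGroup.mk' (N.subgroupOf (N ⊔ B))).comp (inclusion le_sup_right : B →* _)) ?_ hB
  intro y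
  obtain ⟨x, rfl⟩ := QuotientGroup.mk'_surjective _ y
  obtain ⟨b, hb, n, hn, e⟩ := (mem_sup_of_le_normalizer h).1 x.2
  refine ⟨⟨b, hb⟩, ?_⟩
  change (QuotientGroup.mk (⟨b, _⟩ : (N ⊔ B : Subgroup G)) :
    (N ⊔ B : Subgroup G) ⧸ N.subgroupOf (N ⊔ B)) = QuotientGroup.mk x
  rw [QuotientGroup.eq, mem_subgroupOf]
  change b⁻¹ * x.1 ∈ N
  rw [← e]
  simpa using hn

/-! ### Orders -/

theorem permutes_of_le_normalizer {N M : Subgroup G} (h : M ≤ normalizer (N : Set G)) :
    Permutes N M := by
  unfold Permutes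
  rw [← coe_mul_of_left_le_normalizer_right M N h, ← coe_mul_of_right_le_normalizer_left N M h,
    sup_comm]

theorem card_mul_relIndex {N M : Subgroup G} (h : N ≤ M) :
    Nat.card N * N.relIndex M = Nat.card M := by
  have := relIndex_mul_relIndex ⊥ N M bot_le h
  rwa [relIndex_bot_left, relIndex_bot_left] at this

/-- `|AB| ∣ |A| |B|` if `AB = BA`. -/
theorem Permutes.card_sup_dvd {A B : Subgroup G} (h : Permutes A B) :
    Nat.card (A ⊔ B : Subgroup G) ∣ Nat.card A * Nat.card B := by
  rw [← card_mul_relIndex (le_sup_left : A ≤ A ⊔ B), h.relIndex_sup]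
  exact Nat.mul_dvd_mul_left _ (relIndex_dvd_card A B)

/-! ### `O_p`, the soluble radical, `O_{p'}` -/

section cores

variable [Finite G]

theorem opc_spec (p : ℕ) (E : Subgroup G) : NormalIn (opc p E) E ∧ IsPGroup p (opc p E) :=
  sSup_mem_of_sup (P := fun N : Subgroup G => IsPGroup p N) IsPGroup.of_bot
    fun _ _ hN hM h1 h2 => h1.to_sup_of_normal_right' h2 (hN.1.trans hM.le_normalizer)

theorem opc_normalIn (p : ℕ) (E : Subgroup G) : NormalIn (opc p E) E := (opc_spec p E).1

theorem opc_isPGroup (p : ℕ) (E : Subgroup G) : IsPGroup p (opc p E) := (opc_spec p E).2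

omit [Finite G] in
theorem le_opc {p : ℕ} {N E : Subgroup G} (h : NormalIn N E) (hp : IsPGroup p N) :
    N ≤ opc p E := le_sSup ⟨h, hp⟩

omit [Finite G] in
theorem opc_le (p : ℕ) (E : Subgroup G) : opc p E ≤ E := sSup_le fun _ h => h.1.1

theorem rad_spec (E : Subgroup G) : NormalIn (rad E) E ∧ Group.IsSolvable (rad E) :=
  sSup_mem_of_sup (P := fun N : Subgroup G => Group.IsSolvable N) isSolvable_bot
    fun _ _ hN hM h1 h2 => isSolvable_sup h1 h2 (hM.1.trans hN.le_normalizer)

theorem rad_normalIn (E : Subgroup G) : NormalIn (rad E) E := (rad_spec E).1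

theorem rad_isSolvable (E : Subgroup G) : Group.IsSolvable (rad E) := (rad_spec E).2

omit [Finite G] in
theorem le_rad {N E : Subgroup G} (h : NormalIn N E) (hp : Group.IsSolvable N) :
    N ≤ rad E := le_sSup ⟨h, hp⟩

omit [Finite G] in
theorem rad_le (E : Subgroup G) : rad E ≤ E := sSup_le fun _ h => h.1.1

theorem opp_spec {p : ℕ} (hp : p.Prime) (E : Subgroup G) :
    NormalIn (opp p E) E ∧ ¬ p ∣ Nat.card (opp p E) := by
  refine sSup_mem_of_sup (P := fun N : Subgroup G => ¬ p ∣ Nat.card N) ?_ ?_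
  · rw [card_bot]
    exact hp.one_lt.ne' ∘ Nat.dvd_one.1
  · intro N M hN hM h1 h2 h3
    have h4 := h3.trans (permutes_of_le_normalizer (hM.1.trans hN.le_normalizer)).card_sup_dvd
    rcases (Nat.Prime.dvd_mul hp).1 h4 with h5 | h5
    · exact h1 h5
    · exact h2 h5

theorem opp_normalIn {p : ℕ} (hp : p.Prime) (E : Subgroup G) : NormalIn (opp p E) E :=
  (opp_spec hp E).1

theorem not_dvd_card_opp {p : ℕ} (hp : p.Prime) (E : Subgroup G) : ¬ p ∣ Nat.card (opp p E) :=
  (opp_spec hp E).2

omit [Finite G] in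
theorem le_opp {p : ℕ} {N E : Subgroup G} (h : NormalIn N E) (hp : ¬ p ∣ Nat.card N) :
    N ≤ opp p E := le_sSup ⟨h, hp⟩

omit [Finite G] in
theorem opp_le (p : ℕ) (E : Subgroup G) : opp p E ≤ E := sSup_le fun _ h => h.1.1

theorem opc_le_rad (p : ℕ) [Fact p.Prime] (E : Subgroup G) : opc p E ≤ rad E :=
  le_rad (opc_normalIn p E) (isSolvable_of_isPGroup (opc_isPGroup p E))

/-! #### Intersections with subgroups -/

theorem opc_inf_le {p : ℕ} {E F : Subgroup G} (h : F ≤ E) : opc p E ⊓ F ≤ opc p F :=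
  le_opc ((opc_normalIn p E).inf_of_le h) ((opc_isPGroup p E).to_inf_left)

theorem rad_inf_le {E F : Subgroup G} (h : F ≤ E) : rad E ⊓ F ≤ rad F :=
  le_rad ((rad_normalIn E).inf_of_le h) (isSolvable_of_le (rad_isSolvable E) inf_le_left)

theorem opp_inf_le {p : ℕ} (hp : p.Prime) {E F : Subgroup G} (h : F ≤ E) :
    opp p E ⊓ F ≤ opp p F :=
  le_opp ((opp_normalIn hp E).inf_of_le h)
    fun hd => not_dvd_card_opp hp E (hd.trans (card_dvd_of_le inf_le_left))

theorem le_rad_of_le {A E F : Subgroup G} (hA : A ≤ rad E) (hAF : A ≤ F) (h : F ≤ E) :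
    A ≤ rad F := (le_inf hA hAF).trans (rad_inf_le h)

theorem le_opc_of_le {p : ℕ} {A E F : Subgroup G} (hA : A ≤ opc p E) (hAF : A ≤ F)
    (h : F ≤ E) : A ≤ opc p F := (le_inf hA hAF).trans (opc_inf_le h)

theorem rad_eq_self_iff {E : Subgroup G} : rad E = E ↔ Group.IsSolvable E := by
  refine ⟨fun h => h ▸ rad_isSolvable E, fun h => ?_⟩
  exact le_antisymm (rad_le E) (le_rad (normalIn_refl E) h)

theorem opc_eq_self_iff {p : ℕ} {E : Subgroup G} : opc p E = E ↔ IsPGroup p E := by
  refine ⟨fun h => h ▸ opc_isPGroup p E, fun h => ?_⟩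
  exact le_antisymm (opc_le p E) (le_opc (normalIn_refl E) h)

/-! #### Homomorphisms -/

theorem map_opc_le (p : ℕ) (E : Subgroup G) (f : G →* H) :
    (opc p E).map f ≤ opc p (E.map f) :=
  le_opc ((opc_normalIn p E).map f) ((opc_isPGroup p E).map f)

theorem map_rad_le (E : Subgroup G) (f : G →* H) : (rad E).map f ≤ rad (E.map f) :=
  le_rad ((rad_normalIn E).map f) (isSolvable_map (rad_isSolvable E) f)

omit [Finite G] in
theorem card_map_dvd (N : Subgroup G) (f : G →* H) : Nat.card (N.map f) ∣ Nat.card N :=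
  Subgroup.card_map_dvd N f

theorem map_opp_le {p : ℕ} (hp : p.Prime) (E : Subgroup G) (f : G →* H) :
    (opp p E).map f ≤ opp p (E.map f) :=
  le_opp ((opp_normalIn hp E).map f)
    fun hd => not_dvd_card_opp hp E (hd.trans (MP_5771ce_al.card_map_dvd _ f))

omit [Finite G] in
theorem eq_map_comap_of_le_map {N : Subgroup H} {E : Subgroup G} {f : G →* H}
    (h : N ≤ E.map f) : (N.comap f).map f = N := by
  apply map_comap_eq_self
  exact h.trans (map_le_range f E)

omit [Finite G] in
theorem comap_map_eq_of_ker_le {E : Subgroup G} {f : G →* H} (h : f.ker ≤ E) :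
    (E.map f).comap f = E := by
  rw [comap_map_eq, sup_eq_left.2 h]

section

variable [Finite H]

/-- `O_p` of the image under a homomorphism whose kernel is a `p`-group contained in `E`. -/
theorem opc_map_of_ker {p : ℕ} {E : Subgroup G} {f : G →* H} (hle : f.ker ≤ E)
    (hk : IsPGroup p f.ker) : opc p (E.map f) = (opc p E).map f := by
  apply le_antisymm _ (map_opc_le p E f)
  rw [← eq_map_comap_of_le_map (opc_le p (E.map f))]
  apply map_mono
  have h := (opc_normalIn p (E.map f)).comap f
  rw [comap_map_eq_of_ker_le hle] at h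
  exact le_opc h ((opc_isPGroup p _).comap_of_ker_isPGroup f hk)

/-- `rad` of the image under a homomorphism whose kernel is soluble and contained in `E`. -/
theorem rad_map_of_ker {E : Subgroup G} {f : G →* H} (hle : f.ker ≤ E)
    (hk : Group.IsSolvable f.ker) : rad (E.map f) = (rad E).map f := by
  apply le_antisymm _ (map_rad_le E f)
  rw [← eq_map_comap_of_le_map (rad_le (E.map f))]
  apply map_mono
  have h := (rad_normalIn (E.map f)).comap f
  rw [comap_map_eq_of_ker_le hle] at h
  refine le_rad h (isSolvable_of_map_of_ker f (isSolvable_of_le hk inf_le_right) ?_)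
  rw [eq_map_comap_of_le_map (rad_le (E.map f))]
  exact rad_isSolvable _

omit [Finite G] [Finite H] in
theorem card_eq_card_ker_mul (N : Subgroup G) (f : G →* H) (h : f.ker ≤ N) :
    Nat.card N = Nat.card f.ker * Nat.card (N.map f) := by
  rw [← relIndex_ker, MP_5771ce_al.card_mul_relIndex h]

/-- `O_{p'}` of the image under a homomorphism whose kernel is of order prime to `p` and contained
in `E`. -/
theorem opp_map_of_ker {p : ℕ} (hp : p.Prime) {E : Subgroup G} {f : G →* H} (hle : f.ker ≤ E)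
    (hk : ¬ p ∣ Nat.card f.ker) : opp p (E.map f) = (opp p E).map f := by
  apply le_antisymm _ (map_opp_le hp E f)
  rw [← eq_map_comap_of_le_map (opp_le p (E.map f))]
  apply map_mono
  have h := (opp_normalIn hp (E.map f)).comap f
  rw [comap_map_eq_of_ker_le hle] at h
  refine le_opp h fun hd => ?_
  rw [card_eq_card_ker_mul _ f (by rw [← MonoidHom.comap_bot]; exact comap_mono bot_le),
    eq_map_comap_of_le_map (opp_le p (E.map f))] at hd
  rcases (Nat.Prime.dvd_mul hp).1 hd with h1 | h1
  · exact hk h1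
  · exact not_dvd_card_opp hp _ h1

/-- `O_p` of the image under an injective homomorphism. -/
theorem opc_map_of_injective (p : ℕ) (E : Subgroup G) {f : G →* H}
    (hf : Function.Injective f) : opc p (E.map f) = (opc p E).map f := by
  have hk : f.ker = ⊥ := (MonoidHom.ker_eq_bot_iff f).2 hf
  exact opc_map_of_ker (hk ▸ bot_le) (hk ▸ IsPGroup.of_bot)

theorem rad_map_of_injective (E : Subgroup G) {f : G →* H}
    (hf : Function.Injective f) : rad (E.map f) = (rad E).map f := by
  have hk : f.ker = ⊥ := (MonoidHom.ker_eq_bot_iff f).2 hf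
  exact rad_map_of_ker (hk ▸ bot_le) (hk ▸ isSolvable_bot)

theorem opp_map_of_injective {p : ℕ} (hp : p.Prime) (E : Subgroup G) {f : G →* H}
    (hf : Function.Injective f) : opp p (E.map f) = (opp p E).map f := by
  have hk : f.ker = ⊥ := (MonoidHom.ker_eq_bot_iff f).2 hf
  refine opp_map_of_ker hp (hk ▸ bot_le) ?_
  rw [hk, card_bot]
  exact hp.one_lt.ne' ∘ Nat.dvd_one.1

/-- `O_p` of a preimage under a surjective homomorphism with kernel a `p`-group. -/
theorem opc_comap {p : ℕ} {E : Subgroup H} {f : G →* H} (hf : Function.Surjective f)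
    (hk : IsPGroup p f.ker) : opc p (E.comap f) = (opc p E).comap f := by
  have hle : ∀ K : Subgroup H, f.ker ≤ K.comap f := fun K => by
    rw [← MonoidHom.comap_bot]; exact comap_mono bot_le
  have h := opc_map_of_ker (hle E) hk
  rw [map_comap_eq_self_of_surjective hf] at h
  rw [h, comap_map_eq, sup_eq_left.2]
  exact le_opc (normalIn_of_normal (hle E)) hk

theorem rad_comap {E : Subgroup H} {f : G →* H} (hf : Function.Surjective f)
    (hk : Group.IsSolvable f.ker) : rad (E.comap f) = (rad E).comap f := by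
  have hle : ∀ K : Subgroup H, f.ker ≤ K.comap f := fun K => by
    rw [← MonoidHom.comap_bot]; exact comap_mono bot_le
  have h := rad_map_of_ker (hle E) hk
  rw [map_comap_eq_self_of_surjective hf] at h
  rw [h, comap_map_eq, sup_eq_left.2]
  exact le_rad (normalIn_of_normal (hle E)) hk

theorem opp_comap {p : ℕ} (hp : p.Prime) {E : Subgroup H} {f : G →* H}
    (hf : Function.Surjective f) (hk : ¬ p ∣ Nat.card f.ker) :
    opp p (E.comap f) = (opp p E).comap f := by
  have hle : ∀ K : Subgroup H, f.ker ≤ K.comap f := fun K => by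
    rw [← MonoidHom.comap_bot]; exact comap_mono bot_le
  have h := opp_map_of_ker hp (hle E) hk
  rw [map_comap_eq_self_of_surjective hf] at h
  rw [h, comap_map_eq, sup_eq_left.2]
  exact le_opp (normalIn_of_normal (hle E)) hk

end

/-! #### Inside the group `E` -/

theorem opc_map_subtype (p : ℕ) {E : Subgroup G} (K : Subgroup E) :
    opc p (K.map E.subtype) = (opc p K).map E.subtype :=
  opc_map_of_injective p K E.subtype_injective

theorem rad_map_subtype {E : Subgroup G} (K : Subgroup E) :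
    rad (K.map E.subtype) = (rad K).map E.subtype :=
  rad_map_of_injective K E.subtype_injective

theorem opp_map_subtype {p : ℕ} (hp : p.Prime) {E : Subgroup G} (K : Subgroup E) :
    opp p (K.map E.subtype) = (opp p K).map E.subtype :=
  opp_map_of_injective hp K E.subtype_injective

omit [Finite G] in
theorem map_subtype_top (E : Subgroup G) : (⊤ : Subgroup E).map E.subtype = E := by
  ext x; simp

omit [Finite G] in
theorem map_subtype_subgroupOf {A E : Subgroup G} (h : A ≤ E) :
    (A.subgroupOf E).map E.subtype = A := by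
  rw [subgroupOf_map_subtype, inf_of_le_left h]

theorem opc_eq_map_top (p : ℕ) (E : Subgroup G) :
    opc p E = (opc p (⊤ : Subgroup E)).map E.subtype := by
  rw [← opc_map_subtype, map_subtype_top]

theorem rad_eq_map_top (E : Subgroup G) :
    rad E = (rad (⊤ : Subgroup E)).map E.subtype := by
  rw [← rad_map_subtype, map_subtype_top]

theorem opp_eq_map_top {p : ℕ} (hp : p.Prime) (E : Subgroup G) :
    opp p E = (opp p (⊤ : Subgroup E)).map E.subtype := by
  rw [← opp_map_subtype hp, map_subtype_top]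

theorem opc_subgroupOf (p : ℕ) {A E : Subgroup G} (h : A ≤ E) :
    opc p (A.subgroupOf E) = (opc p A).subgroupOf E := by
  apply map_injective E.subtype_injective
  rw [← opc_map_subtype, map_subtype_subgroupOf h,
    map_subtype_subgroupOf ((opc_le p A).trans h)]

theorem rad_subgroupOf {A E : Subgroup G} (h : A ≤ E) :
    rad (A.subgroupOf E) = (rad A).subgroupOf E := by
  apply map_injective E.subtype_injective
  rw [← rad_map_subtype, map_subtype_subgroupOf h,
    map_subtype_subgroupOf ((rad_le A).trans h)]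

theorem opp_subgroupOf {p : ℕ} (hp : p.Prime) {A E : Subgroup G} (h : A ≤ E) :
    opp p (A.subgroupOf E) = (opp p A).subgroupOf E := by
  apply map_injective E.subtype_injective
  rw [← opp_map_subtype hp, map_subtype_subgroupOf h,
    map_subtype_subgroupOf ((opp_le p A).trans h)]

/-- `A ≤ Rad(E)` computed inside the group `E`. -/
theorem le_rad_iff_subgroupOf {A E : Subgroup G} (h : A ≤ E) :
    A ≤ rad E ↔ A.subgroupOf E ≤ rad (⊤ : Subgroup E) := by
  rw [rad_eq_map_top]
  constructor
  · intro h1 x hx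
    obtain ⟨y, hy, e⟩ := h1 hx
    have : y = x := Subtype.ext e
    exact this ▸ hy
  · intro h1
    rw [← map_subtype_subgroupOf h]
    exact map_mono h1

/-! #### Conjugation, normalisers -/

theorem opc_conjBy (p : ℕ) (E : Subgroup G) (x : G) :
    opc p (conjBy E x) = conjBy (opc p E) x :=
  opc_map_of_injective p E (MulAut.conj x⁻¹).injective

theorem rad_conjBy (E : Subgroup G) (x : G) : rad (conjBy E x) = conjBy (rad E) x :=
  rad_map_of_injective E (MulAut.conj x⁻¹).injective

theorem opp_conjBy {p : ℕ} (hp : p.Prime) (E : Subgroup G) (x : G) :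
    opp p (conjBy E x) = conjBy (opp p E) x :=
  opp_map_of_injective hp E (MulAut.conj x⁻¹).injective

omit [Finite G] in
theorem mem_normalizer_iff_conjBy {N : Subgroup G} {x : G} :
    x ∈ normalizer (N : Set G) ↔ conjBy N x = N := by
  refine ⟨conjBy_eq_of_mem_normalizer, fun h => ?_⟩
  rw [mem_normalizer_iff]
  intro y
  rw [← mem_conjBy, h]

/-- A subgroup normalising `E` normalises `O_p(E)`. -/
theorem normalizer_le_normalizer_opc (p : ℕ) (E : Subgroup G) :
    normalizer (E : Set G) ≤ normalizer (opc p E : Set G) := by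
  intro x hx
  rw [mem_normalizer_iff_conjBy] at hx ⊢
  rw [← opc_conjBy, hx]

theorem normalizer_le_normalizer_rad (E : Subgroup G) :
    normalizer (E : Set G) ≤ normalizer (rad E : Set G) := by
  intro x hx
  rw [mem_normalizer_iff_conjBy] at hx ⊢
  rw [← rad_conjBy, hx]

theorem normalizer_le_normalizer_opp {p : ℕ} (hp : p.Prime) (E : Subgroup G) :
    normalizer (E : Set G) ≤ normalizer (opp p E : Set G) := by
  intro x hx
  rw [mem_normalizer_iff_conjBy] at hx ⊢
  rw [← opp_conjBy hp, hx]

theorem NormalIn.opc {N E : Subgroup G} (h : NormalIn N E) (p : ℕ) :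
    NormalIn (opc p N) E :=
  normalIn_of_le_normalizer ((opc_le p N).trans h.1)
    (h.le_normalizer.trans (normalizer_le_normalizer_opc p N))

theorem NormalIn.rad {N E : Subgroup G} (h : NormalIn N E) : NormalIn (rad N) E :=
  normalIn_of_le_normalizer ((rad_le N).trans h.1)
    (h.le_normalizer.trans (normalizer_le_normalizer_rad N))

theorem NormalIn.opp {p : ℕ} (hp : p.Prime) {N E : Subgroup G} (h : NormalIn N E) :
    NormalIn (opp p N) E :=
  normalIn_of_le_normalizer ((opp_le p N).trans h.1)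
    (h.le_normalizer.trans (normalizer_le_normalizer_opp hp N))

theorem opc_mono_normal {N E : Subgroup G} (h : NormalIn N E) (p : ℕ) : opc p N ≤ opc p E :=
  le_opc (h.opc p) (opc_isPGroup p N)

theorem rad_mono_normal {N E : Subgroup G} (h : NormalIn N E) : rad N ≤ rad E :=
  le_rad h.rad (rad_isSolvable N)

theorem opp_mono_normal {p : ℕ} (hp : p.Prime) {N E : Subgroup G} (h : NormalIn N E) :
    opp p N ≤ opp p E :=
  le_opp (h.opp hp) (not_dvd_card_opp hp N)

/-- `O_p(N) = O_p(E) ∩ N` for `N` normal in `E`. -/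
theorem opc_eq_inf {N E : Subgroup G} (h : NormalIn N E) (p : ℕ) : opc p N = opc p E ⊓ N :=
  le_antisymm (le_inf (opc_mono_normal h p) (opc_le p N)) (opc_inf_le h.1)

theorem rad_eq_inf {N E : Subgroup G} (h : NormalIn N E) : rad N = rad E ⊓ N :=
  le_antisymm (le_inf (rad_mono_normal h) (rad_le N)) (rad_inf_le h.1)

theorem opp_eq_inf {p : ℕ} (hp : p.Prime) {N E : Subgroup G} (h : NormalIn N E) :
    opp p N = opp p E ⊓ N :=
  le_antisymm (le_inf (opp_mono_normal hp h) (opp_le p N)) (opp_inf_le hp h.1)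

theorem opc_rad (p : ℕ) [Fact p.Prime] (E : Subgroup G) : opc p (rad E) = opc p E := by
  rw [opc_eq_inf (rad_normalIn E), inf_eq_left.2 (opc_le_rad p E)]

instance opc_top_normal (p : ℕ) : (opc p (⊤ : Subgroup G)).Normal :=
  normalIn_top.1 (opc_normalIn p ⊤)

instance rad_top_normal : (rad (⊤ : Subgroup G)).Normal := normalIn_top.1 (rad_normalIn ⊤)

theorem opp_top_normal {p : ℕ} (hp : p.Prime) : (opp p (⊤ : Subgroup G)).Normal :=
  normalIn_top.1 (opp_normalIn hp ⊤)

/-! #### Quotients -/

/-- `O_p(E/N) = O_p(E)/N` for a `p`-group `N ≤ E`, `N` normal in `G`. -/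
theorem opc_map_mk' {p : ℕ} {N E : Subgroup G} [N.Normal] (hN : N ≤ E) (hp : IsPGroup p N) :
    opc p (E.map (QuotientGroup.mk' N)) = (opc p E).map (QuotientGroup.mk' N) :=
  opc_map_of_ker (by rwa [QuotientGroup.ker_mk']) (by rwa [QuotientGroup.ker_mk'])

theorem rad_map_mk' {N E : Subgroup G} [N.Normal] (hN : N ≤ E) (hp : Group.IsSolvable N) :
    rad (E.map (QuotientGroup.mk' N)) = (rad E).map (QuotientGroup.mk' N) :=
  rad_map_of_ker (by rwa [QuotientGroup.ker_mk']) (by rwa [QuotientGroup.ker_mk'])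

theorem opp_map_mk' {p : ℕ} (hp : p.Prime) {N E : Subgroup G} [N.Normal] (hN : N ≤ E)
    (hN' : ¬ p ∣ Nat.card N) :
    opp p (E.map (QuotientGroup.mk' N)) = (opp p E).map (QuotientGroup.mk' N) :=
  opp_map_of_ker hp (by rwa [QuotientGroup.ker_mk']) (by rwa [QuotientGroup.ker_mk'])

omit [Finite G] in
theorem map_mk'_top (N : Subgroup G) [N.Normal] :
    (⊤ : Subgroup G).map (QuotientGroup.mk' N) = ⊤ :=
  map_top_of_surjective _ (QuotientGroup.mk'_surjective N)

omit [Finite G] in
theorem map_mk'_self (N : Subgroup G) [N.Normal] : N.map (QuotientGroup.mk' N) = ⊥ := by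
  rw [eq_bot_iff]
  rintro _ ⟨x, hx, rfl⟩
  rw [mem_bot]
  exact (QuotientGroup.eq_one_iff x).2 hx

/-- `O_p(G/O_p(G)) = 1`. -/
theorem opc_quotient_opc (p : ℕ) : opc p (⊤ : Subgroup (G ⧸ opc p (⊤ : Subgroup G))) = ⊥ := by
  rw [← map_mk'_top, opc_map_mk' le_top (opc_isPGroup p ⊤), map_mk'_self]

/-- `Rad(G/Rad(G)) = 1`. -/
theorem rad_quotient_rad : rad (⊤ : Subgroup (G ⧸ rad (⊤ : Subgroup G))) = ⊥ := by
  rw [← map_mk'_top, rad_map_mk' le_top (rad_isSolvable ⊤), map_mk'_self]

/-- If `E = Rad(E) B` with `B` soluble then `E` is soluble. -/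
theorem isSolvable_of_le_rad_sup {E B : Subgroup G} (hB : Group.IsSolvable B) (hBE : B ≤ E)
    (h : E ≤ rad E ⊔ B) : Group.IsSolvable E :=
  isSolvable_of_le (isSolvable_sup (rad_isSolvable E) hB
    (hBE.trans (rad_normalIn E).le_normalizer)) h

end cores

end MP_5771ce_al
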