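import Pool.Agent.Lib.MP_5771ce_al.LibJ

/-!
# Small index and dihedral arguments
-/

open Subgroup
open scoped Pointwise commutatorElement

namespace MP_5771ce_al

variable {G : Type*} [Group G]

/-- A `p`-group `X` normalising `U ≤ V` with `|V : U| < p` fixes every coset of `U` in `V`. -/
theorem conj_mem_of_relIndex_lt [Finite G] {p : ℕ} [Fact p.Prime] {V U X : Subgroup G}
    (hX : IsPGroup p X) (hXV : X ≤ normalizer V) (hXU : X ≤ normalizer U)
    (hidx : U.relIndex V < p) {x v : G} (hx : x ∈ X) (hv : v ∈ V) :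
    v⁻¹ * (x * v * x⁻¹) ∈ U := by
  classical
  let f : X → (V ⧸ U.subgroupOf V) → (V ⧸ U.subgroupOf V) := fun x =>
    Quotient.map' (fun v => ⟨(x : G) * v * (x : G)⁻¹, mem_normalizer_conj (hXV x.2) v.2⟩) (by
      intro a b hab
      rw [QuotientGroup.leftRel_apply] at hab ⊢
      rw [mem_subgroupOf] at hab ⊢
      have h1 := mem_normalizer_conj (hXU x.2) hab
      change ((x : G) * a * (x : G)⁻¹)⁻¹ * ((x : G) * b * (x : G)⁻¹) ∈ U
      push_cast at h1
      convert h1 using 1
      group)
  have hf : ∀ (x : X) (v : V), f x (QuotientGroup.mk v) =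
      QuotientGroup.mk ⟨(x : G) * v * (x : G)⁻¹, mem_normalizer_conj (hXV x.2) v.2⟩ :=
    fun x v => rfl
  let act : MulAction X (V ⧸ U.subgroupOf V) :=
    { smul := f
      one_smul := by
        intro a
        induction a using QuotientGroup.induction_on with
        | H a =>
        change f 1 (QuotientGroup.mk a) = _
        rw [hf]
        congr 1
        apply Subtype.ext
        simp
      mul_smul := by
        intro x y a
        induction a using QuotientGroup.induction_on with
        | H a =>
        change f (x * y) (QuotientGroup.mk a) = f x (f y (QuotientGroup.mk a))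
        rw [hf, hf, hf]
        congr 1
        apply Subtype.ext
        push_cast
        group }
  let a : V ⧸ U.subgroupOf V := QuotientGroup.mk ⟨v, hv⟩
  obtain ⟨n, hn⟩ := hX.card_orbit a
  have hle : Nat.card (MulAction.orbit X a) ≤ U.relIndex V :=
    Nat.card_le_card_of_injective Subtype.val Subtype.val_injective
  have hn0 : n = 0 := by
    by_contra h
    have : p ^ 1 ≤ p ^ n := Nat.pow_le_pow_right (Fact.out : p.Prime).pos (Nat.pos_of_ne_zero h)
    rw [hn] at hle
    rw [pow_one] at this
    omega
  rw [hn0, pow_zero] at hn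
  have hsub : Subsingleton (MulAction.orbit X a) := (Nat.card_eq_one_iff_unique.1 hn).1
  have h1 : f ⟨x, hx⟩ (QuotientGroup.mk ⟨v, hv⟩) = QuotientGroup.mk ⟨v, hv⟩ := by
    have := hsub.elim ⟨_, MulAction.mem_orbit a (⟨x, hx⟩ : X)⟩ ⟨_, MulAction.mem_orbit_self a⟩
    exact congrArg Subtype.val this
  rw [hf] at h1
  have h2 := QuotientGroup.eq.1 h1.symm
  rw [mem_subgroupOf] at h2
  exact h2

/-- A `p`-group `X` acting on a `p'`-group `V`, centralising a subgroup `U` of index `< p` in `V`,
centralises `V`. -/
theorem le_centralizer_of_relIndex_lt [Finite G] {p : ℕ} [Fact p.Prime] {V U X : Subgroup G}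
    (hX : IsPGroup p X) (hXV : X ≤ normalizer V) (hV : ¬ p ∣ Nat.card V) (hUV : U ≤ V)
    (hXU : X ≤ centralizer (U : Set G)) (hidx : U.relIndex V < p) :
    V ≤ centralizer (X : Set G) := by
  intro v hv
  have hXN : X ≤ normalizer (U : Set G) := hXU.trans (centralizer_le_normalizer (U : Set G))
  obtain ⟨n, hn, h⟩ := exists_mul_mem_centralizer hX hXN
    (fun h => hV (h.trans (Subgroup.card_dvd_of_le hUV)))
    (fun x hx => conj_mem_of_relIndex_lt hX hXV hXN hidx hx hv)
  have hnc : n ∈ centralizer (X : Set G) := by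
    rw [mem_centralizer_iff]
    intro x hx
    exact ((mem_centralizer_iff.1 (hXU hx)) n hn).symm
  have := mul_mem h (inv_mem hnc)
  simpa using this

/-- **Dihedral lemma.** `p ≥ 5`, `V` a `p'`-group, `b` and `c` normalise `V` and have index `≤ 2` on
it; then every `p`-subgroup of `⟨b, c⟩` centralises `V`. -/
theorem dihedral_centralizes [Finite G] {p : ℕ} [Fact p.Prime] (hp : 5 ≤ p) {V X : Subgroup G}
    (hV : ¬ p ∣ Nat.card V) {b c : G} (hb : b ∈ normalizer (V : Set G))
    (hc : c ∈ normalizer (V : Set G))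
    (hbi : (centralizer {b}).relIndex V ≤ 2) (hci : (centralizer {c}).relIndex V ≤ 2)
    (hX : IsPGroup p X) (hXbc : X ≤ closure {b, c}) :
    V ≤ centralizer (X : Set G) := by
  have hcl : closure {b, c} ≤ normalizer (V : Set G) := by
    rw [closure_le]
    rintro x (rfl | rfl)
    · exact hb
    · exact hc
  set U : Subgroup G := V ⊓ (centralizer {b} ⊓ centralizer {c}) with hU
  have hidx : U.relIndex V ≤ 4 := by
    rw [hU, inf_comm, inf_relIndex_right]
    calc (centralizer {b} ⊓ centralizer {c}).relIndex V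
        ≤ (centralizer {b}).relIndex V * (centralizer {c}).relIndex V := relIndex_inf_le
      _ ≤ 2 * 2 := Nat.mul_le_mul hbi hci
  refine le_centralizer_of_relIndex_lt (U := U) hX (hXbc.trans hcl) hV inf_le_left ?_ (by omega)
  refine hXbc.trans ?_
  rw [closure_le]
  rintro x (rfl | rfl)
  · rw [SetLike.mem_coe, mem_centralizer_iff]
    intro u hu
    exact ((mem_centralizer_iff.1 hu.2.1) x rfl).symm
  · rw [SetLike.mem_coe, mem_centralizer_iff]
    intro u hu
    exact ((mem_centralizer_iff.1 hu.2.2) x rfl).symm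

end MP_5771ce_al
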