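import Pool.Agent.Lib.MP_5771ce_al.LibCore

/-!
# The Fitting subgroup, soluble groups, relative Sylow theory (library file for `MP_5771ce_al`)
-/

open Subgroup
open scoped Pointwise commutatorElement

namespace MP_5771ce_al

variable {G : Type*} [Group G] {H : Type*} [Group H]

/-! ### The Fitting subgroup -/

/-- The Fitting subgroup of `E`, as the join of all `O_p(E)`. -/
def fit (E : Subgroup G) : Subgroup G := ⨆ p : Nat.Primes, opc p E

theorem opc_le_fit {p : ℕ} (hp : p.Prime) (E : Subgroup G) : opc p E ≤ fit E :=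
  le_iSup (fun p : Nat.Primes => opc (p : ℕ) E) ⟨p, hp⟩

theorem fit_le (E : Subgroup G) : fit E ≤ E := iSup_le fun p => opc_le p E

theorem fit_le_iff {E F : Subgroup G} : fit E ≤ F ↔ ∀ p : ℕ, p.Prime → opc p E ≤ F := by
  constructor
  · intro h p hp
    exact (opc_le_fit hp E).trans h
  · intro h
    exact iSup_le fun p => h p p.2

/-- Joins of normal subgroups. -/
theorem normalIn_iSup {ι : Sort*} {E : Subgroup G} {N : ι → Subgroup G}
    (h : ∀ i, NormalIn (N i) E) : NormalIn (⨆ i, N i) E := by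
  refine ⟨iSup_le fun i => (h i).1, fun e he => ?_⟩
  have h1 : (⨆ i, N i).map (MulAut.conj e).toMonoidHom ≤ ⨆ i, N i := by
    rw [Subgroup.map_iSup]
    apply iSup_mono
    rintro i _ ⟨v, hv, rfl⟩
    exact (h i).2 e he v hv
  exact fun n hn => h1 ⟨n, hn, rfl⟩

section finite

variable [Finite G]

theorem fit_normalIn (E : Subgroup G) : NormalIn (fit E) E :=
  normalIn_iSup fun p => opc_normalIn (p : ℕ) E

theorem fit_mono_normal {N E : Subgroup G} (h : NormalIn N E) : fit N ≤ fit E :=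
  iSup_mono fun p => opc_mono_normal h (p : ℕ)

theorem fit_eq_map_top (E : Subgroup G) : fit E = (fit (⊤ : Subgroup E)).map E.subtype := by
  unfold fit
  rw [Subgroup.map_iSup]
  exact iSup_congr fun p => opc_eq_map_top (p : ℕ) E

/-- A nilpotent group is its own Fitting subgroup. -/
theorem fit_top_of_isNilpotent [Group.IsNilpotent G] : fit (⊤ : Subgroup G) = ⊤ := by
  rw [← Subgroup.index_eq_one]
  by_contra hne
  obtain ⟨p, hp, hd⟩ := Nat.exists_prime_and_dvd hne
  have : Fact p.Prime := ⟨hp⟩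
  obtain ⟨P⟩ : Nonempty (Sylow p G) := inferInstance
  have hP : (P : Subgroup G).Normal := inferInstance
  have h1 : (P : Subgroup G) ≤ fit (⊤ : Subgroup G) :=
    (le_opc (normalIn_of_normal le_top) P.isPGroup').trans (opc_le_fit hp _)
  exact P.not_dvd_index (hd.trans (index_dvd_of_le h1))

/-- A normal nilpotent subgroup lies in the Fitting subgroup. -/
theorem le_fit {K E : Subgroup G} (h : NormalIn K E) (hK : Group.IsNilpotent K) : K ≤ fit E := by
  refine le_trans ?_ (fit_mono_normal h)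
  rw [fit_eq_map_top, fit_top_of_isNilpotent, map_subtype_top]

/-! ### Soluble groups -/

omit [Finite G] in
/-- The derived subgroup of a nontrivial soluble subgroup is smaller. -/
theorem commutator_lt_of_isSolvable {K : Subgroup G} (h : Group.IsSolvable K) (hne : K ≠ ⊥) :
    ⁅K, K⁆ < K := by
  have : Nontrivial K := (nontrivial_iff_ne_bot K).2 hne
  have h1 := Group.IsSolvable.commutator_lt_top_of_nontrivial K
  refine lt_of_le_of_ne (normalIn_refl K |>.commutator (normalIn_refl K)).1 ?_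
  intro h2
  apply h1.ne
  apply map_injective K.subtype_injective
  rw [_root_.commutator_def, map_commutator, map_subtype_top, h2]

omit [Finite G] in
theorem commutator_self_normalIn {K E : Subgroup G} (h : NormalIn K E) : NormalIn ⁅K, K⁆ E :=
  h.commutator h

/-- A soluble normal subgroup of `E` centralising the Fitting subgroup of `E` lies in it. -/
theorem le_fit_of_centralizes {K E : Subgroup G} (h : NormalIn K E) (hK : Group.IsSolvable K)
    (hc : ⁅K, fit E⁆ = ⊥) : K ≤ fit E := by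
  induction hn : Nat.card K using Nat.strong_induction_on generalizing K with
  | _ n ih =>
    by_cases hne : K = ⊥
    · rw [hne]; exact bot_le
    have hlt := commutator_lt_of_isSolvable hK hne
    have h1 : ⁅K, K⁆ ≤ fit E := by
      refine ih (Nat.card (⁅K, K⁆ : Subgroup G)) (hn ▸ card_lt_of_lt hlt) (h.commutator h)
        (isSolvable_of_le hK hlt.le) ?_ rfl
      rw [eq_bot_iff, ← hc]
      exact commutator_mono hlt.le le_rfl
    have h2 : ⁅⁅K, K⁆, K⁆ = ⊥ := by
      rw [eq_bot_iff]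
      calc ⁅⁅K, K⁆, K⁆ ≤ ⁅fit E, K⁆ := commutator_mono h1 le_rfl
        _ = ⁅K, fit E⁆ := commutator_comm _ _
        _ = ⊥ := hc
    refine le_fit h ((Subgroup.isNilpotent_iff_lowerCentralSeries (S := K)).2 ⟨2, ?_⟩)
    exact h2

/-- `C_E(F(E)) ≤ F(E)` for soluble `E`. -/
theorem inf_centralizer_fit_le {E : Subgroup G} (hE : Group.IsSolvable E) :
    E ⊓ centralizer (fit E : Set G) ≤ fit E := by
  refine le_fit_of_centralizes (fit_normalIn E).inf_centralizer
    (isSolvable_of_le hE inf_le_left) ?_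
  rw [commutator_eq_bot_iff_le_centralizer]
  exact inf_le_right

omit [Finite G] in
theorem le_centralizer_fit {X E : Subgroup G}
    (h : ∀ r : ℕ, r.Prime → X ≤ centralizer (opc r E : Set G)) :
    X ≤ centralizer (fit E : Set G) := by
  rw [le_centralizer_iff, fit_le_iff]
  intro r hr
  rw [← le_centralizer_iff]
  exact h r hr

/-- The elements of `p`-power order of an abelian subgroup. -/
def ppart (p : ℕ) (C : Subgroup G) (hC : ∀ a ∈ C, ∀ b ∈ C, a * b = b * a) : Subgroup G where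
  carrier := {x | x ∈ C ∧ ∃ k : ℕ, x ^ p ^ k = 1}
  one_mem' := ⟨one_mem C, 0, one_pow _⟩
  mul_mem' := by
    rintro a b ⟨ha, k, hk⟩ ⟨hb, l, hl⟩
    refine ⟨mul_mem ha hb, k + l, ?_⟩
    have hc : Commute a b := hC a ha b hb
    rw [hc.mul_pow, pow_add, pow_mul, hk, one_pow, mul_comm (p ^ k), pow_mul, hl, one_pow,
      one_mul]
  inv_mem' := by
    rintro a ⟨ha, k, hk⟩
    exact ⟨inv_mem ha, k, by rw [inv_pow, hk, inv_one]⟩

omit [Finite G] in
theorem ppart_isPGroup (p : ℕ) (C : Subgroup G) (hC : ∀ a ∈ C, ∀ b ∈ C, a * b = b * a) :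
    IsPGroup p (ppart p C hC) := by
  rintro ⟨x, hx, k, hk⟩
  exact ⟨k, Subtype.ext hk⟩

omit [Finite G] in
theorem ppart_normalIn {p : ℕ} {C E : Subgroup G} (hC : ∀ a ∈ C, ∀ b ∈ C, a * b = b * a)
    (h : NormalIn C E) : NormalIn (ppart p C hC) E := by
  refine ⟨fun x hx => h.1 hx.1, ?_⟩
  rintro e he x ⟨hx, k, hk⟩
  refine ⟨h.2 e he x hx, k, ?_⟩
  rw [conj_pow, hk]
  group

omit [Finite G] in
/-- A `p`-subgroup of a normal abelian subgroup of `E` lies in `O_p(E)`. -/
theorem le_opc_of_le_abelian {p : ℕ} {X C E : Subgroup G}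
    (hC : ∀ a ∈ C, ∀ b ∈ C, a * b = b * a) (h : NormalIn C E) (hX : X ≤ C)
    (hXp : IsPGroup p X) : X ≤ opc p E := by
  refine le_trans ?_ (le_opc (ppart_normalIn hC h) (ppart_isPGroup p C hC))
  intro x hx
  obtain ⟨k, hk⟩ := hXp ⟨x, hx⟩
  exact ⟨hX hx, k, congrArg Subtype.val hk⟩

/-- A `p`-subgroup `X` of a soluble group `E` centralising `O_r(E)` for all primes `r`
lies in `O_p(E)`. -/
theorem le_opc_of_centralizes {p : ℕ} {E X : Subgroup G} (hE : Group.IsSolvable E)
    (hX : X ≤ E) (hXp : IsPGroup p X)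
    (h : ∀ r : ℕ, r.Prime → X ≤ centralizer (opc r E : Set G)) : X ≤ opc p E := by
  have h1 := inf_centralizer_fit_le hE
  refine le_opc_of_le_abelian (C := E ⊓ centralizer (fit E : Set G)) ?_
    (fit_normalIn E).inf_centralizer (le_inf hX (le_centralizer_fit h)) hXp
  intro a ha b hb
  exact (mem_centralizer_iff.1 hb.2) a (h1 ha)

/-- A `p`-subgroup `X` of a soluble group `E` with `O_p(E) = 1`, centralising `O_r(E)` for all
primes `r ≠ p`, is trivial. -/
theorem eq_bot_of_centralizes_opc {p : ℕ} {E X : Subgroup G} (hE : Group.IsSolvable E)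
    (hX : X ≤ E) (hXp : IsPGroup p X) (hp : opc p E = ⊥)
    (h : ∀ r : ℕ, r.Prime → r ≠ p → X ≤ centralizer (opc r E : Set G)) : X = ⊥ := by
  rw [eq_bot_iff, ← hp]
  refine le_opc_of_centralizes hE hX hXp fun r hr => ?_
  by_cases hrp : r = p
  · rw [hrp, hp]
    intro x _
    rw [mem_centralizer_iff]
    intro y hy
    rw [SetLike.mem_coe, mem_bot] at hy
    rw [hy]; simp
  · exact h r hr hrp

/-- The same with the soluble radical: `X ≤ Rad(E)` is a `p`-group, `O_p(E) = 1` and `X`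
centralises `O_r(E)` for all primes `r ≠ p`. -/
theorem eq_bot_of_centralizes_opc_rad {p : ℕ} {E X : Subgroup G}
    (hX : X ≤ rad E) (hXp : IsPGroup p X) (hp : opc p E = ⊥)
    (h : ∀ r : ℕ, r.Prime → r ≠ p → X ≤ centralizer (opc r E : Set G)) : X = ⊥ := by
  refine eq_bot_of_centralizes_opc (rad_isSolvable E) hX hXp ?_ ?_
  · rw [eq_bot_iff, ← hp]
    exact opc_mono_normal (rad_normalIn E) p
  · intro r hr hrp
    have : Fact r.Prime := ⟨hr⟩
    rw [opc_rad]
    exact h r hr hrp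

theorem not_dvd_card_of_isPGroup {p r : ℕ} (hp : p.Prime) (hr : r.Prime) (h : r ≠ p)
    {N : Subgroup G} (hN : IsPGroup r N) : ¬ p ∣ Nat.card N := by
  have : Fact r.Prime := ⟨hr⟩
  obtain ⟨n, hn⟩ := (IsPGroup.iff_card).1 hN
  intro hd
  rw [hn] at hd
  exact h ((Nat.prime_dvd_prime_iff_eq hp hr).1 (hp.dvd_of_dvd_pow hd)).symm

theorem opc_le_opp {p r : ℕ} (hp : p.Prime) (hr : r.Prime) (h : r ≠ p) (E : Subgroup G) :
    opc r E ≤ opp p E :=
  le_opp (opc_normalIn r E) (not_dvd_card_of_isPGroup hp hr h (opc_isPGroup r E))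

/-- Hall-Higman: if `E` is soluble and `O_{p'}(E) = 1` then `C_E(O_p(E)) ≤ O_p(E)`. -/
theorem inf_centralizer_opc_le {p : ℕ} (hp : p.Prime) {E : Subgroup G}
    (hE : Group.IsSolvable E) (h : opp p E = ⊥) :
    E ⊓ centralizer (opc p E : Set G) ≤ opc p E := by
  have h1 : fit E = opc p E := by
    apply le_antisymm _ (opc_le_fit hp E)
    rw [fit_le_iff]
    intro r hr
    by_cases hrp : r = p
    · rw [hrp]
    · exact ((opc_le_opp hp hr hrp E).trans h.le).trans bot_le
  rw [← h1]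
  exact inf_centralizer_fit_le hE

/-- The elements with `x ^ p = 1` of an abelian subgroup. -/
def omegaAb (p : ℕ) (C : Subgroup G) (hC : ∀ a ∈ C, ∀ b ∈ C, a * b = b * a) : Subgroup G where
  carrier := {x | x ∈ C ∧ x ^ p = 1}
  one_mem' := ⟨one_mem C, one_pow _⟩
  mul_mem' := by
    rintro a b ⟨ha, ha'⟩ ⟨hb, hb'⟩
    refine ⟨mul_mem ha hb, ?_⟩
    have hc : Commute a b := hC a ha b hb
    rw [hc.mul_pow, ha', hb', one_mul]
  inv_mem' := by
    rintro a ⟨ha, ha'⟩
    exact ⟨inv_mem ha, by rw [inv_pow, ha', inv_one]⟩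

omit [Finite G] in
theorem omegaAb_normalIn {p : ℕ} {C E : Subgroup G} (hC : ∀ a ∈ C, ∀ b ∈ C, a * b = b * a)
    (h : NormalIn C E) : NormalIn (omegaAb p C hC) E := by
  refine ⟨fun x hx => h.1 hx.1, ?_⟩
  rintro e he a ⟨ha, ha'⟩
  refine ⟨h.2 e he a ha, ?_⟩
  rw [conj_pow, ha']
  group

omit [Finite G] in
theorem omegaAb_isPGroup (p : ℕ) (C : Subgroup G) (hC : ∀ a ∈ C, ∀ b ∈ C, a * b = b * a) :
    IsPGroup p (omegaAb p C hC) := by
  rintro ⟨a, ha, ha'⟩
  exact ⟨1, Subtype.ext (by simpa using ha')⟩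

/-- A nontrivial soluble normal subgroup of `E` contains a nontrivial elementary abelian normal
subgroup of `E`. -/
theorem exists_elementary_abelian {W E : Subgroup G} (hW : NormalIn W E)
    (hs : Group.IsSolvable W) (hne : W ≠ ⊥) :
    ∃ p : ℕ, p.Prime ∧ ∃ V : Subgroup G, V ≤ W ∧ NormalIn V E ∧ V ≠ ⊥ ∧ IsPGroup p V ∧
      (∀ a ∈ V, ∀ b ∈ V, a * b = b * a) ∧ ∀ a ∈ V, a ^ p = 1 := by
  induction hn : Nat.card W using Nat.strong_induction_on generalizing W with
  | _ n ih =>
    by_cases hc : ⁅W, W⁆ = ⊥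
    · have hab : ∀ a ∈ W, ∀ b ∈ W, a * b = b * a := by
        intro a ha b hb
        rw [commutator_eq_bot_iff_le_centralizer] at hc
        exact (mem_centralizer_iff.1 (hc hb)) a ha
      have hcard : Nat.card W ≠ 1 := by
        intro h
        exact hne (card_eq_one.1 h)
      obtain ⟨p, hp, hd⟩ := Nat.exists_prime_and_dvd hcard
      have : Fact p.Prime := ⟨hp⟩
      obtain ⟨x, hx⟩ := exists_prime_orderOf_dvd_card' p hd
      refine ⟨p, hp, omegaAb p W hab, fun a ha => ha.1, omegaAb_normalIn hab hW, ?_,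
        omegaAb_isPGroup p W hab, fun a ha b hb => hab a ha.1 b hb.1, fun a ha => ha.2⟩
      intro hbot
      have hx1 : (x : G) ∈ (⊥ : Subgroup G) := by
        rw [← hbot]
        refine ⟨x.2, ?_⟩
        have := pow_orderOf_eq_one x
        rw [hx] at this
        exact congrArg Subtype.val this
      rw [mem_bot] at hx1
      have : x = 1 := Subtype.ext hx1
      rw [this, orderOf_one] at hx
      exact hp.one_lt.ne hx
    · have hlt := commutator_lt_of_isSolvable hs hne
      obtain ⟨p, hp, V, h1, h2⟩ := ih (Nat.card (⁅W, W⁆ : Subgroup G))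
        (hn ▸ card_lt_of_lt hlt) (hW.commutator hW) (isSolvable_of_le hs hlt.le) hc rfl
      exact ⟨p, hp, V, h1.trans hlt.le, h2⟩

/-- If `Rad(E) ≠ 1` then `O_p(E) ≠ 1` for some prime `p`. -/
theorem exists_opc_ne_bot {E : Subgroup G} (h : rad E ≠ ⊥) :
    ∃ p : ℕ, p.Prime ∧ opc p E ≠ ⊥ := by
  obtain ⟨p, hp, V, -, h1, h2, h3, -⟩ :=
    exists_elementary_abelian (rad_normalIn E) (rad_isSolvable E) h
  refine ⟨p, hp, fun h4 => h2 ?_⟩
  rw [eq_bot_iff, ← h4]
  exact le_opc h1 h3

/-- A nontrivial soluble normal subgroup of `E` contains a nontrivial abelian normal subgroup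
of `E`. -/
theorem exists_abelian_normalIn {W E : Subgroup G} (hW : NormalIn W E)
    (hs : Group.IsSolvable W) (hne : W ≠ ⊥) :
    ∃ V : Subgroup G, V ≤ W ∧ NormalIn V E ∧ V ≠ ⊥ ∧ ∀ a ∈ V, ∀ b ∈ V, a * b = b * a := by
  obtain ⟨p, -, V, h1, h2, h3, -, h4, -⟩ := exists_elementary_abelian hW hs hne
  exact ⟨V, h1, h2, h3, h4⟩

end finite

end MP_5771ce_al
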