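import Pool.Agent.Lib.MP_5771ce_al.LibAxB

/-!
# The Frattini subgroup of a `p`-subgroup (relative form)
-/

open Subgroup
open scoped Pointwise commutatorElement

namespace MP_5771ce_al

variable {G : Type*} [Group G]

/-- `Φ(V)` as a subgroup of `G`. -/
def frat (V : Subgroup G) : Subgroup G := (frattini V).map V.subtype

theorem frat_le (V : Subgroup G) : frat V ≤ V := by
  rintro _ ⟨v, _, rfl⟩
  exact v.2

theorem mem_frat {V : Subgroup G} {v : G} (hv : v ∈ V) : v ∈ frat V ↔ (⟨v, hv⟩ : V) ∈ frattini V := by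
  constructor
  · rintro ⟨u, hu, huv⟩
    have : (⟨v, hv⟩ : V) = u := Subtype.ext huv.symm
    rw [this]
    exact hu
  · intro h
    exact ⟨_, h, rfl⟩

/-- Non-generators. -/
theorem eq_of_le_frat_sup [Finite G] {V K : Subgroup G} (hK : K ≤ V) (h : V ≤ frat V ⊔ K) :
    K = V := by
  have h1 : K.subgroupOf V = ⊤ := by
    apply frattini_nongenerating
    rw [eq_top_iff]
    intro v _
    have h2 : (v : G) ∈ ((K.subgroupOf V ⊔ frattini V).map V.subtype) := by
      rw [Subgroup.map_sup, subgroupOf_map_subtype, inf_eq_left.2 hK, sup_comm]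
      exact h v.2
    obtain ⟨u, hu, huv⟩ := h2
    have : v = u := Subtype.ext huv.symm
    rw [this]
    exact hu
  rw [subgroupOf_eq_top] at h1
  exact le_antisymm hK h1

theorem frat_lt [Finite G] {V : Subgroup G} (h : V ≠ ⊥) : frat V < V := by
  refine lt_of_le_of_ne (frat_le V) fun he => h ?_
  have := eq_of_le_frat_sup (V := V) (K := ⊥) bot_le (by rw [he]; exact le_sup_left)
  exact this.symm

/-- A characteristic subgroup of `V` is invariant under the normaliser of `V`. -/
theorem normalizer_le_normalizer_of_characteristic {V : Subgroup G} (C : Subgroup V)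
    [hC : C.Characteristic] :
    normalizer (V : Set G) ≤ normalizer ((C.map V.subtype : Subgroup G) : Set G) := by
  have h : ∀ g ∈ normalizer (V : Set G), ∀ y ∈ C.map V.subtype,
      g * y * g⁻¹ ∈ C.map V.subtype := by
    rintro g hg _ ⟨v, hv, rfl⟩
    have h1 := (characteristic_iff_map_le.1 hC) (normalizerMonoidHom V ⟨g, hg⟩)
    have h2 : (normalizerMonoidHom V ⟨g, hg⟩) v ∈ C := h1 ⟨v, hv, rfl⟩
    exact ⟨_, h2, rfl⟩
  intro g hg
  rw [mem_normalizer_iff]
  intro y
  refine ⟨h g hg y, fun hy => ?_⟩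
  have := h g⁻¹ (inv_mem hg) _ hy
  convert this using 1
  group

/-- `Φ(V)` is invariant under the normaliser of `V`. -/
theorem le_normalizer_frat {V : Subgroup G} :
    normalizer (V : Set G) ≤ normalizer (frat V : Set G) :=
  normalizer_le_normalizer_of_characteristic (frattini V)

/-- A `q`-group acting on a group `V` of order prime to `q`, trivially modulo `Φ(V)`, acts trivially. -/
theorem commutator_eq_bot_of_frat [Finite G] {q : ℕ} [Fact q.Prime] {V X : Subgroup G}
    (hX : IsPGroup q X) (hXV : X ≤ normalizer V) (hV : ¬ q ∣ Nat.card V)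
    (h : ⁅V, X⁆ ≤ frat V) : ⁅V, X⁆ = ⊥ := by
  have h1 := sup_centralizer_eq hX hXV hV
  have h2 : V ⊓ centralizer (X : Set G) = V := by
    apply eq_of_le_frat_sup inf_le_left
    calc V = ⁅V, X⁆ ⊔ (V ⊓ centralizer (X : Set G)) := h1.symm
      _ ≤ frat V ⊔ (V ⊓ centralizer (X : Set G)) := sup_le_sup_right h _
  rw [commutator_eq_bot_iff_le_centralizer]
  exact inf_eq_left.1 h2

theorem normal_of_coatom_of_pgroup {V : Type*} [Group V] [Finite V] {p : ℕ} [Fact p.Prime]
    (hV : IsPGroup p V) {K : Subgroup V} (hK : IsCoatom K) : K.Normal := by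
  have hn : Group.IsNilpotent V := hV.isNilpotent
  exact NormalizerCondition.normal_of_coatom K Group.normalizerCondition_of_isNilpotent hK

theorem index_coatom_of_pgroup {V : Type*} [Group V] [Finite V] {p : ℕ} [Fact p.Prime]
    (hV : IsPGroup p V) {K : Subgroup V} (hK : IsCoatom K) : K.index = p := by
  have h1 : K.Normal := normal_of_coatom_of_pgroup hV hK
  have hQ : IsPGroup p (V ⧸ K) := hV.to_quotient K
  have hcard : K.index ≠ 1 := fun h => hK.1 (index_eq_one.1 h)
  obtain ⟨n, hn⟩ := (IsPGroup.iff_card).1 hQ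
  have hn0 : n ≠ 0 := by
    rintro rfl
    apply hcard
    rw [index, hn, pow_zero]
  obtain ⟨g, hg⟩ := exists_prime_orderOf_dvd_card' (G := V ⧸ K) p (by
    rw [hn]; exact dvd_pow_self p hn0)
  have hz : zpowers g = ⊤ := by
    have h2 : K < (zpowers g).comap (QuotientGroup.mk' K) := by
      refine lt_of_le_of_ne ?_ ?_
      · intro k hk
        rw [mem_comap]
        have : (QuotientGroup.mk' K) k = 1 := (QuotientGroup.eq_one_iff k).2 hk
        rw [this]
        exact one_mem _
      · intro he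
        obtain ⟨v, hv⟩ := QuotientGroup.mk'_surjective K g
        have : v ∈ K := by
          rw [he, mem_comap, hv]
          exact mem_zpowers g
        have hg1 : g = 1 := by
          rw [← hv]
          exact (QuotientGroup.eq_one_iff v).2 this
        rw [hg1, orderOf_one] at hg
        exact (Fact.out : p.Prime).one_lt.ne hg
    have h3 := hK.2 _ h2
    rw [eq_top_iff]
    intro y _
    obtain ⟨v, rfl⟩ := QuotientGroup.mk'_surjective K y
    have : v ∈ (zpowers g).comap (QuotientGroup.mk' K) := by rw [h3]; exact mem_top v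
    exact this
  have h4 : Nat.card (zpowers g) = p := by rw [Nat.card_zpowers, hg]
  rw [hz, card_top] at h4
  exact h4

/-- In a `p`-group `V`, `[V,V] ≤ Φ(V)`. -/
theorem commutator_le_frat [Finite G] {p : ℕ} [Fact p.Prime] {V : Subgroup G} (hV : IsPGroup p V) :
    ⁅V, V⁆ ≤ frat V := by
  rw [commutator_le]
  intro a ha b hb
  have hab : ⁅a, b⁆ ∈ V := commutator_le_self V (commutator_mem_commutator ha hb)
  rw [mem_frat hab]
  have h : (⟨⁅a, b⁆, hab⟩ : V) = ⁅(⟨a, ha⟩ : V), ⟨b, hb⟩⁆ := rfl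
  rw [h, frattini, Order.radical, mem_iInf]
  intro K
  rw [mem_iInf]
  intro hK
  have hn : K.Normal := normal_of_coatom_of_pgroup hV hK
  have hidx := index_coatom_of_pgroup hV hK
  have hcyc : IsCyclic (V ⧸ K) := isCyclic_of_prime_card (p := p) hidx
  rw [← QuotientGroup.eq_one_iff]
  let _ : CommGroup (V ⧸ K) := IsCyclic.commGroup
  have : ((⁅(⟨a, ha⟩ : V), ⟨b, hb⟩⁆ : V) : V ⧸ K) =
      ⁅((⟨a, ha⟩ : V) : V ⧸ K), ((⟨b, hb⟩ : V) : V ⧸ K)⁆ := rfl
  rw [this, commutatorElement_eq_one_iff_mul_comm]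
  exact mul_comm _ _

/-- In a `p`-group `V`, `v^p ∈ Φ(V)`. -/
theorem pow_mem_frat [Finite G] {p : ℕ} [Fact p.Prime] {V : Subgroup G} (hV : IsPGroup p V)
    {v : G} (hv : v ∈ V) : v ^ p ∈ frat V := by
  rw [mem_frat (pow_mem hv p)]
  have h : (⟨v ^ p, pow_mem hv p⟩ : V) = (⟨v, hv⟩ : V) ^ p := rfl
  rw [h, frattini, Order.radical, mem_iInf]
  intro K
  rw [mem_iInf]
  intro hK
  have hn : K.Normal := normal_of_coatom_of_pgroup hV hK
  have hidx := index_coatom_of_pgroup hV hK
  rw [← QuotientGroup.eq_one_iff]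
  have : (((⟨v, hv⟩ : V) ^ p : V) : V ⧸ K) = ((⟨v, hv⟩ : V) : V ⧸ K) ^ p := rfl
  rw [this, ← hidx, index]
  exact pow_card_eq_one'

end MP_5771ce_al
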