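import Pool.Agent.Lib.MP_5771ce_al.LibCore
import Pool.Agent.Lib.MP_5771ce_al.LibFrat
import Pool.Agent.Lib.MP_5771ce_al.S4.Defs

/-!
# Elementary abelian subgroups, `Ω₁Z(T)`, the Thompson subgroup (relative form)
-/

open Subgroup
open scoped Pointwise commutatorElement

namespace MP_5771ce_al

variable {G : Type*} [Group G]

/-- `|AB| |A ∩ B| = |A| |B|` when `AB = BA`. -/
theorem Permutes.card_sup_mul [Finite G] {A B : Subgroup G} (h : Permutes A B) :
    Nat.card (A ⊔ B : Subgroup G) * Nat.card (A ⊓ B : Subgroup G) = Nat.card A * Nat.card B := by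
  have h1 := h.relIndex_sup
  have h2 : Nat.card A * A.relIndex (A ⊔ B) = Nat.card (A ⊔ B : Subgroup G) :=
    card_mul_relIndex le_sup_left
  have h3 : Nat.card (A ⊓ B : Subgroup G) * (A ⊓ B).relIndex B = Nat.card B :=
    card_mul_relIndex inf_le_right
  rw [inf_relIndex_right] at h3
  rw [← h2, ← h3, h1]
  ring

theorem ElemAb.mono {p : ℕ} {B C : Subgroup G} (h : ElemAb p B) (hCB : C ≤ B) :
    ElemAb p C :=
  ⟨fun a ha b hb => h.1 a (hCB ha) b (hCB hb), fun b hb => h.2 b (hCB hb)⟩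

theorem elemAb_bot (p : ℕ) : ElemAb p (⊥ : Subgroup G) := by
  constructor
  · intro a ha b hb
    rw [mem_bot.1 ha, mem_bot.1 hb]
  · intro b hb
    rw [mem_bot.1 hb, one_pow]

theorem ElemAb.isPGroup {p : ℕ} {B : Subgroup G} (h : ElemAb p B) : IsPGroup p B := by
  intro b
  refine ⟨1, ?_⟩
  rw [pow_one]
  exact Subtype.ext (h.2 b b.2)

theorem ElemAb.map {p : ℕ} {B : Subgroup G} (h : ElemAb p B) {H : Type*} [Group H]
    (f : G →* H) : ElemAb p (B.map f) := by
  constructor
  · rintro _ ⟨a, ha, rfl⟩ _ ⟨b, hb, rfl⟩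
    rw [← map_mul, h.1 a ha b hb, map_mul]
  · rintro _ ⟨b, hb, rfl⟩
    rw [← map_pow, h.2 b hb, map_one]

theorem le_normalizer_of_commute {B C : Subgroup G} (hBC : ∀ b ∈ B, ∀ c ∈ C, b * c = c * b) :
    B ≤ normalizer (C : Set G) := by
  have : B ≤ centralizer (C : Set G) := by
    intro b hb
    rw [mem_centralizer_iff]
    intro c hc
    exact (hBC b hb c hc).symm
  exact this.trans (centralizer_le_normalizer (C : Set G))

/-- Two elementary abelian groups that commute elementwise generate an elementary abelian group. -/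
theorem ElemAb.sup {p : ℕ} {B C : Subgroup G} (hB : ElemAb p B) (hC : ElemAb p C)
    (hBC : ∀ b ∈ B, ∀ c ∈ C, b * c = c * b) : ElemAb p (B ⊔ C) := by
  have hperm : Permutes B C := (permutes_of_le_normalizer (le_normalizer_of_commute hBC)).symm
  constructor
  · intro x hx y hy
    obtain ⟨b, hb, c, hc, rfl⟩ := hperm.mem_sup.1 hx
    obtain ⟨b', hb', c', hc', rfl⟩ := hperm.mem_sup.1 hy
    calc b * c * (b' * c') = b * (c * b') * c' := by group
      _ = b * (b' * c) * c' := by rw [hBC b' hb' c hc]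
      _ = (b * b') * (c * c') := by group
      _ = (b' * b) * (c' * c) := by rw [hB.1 b hb b' hb', hC.1 c hc c' hc']
      _ = b' * (b * c') * c := by group
      _ = b' * (c' * b) * c := by rw [hBC b hb c' hc']
      _ = b' * c' * (b * c) := by group
  · intro x hx
    obtain ⟨b, hb, c, hc, rfl⟩ := hperm.mem_sup.1 hx
    have hcomm : Commute b c := hBC b hb c hc
    rw [hcomm.mul_pow, hB.2 b hb, hC.2 c hc, one_mul]

/-- The elementary abelian subgroups of `T` of maximal order. -/
def maxElem (p : ℕ) (T : Subgroup G) : Set (Subgroup G) :=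
  {B | B ≤ T ∧ ElemAb p B ∧ ∀ C ≤ T, ElemAb p C → Nat.card C ≤ Nat.card B}

theorem thompson_eq_sSup (p : ℕ) (T : Subgroup G) : thompson p T = sSup (maxElem p T) := rfl

theorem maxElem_nonempty [Finite G] (p : ℕ) (T : Subgroup G) : (maxElem p T).Nonempty := by
  have hfin : Set.Finite {B : Subgroup G | B ≤ T ∧ ElemAb p B} := Set.toFinite _
  obtain ⟨B, hB, hmax⟩ := hfin.exists_maximalFor (fun B : Subgroup G => Nat.card B) _
    ⟨⊥, bot_le, elemAb_bot p⟩
  refine ⟨B, hB.1, hB.2, fun C hC1 hC2 => ?_⟩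
  rcases le_total (Nat.card C) (Nat.card B) with h | h
  · exact h
  · exact hmax ⟨hC1, hC2⟩ h

theorem thompson_le (p : ℕ) (T : Subgroup G) : thompson p T ≤ T := sSup_le fun _ hB => hB.1

theorem le_thompson {p : ℕ} {T B : Subgroup G} (h : B ∈ maxElem p T) : B ≤ thompson p T :=
  le_sSup h

theorem exists_not_le_of_thompson {p : ℕ} {T S : Subgroup G} (h : ¬ thompson p T ≤ S) :
    ∃ B ∈ maxElem p T, ¬ B ≤ S := by
  by_contra hcon
  push Not at hcon
  exact h (sSup_le hcon)

/-- If some member of `maxElem p T` lies in `S ≤ T` then `maxElem p S ⊆ maxElem p T`. -/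
theorem maxElem_subset {p : ℕ} {T S B : Subgroup G} (hST : S ≤ T) (hB : B ∈ maxElem p T)
    (hBS : B ≤ S) : maxElem p S ⊆ maxElem p T := by
  intro C hC
  refine ⟨hC.1.trans hST, hC.2.1, fun D hD1 hD2 => ?_⟩
  exact (hB.2.2 D hD1 hD2).trans (hC.2.2 B hBS hB.2.1)

/-- `J(T) ≤ S ≤ T` implies `J(T) = J(S)`. -/
theorem thompson_eq [Finite G] {p : ℕ} {T S : Subgroup G} (hST : S ≤ T)
    (h : thompson p T ≤ S) : thompson p S = thompson p T := by
  obtain ⟨B, hB⟩ := maxElem_nonempty p T
  have hBS : B ≤ S := (le_thompson hB).trans h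
  have h1 := maxElem_subset hST hB hBS
  apply le_antisymm
  · exact sSup_le fun C hC => le_thompson (h1 hC)
  · refine sSup_le fun C hC => le_thompson ?_
    exact ⟨(le_thompson hC).trans h, hC.2.1, fun D hD1 hD2 => hC.2.2 D (hD1.trans hST) hD2⟩

theorem map_conj_le_iff {T : Subgroup G} {g : G} (hg : g ∈ normalizer (T : Set G))
    {B : Subgroup G} : B.map (MulAut.conj g).toMonoidHom ≤ T ↔ B ≤ T := by
  constructor
  · intro h b hb
    have : g * b * g⁻¹ ∈ T := h ⟨b, hb, rfl⟩
    exact (mem_normalizer_iff.1 hg b).2 this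
  · rintro h _ ⟨b, hb, rfl⟩
    exact (mem_normalizer_iff.1 hg b).1 (h hb)

theorem card_map_conj (B : Subgroup G) (g : G) :
    Nat.card (B.map (MulAut.conj g).toMonoidHom) = Nat.card B :=
  Nat.card_congr (B.equivMapOfInjective _ (MulAut.conj g).injective).symm.toEquiv

theorem map_conj_mem_maxElem {p : ℕ} {T : Subgroup G} {g : G}
    (hg : g ∈ normalizer (T : Set G)) {B : Subgroup G} (hB : B ∈ maxElem p T) :
    B.map (MulAut.conj g).toMonoidHom ∈ maxElem p T := by
  refine ⟨(map_conj_le_iff hg).2 hB.1, hB.2.1.map _, fun C hC1 hC2 => ?_⟩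
  rw [card_map_conj]
  exact hB.2.2 C hC1 hC2

/-- `J(T)` is normalised by the normaliser of `T`. -/
theorem normalizer_le_thompson {p : ℕ} {T : Subgroup G} :
    normalizer (T : Set G) ≤ normalizer (thompson p T : Set G) := by
  have h : ∀ g ∈ normalizer (T : Set G), ∀ y ∈ thompson p T, g * y * g⁻¹ ∈ thompson p T := by
    intro g hg y hy
    have : (thompson p T).map (MulAut.conj g).toMonoidHom ≤ thompson p T := by
      rw [thompson, Subgroup.map_le_iff_le_comap]
      refine sSup_le fun B hB => ?_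
      rw [← Subgroup.map_le_iff_le_comap]
      exact le_thompson (map_conj_mem_maxElem hg hB)
    exact this ⟨y, hy, rfl⟩
  intro g hg
  rw [mem_normalizer_iff]
  intro y
  refine ⟨h g hg y, fun hy => ?_⟩
  have := h g⁻¹ (inv_mem hg) _ hy
  convert this using 1
  group

/-- `J(T) ≠ 1` for a nontrivial finite `p`-group `T`. -/
theorem thompson_ne_bot [Finite G] {p : ℕ} [Fact p.Prime] {T : Subgroup G} (hT : IsPGroup p T)
    (hne : T ≠ ⊥) : thompson p T ≠ ⊥ := by
  obtain ⟨B, hB⟩ := maxElem_nonempty p T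
  obtain ⟨n, hn⟩ := (IsPGroup.iff_card).1 hT
  have hn0 : n ≠ 0 := by
    rintro rfl
    rw [pow_zero] at hn
    exact hne (eq_bot_of_card_eq T hn)
  obtain ⟨g, hg⟩ := exists_prime_orderOf_dvd_card' (G := T) p (by
    rw [hn]; exact dvd_pow_self p hn0)
  have hgp : (g : G) ^ p = 1 := by
    have := pow_orderOf_eq_one g
    rw [hg] at this
    exact congrArg Subtype.val this
  have hz : ElemAb p (zpowers (g : G)) := by
    constructor
    · intro a ha b hb
      obtain ⟨i, rfl⟩ := mem_zpowers_iff.1 ha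
      obtain ⟨j, rfl⟩ := mem_zpowers_iff.1 hb
      rw [← zpow_add, ← zpow_add, add_comm]
    · intro b hb
      obtain ⟨j, rfl⟩ := mem_zpowers_iff.1 hb
      rw [← zpow_natCast, ← zpow_mul, mul_comm, zpow_mul, zpow_natCast, hgp, one_zpow]
  have h1 := hB.2.2 (zpowers (g : G)) (by rw [zpowers_le]; exact g.2) hz
  rw [Nat.card_zpowers, orderOf_coe, hg] at h1
  intro he
  have h2 : B = ⊥ := by
    rw [eq_bot_iff, ← he]
    exact le_thompson hB
  rw [h2, card_bot] at h1
  exact absurd (Fact.out : p.Prime).one_lt (not_lt.2 h1)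

theorem mem_omegaZ {p : ℕ} {T : Subgroup G} {z : G} :
    z ∈ omegaZ p T ↔ z ∈ T ∧ z ^ p = 1 ∧ ∀ t ∈ T, t * z = z * t := Iff.rfl

theorem omegaZ_le (p : ℕ) (T : Subgroup G) : omegaZ p T ≤ T := fun _ h => h.1

theorem elemAb_omegaZ (p : ℕ) (T : Subgroup G) : ElemAb p (omegaZ p T) :=
  ⟨fun a ha _ hb => hb.2.2 a ha.1, fun _ hb => hb.2.1⟩

theorem omegaZ_le_centralizer (p : ℕ) (T : Subgroup G) :
    omegaZ p T ≤ centralizer (T : Set G) := by
  intro z hz
  rw [mem_centralizer_iff]
  exact hz.2.2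

theorem normalizer_le_omegaZ {p : ℕ} {T : Subgroup G} :
    normalizer (T : Set G) ≤ normalizer (omegaZ p T : Set G) := by
  have h : ∀ g ∈ normalizer (T : Set G), ∀ y ∈ omegaZ p T, g * y * g⁻¹ ∈ omegaZ p T := by
    rintro g hg y ⟨hy1, hy3, hy2⟩
    refine ⟨(mem_normalizer_iff.1 hg y).1 hy1, ?_, fun t ht => ?_⟩
    · rw [conj_pow, hy3]
      group
    · have h1 : g⁻¹ * t * g ∈ T := mem_normalizer_conj' hg ht
      have h2 := hy2 _ h1
      calc t * (g * y * g⁻¹) = g * (g⁻¹ * t * g * y) * g⁻¹ := by group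
        _ = g * (y * (g⁻¹ * t * g)) * g⁻¹ := by rw [h2]
        _ = g * y * g⁻¹ * t := by group
  intro g hg
  rw [mem_normalizer_iff]
  intro y
  refine ⟨h g hg y, fun hy => ?_⟩
  have := h g⁻¹ (inv_mem hg) _ hy
  convert this using 1
  group

theorem omegaZ_ne_bot [Finite G] {p : ℕ} [Fact p.Prime] {T : Subgroup G} (hT : IsPGroup p T)
    (hne : T ≠ ⊥) : omegaZ p T ≠ ⊥ := by
  have hnt : Nontrivial T := (nontrivial_iff_ne_bot T).2 hne
  have hZ : Nontrivial (center T) := hT.center_nontrivial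
  have hZp : IsPGroup p (center T) := hT.to_subgroup _
  obtain ⟨n, hn⟩ := (IsPGroup.iff_card).1 hZp
  have hn0 : n ≠ 0 := by
    rintro rfl
    rw [pow_zero] at hn
    have := Finite.one_lt_card (α := center T)
    omega
  obtain ⟨g, hg⟩ := exists_prime_orderOf_dvd_card' (G := center T) p (by
    rw [hn]; exact dvd_pow_self p hn0)
  have hgp : (g : T) ^ p = 1 := by
    have := pow_orderOf_eq_one g
    rw [hg] at this
    exact congrArg Subtype.val this
  have hmem : ((g : T) : G) ∈ omegaZ p T := by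
    refine ⟨(g : T).2, congrArg Subtype.val hgp, fun t ht => ?_⟩
    have := mem_center_iff.1 g.2 ⟨t, ht⟩
    exact congrArg Subtype.val this
  intro he
  rw [he, mem_bot] at hmem
  have h1 : g = 1 := Subtype.ext (Subtype.ext hmem)
  rw [h1, orderOf_one] at hg
  exact (Fact.out : p.Prime).one_lt.ne hg

/-- The offender inequality: `|W : C_W(B)| ≤ |B : C_B(W)|` for `B ∈ maxElem p T`, `W ≤ T`
elementary abelian and normalised by `B`. -/
theorem maxElem_index_le [Finite G] {p : ℕ} {T B W : Subgroup G} (hB : B ∈ maxElem p T)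
    (hWT : W ≤ T) (hW : ElemAb p W) :
    (centralizer (B : Set G)).relIndex W ≤ (centralizer (W : Set G)).relIndex B := by
  set C := B ⊓ centralizer (W : Set G) with hC
  have hCW : ∀ c ∈ C, ∀ w ∈ W, c * w = w * c := fun c hc w hw =>
    ((mem_centralizer_iff.1 hc.2) w hw).symm
  have hel : ElemAb p (C ⊔ W) := (hB.2.1.mono inf_le_left).sup hW hCW
  have h1 := hB.2.2 (C ⊔ W) (sup_le (inf_le_left.trans hB.1) hWT) hel
  have h2 := (permutes_of_le_normalizer (le_normalizer_of_commute hCW)).symm.card_sup_mul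
  have h3 : (C ⊓ W : Subgroup G) = B ⊓ W := by
    apply le_antisymm
    · exact inf_le_inf_right _ inf_le_left
    · refine le_inf (le_inf inf_le_left ?_) inf_le_right
      intro x hx
      rw [mem_centralizer_iff]
      intro w hw
      exact hW.1 w hw x hx.2
  rw [h3] at h2
  -- |W : W ∩ B| * ... 
  have h4 : Nat.card (B ⊓ W : Subgroup G) * (B ⊓ W).relIndex W = Nat.card W :=
    card_mul_relIndex inf_le_right
  rw [inf_relIndex_right] at h4
  have h5 : Nat.card C * C.relIndex B = Nat.card B := card_mul_relIndex inf_le_left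
  have h6 : C.relIndex B = (centralizer (W : Set G)).relIndex B := by
    rw [hC, inf_relIndex_left]
  have hpos : 0 < Nat.card (B ⊓ W : Subgroup G) := Nat.card_pos
  have h7 : Nat.card (C ⊔ W : Subgroup G) = Nat.card C * B.relIndex W := by
    apply Nat.eq_of_mul_eq_mul_right hpos
    rw [h2, ← h4]
    ring
  rw [h7, ← h5, h6] at h1
  have h8 : B.relIndex W ≤ (centralizer (W : Set G)).relIndex B :=
    Nat.le_of_mul_le_mul_left h1 Nat.card_pos
  refine le_trans ?_ h8
  rw [← inf_relIndex_right B W]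
  refine relIndex_le_of_le_left ?_ ?_
  · intro x hx
    rw [mem_centralizer_iff]
    intro b hb
    exact hB.2.1.1 b hb x hx.1
  · exact index_ne_zero_of_finite

end MP_5771ce_al
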