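import Pool.Agent.Lib.MP_5771ce_al.LibFit

/-!
# Relative Sylow theory (library file for `MP_5771ce_al`)
-/

open Subgroup
open scoped Pointwise commutatorElement

namespace MP_5771ce_al

variable {G : Type*} [Group G] {H : Type*} [Group H]

/-- `P` is a Sylow `p`-subgroup of `E`. -/
structure IsSylowIn (p : ℕ) (P E : Subgroup G) : Prop where
  le : P ≤ E
  isPGroup : IsPGroup p P
  not_dvd : ¬ p ∣ P.relIndex E

theorem relIndex_map_subtype {E : Subgroup G} (K : Subgroup E) :
    (K.map E.subtype).relIndex E = K.index := by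
  have := relIndex_map_map_of_injective K ⊤ E.subtype_injective
  rwa [map_subtype_top, relIndex_top_right] at this

section finite

variable [Finite G] {p : ℕ} [Fact p.Prime]

/-- A Sylow subgroup of the group `E` gives one in the relative sense. -/
theorem isSylowIn_of_sylow {E : Subgroup G} (Q : Sylow p E) :
    IsSylowIn p ((Q : Subgroup E).map E.subtype) E where
  le := map_subtype_le _
  isPGroup := Q.isPGroup'.map _
  not_dvd := by
    rw [relIndex_map_subtype]
    exact Q.not_dvd_index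

omit [Finite G] [Fact p.Prime] in
theorem mem_sylow_smul {Q : Sylow p G} {g y : G} :
    y ∈ ((g • Q : Sylow p G) : Subgroup G) ↔ g⁻¹ * y * g ∈ (Q : Subgroup G) := by
  rw [Sylow.coe_subgroup_smul, Subgroup.mem_pointwise_smul_iff_inv_smul_mem, ← map_inv,
    MulAut.smul_def, MulAut.conj_apply, inv_inv]

omit [Finite G] in
/-- A relative Sylow subgroup as a Sylow subgroup of the group `E`. -/
noncomputable def IsSylowIn.toSylow {P E : Subgroup G} (h : IsSylowIn p P E) : Sylow p E :=
  (h.isPGroup.comap_subtype (K := E)).toSylow h.not_dvd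

omit [Finite G] in
theorem IsSylowIn.coe_toSylow {P E : Subgroup G} (h : IsSylowIn p P E) :
    (h.toSylow : Subgroup E) = P.subgroupOf E := rfl

omit [Finite G] in
theorem IsSylowIn.map_toSylow {P E : Subgroup G} (h : IsSylowIn p P E) :
    (h.toSylow : Subgroup E).map E.subtype = P := by
  rw [h.coe_toSylow, map_subtype_subgroupOf h.le]

/-- Every `p`-subgroup of `E` lies in a Sylow `p`-subgroup of `E`. -/
theorem exists_isSylowIn_ge {X E : Subgroup G} (hX : IsPGroup p X) (h : X ≤ E) :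
    ∃ P, IsSylowIn p P E ∧ X ≤ P := by
  obtain ⟨Q, hQ⟩ := (hX.comap_subtype (K := E)).exists_le_sylow
  refine ⟨_, isSylowIn_of_sylow Q, ?_⟩
  rw [← map_subtype_subgroupOf h]
  exact map_mono hQ

theorem exists_isSylowIn (E : Subgroup G) : ∃ P, IsSylowIn p P E := by
  obtain ⟨P, hP, -⟩ := exists_isSylowIn_ge (p := p) (X := ⊥) IsPGroup.of_bot (bot_le : ⊥ ≤ E)
  exact ⟨P, hP⟩

/-- Sylow subgroups of `E` are conjugate in `E`. -/
theorem IsSylowIn.exists_conjBy_eq {P Q E : Subgroup G} (hP : IsSylowIn p P E)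
    (hQ : IsSylowIn p Q E) : ∃ x ∈ E, conjBy P x = Q := by
  obtain ⟨g, hg⟩ := MulAction.exists_smul_eq E hP.toSylow hQ.toSylow
  refine ⟨(g : G)⁻¹, inv_mem g.2, ?_⟩
  rw [← hQ.map_toSylow, ← hg]
  ext y
  rw [mem_conjBy, inv_inv]
  constructor
  · intro hy
    refine ⟨⟨y, ?_⟩, ?_, rfl⟩
    · have := mul_mem (mul_mem g.2 (hP.le hy)) (inv_mem g.2)
      convert this using 1
      group
    · rw [SetLike.mem_coe, mem_sylow_smul, hP.coe_toSylow, mem_subgroupOf]
      exact hy
  · rintro ⟨z, hz, rfl⟩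
    rw [SetLike.mem_coe, mem_sylow_smul, hP.coe_toSylow, mem_subgroupOf] at hz
    exact hz

/-- Every `p`-subgroup of `E` is conjugate in `E` into a given Sylow subgroup. -/
theorem IsSylowIn.exists_le_conjBy {X P E : Subgroup G} (hP : IsSylowIn p P E)
    (hX : IsPGroup p X) (h : X ≤ E) : ∃ x ∈ E, X ≤ conjBy P x := by
  obtain ⟨Q, hQ, hXQ⟩ := exists_isSylowIn_ge hX h
  obtain ⟨x, hx, e⟩ := hP.exists_conjBy_eq hQ
  exact ⟨x, hx, e ▸ hXQ⟩

omit [Finite G] [Fact p.Prime] in
/-- A Sylow subgroup of `E` is a Sylow subgroup of every subgroup of `E` containing it. -/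
theorem IsSylowIn.of_le {P E F : Subgroup G} (hP : IsSylowIn p P E) (h : P ≤ F) (hF : F ≤ E) :
    IsSylowIn p P F where
  le := h
  isPGroup := hP.isPGroup
  not_dvd := fun hd => hP.not_dvd (hd.trans (by
    rw [← relIndex_mul_relIndex P F E h hF]
    exact dvd_mul_right _ _))

omit [Finite G] [Fact p.Prime] in
theorem IsSylowIn.conjBy {P E : Subgroup G} (hP : IsSylowIn p P E) (x : G) :
    IsSylowIn p (conjBy P x) (conjBy E x) where
  le := conjBy_mono hP.le x
  isPGroup := hP.isPGroup.map _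
  not_dvd := by
    have : (MP_5771ce_al.conjBy P x).relIndex (MP_5771ce_al.conjBy E x) = P.relIndex E :=
      relIndex_map_map_of_injective _ _ (MulAut.conj x⁻¹).injective
    rw [this]
    exact hP.not_dvd

/-- A `p`-subgroup containing a Sylow subgroup is equal to it. -/
theorem IsSylowIn.eq_of_le {P Q E : Subgroup G} (hP : IsSylowIn p P E) (hQ : IsPGroup p Q)
    (hPQ : P ≤ Q) (hQE : Q ≤ E) : P = Q := by
  apply le_antisymm hPQ
  rw [← relIndex_eq_one]
  have h1 := (hP.of_le hPQ hQE).not_dvd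
  obtain ⟨n, hn⟩ := (IsPGroup.iff_card).1 hQ
  have h2 : P.relIndex Q ∣ p ^ n := by
    rw [← hn]
    exact relIndex_dvd_card P Q
  obtain ⟨k, -, hk⟩ := (Nat.dvd_prime_pow Fact.out).1 h2
  rcases Nat.eq_zero_or_pos k with rfl | hk0
  · rw [hk, pow_zero]
  · exact absurd (hk ▸ dvd_pow_self p hk0.ne') h1

omit [Finite G] [Fact p.Prime] in
/-- If `A` and the Sylow subgroup `P` of `E` permute, `A ∩ P` is a Sylow subgroup of `A`. -/
theorem IsSylowIn.inf_of_permutes {A P E : Subgroup G} (hP : IsSylowIn p P E) (hA : A ≤ E)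
    (h : Permutes A P) : IsSylowIn p (A ⊓ P) A where
  le := inf_le_left
  isPGroup := hP.isPGroup.to_inf_right
  not_dvd := by
    rw [inf_comm, inf_relIndex_right, ← h.symm.relIndex_sup]
    exact (hP.of_le le_sup_left (sup_le hP.le hA)).not_dvd

omit [Finite G] [Fact p.Prime] in
/-- The intersection of a Sylow subgroup with a normal subgroup. -/
theorem IsSylowIn.inf_normal {P E N : Subgroup G} (hP : IsSylowIn p P E) (hN : NormalIn N E) :
    IsSylowIn p (P ⊓ N) N := by
  have := hP.inf_of_permutes hN.1 (permutes_of_le_normalizer (hP.le.trans hN.le_normalizer))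
  rwa [inf_comm] at this

/-- `O_p(E) ≤ P`. -/
theorem IsSylowIn.opc_le {P E : Subgroup G} (hP : IsSylowIn p P E) : opc p E ≤ P := by
  obtain ⟨x, hx, h⟩ := hP.exists_le_conjBy (opc_isPGroup p E) (MP_5771ce_al.opc_le p E)
  have h2 := conjBy_mono h x⁻¹
  rwa [← conjBy_mul, mul_inv_cancel, conjBy_one,
    (opc_normalIn p E).conjBy_eq (inv_mem hx)] at h2

omit [Finite G] [Fact p.Prime] in
/-- Images of Sylow subgroups. -/
theorem IsSylowIn.map {P E : Subgroup G} (hP : IsSylowIn p P E) (f : G →* H) :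
    IsSylowIn p (P.map f) (E.map f) where
  le := map_mono hP.le
  isPGroup := hP.isPGroup.map f
  not_dvd := fun hd => hP.not_dvd (hd.trans (by
    rw [← relIndex_comap]
    exact relIndex_dvd_of_le_left _ (le_comap_map f P)))

/-- **Frattini argument**, elementwise form. -/
theorem IsSylowIn.frattini {P N E : Subgroup G} (hP : IsSylowIn p P N) (hN : NormalIn N E)
    {e : G} (he : e ∈ E) :
    ∃ n ∈ N, ∃ x ∈ E ⊓ normalizer (P : Set G), n * x = e := by
  have h1 : IsSylowIn p (MP_5771ce_al.conjBy P e) N := by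
    have := hP.conjBy e
    rwa [hN.conjBy_eq he] at this
  obtain ⟨n, hn, h2⟩ := h1.exists_conjBy_eq hP
  rw [← conjBy_mul] at h2
  have h3 : e * n ∈ normalizer (P : Set G) := mem_normalizer_iff_conjBy.2 h2
  refine ⟨e * n⁻¹ * e⁻¹, hN.2 e he _ (inv_mem hn), e * n, ⟨mul_mem he (hN.1 hn), h3⟩, by group⟩

theorem IsSylowIn.frattini_sup {P N E : Subgroup G} (hP : IsSylowIn p P N)
    (hN : NormalIn N E) : N ⊔ (E ⊓ normalizer (P : Set G)) = E := by
  apply le_antisymm (sup_le hN.1 inf_le_left)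
  intro e he
  obtain ⟨n, hn, x, hx, rfl⟩ := hP.frattini hN he
  exact mul_mem (mem_sup_left hn) (mem_sup_right hx)

/-- Normalisers grow in `p`-groups. -/
theorem lt_inf_normalizer_of_lt {P Y : Subgroup G} (hP : IsPGroup p P) (h : Y < P) :
    Y < P ⊓ normalizer (Y : Set G) := by
  refine lt_of_le_of_ne (le_inf h.le le_normalizer) fun he => ?_
  have hnil : Group.IsNilpotent P := hP.isNilpotent
  have h1 := Group.normalizerCondition_of_isNilpotent (G := P) (Y.subgroupOf P) (by
    rw [lt_top_iff_ne_top]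
    intro h2
    exact h.not_ge (subgroupOf_eq_top.1 h2))
  apply h1.ne
  apply le_antisymm le_normalizer
  intro x hx
  rw [mem_subgroupOf, he]
  refine ⟨x.2, ?_⟩
  rw [mem_normalizer_iff] at hx
  refine mem_normalizer_iff.2 fun y => ?_
  constructor
  · intro hy
    exact (hx ⟨y, h.le hy⟩).1 hy
  · intro hy
    have hyP : y ∈ P := by
      have := mul_mem (mul_mem (inv_mem x.2) (h.le hy)) x.2
      convert this using 1
      group
    exact (hx ⟨y, hyP⟩).2 hy

/-- For `A ≤ E`, `A` hereditarily permutable, some Sylow `p`-subgroup of `E` permutes with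
`A`. -/
theorem HerPermutable.exists_isSylowIn_permutes {A E : Subgroup G} (hA : HerPermutable A)
    (hAE : A ≤ E) (p : ℕ) [Fact p.Prime] : ∃ P, IsSylowIn p P E ∧ Permutes A P := by
  obtain ⟨P₀, hP₀⟩ := exists_isSylowIn (p := p) E
  obtain ⟨x, hx, h⟩ := hA E hAE P₀ hP₀.le
  refine ⟨conjBy P₀ x, ?_, h⟩
  have := hP₀.conjBy x
  rwa [conjBy_eq_self hx] at this

end finite

end MP_5771ce_al
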