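import Pool.Agent.Lib.MP_5771ce_al.Main

/-!
# Hereditarily permutable subgroups of nonabelian simple groups
-/

open scoped Pointwise commutatorElement

universe u

namespace MP_5771ce_al

variable {G : Type u} [Group G]

theorem perfCore_top_of_simple [IsSimpleGroup G] (hna : ∃ a b : G, a * b ≠ b * a) :
    perfCore (⊤ : Subgroup G) = ⊤ := by
  have h1 : commutator G = ⊤ := by
    rcases IsSimpleGroup.eq_bot_or_eq_top_of_normal (commutator G) inferInstance with h | h
    · exfalso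
      obtain ⟨a, b, hab⟩ := hna
      apply hab
      have : ⁅a, b⁆ ∈ commutator G :=
        Subgroup.commutator_mem_commutator (Subgroup.mem_top a) (Subgroup.mem_top b)
      rw [h, Subgroup.mem_bot, commutatorElement_eq_one_iff_mul_comm] at this
      exact this
    · exact h
  apply le_antisymm le_top
  exact le_perfCore le_rfl h1

theorem sup_eq_top_of_simple [IsSimpleGroup G] {A B N : Subgroup G} (hN : N ≠ ⊥)
    (hG : ∀ g : G, ∃ b ∈ B, ∃ a ∈ A, b * a = g) (hn : ∀ b ∈ B, ∀ n ∈ N, b * n * b⁻¹ ∈ N) :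
    A ⊔ N = ⊤ := by
  rcases IsSimpleGroup.eq_bot_or_eq_top_of_normal (Subgroup.normalClosure (N : Set G))
    inferInstance with h | h
  · exfalso
    apply hN
    rw [eq_bot_iff, ← h]
    exact Subgroup.le_normalClosure
  · rw [eq_top_iff, ← h]
    exact normalClosure_le hG hn

/-- L5: a nonabelian simple group is not a product `AB` of a proper hereditarily permutable
subgroup `A` and a subgroup `B` with a nontrivial abelian normal subgroup `M`. -/
theorem no_factorisation [Finite G] [IsSimpleGroup G] (hna : ∃ a b : G, a * b ≠ b * a)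
    {A B M : Subgroup G} (hA : HerPermutable A) (hAt : A ≠ ⊤) (hAB : Permutes A B)
    (ht : A ⊔ B = ⊤) (hMB : M ≤ B) (hM : M ≠ ⊥) (hn : ∀ b ∈ B, ∀ n ∈ M, b * n * b⁻¹ ∈ M)
    (hab : ∀ x ∈ M, ∀ y ∈ M, x * y = y * x) : False := by
  have hAM : Permutes A M := hA.permutes_of_normal hAB hMB hn
  have htM : A ⊔ M = ⊤ := sup_eq_top_of_simple hM (fun g => hAB.exists_eq ht g) hn
  have hMn : Nontrivial M := (Subgroup.nontrivial_iff_ne_bot M).2 hM
  obtain ⟨q, hq, hqM⟩ := Nat.exists_prime_and_dvd (Finite.one_lt_card (α := M)).ne'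
  have _ : Fact q.Prime := ⟨hq⟩
  obtain ⟨c, hc⟩ := exists_prime_orderOf_dvd_card' q hqM
  rw [← Subgroup.orderOf_coe] at hc
  have hcM : Subgroup.zpowers (c : G) ≤ M := by rw [Subgroup.zpowers_le]; exact c.2
  have hcn : ∀ b ∈ M, ∀ x ∈ Subgroup.zpowers (c : G), b * x * b⁻¹ ∈ Subgroup.zpowers (c : G) := by
    intro b hb x hx
    rw [hab b hb x (hcM hx), mul_inv_cancel_right]
    exact hx
  have hAC : Permutes A (Subgroup.zpowers (c : G)) := hA.permutes_of_normal hAM hcM hcn
  have hcne : Subgroup.zpowers (c : G) ≠ ⊥ := by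
    intro h
    rw [Subgroup.zpowers_eq_bot] at h
    rw [h, orderOf_one] at hc
    exact hq.one_lt.ne hc
  have htC : A ⊔ Subgroup.zpowers (c : G) = ⊤ :=
    sup_eq_top_of_simple hcne (fun g => hAM.exists_eq htM g) hcn
  have hcA : (c : G) ∉ A := by
    intro h
    apply hAt
    rw [eq_top_iff, ← htC]
    exact sup_le le_rfl (by rwa [Subgroup.zpowers_le])
  have hidx : A.index = q := by
    have h1 := hAC.relIndex_sup
    rw [htC, Subgroup.relIndex_top_right, relIndex_zpowers hq hc hcA] at h1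
    exact h1
  have h2 := perfCore_le_of_coatom (isCoatom_of_index_prime (hidx ▸ hq)) (hA ⊤ le_top)
  rw [perfCore_top_of_simple hna] at h2
  exact hAt (top_le_iff.1 h2)

/-- A product of `A` with a `p`-group is proper. -/
theorem sup_ne_top_of_pGroup [Finite G] [IsSimpleGroup G] (hna : ∃ a b : G, a * b ≠ b * a)
    {A P : Subgroup G} (hA : HerPermutable A) (hAt : A ≠ ⊤) {p : ℕ} [Fact p.Prime]
    (hP : IsPGroup p P) (hAP : Permutes A P) : A ⊔ P ≠ ⊤ := by
  intro ht
  have hPne : P ≠ ⊥ := by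
    intro h
    rw [h, sup_bot_eq] at ht
    exact hAt ht
  obtain ⟨z, hzP, hzo, hzc⟩ := exists_central hP hPne
  have hp : p.Prime := Fact.out
  refine no_factorisation hna hA hAt hAP ht (M := Subgroup.zpowers z) ?_ ?_ ?_ ?_
  · rw [Subgroup.zpowers_le]; exact hzP
  · intro h
    rw [Subgroup.zpowers_eq_bot] at h
    rw [h, orderOf_one] at hzo
    exact hp.one_lt.ne hzo
  · rintro b hb _ ⟨i, rfl⟩
    have : b * z ^ i * b⁻¹ = z ^ i := by
      rw [← conj_zpow, hzc b hb]
    show b * z ^ i * b⁻¹ ∈ _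
    rw [this]
    exact Subgroup.zpow_mem _ (Subgroup.mem_zpowers z) i
  · rintro _ ⟨i, rfl⟩ _ ⟨j, rfl⟩
    exact (((Commute.refl z).zpow_left i).zpow_right j).eq

theorem not_isCoatom [Finite G] [IsSimpleGroup G] (hna : ∃ a b : G, a * b ≠ b * a)
    {A : Subgroup G} (hA : HerPermutable A) (hAt : A ≠ ⊤) : ¬ IsCoatom A := by
  intro h
  have h2 := perfCore_le_of_coatom h (hA ⊤ le_top)
  rw [perfCore_top_of_simple hna] at h2
  exact hAt (top_le_iff.1 h2)

theorem index_ne_prime_pow [Finite G] [IsSimpleGroup G] (hna : ∃ a b : G, a * b ≠ b * a)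
    {A : Subgroup G} (hA : HerPermutable A) (hAt : A ≠ ⊤) {p : ℕ} (hp : p.Prime) (k : ℕ) :
    A.index ≠ p ^ k := by
  intro h
  have _ : Fact p.Prime := ⟨hp⟩
  obtain ⟨P, hPp, hPi, hAP⟩ := exists_sylow_permutes hA p
  exact sup_ne_top_of_pGroup hna hA hAt hPp hAP (sup_eq_top_of_index hp (k := k) (by rw [h]) hPi)

theorem isSolvable_of_simple [Finite G] [IsSimpleGroup G] {A : Subgroup G}
    (hA : HerPermutable A) (hAt : A ≠ ⊤) : Group.IsSolvable A := by
  apply isSolvable_of_perfCore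
  rcases IsSimpleGroup.eq_bot_or_eq_top_of_normal (perfCore A) (perfCore_normal hA) with h | h
  · exact h
  · exact absurd (top_le_iff.1 (h ▸ perfCore_le A)) hAt

/-- Two primes. -/
theorem exists_two_primes [Finite G] [IsSimpleGroup G] (hna : ∃ a b : G, a * b ≠ b * a)
    {A : Subgroup G} (hA : HerPermutable A) (hAt : A ≠ ⊤) {q : ℕ} (hq : q.Prime)
    (hqA : q ∣ Nat.card A) :
    ∃ p₁ p₂ : ℕ, p₁ ≠ p₂ ∧ (p₁.Prime ∧ p₁ ∣ A.index ∧ (p₁ = q ∨ q ∣ p₁ - 1)) ∧
      (p₂.Prime ∧ p₂ ∣ A.index ∧ (p₂ = q ∨ q ∣ p₂ - 1)) := by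
  by_contra hcon
  -- there is a prime `p₀` such that no other prime divisor of the index is bad
  obtain ⟨p₀, hp₀, hbad⟩ : ∃ p₀ : ℕ, p₀.Prime ∧ ∀ p : ℕ, p.Prime → p ∣ A.index → p ≠ p₀ →
      p ≠ q ∧ ¬ q ∣ p - 1 := by
    by_cases h : ∃ p : ℕ, p.Prime ∧ p ∣ A.index ∧ (p = q ∨ q ∣ p - 1)
    · obtain ⟨p₀, h0⟩ := h
      refine ⟨p₀, h0.1, fun p hp hpi hpp => ?_⟩
      by_contra h1
      apply hcon
      refine ⟨p₀, p, hpp.symm, h0, hp, hpi, ?_⟩
      by_contra h2
      push Not at h2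
      exact h1 h2
    · refine ⟨2, Nat.prime_two, fun p hp hpi _ => ?_⟩
      by_contra h1
      apply h
      refine ⟨p, hp, hpi, ?_⟩
      by_contra h2
      push Not at h2
      exact h1 h2
  set D := qgen q A with hDdef
  have hDne : D ≠ ⊥ := by
    have _ : Fact q.Prime := ⟨hq⟩
    obtain ⟨x, hx⟩ := exists_prime_orderOf_dvd_card' q hqA
    intro h
    have h1 : (x : G) ∈ D := mem_qgen x.2 (k := 1) (by rw [pow_one, Subgroup.orderOf_coe, hx])
    rw [h, Subgroup.mem_bot] at h1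
    have h2 : orderOf x = 1 := by rw [← Subgroup.orderOf_coe, h1, orderOf_one]
    rw [h2] at hx
    exact hq.one_lt.ne hx
  set L := Subgroup.normalizer (D : Set G) with hL
  have hAL : A ≤ L := by
    apply (funct_qgen hq).le_normalizer le_rfl
    rw [Subgroup.subgroupOf_self]
    exact (funct_qgen hq).normal inferInstance
  -- `L` has index a power of `p₀`
  have hLi : ∀ {d : ℕ}, d.Prime → d ∣ L.index → d = p₀ := by
    intro p hp hpL
    by_contra hpp
    have hpA : p ∣ A.index := hpL.trans (Subgroup.index_dvd_of_le hAL)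
    obtain ⟨hpq, hqp⟩ := hbad p hp hpA hpp
    have _ : Fact p.Prime := ⟨hp⟩
    obtain ⟨P, hPp, hPi, hAP⟩ := exists_sylow_permutes hA p
    have hidx : (A.subgroupOf (A ⊔ P)).index ∣ Nat.card P := by
      have h2 : A.relIndex (A ⊔ P) = A.relIndex P := hAP.relIndex_sup
      have h3 : (A.subgroupOf (A ⊔ P)).index = A.relIndex P := h2
      rw [h3]
      exact Subgroup.relIndex_dvd_card _ _
    obtain ⟨n, hn⟩ := IsPGroup.iff_card.1 hPp
    rw [hn] at hidx
    obtain ⟨s, -, hs⟩ := (Nat.dvd_prime_pow hp).1 hidx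
    have h4 := qgen_normal_of_index (hA.subgroupOf (E := A ⊔ P) le_sup_left) hp hq
      hpq.symm hqp hs
    have h5 : A ⊔ P ≤ L := (funct_qgen hq).le_normalizer le_sup_left h4
    exact hPi (hpL.trans (Subgroup.index_dvd_of_le (le_sup_right.trans h5)))
  have hLpow := Nat.eq_prime_pow_of_unique_prime_dvd (n := L.index)
    Subgroup.index_ne_zero_of_finite hLi
  have _ : Fact p₀.Prime := ⟨hp₀⟩
  obtain ⟨P, hPp, hPi, hAP⟩ := exists_sylow_permutes hA p₀
  have hG := mul_eq_of_index (L := L) (P := P) hp₀ (k := L.index.primeFactorsList.length)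
    (by rw [← hLpow]) hPi
  apply sup_ne_top_of_pGroup hna hA hAt hPp hAP
  have h6 : Subgroup.normalClosure (D : Set G) ≤ A ⊔ P := by
    rw [Subgroup.normalClosure, Subgroup.closure_le]
    intro y hy
    obtain ⟨n, hn', hc⟩ := Group.mem_conjugatesOfSet_iff.1 hy
    obtain ⟨g, hg⟩ := isConj_iff.1 hc
    obtain ⟨x, hx, l, hl, e⟩ := hG g
    have h1 : l * n * l⁻¹ ∈ D := (Subgroup.mem_normalizer_iff.1 hl n).1 hn'
    have h2 : y = x * (l * n * l⁻¹) * x⁻¹ := by
      rw [← hg, ← e]; group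
    rw [h2]
    exact mul_mem (mul_mem (Subgroup.mem_sup_right hx)
      (Subgroup.mem_sup_left (qgen_le q A h1))) (Subgroup.mem_sup_right (P.inv_mem hx))
  rcases IsSimpleGroup.eq_bot_or_eq_top_of_normal (Subgroup.normalClosure (D : Set G))
    inferInstance with h | h
  · exfalso
    apply hDne
    rw [eq_bot_iff, ← h]
    exact Subgroup.le_normalClosure
  · rw [eq_top_iff, ← h]
    exact h6

/-- The largest prime divisor of `|G|` does not divide `|A|`. -/
theorem largest_prime_not_dvd [Finite G] [IsSimpleGroup G] (hna : ∃ a b : G, a * b ≠ b * a)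
    {A : Subgroup G} (hA : HerPermutable A) (hAt : A ≠ ⊤) {q : ℕ} (hq : q.Prime)
    (hmax : ∀ p : ℕ, p.Prime → p ∣ Nat.card G → p ≤ q) : ¬ q ∣ Nat.card A := by
  intro hqA
  obtain ⟨p₁, p₂, hne, ⟨hp₁, hi₁, h₁⟩, hp₂, hi₂, h₂⟩ := exists_two_primes hna hA hAt hq hqA
  have key : ∀ p : ℕ, p.Prime → p ∣ A.index → (p = q ∨ q ∣ p - 1) → p = q := by
    intro p hp hpi h
    rcases h with h | h
    · exact h
    · exfalso
      have h1 := hmax p hp (hpi.trans (Subgroup.index_dvd_card _))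
      have h2 := hp.two_le
      have h3 := Nat.le_of_dvd (by omega) h
      omega
  exact hne ((key p₁ hp₁ hi₁ h₁).trans (key p₂ hp₂ hi₂ h₂).symm)

/-- For every hereditarily permutable subgroup `A` of a finite group `G` with core `A_G`, the
quotient `A / A_G` is soluble. -/
theorem isSolvable_quotient_core [Finite G] {A : Subgroup G} (hA : HerPermutable A) :
    Group.IsSolvable (A ⧸ A.normalCore.subgroupOf A) := by
  have h1 : perfCore A ≤ A.normalCore := by
    have := perfCore_normal hA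
    exact Subgroup.normal_le_normalCore.2 (perfCore_le A)
  set N := A.normalCore.subgroupOf A with hN
  have h2 : perfCore (⊤ : Subgroup A) ≤ N := by
    intro x hx
    rw [hN, Subgroup.mem_subgroupOf]
    apply h1
    have h3 : perfCore A = (perfCore (⊤ : Subgroup A)).map A.subtype :=
      funct_perfCore.eq_map_top A
    rw [h3]
    exact ⟨x, hx, rfl⟩
  have h4 : perfCore (⊤ : Subgroup (A ⧸ N)) = ⊥ := by
    have h5 := funct_perfCore.map A (A ⧸ N) (QuotientGroup.mk' N) ⊤
    rw [Subgroup.map_top_of_surjective _ (QuotientGroup.mk'_surjective N)] at h5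
    rw [h5, Subgroup.map_eq_bot_iff, QuotientGroup.ker_mk']
    exact h2
  have h6 := isSolvable_of_perfCore h4
  exact Group.isSolvable_of_surjective (f := (⊤ : Subgroup (A ⧸ N)).subtype)
    (fun x => ⟨⟨x, trivial⟩, rfl⟩)

end MP_5771ce_al
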