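import Pool.Agent.Lib.MP_5771ce_al.LibFit
import Pool.Agent.Lib.MP_5771ce_al.Simple

/-!
# The minimal counterexample (`MP_5771ce_al`, section 1.1)

`MC A`: `(G, A)` is a minimal counterexample to `a soluble hereditarily permutable subgroup lies in
the soluble radical`. All statements are relative to subgroups of `G`.
-/

open scoped Pointwise commutatorElement

universe u

namespace MP_5771ce_al

variable {G : Type u} [Group G]

/-! ### generalities -/

/-- `A` permutes with all subgroups of a `p`-group with which it permutes. -/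
theorem HerPermutable.permutes_of_isPGroup [Finite G] {A P : Subgroup G} (hA : HerPermutable A)
    {p : ℕ} [Fact p.Prime] (hP : IsPGroup p P) (hAP : Permutes A P) {Y : Subgroup G}
    (hY : Y ≤ P) : Permutes A Y := by
  classical
  -- induction on the index
  suffices h : ∀ n : ℕ, ∀ Y : Subgroup G, Y ≤ P → Nat.card P - Nat.card Y = n → Permutes A Y from
    h _ Y hY rfl
  intro n
  induction n using Nat.strong_induction_on with
  | _ n ih =>
  intro Y hY hn
  by_cases hYP : Y = P
  · rw [hYP]; exact hAP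
  have hlt : Y < P := lt_of_le_of_ne hY hYP
  -- the relative normalizer
  have hnil : Group.IsNilpotent P := hP.isNilpotent
  have hnc := Group.normalizerCondition_of_isNilpotent (G := P)
  have hlt' : Y.subgroupOf P < ⊤ := by
    rw [lt_top_iff_ne_top]
    intro h
    apply hYP
    apply le_antisymm hY
    rwa [Subgroup.subgroupOf_eq_top] at h
  have h1 := hnc _ hlt'
  set N := (Subgroup.normalizer ((Y.subgroupOf P : Subgroup P) : Set P)).map P.subtype with hN
  have hYN : Y < N := by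
    have h2 : Y = (Y.subgroupOf P).map P.subtype := by
      rw [Subgroup.subgroupOf_map_subtype, inf_of_le_left hY]
    rw [h2, hN]
    exact (Subgroup.map_lt_map_iff_of_injective P.subtype_injective).2 h1
  have hNP : N ≤ P := by
    rw [hN]
    rintro _ ⟨x, -, rfl⟩
    exact x.2
  have hcard : Nat.card Y < Nat.card N := by
    apply lt_of_le_of_ne (Nat.card_le_card_of_injective _ (Subgroup.inclusion_injective hYN.le))
    intro h
    exact hYN.ne (Subgroup.eq_of_le_of_card_ge hYN.le h.ge)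
  have hcard2 : Nat.card N ≤ Nat.card P :=
    Nat.card_le_card_of_injective _ (Subgroup.inclusion_injective hNP)
  have h3 := ih (Nat.card P - Nat.card N) (by omega) N hNP rfl
  apply hA.permutes_of_normal h3 hYN.le
  rintro _ ⟨b, hb, rfl⟩ y hy
  have h4 := (Subgroup.mem_normalizer_iff.1 hb ⟨y, hY hy⟩).1 (by
    show (⟨y, hY hy⟩ : P) ∈ Y.subgroupOf P
    rwa [Subgroup.mem_subgroupOf])
  have h5 : b * ⟨y, hY hy⟩ * b⁻¹ ∈ Y.subgroupOf P := h4
  rw [Subgroup.mem_subgroupOf] at h5
  simpa using h5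


/-! ### The minimal counterexample -/

/-- `(G, A)` is a minimal counterexample to: `A` soluble hereditarily permutable implies
`A ≤ Rad(G)`. -/
structure MC (A : Subgroup G) : Prop where
  her : HerPermutable A
  sol : Group.IsSolvable A
  not_le : ¬ A ≤ rad (⊤ : Subgroup G)
  min : ∀ (E : Type u) [Group E] [Finite E] (B : Subgroup E), Nat.card E < Nat.card G →
    HerPermutable B → Group.IsSolvable B → B ≤ rad (⊤ : Subgroup E)

variable {A : Subgroup G}

theorem eq_bot_of_normal_solvable [Finite G] (hr : rad (⊤ : Subgroup G) = ⊥) {N : Subgroup G}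
    (hN : N.Normal) (hs : Group.IsSolvable N) : N = ⊥ := by
  rw [← le_bot_iff, ← hr]
  exact le_rad (normalIn_top.2 hN) hs

theorem MC.rad_eq_bot [Finite G] (h : MC A) : rad (⊤ : Subgroup G) = ⊥ := by
  by_contra hne
  set N := rad (⊤ : Subgroup G) with hN
  have hNn : N.Normal := normalIn_top.1 (rad_normalIn ⊤)
  have hNs : Group.IsSolvable N := rad_isSolvable ⊤
  have hcard : Nat.card (G ⧸ N) < Nat.card G := by
    have h1 := Subgroup.card_mul_index N
    rw [Subgroup.index_eq_card] at h1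
    have h2 : 1 < Nat.card N := by
      rw [Finite.one_lt_card_iff_nontrivial, Subgroup.nontrivial_iff_ne_bot]
      exact hne
    have h3 : 0 < Nat.card (G ⧸ N) := Nat.card_pos
    nlinarith
  have hs : Group.IsSolvable (A.map (QuotientGroup.mk' N)) := by
    have := h.sol
    exact Group.isSolvable_of_surjective (f := (QuotientGroup.mk' N).subgroupMap A)
      ((QuotientGroup.mk' N).subgroupMap_surjective A)
  have h1 := h.min (G ⧸ N) (A.map (QuotientGroup.mk' N)) hcard
    (h.her.map (QuotientGroup.mk'_surjective N)) hs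
  set R' := (rad (⊤ : Subgroup (G ⧸ N))).comap (QuotientGroup.mk' N) with hR'
  have hR'n : R'.Normal := (normalIn_top.1 (rad_normalIn _)).comap _
  have hR's : Group.IsSolvable R' := by
    have hq : Group.IsSolvable (rad (⊤ : Subgroup (G ⧸ N))) := rad_isSolvable ⊤
    have hle : N ≤ R' := by
      intro x hx
      rw [hR', Subgroup.mem_comap]
      have : (QuotientGroup.mk' N) x = 1 := by
        rw [QuotientGroup.mk'_apply, QuotientGroup.eq_one_iff]; exact hx
      rw [this]; exact one_mem _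
    refine Group.isSolvable_of_ker_le_range (G' := N) (G'' := rad (⊤ : Subgroup (G ⧸ N)))
      (Subgroup.inclusion hle) ((QuotientGroup.mk' N).subgroupComap _) ?_
    intro x hx
    rw [MonoidHom.mem_ker] at hx
    have h2 : (QuotientGroup.mk' N) x.1 = 1 := congrArg Subtype.val hx
    rw [QuotientGroup.mk'_apply, QuotientGroup.eq_one_iff] at h2
    exact ⟨⟨x.1, h2⟩, rfl⟩
  have hR'N : R' ≤ N := le_rad (normalIn_top.2 hR'n) hR's
  exact h.not_le ((Subgroup.map_le_iff_le_comap.1 h1).trans hR'N)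

theorem MC.ne_bot [Finite G] (h : MC A) : A ≠ ⊥ := by
  rintro rfl
  exact h.not_le bot_le

theorem MC.not_solvable [Finite G] (h : MC A) : ¬ Group.IsSolvable G := by
  intro hs
  apply h.not_le
  refine le_top.trans (le_rad (normalIn_top.2 inferInstance) ?_)
  exact Group.isSolvable_of_isSolvable_injective (f := (⊤ : Subgroup G).subtype)
    (Subgroup.subtype_injective _)

theorem isSolvable_of_top {E : Subgroup G} (hE : E = ⊤) (hs : Group.IsSolvable E) :
    Group.IsSolvable G := by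
  subst hE
  exact Group.isSolvable_of_surjective (f := (⊤ : Subgroup G).subtype)
    (fun x => ⟨⟨x, trivial⟩, rfl⟩)

theorem MC.ne_top [Finite G] (h : MC A) : A ≠ ⊤ := fun ht =>
  h.not_solvable (isSolvable_of_top ht h.sol)

theorem card_lt_of_ne_top [Finite G] {E : Subgroup G} (hE : E ≠ ⊤) :
    Nat.card E < Nat.card G := by
  apply lt_of_le_of_ne (Nat.card_le_card_of_injective _ E.subtype_injective)
  intro h
  exact hE (Subgroup.eq_top_of_card_eq E h)

theorem MC.le_rad [Finite G] (h : MC A) {E : Subgroup G} (hAE : A ≤ E) (hE : E ≠ ⊤) :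
    A ≤ rad E := by
  have hs : Group.IsSolvable (A.subgroupOf E) := by
    have := h.sol
    exact Group.isSolvable_of_isSolvable_injective
      (f := (Subgroup.subgroupOfEquivOfLe hAE).toMonoidHom)
      (Subgroup.subgroupOfEquivOfLe hAE).injective
  have h1 := h.min E (A.subgroupOf E) (card_lt_of_ne_top hE) (h.her.subgroupOf hAE) hs
  have h2 := Subgroup.map_mono (f := E.subtype) h1
  rwa [Subgroup.subgroupOf_map_subtype, inf_of_le_left hAE, ← rad_eq_map_top] at h2

theorem MC.eq_bot_of_normal [Finite G] (h : MC A) {N : Subgroup G} (hN : N.Normal)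
    (hs : Group.IsSolvable N) : N = ⊥ :=
  eq_bot_of_normal_solvable h.rad_eq_bot hN hs

/-- A soluble nontrivial subgroup is not normal: its normalizer is proper. -/
theorem MC.normalizer_ne_top [Finite G] (h : MC A) {W : Subgroup G} (hW : W ≠ ⊥)
    (hs : Group.IsSolvable W) : Subgroup.normalizer (W : Set G) ≠ ⊤ := by
  intro ht
  exact hW (h.eq_bot_of_normal (Subgroup.normalizer_eq_top_iff.1 ht) hs)


/-! ### factorisations -/

/-- Conjugation by an element normalising `W`. -/
def conjEquiv {W : Subgroup G} (b : G) (h1 : ∀ w ∈ W, b * w * b⁻¹ ∈ W)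
    (h2 : ∀ w ∈ W, b⁻¹ * w * b ∈ W) : W ≃* W where
  toFun w := ⟨b * w * b⁻¹, h1 _ w.2⟩
  invFun w := ⟨b⁻¹ * w * b, h2 _ w.2⟩
  left_inv w := by ext; simp [mul_assoc]
  right_inv w := by ext; simp [mul_assoc]
  map_mul' x y := by ext; simp [mul_assoc]

theorem NormalIn.char {W B : Subgroup G} (h : NormalIn W B) (K : Subgroup W)
    [hK : K.Characteristic] : NormalIn (K.map W.subtype) B := by
  refine ⟨?_, ?_⟩
  · rintro _ ⟨x, -, rfl⟩
    exact h.1 x.2
  · rintro b hb _ ⟨x, hx, rfl⟩
    have h1 : ∀ w ∈ W, b * w * b⁻¹ ∈ W := h.2 b hb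
    have h2 : ∀ w ∈ W, b⁻¹ * w * b ∈ W := fun w hw => by
      simpa using h.2 b⁻¹ (B.inv_mem hb) w hw
    have h3 := Subgroup.characteristic_iff_map_eq.1 hK (conjEquiv b h1 h2)
    have h4 : conjEquiv b h1 h2 x ∈ K := by
      rw [← h3]; exact ⟨x, hx, rfl⟩
    exact ⟨_, h4, rfl⟩

/-- `AW` is soluble if `A` lies in a soluble normal subgroup of `AW` and `W` is soluble. -/
theorem isSolvable_sup_of_permutes [Finite G] {A W R : Subgroup G} (hp : Permutes A W)
    (hR : NormalIn R (A ⊔ W)) (hRs : Group.IsSolvable R) (hAR : A ≤ R)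
    (hW : Group.IsSolvable W) : Group.IsSolvable (A ⊔ W : Subgroup G) := by
  set E := A ⊔ W with hE
  have hn : (R.subgroupOf E).Normal := ⟨fun n hn g => by
    rw [Subgroup.mem_subgroupOf] at hn ⊢
    exact hR.2 g.1 g.2 _ hn⟩
  have h1 : Group.IsSolvable (R.subgroupOf E) :=
    Group.isSolvable_of_isSolvable_injective
      (f := (Subgroup.subgroupOfEquivOfLe hR.1).toMonoidHom)
      (Subgroup.subgroupOfEquivOfLe hR.1).injective
  have h2 : Group.IsSolvable (E ⧸ R.subgroupOf E) := by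
    refine Group.isSolvable_of_surjective (G := W)
      (f := (QuotientGroup.mk' (R.subgroupOf E)).comp (Subgroup.inclusion le_sup_right)) ?_
    intro y
    induction y using QuotientGroup.induction_on with
    | H y =>
    obtain ⟨b, hb, a, ha, e⟩ := hp.mem_sup'.1 y.2
    refine ⟨⟨b, hb⟩, ?_⟩
    show (QuotientGroup.mk _ : E ⧸ R.subgroupOf E) = QuotientGroup.mk y
    rw [QuotientGroup.eq, Subgroup.mem_subgroupOf]
    show b⁻¹ * y.1 ∈ R
    rw [← e]
    simpa using hAR ha
  exact (Group.isSolvable_iff_subgroup_quotient (R.subgroupOf E)).2 ⟨h1, h2⟩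

theorem MC.isSolvable_sup [Finite G] (h : MC A) {W : Subgroup G} (hp : Permutes A W)
    (hW : Group.IsSolvable W) (hne : A ⊔ W ≠ ⊤) : Group.IsSolvable (A ⊔ W : Subgroup G) :=
  isSolvable_sup_of_permutes hp (rad_normalIn _) (rad_isSolvable _) (h.le_rad le_sup_left hne) hW

theorem eq_bot_of_perfect {P : Subgroup G} (hP : ⁅P, P⁆ = P) (hs : Group.IsSolvable P) :
    P = ⊥ := by
  by_contra hne
  have hnt : Nontrivial P := (Subgroup.nontrivial_iff_ne_bot P).2 hne
  have h1 := Group.IsSolvable.commutator_lt_top_of_nontrivial P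
  apply h1.ne
  apply Subgroup.map_injective P.subtype_injective
  rw [commutator_def, Subgroup.map_commutator, ← MonoidHom.range_eq_map, Subgroup.range_subtype,
    hP]

/-- (1.1.3) -/
theorem MC.sup_ne_top [Finite G] (h : MC A) {B W : Subgroup G} (hAB : Permutes A B)
    (hWB : NormalIn W B) (hWs : Group.IsSolvable W) (hW : W ≠ ⊥) : A ⊔ B ≠ ⊤ := by
  intro ht
  obtain ⟨V, hVW, hVB, hV, hVab⟩ := exists_abelian_normalIn hWB hWs hW
  have hAV : Permutes A V := h.her.permutes_of_normal hAB hVB.1 hVB.2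
  have hVs : Group.IsSolvable V := isSolvable_of_le hWs hVW
  have hcl : Subgroup.normalClosure (V : Set G) ≤ A ⊔ V :=
    normalClosure_le (hAB.exists_eq ht) hVB.2
  by_cases htV : A ⊔ V = ⊤
  swap
  · have h1 := isSolvable_of_le (h.isSolvable_sup hAV hVs htV) hcl
    have h2 := h.eq_bot_of_normal Subgroup.normalClosure_normal h1
    apply hV
    rw [eq_bot_iff, ← h2]
    exact Subgroup.le_normalClosure
  have hVn : Nontrivial V := (Subgroup.nontrivial_iff_ne_bot V).2 hV
  obtain ⟨q, hq, hqV⟩ := Nat.exists_prime_and_dvd (Finite.one_lt_card (α := V)).ne'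
  have _ : Fact q.Prime := ⟨hq⟩
  obtain ⟨c, hc⟩ := exists_prime_orderOf_dvd_card' q hqV
  rw [← Subgroup.orderOf_coe] at hc
  have hcV : Subgroup.zpowers (c : G) ≤ V := by rw [Subgroup.zpowers_le]; exact c.2
  have hcn : ∀ b ∈ V, ∀ x ∈ Subgroup.zpowers (c : G), b * x * b⁻¹ ∈ Subgroup.zpowers (c : G) := by
    intro b hb x hx
    rw [hVab b hb x (hcV hx), mul_inv_cancel_right]
    exact hx
  have hAC : Permutes A (Subgroup.zpowers (c : G)) := h.her.permutes_of_normal hAV hcV hcn
  have hcne : Subgroup.zpowers (c : G) ≠ ⊥ := by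
    intro h
    rw [Subgroup.zpowers_eq_bot] at h
    rw [h, orderOf_one] at hc
    exact hq.one_lt.ne hc
  have hcl2 : Subgroup.normalClosure (Subgroup.zpowers (c : G) : Set G) ≤
      A ⊔ Subgroup.zpowers (c : G) := normalClosure_le (hAV.exists_eq htV) hcn
  by_cases htc : A ⊔ Subgroup.zpowers (c : G) = ⊤
  swap
  · have h1 := isSolvable_of_le (h.isSolvable_sup hAC inferInstance htc) hcl2
    have h2 := h.eq_bot_of_normal Subgroup.normalClosure_normal h1
    apply hcne
    rw [eq_bot_iff, ← h2]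
    exact Subgroup.le_normalClosure
  have hcA : (c : G) ∉ A := by
    intro hcA
    apply h.ne_top
    rw [eq_top_iff, ← htc]
    exact sup_le le_rfl (by rwa [Subgroup.zpowers_le])
  have hidx : A.index = q := by
    have h1 := hAC.relIndex_sup
    rw [htc, Subgroup.relIndex_top_right, relIndex_zpowers hq hc hcA] at h1
    exact h1
  have h2 := perfCore_le_of_coatom (isCoatom_of_index_prime (hidx ▸ hq)) (h.her ⊤ le_top)
  have h3 : perfCore (⊤ : Subgroup G) = ⊥ := by
    by_contra hne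
    have h4 : Group.IsSolvable (perfCore (⊤ : Subgroup G)) := isSolvable_of_le h.sol h2
    exact hne (eq_bot_of_perfect (perfCore_perfect _) h4)
  exact h.not_solvable (isSolvable_of_top rfl (isSolvable_of_perfCore h3))


theorem commute_of_commutator_eq_bot {X Y : Subgroup G} (h : ⁅X, Y⁆ = ⊥) :
    ∀ x ∈ X, ∀ y ∈ Y, x * y = y * x := by
  intro x hx y hy
  have h1 : ⁅x, y⁆ ∈ ⁅X, Y⁆ := Subgroup.commutator_mem_commutator hx hy
  rwa [h, Subgroup.mem_bot, commutatorElement_eq_one_iff_mul_comm] at h1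

/-- (1.1.4) the core of a proper overgroup of `A` is trivial. -/
theorem MC.eq_bot_of_normal_le [Finite G] (h : MC A) {M : Subgroup G} (hAM : A ≤ M)
    (hM : M ≠ ⊤) {N : Subgroup G} (hN : N.Normal) (hNM : N ≤ M) : N = ⊥ := by
  -- `Rad(M) ∩ N = 1`
  have h1 : rad M ⊓ N = ⊥ := by
    have h2 : NormalIn (rad M ⊓ N) N := by
      refine ⟨inf_le_right, ?_⟩
      intro e he n hn
      exact ⟨(rad_normalIn M).2 e (hNM he) n hn.1, N.mul_mem (N.mul_mem he hn.2) (N.inv_mem he)⟩
    have h3 : rad M ⊓ N ≤ rad N :=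
      MP_5771ce_al.le_rad h2 (isSolvable_of_le (rad_isSolvable M) inf_le_left)
    have h4 : NormalIn (rad N) (⊤ : Subgroup G) := (normalIn_top.2 hN).rad
    rw [h.eq_bot_of_normal (normalIn_top.1 h4) (rad_isSolvable N)] at h3
    exact le_bot_iff.1 h3
  have h2 : ∀ a ∈ A, ∀ n ∈ N, a * n = n * a := by
    intro a ha n hn
    have h3 : a * n * a⁻¹ * n⁻¹ ∈ rad M ⊓ N := by
      refine ⟨?_, N.mul_mem (hN.conj_mem n hn a) (N.inv_mem hn)⟩
      have h4 := (rad_normalIn M).2 n (hNM hn) _ ((rad M).inv_mem (h.le_rad hAM hM ha))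
      have h5 := (rad M).mul_mem (h.le_rad hAM hM ha) h4
      have h6 : a * n * a⁻¹ * n⁻¹ = a * (n * a⁻¹ * n⁻¹) := by group
      rwa [h6]
    rw [h1, Subgroup.mem_bot] at h3
    have := mul_eq_one_iff_eq_inv.1 h3
    rw [inv_inv] at this
    exact mul_inv_eq_iff_eq_mul.1 this
  have hAC : A ≤ Subgroup.centralizer (N : Set G) := by
    intro a ha
    rw [Subgroup.mem_centralizer_iff]
    intro n hn
    exact (h2 a ha n hn).symm
  have hCn : (Subgroup.centralizer (N : Set G)).Normal := inferInstance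
  by_cases hC : Subgroup.centralizer (N : Set G) = ⊤
  · have h3 : N ≤ Subgroup.center G := by
      intro n hn
      rw [Subgroup.mem_center_iff]
      intro g
      have hg : g ∈ Subgroup.centralizer (N : Set G) := hC ▸ Subgroup.mem_top g
      exact ((Subgroup.mem_centralizer_iff.1 hg) n hn).symm
    have hcs : Group.IsSolvable (Subgroup.center G) :=
      Group.isSolvable_of_comm fun a b => Subtype.ext (Subgroup.mem_center_iff.1 b.2 a.1)
    rw [h.eq_bot_of_normal (N := Subgroup.center G) inferInstance hcs] at h3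
    exact le_bot_iff.1 h3
  · exfalso
    have h3 := h.le_rad hAC hC
    have h4 : NormalIn (rad (Subgroup.centralizer (N : Set G))) (⊤ : Subgroup G) :=
      (normalIn_top.2 hCn).rad
    rw [h.eq_bot_of_normal (normalIn_top.1 h4) (rad_isSolvable _)] at h3
    exact h.ne_bot (le_bot_iff.1 h3)

/-- (1.1.6) (Pi) -/
theorem MC.pi [Finite G] (h : MC A) {U M W : Subgroup G} (hW : W ≠ ⊥) (hWU : NormalIn W U) (hWM : W ≤ rad M) :
    ¬ ∀ g : G, ∃ u ∈ U, ∃ m ∈ M, u * m = g := by
  intro hf
  have h1 : Subgroup.normalClosure (W : Set G) ≤ rad M := by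
    rw [Subgroup.normalClosure, Subgroup.closure_le]
    intro y hy
    obtain ⟨w, hw, hc⟩ := Group.mem_conjugatesOfSet_iff.1 hy
    obtain ⟨g, hg⟩ := isConj_iff.1 hc
    obtain ⟨u, hu, m, hm, e⟩ := hf g⁻¹
    have h2 : u⁻¹ * w * u ∈ W := by simpa using hWU.2 u⁻¹ (U.inv_mem hu) w hw
    have h3 : y = m⁻¹ * (u⁻¹ * w * u) * m := by
      have : g = m⁻¹ * u⁻¹ := by rw [← mul_inv_rev, e, inv_inv]
      rw [← hg, this]; group
    rw [h3]
    simpa using (rad_normalIn M).2 m⁻¹ (M.inv_mem hm) _ (hWM h2)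
  have h2 := h.eq_bot_of_normal Subgroup.normalClosure_normal
    (isSolvable_of_le (rad_isSolvable M) h1)
  apply hW
  rw [eq_bot_iff, ← h2]
  exact Subgroup.le_normalClosure

/-- Coprime indices: `G = UM`. -/
theorem mul_eq_of_coprime [Finite G] {U M : Subgroup G} (hc : Nat.Coprime U.index M.index)
    (g : G) : ∃ u ∈ U, ∃ m ∈ M, u * m = g := by
  have h1 : U.index * M.index ∣ (U ⊓ M).index :=
    Nat.Coprime.mul_dvd_of_dvd_of_dvd hc (Subgroup.index_dvd_of_le inf_le_left)
      (Subgroup.index_dvd_of_le inf_le_right)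
  have h2 : (U ⊓ M).index = M.relIndex U * U.index := by
    rw [← Subgroup.inf_relIndex_left, Subgroup.relIndex_mul_index inf_le_left]
  have hU0 : 0 < U.index := Nat.pos_of_ne_zero Subgroup.index_ne_zero_of_finite
  have h3 : M.index ≤ M.relIndex U := by
    rw [h2, mul_comm U.index] at h1
    have h4 := Nat.le_of_dvd (Nat.mul_pos (Nat.pos_of_ne_zero (by
      unfold Subgroup.relIndex; exact Subgroup.index_ne_zero_of_finite)) hU0) h1
    exact Nat.le_of_mul_le_mul_right h4 hU0
  let f : (U ⧸ M.subgroupOf U) → G ⧸ M :=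
    Quotient.map' (fun b => b.1) (by
      intro a b hab
      rw [QuotientGroup.leftRel_apply] at hab ⊢
      exact hab)
  have hfinj : Function.Injective f := by
    intro a b
    induction a using QuotientGroup.induction_on with
    | H a =>
    induction b using QuotientGroup.induction_on with
    | H b =>
    intro hab
    have : (QuotientGroup.mk a.1 : G ⧸ M) = QuotientGroup.mk b.1 := hab
    rw [QuotientGroup.eq] at this ⊢
    exact this
  have hbij : Function.Bijective f := by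
    have _ : Fintype (U ⧸ M.subgroupOf U) := Fintype.ofFinite _
    have _ : Fintype (G ⧸ M) := Fintype.ofFinite _
    rw [Fintype.bijective_iff_injective_and_card]
    refine ⟨hfinj, ?_⟩
    apply le_antisymm (Fintype.card_le_of_injective f hfinj)
    rw [← Nat.card_eq_fintype_card, ← Nat.card_eq_fintype_card, ← Subgroup.index_eq_card,
      ← Subgroup.index_eq_card]
    exact h3
  obtain ⟨y, hy⟩ := hbij.2 (QuotientGroup.mk g)
  induction y using QuotientGroup.induction_on with
  | H y =>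
  have h5 : (QuotientGroup.mk y.1 : G ⧸ M) = QuotientGroup.mk g := hy
  rw [QuotientGroup.eq] at h5
  exact ⟨y.1, y.2, y.1⁻¹ * g, h5, by group⟩

/-- (1.1.6), (Pi) with primes. -/
theorem MC.exists_prime [Finite G] (h : MC A) {U M W : Subgroup G} (hW : W ≠ ⊥) (hWU : NormalIn W U) (hWM : W ≤ rad M) :
    ∃ p : ℕ, p.Prime ∧ p ∣ U.index ∧ p ∣ M.index := by
  by_contra hno
  push Not at hno
  apply h.pi hW hWU hWM
  apply mul_eq_of_coprime
  apply Nat.Coprime.symm
  apply Nat.coprime_of_dvd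
  intro p hp h1 h2
  exact hno p hp h2 h1

/-- `P` is a Sylow `p`-subgroup of `G` permuting with `A`. -/
structure SylPerm (p : ℕ) (A P : Subgroup G) : Prop where
  isPGroup : IsPGroup p P
  not_dvd : ¬ p ∣ P.index
  permutes : Permutes A P

theorem HerPermutable.exists_sylPerm [Finite G] {A : Subgroup G} (hA : HerPermutable A) (p : ℕ)
    [Fact p.Prime] : ∃ P : Subgroup G, SylPerm p A P := by
  obtain ⟨P, h1, h2, h3⟩ := exists_sylow_permutes hA p
  exact ⟨P, h1, h2, h3⟩

/-- (1.1.8) (K) -/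
theorem MC.K [Finite G] (h : MC A) {U₁ U₂ Y : Subgroup G} (hY : Y ≠ ⊥) (hYU : NormalIn Y U₁) (hYU₂ : Y ≤ rad U₂) :
    ∃ p : ℕ, p.Prime ∧ ∀ P : Subgroup G, SylPerm p A P → ¬ P ≤ U₁ ∧ ¬ P ≤ U₂ := by
  obtain ⟨p, hp, h1, h2⟩ := h.exists_prime hY hYU hYU₂
  refine ⟨p, hp, fun P hP => ⟨fun hle => ?_, fun hle => ?_⟩⟩
  · exact hP.not_dvd (h1.trans (Subgroup.index_dvd_of_le hle))
  · exact hP.not_dvd (h2.trans (Subgroup.index_dvd_of_le hle))

/-- (1.1.10) a `p`-group is not the union of two proper subgroups. -/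
theorem union_trick [Finite G] {p : ℕ} [Fact p.Prime] {P U V : Subgroup G}
    (h : ∀ x ∈ P, x ∈ U ∨ x ∈ V) : P ≤ U ∨ P ≤ V := by
  by_contra hno
  push Not at hno
  obtain ⟨hU, hV⟩ := hno
  obtain ⟨x, hx, hxU⟩ := SetLike.not_le_iff_exists.1 hU
  obtain ⟨y, hy, hyV⟩ := SetLike.not_le_iff_exists.1 hV
  have hxV : x ∈ V := (h x hx).resolve_left hxU
  have hyU : y ∈ U := (h y hy).resolve_right hyV
  rcases h (x * y) (P.mul_mem hx hy) with h1 | h1
  · exact hxU ((Subgroup.mul_mem_cancel_right U hyU).1 h1)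
  · exact hyV ((Subgroup.mul_mem_cancel_left V hxV).1 h1)


theorem permutes_of_conj_mem {B O : Subgroup G}
    (hn : ∀ b ∈ B, ∀ n ∈ O, b * n * b⁻¹ ∈ O) : Permutes B O := by
  rw [permutes_iff]
  intro b hb n hn'
  exact ⟨b * n * b⁻¹, hn b hb n hn', b, hb, by group⟩

theorem relIndex_eq_index_of_coprime [Finite G] {L M : Subgroup G}
    (hc : Nat.Coprime L.index M.index) : M.relIndex L = M.index := by
  have h2 : (L ⊓ M).index = M.relIndex L * L.index := by
    rw [← Subgroup.inf_relIndex_left, Subgroup.relIndex_mul_index inf_le_left]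
  have h3 : M.index ∣ M.relIndex L * L.index := by
    rw [← h2]; exact Subgroup.index_dvd_of_le inf_le_right
  have h4 : M.index ∣ M.relIndex L := hc.symm.dvd_of_dvd_mul_right h3
  apply le_antisymm
  · have h5 : M.relIndex L ≤ M.relIndex ⊤ :=
      Subgroup.relIndex_le_of_le_right le_top (by
        rw [Subgroup.relIndex_top_right]; exact Subgroup.index_ne_zero_of_finite)
    rwa [Subgroup.relIndex_top_right] at h5
  · apply Nat.le_of_dvd _ h4
    apply Nat.pos_of_ne_zero
    unfold Subgroup.relIndex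
    exact Subgroup.index_ne_zero_of_finite

/-- (1.1.9) (C2) -/
theorem MC.C2 [Finite G] (h : MC A) {M L O : Subgroup G} {p k : ℕ} (hp : p.Prime)
    (hAM : A ≤ M) (hM : M ≠ ⊤) (hi : M.index ∣ p ^ k) (hL : ¬ p ∣ L.index)
    (hO : NormalIn O L) (hpO : ¬ p ∣ Nat.card O) : O = ⊥ := by
  have hc : Nat.Coprime L.index M.index := by
    obtain ⟨s, -, hs⟩ := (Nat.dvd_prime_pow hp).1 hi
    rw [hs]
    exact Nat.Coprime.pow_right s ((Nat.Prime.coprime_iff_not_dvd hp).2 hL).symm
  have hOM : O ≤ M := by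
    have hperm : Permutes (L ⊓ M) O := permutes_of_conj_mem fun b hb => hO.2 b hb.1
    have h1 := hperm.relIndex_sup
    have h2 : (L ⊓ M).relIndex ((L ⊓ M) ⊔ O) ∣ p ^ k := by
      have h3 : (L ⊓ M) ⊔ O ≤ L := sup_le inf_le_left hO.1
      have h4 : (L ⊓ M).relIndex ((L ⊓ M) ⊔ O) * ((L ⊓ M) ⊔ O).relIndex L =
          (L ⊓ M).relIndex L := Subgroup.relIndex_mul_relIndex _ _ _ le_sup_left h3
      have h5 : (L ⊓ M).relIndex L = M.index := by
        rw [Subgroup.inf_relIndex_left, relIndex_eq_index_of_coprime hc]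
      rw [h5] at h4
      exact (Dvd.intro _ h4).trans hi
    have h3 : (L ⊓ M).relIndex O ∣ Nat.card O := Subgroup.relIndex_dvd_card _ _
    rw [h1] at h2
    have h4 : Nat.Coprime (Nat.card O) (p ^ k) :=
      Nat.Coprime.pow_right k ((Nat.Prime.coprime_iff_not_dvd hp).2 hpO).symm
    have h5 : (L ⊓ M).relIndex O = 1 := Nat.eq_one_of_dvd_coprimes h4 h3 h2
    rw [Subgroup.relIndex_eq_one] at h5
    exact h5.trans inf_le_right
  have h1 : Subgroup.normalClosure (O : Set G) ≤ M := by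
    rw [Subgroup.normalClosure, Subgroup.closure_le]
    intro y hy
    obtain ⟨w, hw, hcj⟩ := Group.mem_conjugatesOfSet_iff.1 hy
    obtain ⟨g, hg⟩ := isConj_iff.1 hcj
    obtain ⟨u, hu, m, hm, e⟩ := mul_eq_of_coprime hc g⁻¹
    have h2 : u⁻¹ * w * u ∈ O := by simpa using hO.2 u⁻¹ (L.inv_mem hu) w hw
    have h3 : y = m⁻¹ * (u⁻¹ * w * u) * m := by
      have : g = m⁻¹ * u⁻¹ := by rw [← mul_inv_rev, e, inv_inv]
      rw [← hg, this]; group
    rw [h3]
    exact M.mul_mem (M.mul_mem (M.inv_mem hm) (hOM h2)) hm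
  have h2 := h.eq_bot_of_normal_le hAM hM Subgroup.normalClosure_normal h1
  rw [eq_bot_iff, ← h2]
  exact Subgroup.le_normalClosure


/-! ### Dedekind and Sylow subgroups permuting with `A` -/

theorem Permutes.inf_right {A B F : Subgroup G} (h : Permutes A B) (hAF : A ≤ F) :
    Permutes A (F ⊓ B) := by
  rw [permutes_iff] at h ⊢
  rintro a ha b ⟨hbF, hbB⟩
  obtain ⟨b', hb', a', ha', e⟩ := h a ha b hbB
  refine ⟨b', ⟨?_, hb'⟩, a', ha', e⟩
  have : b' = a * b * a'⁻¹ := by rw [e]; group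
  rw [this]
  exact F.mul_mem (F.mul_mem (hAF ha) hbF) (F.inv_mem (hAF ha'))

theorem Permutes.inf_left {A B F : Subgroup G} (h : Permutes A B) (hBF : B ≤ F) :
    Permutes (A ⊓ F) B := by
  have h1 := (h.symm.inf_right hBF).symm
  rwa [inf_comm] at h1

/-- Dedekind: `A ≤ F ≤ AB` implies `F = A (F ∩ B)`. -/
theorem Permutes.eq_sup_inf {A B F : Subgroup G} (h : Permutes A B) (hAF : A ≤ F)
    (hF : F ≤ A ⊔ B) : F = A ⊔ (F ⊓ B) := by
  apply le_antisymm
  · intro x hx
    obtain ⟨a, ha, b, hb, rfl⟩ := h.mem_sup.1 (hF hx)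
    refine mul_mem (Subgroup.mem_sup_left ha) (Subgroup.mem_sup_right ⟨?_, hb⟩)
    exact (Subgroup.mul_mem_cancel_left F (hAF ha)).1 hx
  · exact sup_le hAF inf_le_left

/-- Dedekind: `B ≤ F ≤ AB` implies `F = (F ∩ A) B`. -/
theorem Permutes.eq_sup_inf' {A B F : Subgroup G} (h : Permutes A B) (hBF : B ≤ F)
    (hF : F ≤ A ⊔ B) : F = (F ⊓ A) ⊔ B := by
  rw [sup_comm]
  exact h.symm.eq_sup_inf hBF (by rwa [sup_comm])

/-- `AB ∩ F = (A ∩ F) B` for `B ≤ F`. -/
theorem Permutes.sup_inf {A B F : Subgroup G} (h : Permutes A B) (hBF : B ≤ F) :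
    (A ⊔ B) ⊓ F = (A ⊓ F) ⊔ B := by
  apply le_antisymm
  · rintro x ⟨hx, hxF⟩
    obtain ⟨a, ha, b, hb, rfl⟩ := h.mem_sup.1 hx
    refine mul_mem (Subgroup.mem_sup_left ⟨ha, ?_⟩) (Subgroup.mem_sup_right hb)
    exact (Subgroup.mul_mem_cancel_right F (hBF hb)).1 hxF
  · exact sup_le (inf_le_inf_right _ le_sup_left) (le_inf le_sup_right hBF)

/-- If `A` permutes with `Y` and `A ∩ N ≤ Y ≤ N`, `A` normalising `N`, then `A` normalises `Y`. -/
theorem conj_mem_of_permutes {A N Y : Subgroup G} (hp : Permutes A Y) (hYN : Y ≤ N)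
    (hAY : A ⊓ N ≤ Y) (hAN : ∀ a ∈ A, ∀ n ∈ N, a * n * a⁻¹ ∈ N) :
    ∀ a ∈ A, ∀ y ∈ Y, a * y * a⁻¹ ∈ Y := by
  intro a ha y hy
  have h1 : a * y * a⁻¹ ∈ (A ⊔ Y) ⊓ N :=
    ⟨mul_mem (mul_mem (Subgroup.mem_sup_left ha) (Subgroup.mem_sup_right hy))
      ((A ⊔ Y).inv_mem (Subgroup.mem_sup_left ha)), hAN a ha y (hYN hy)⟩
  rw [hp.sup_inf hYN, sup_eq_right.2 hAY] at h1
  exact h1

theorem MC.sup_ne_top_of_isPGroup [Finite G] (h : MC A) {p : ℕ} [Fact p.Prime] {P : Subgroup G}
    (hP : IsPGroup p P) (hAP : Permutes A P) : A ⊔ P ≠ ⊤ := by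
  by_cases hPb : P = ⊥
  · rw [hPb, sup_bot_eq]
    exact h.ne_top
  have hn : Group.IsNilpotent P := hP.isNilpotent
  exact h.sup_ne_top hAP ⟨le_rfl, fun e he n hn => P.mul_mem (P.mul_mem he hn) (P.inv_mem he)⟩
    inferInstance hPb

theorem MC.isSolvable_sup_of_isPGroup [Finite G] (h : MC A) {p : ℕ} [Fact p.Prime]
    {P : Subgroup G} (hP : IsPGroup p P) (hAP : Permutes A P) :
    Group.IsSolvable (A ⊔ P : Subgroup G) := by
  have hn : Group.IsNilpotent P := hP.isNilpotent
  exact h.isSolvable_sup hAP inferInstance (h.sup_ne_top_of_isPGroup hP hAP)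

theorem SylPerm.permutes_of_le [Finite G] {p : ℕ} [Fact p.Prime] {P Y : Subgroup G}
    (hA : HerPermutable A) (hP : SylPerm p A P) (hY : Y ≤ P) : Permutes A Y :=
  hA.permutes_of_isPGroup hP.isPGroup hP.permutes hY

end MP_5771ce_al
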