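import Pool.Agent.Lib.MP_5771ce_al.Funct

/-!
# Hereditarily permutable subgroups of prime power index, and of simple groups
-/

open scoped Pointwise

universe u

namespace MP_5771ce_al

variable {G : Type u} [Group G]
variable {Φ : ∀ (G : Type u) [Group G], Subgroup G → Subgroup G}

/-- A Sylow subgroup permuting with `A`. -/
theorem exists_sylow_permutes [Finite G] {A : Subgroup G} (hA : HerPermutable A) (p : ℕ)
    [Fact p.Prime] : ∃ P : Subgroup G, IsPGroup p P ∧ ¬ p ∣ P.index ∧ Permutes A P := by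
  obtain ⟨P₀⟩ : Nonempty (Sylow p G) := inferInstance
  obtain ⟨x, hx⟩ := hA.exists_permutes (P₀ : Subgroup G)
  refine ⟨conjBy P₀ x, P₀.isPGroup'.map _, ?_, hx⟩
  have h1 : (conjBy (P₀ : Subgroup G) x).index = (P₀ : Subgroup G).index := by
    have h2 := Subgroup.card_mul_index (P₀ : Subgroup G)
    rw [← Subgroup.card_mul_index (conjBy (P₀ : Subgroup G) x), card_conjBy] at h2
    exact (Nat.eq_of_mul_eq_mul_left Nat.card_pos h2).symm
  rw [h1]
  exact P₀.not_dvd_index

/-- If `|G : L|` is a power of `p` and `P` has index prime to `p` then `L ⊔ P = ⊤`. -/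
theorem sup_eq_top_of_index [Finite G] {L P : Subgroup G} {p k : ℕ} (hp : p.Prime)
    (hL : L.index ∣ p ^ k) (hP : ¬ p ∣ P.index) : L ⊔ P = ⊤ := by
  rw [← Subgroup.index_eq_one]
  have h1 : (L ⊔ P).index ∣ p ^ k := (Subgroup.index_dvd_of_le le_sup_left).trans hL
  have h2 : (L ⊔ P).index ∣ P.index := Subgroup.index_dvd_of_le le_sup_right
  exact Nat.eq_one_of_dvd_coprimes (((Nat.Prime.coprime_iff_not_dvd hp).2 hP).pow_left k) h1 h2

/-- `G = LP` as a set when `|G : L|` is a power of `p` and `P` is a `p`-group of index prime to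
`p`. -/
theorem mul_eq_of_index [Finite G] {L P : Subgroup G} {p k : ℕ} (hp : p.Prime)
    (hL : L.index ∣ p ^ k) (hP : ¬ p ∣ P.index) (g : G) : ∃ x ∈ P, ∃ l ∈ L, x * l = g := by
  -- `|P : L ∩ P| = |G : L|`
  have h1 : L.index * P.index ∣ (L ⊓ P).index := by
    apply Nat.Coprime.mul_dvd_of_dvd_of_dvd
    · obtain ⟨s, -, hs⟩ := (Nat.dvd_prime_pow hp).1 hL
      rw [hs]
      exact ((Nat.Prime.coprime_iff_not_dvd hp).2 hP).pow_left s
    · exact Subgroup.index_dvd_of_le inf_le_left
    · exact Subgroup.index_dvd_of_le inf_le_right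
  have h2 : (L ⊓ P).index = L.relIndex P * P.index := by
    rw [← Subgroup.inf_relIndex_right, Subgroup.relIndex_mul_index inf_le_right]
  have h3 : L.index ≤ L.relIndex P := by
    rw [h2] at h1
    have hP0 : 0 < P.index := Nat.pos_of_ne_zero Subgroup.index_ne_zero_of_finite
    have h4 := Nat.le_of_dvd (Nat.mul_pos (Nat.pos_of_ne_zero (by
      unfold Subgroup.relIndex; exact Subgroup.index_ne_zero_of_finite)) hP0) h1
    exact Nat.le_of_mul_le_mul_right h4 hP0
  -- the map `P / (L ∩ P) → G / L`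
  let f : (P ⧸ L.subgroupOf P) → G ⧸ L :=
    Quotient.map' (fun b => b.1) (by
      intro a b hab
      rw [QuotientGroup.leftRel_apply] at hab ⊢
      exact hab)
  have hfinj : Function.Injective f := by
    intro a b
    induction a using QuotientGroup.induction_on with
    | H a =>
    induction b using QuotientGroup.induction_on with
    | H b =>
    intro hab
    have : (QuotientGroup.mk a.1 : G ⧸ L) = QuotientGroup.mk b.1 := hab
    rw [QuotientGroup.eq] at this ⊢
    exact this
  have hbij : Function.Bijective f := by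
    have _ : Fintype (P ⧸ L.subgroupOf P) := Fintype.ofFinite _
    have _ : Fintype (G ⧸ L) := Fintype.ofFinite _
    rw [Fintype.bijective_iff_injective_and_card]
    refine ⟨hfinj, ?_⟩
    apply le_antisymm (Fintype.card_le_of_injective f hfinj)
    rw [← Nat.card_eq_fintype_card, ← Nat.card_eq_fintype_card, ← Subgroup.index_eq_card,
      ← Subgroup.index_eq_card]
    exact h3
  obtain ⟨y, hy⟩ := hbij.2 (QuotientGroup.mk g)
  induction y using QuotientGroup.induction_on with
  | H y =>
  have h5 : (QuotientGroup.mk y.1 : G ⧸ L) = QuotientGroup.mk g := hy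
  rw [QuotientGroup.eq] at h5
  exact ⟨y.1, y.2, y.1⁻¹ * g, h5, by group⟩

/-- If `G = BA` and `N` is normalised by `B`, then the normal closure of `N` lies in `A ⊔ N`. -/
theorem normalClosure_le {A B N : Subgroup G} (hG : ∀ g : G, ∃ b ∈ B, ∃ a ∈ A, b * a = g)
    (hn : ∀ b ∈ B, ∀ n ∈ N, b * n * b⁻¹ ∈ N) : Subgroup.normalClosure (N : Set G) ≤ A ⊔ N := by
  rw [Subgroup.normalClosure, Subgroup.closure_le]
  intro y hy
  obtain ⟨n, hn', hc⟩ := Group.mem_conjugatesOfSet_iff.1 hy
  obtain ⟨g, hg⟩ := isConj_iff.1 hc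
  obtain ⟨b, hb, a, ha, e⟩ := hG g⁻¹
  have h1 : b⁻¹ * n * b ∈ N := by
    have := hn b⁻¹ (B.inv_mem hb) n hn'
    simpa using this
  have h2 : y = a⁻¹ * (b⁻¹ * n * b) * a := by
    have : g = a⁻¹ * b⁻¹ := by rw [← mul_inv_rev, e, inv_inv]
    rw [← hg, this]; group
  rw [h2]
  exact mul_mem (mul_mem (Subgroup.mem_sup_left (A.inv_mem ha)) (Subgroup.mem_sup_right h1))
    (Subgroup.mem_sup_left ha)

/-- A nontrivial finite `p`-subgroup has a central element of order `p`. -/
theorem exists_central [Finite G] {p : ℕ} [Fact p.Prime] {P : Subgroup G} (hP : IsPGroup p P)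
    (hne : P ≠ ⊥) : ∃ z ∈ P, orderOf z = p ∧ ∀ b ∈ P, b * z * b⁻¹ = z := by
  have hPne : Nontrivial P := (Subgroup.nontrivial_iff_ne_bot P).2 hne
  have hcen : Nontrivial (Subgroup.center P) := hP.center_nontrivial
  have h1 : p ∣ Nat.card (Subgroup.center P) := by
    rcases (hP.to_subgroup (Subgroup.center P)).card_eq_or_dvd with h | h
    · exact absurd h Finite.one_lt_card.ne'
    · exact h
  obtain ⟨z, hz⟩ := exists_prime_orderOf_dvd_card' p h1
  refine ⟨z.1.1, z.1.2, ?_, ?_⟩
  · rw [← hz, ← Subgroup.orderOf_coe z, ← Subgroup.orderOf_coe z.1]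
  · intro b hb
    have h2 := Subgroup.mem_center_iff.1 z.2 ⟨b, hb⟩
    have h3 : b * z.1.1 = z.1.1 * b := congrArg Subtype.val h2
    rw [h3, mul_inv_cancel_right]

theorem relIndex_zpowers [Finite G] {A : Subgroup G} {p : ℕ} (hp : p.Prime) {z : G}
    (hz : orderOf z = p) (hzA : z ∉ A) : A.relIndex (Subgroup.zpowers z) = p := by
  have h1 : A.relIndex (Subgroup.zpowers z) ∣ p := by
    rw [← hz, ← Nat.card_zpowers]
    exact Subgroup.relIndex_dvd_card _ _
  rcases (Nat.dvd_prime hp).1 h1 with h | h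
  · exfalso
    rw [Subgroup.relIndex_eq_one] at h
    exact hzA (h (Subgroup.mem_zpowers z))
  · exact h

/-- If for every hereditarily permutable subgroup `A` of prime index `p` the value `Φ ⊤` lies in
`A`, then `Φ A` is normal for every hereditarily permutable subgroup `A` of index a power of
`p`. -/
theorem Funct.normal_of_index (hΦ : Funct Φ) {p : ℕ} (hp : p.Prime)
    (hM : ∀ (M : Type u) [Group M] [Finite M] (A : Subgroup M), HerPermutable A →
      A.index = p → Φ M ⊤ ≤ A) :
    ∀ (n : ℕ) (G : Type u) [Group G] [Finite G], Nat.card G = n →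
      ∀ A : Subgroup G, HerPermutable A → ∀ k, A.index = p ^ k → (Φ G A).Normal := by
  have _ : Fact p.Prime := ⟨hp⟩
  intro n
  induction n using Nat.strong_induction_on with
  | h n ih =>
  intro G _ _ hGn A hA k hk
  rcases Nat.eq_zero_or_pos k with rfl | hk0
  · rw [pow_zero, Subgroup.index_eq_one] at hk
    rw [hk]
    exact hΦ.normal inferInstance
  · obtain ⟨P, hPp, hPi, hAP⟩ := exists_sylow_permutes hA p
    have hsup : A ⊔ P = ⊤ := sup_eq_top_of_index hp (k := k) (by rw [hk]) hPi
    have hPne : P ≠ ⊥ := by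
      intro h1
      rw [h1, Subgroup.index_bot] at hPi
      apply hPi
      have h2 : A.index ∣ Nat.card G := Subgroup.index_dvd_card _
      rw [hk] at h2
      exact (dvd_pow_self p hk0.ne').trans h2
    obtain ⟨z, hzP, hzo, hzc⟩ := exists_central hPp hPne
    set Z := Subgroup.zpowers z with hZ
    have hZP : Z ≤ P := by rw [hZ, Subgroup.zpowers_le]; exact hzP
    have hZn : ∀ b ∈ P, ∀ x ∈ Z, b * x * b⁻¹ ∈ Z := by
      rintro b hb _ ⟨i, rfl⟩
      have : b * z ^ i * b⁻¹ = z ^ i := by
        rw [← conj_zpow, hzc b hb]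
      show b * z ^ i * b⁻¹ ∈ Z
      rw [this]
      exact Subgroup.zpow_mem _ (Subgroup.mem_zpowers z) i
    have hAZ : Permutes A Z := hA.permutes_of_normal hAP hZP hZn
    have hz1 : z ≠ 1 := by
      intro h
      rw [h, orderOf_one] at hzo
      exact hp.one_lt.ne hzo
    set N := Subgroup.normalClosure (Z : Set G) with hN
    have hNM : N ≤ A ⊔ Z := normalClosure_le (fun g => hAP.exists_eq hsup g) hZn
    have hNne : N ≠ ⊥ := by
      intro h
      apply hz1
      have : z ∈ N := Subgroup.subset_normalClosure (Subgroup.mem_zpowers z)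
      rwa [h, Subgroup.mem_bot] at this
    have hΦM : Φ G (A ⊔ Z) ≤ Φ G A := by
      by_cases hzA : z ∈ A
      · have : A ⊔ Z = A := by
          rw [sup_eq_left, hZ, Subgroup.zpowers_le]; exact hzA
        rw [this]
      · have h1 : (A.subgroupOf (A ⊔ Z)).index = p := by
          have h2 := hAZ.relIndex_sup
          rw [relIndex_zpowers hp hzo hzA] at h2
          exact h2
        have h3 := hM _ (A.subgroupOf (A ⊔ Z)) (hA.subgroupOf le_sup_left) h1
        have h4 : Φ G (A ⊔ Z) ≤ A := by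
          rw [hΦ.eq_map_top]
          refine (Subgroup.map_mono h3).trans ?_
          rw [Subgroup.subgroupOf_map_subtype]
          exact inf_le_left
        rw [← hΦ.idem G (A ⊔ Z)]
        exact hΦ.mono G _ _ h4
    refine hΦ.step (N := N) hNM le_sup_left hΦM ?_
    have hlt : Nat.card (G ⧸ N) < n := by
      rw [← hGn, ← Subgroup.index_eq_card, ← Subgroup.card_mul_index N]
      have h1 : 1 < Nat.card N := by
        have : Nontrivial N := (Subgroup.nontrivial_iff_ne_bot N).2 hNne
        exact Finite.one_lt_card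
      have h2 : 0 < N.index := Nat.pos_of_ne_zero Subgroup.index_ne_zero_of_finite
      nlinarith
    have hid : (A.map (QuotientGroup.mk' N)).index ∣ p ^ k := by
      rw [← hk]
      exact Subgroup.index_map_dvd _ (QuotientGroup.mk'_surjective N)
    obtain ⟨s, -, hs⟩ := (Nat.dvd_prime_pow hp).1 hid
    exact ih _ hlt _ rfl _ (hA.map (QuotientGroup.mk'_surjective N)) s hs

/-- L4: the soluble residual of a hereditarily permutable subgroup of prime power index is
normal. -/
theorem perfCore_normal_of_index [Finite G] {A : Subgroup G} (hA : HerPermutable A) {p k : ℕ}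
    (hp : p.Prime) (hk : A.index = p ^ k) : (perfCore A).Normal := by
  refine funct_perfCore.normal_of_index hp ?_ _ G rfl A hA k hk
  intro M _ _ A hA hi
  exact perfCore_le_of_coatom (isCoatom_of_index_prime (hi ▸ hp)) (hA ⊤ le_top)

/-- L6: if `|G : A|` is a power of `p`, `q ≠ p` and `q ∤ p - 1`, then the subgroup generated by
the `q`-elements of `A` is normal in `G`. -/
theorem qgen_normal_of_index [Finite G] {A : Subgroup G} (hA : HerPermutable A) {p q k : ℕ}
    (hp : p.Prime) (hq : q.Prime) (hqp : q ≠ p) (hqp1 : ¬ q ∣ p - 1) (hk : A.index = p ^ k) :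
    (qgen q A).Normal := by
  refine (funct_qgen hq).normal_of_index hp ?_ _ G rfl A hA k hk
  intro M _ _ A hA hi
  exact qgen_le_of_index hp hq hqp hqp1 hi (hA ⊤ le_top)

theorem conjBy_zpowers (b x : G) : conjBy (Subgroup.zpowers b) x = Subgroup.zpowers (x⁻¹ * b * x) := by
  unfold conjBy
  rw [MonoidHom.map_zpowers]
  simp

theorem Funct.le_normalizer (hΦ : Funct Φ) [Finite G] {A E : Subgroup G} (hAE : A ≤ E)
    (h : (Φ E (A.subgroupOf E)).Normal) : E ≤ Subgroup.normalizer (Φ G A : Set G) := by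
  have h1 : ∀ e ∈ E, ∀ d ∈ Φ G A, e * d * e⁻¹ ∈ Φ G A := by
    intro e he d hd
    rw [hΦ.eq_map_subgroupOf hAE] at hd ⊢
    obtain ⟨d', hd', rfl⟩ := hd
    exact ⟨_, h.conj_mem d' hd' ⟨e, he⟩, rfl⟩
  intro e he
  rw [Subgroup.mem_normalizer_iff]
  intro d
  refine ⟨h1 e he d, fun hd => ?_⟩
  have := h1 e⁻¹ (E.inv_mem he) _ hd
  simpa [mul_assoc] using this

/-- Theorem A': the soluble residual of a hereditarily permutable subgroup is normal. -/
theorem perfCore_normal_aux :
    ∀ (n : ℕ) (G : Type u) [Group G] [Finite G], Nat.card G = n →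
      ∀ A : Subgroup G, HerPermutable A → (perfCore A).Normal := by
  intro n
  induction n using Nat.strong_induction_on with
  | h n ih =>
  intro G _ _ hGn A hA
  by_contra hnn
  set L := Subgroup.normalizer (perfCore A : Set G) with hL
  have hLtop : L ≠ ⊤ := by
    intro h
    exact hnn (Subgroup.normalizer_eq_top_iff.1 h)
  have hprop : ∀ E : Subgroup G, A ≤ E → E ≠ ⊤ → E ≤ L := by
    intro E hAE hE
    apply funct_perfCore.le_normalizer hAE
    have h1 : Nat.card E < n := by
      rw [← hGn, ← Subgroup.card_mul_index E]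
      have h2 := Subgroup.one_lt_index_of_ne_top hE
      have h3 : 0 < Nat.card E := Nat.card_pos
      nlinarith
    exact ih _ h1 E rfl _ (hA.subgroupOf hAE)
  have hAtop : A ≠ ⊤ := by
    intro h
    apply hnn
    rw [h]
    exact funct_perfCore.normal inferInstance
  have hAL : A ≤ L := hprop A le_rfl hAtop
  have hnt : Nontrivial (G ⧸ L) := by
    rw [← Finite.one_lt_card_iff_nontrivial, ← Subgroup.index_eq_card]
    exact Subgroup.one_lt_index_of_ne_top hLtop
  obtain ⟨b, hb⟩ := exists_derangement (G := G) (Ω := G ⧸ L)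
  have hb' : ∀ x : G, x⁻¹ * b * x ∉ L := by
    intro x hx
    apply hb (QuotientGroup.mk x)
    show (QuotientGroup.mk (b * x) : G ⧸ L) = QuotientGroup.mk x
    rw [QuotientGroup.eq]
    have h1 := L.inv_mem hx
    have h2 : (x⁻¹ * b * x)⁻¹ = (b * x)⁻¹ * x := by group
    rwa [h2] at h1
  obtain ⟨x, hx⟩ := hA.exists_permutes (Subgroup.zpowers b)
  rw [conjBy_zpowers] at hx
  set b' := x⁻¹ * b * x with hb'def
  have hsup : A ⊔ Subgroup.zpowers b' = ⊤ := by
    by_contra h
    exact hb' x (hprop _ le_sup_left h (Subgroup.mem_sup_right (Subgroup.mem_zpowers b')))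
  have hperm : ∀ c ∈ Subgroup.zpowers b', Permutes A (Subgroup.zpowers c) := by
    intro c hc
    refine hA.permutes_of_normal hx (by rwa [Subgroup.zpowers_le]) ?_
    rintro _ ⟨i, rfl⟩ _ ⟨j, rfl⟩
    obtain ⟨m, rfl⟩ := hc
    have : b' ^ i * (b' ^ m) ^ j * (b' ^ i)⁻¹ = (b' ^ m) ^ j := by
      have h1 : Commute (b' ^ i) ((b' ^ m) ^ j) :=
        (((Commute.refl b').zpow_left i).zpow_right m).zpow_right j
      rw [h1.eq, mul_inv_cancel_right]
    show b' ^ i * (b' ^ m) ^ j * (b' ^ i)⁻¹ ∈ _
    rw [this]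
    exact Subgroup.zpow_mem _ (Subgroup.mem_zpowers _) j
  -- an element `c` of minimal order with `A ⊔ ⟨c⟩ = ⊤`
  have hne : ({c : G | c ∈ Subgroup.zpowers b' ∧ A ⊔ Subgroup.zpowers c = ⊤}).Nonempty :=
    ⟨b', Subgroup.mem_zpowers b', hsup⟩
  obtain ⟨c, hcS, hcmin⟩ := Set.Finite.exists_minimalFor orderOf _ (Set.toFinite _) hne
  obtain ⟨hcb, hcsup⟩ := hcS
  have hcL : c ∉ L := by
    intro h
    apply hLtop
    rw [eq_top_iff, ← hcsup]
    refine sup_le hAL ?_
    rwa [Subgroup.zpowers_le]
  have hcp : ∀ p : ℕ, p.Prime → p ∣ orderOf c → c ^ p ∈ L := by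
    intro p hp hpc
    have h1 : A ⊔ Subgroup.zpowers (c ^ p) ≠ ⊤ := by
      intro h
      have h2 := hcmin (show c ^ p ∈ {c : G | c ∈ Subgroup.zpowers b' ∧
        A ⊔ Subgroup.zpowers c = ⊤} from ⟨pow_mem hcb p, h⟩)
      have h3 : orderOf (c ^ p) = orderOf c / p := orderOf_pow_of_dvd hp.ne_zero hpc
      have h4 : orderOf (c ^ p) < orderOf c := by
        rw [h3]
        exact Nat.div_lt_self (orderOf_pos c) hp.one_lt
      exact absurd (h2 h4.le) (not_le.2 h4)
    exact hprop _ le_sup_left h1 (Subgroup.mem_sup_right (Subgroup.mem_zpowers _))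
  have hc1 : orderOf c ≠ 1 := by
    intro h
    rw [orderOf_eq_one_iff] at h
    exact hcL (h ▸ L.one_mem)
  obtain ⟨p, hp, hpc⟩ := Nat.exists_prime_and_dvd hc1
  have huniq : ∀ {d : ℕ}, d.Prime → d ∣ orderOf c → d = p := by
    intro d hd hdc
    by_contra hdp
    apply hcL
    have hcop : Nat.Coprime d p := (Nat.coprime_primes hd hp).2 hdp
    have hbez := Nat.gcd_eq_gcd_ab d p
    rw [hcop] at hbez
    have h1 : c = (c ^ d) ^ (d.gcdA p) * (c ^ p) ^ (d.gcdB p) := by
      rw [← zpow_natCast, ← zpow_natCast, ← zpow_mul, ← zpow_mul, ← zpow_add, ← hbez]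
      simp
    rw [h1]
    exact L.mul_mem (L.zpow_mem (hcp d hd hdc) _) (L.zpow_mem (hcp p hp hpc) _)
  have hord := Nat.eq_prime_pow_of_unique_prime_dvd (orderOf_pos c).ne' huniq
  have hidx : A.index ∣ p ^ (orderOf c).primeFactorsList.length := by
    have h1 := (hperm c hcb).relIndex_sup
    rw [hcsup, Subgroup.relIndex_top_right] at h1
    rw [h1, ← hord, ← Nat.card_zpowers]
    exact Subgroup.relIndex_dvd_card _ _
  obtain ⟨s, -, hs⟩ := (Nat.dvd_prime_pow hp).1 hidx
  exact hnn (perfCore_normal_of_index hA hp hs)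

/-- Theorem A': the soluble residual of a hereditarily permutable subgroup is normal. -/
theorem perfCore_normal [Finite G] {A : Subgroup G} (hA : HerPermutable A) :
    (perfCore A).Normal :=
  perfCore_normal_aux _ G rfl A hA

/-- If the soluble residual of `A` is trivial then `A` is soluble. -/
theorem isSolvable_of_perfCore [Finite G] {A : Subgroup G} (h : perfCore A = ⊥) :
    Group.IsSolvable A := by
  rw [Group.isSolvable_def]
  obtain ⟨n, hn⟩ : ∃ n, derivedSeries A (n + 1) = derivedSeries A n := by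
    obtain ⟨n, -, hn⟩ := WellFounded.has_min
      (measure (fun n : ℕ => Nat.card (derivedSeries A n))).wf Set.univ ⟨0, trivial⟩
    refine ⟨n, ?_⟩
    apply Subgroup.eq_of_le_of_card_ge
    · rw [derivedSeries_succ]
      exact commutator_self_le _
    · exact not_lt.1 (hn (n + 1) trivial)
  refine ⟨n, ?_⟩
  have h1 : (derivedSeries A n).map A.subtype ≤ perfCore A := by
    apply le_perfCore
    · rintro _ ⟨x, -, rfl⟩
      exact x.2
    · rw [← Subgroup.map_commutator, ← derivedSeries_succ, hn]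
  rw [h, le_bot_iff, Subgroup.map_eq_bot_iff_of_injective _ A.subtype_injective] at h1
  exact h1

end MP_5771ce_al
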