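import Pool.Agent.Lib.MP_5771ce_al.S3.Final3
import Pool.Agent.Lib.MP_5771ce_al.S4.S465
import Pool.Agent.Lib.MP_5771ce_al.TN.TheoremN
import Pool.Agent.Lib.MP_5771ce_al.Final

/-!
# There is no minimal counterexample (MP_5771ce_al)
-/

universe u

namespace MP_5771ce_al

/-- There is no minimal counterexample. -/
theorem no_MC (G : Type u) [Group G] [Finite G] (A : Subgroup G) : ¬ MC A := by
  intro h
  obtain ⟨q, hq, D, hD⟩ := h.exists_isoPair
  have : Fact q.Prime := ⟨hq⟩
  exact not_MC_of_comm h (h.comm_of_isoPair hD)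

end MP_5771ce_al
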