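import Pool.Agent.Lib.MP_5771ce_al.Basic

/-!
# Groups in which every subgroup is transitive or fixes a point

Let the finite group `G` act faithfully and transitively on the finite set `Ω` with more than one
point, and suppose that every subgroup of `G` fixes a point or is transitive.  Then `|Ω| = p` is a
prime, `|G|` divides `p (p - 1)` and `G` is metabelian.
-/

open scoped Pointwise

namespace MP_5771ce_al

variable {G Ω : Type*} [Group G] [MulAction G Ω]

/-- Every subgroup of `G` fixes a point of `Ω` or is transitive on `Ω`. -/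
def FixOrTrans (G Ω : Type*) [Group G] [MulAction G Ω] : Prop :=
  ∀ B : Subgroup G, (∃ i : Ω, ∀ b ∈ B, b • i = i) ∨ (∀ i j : Ω, ∃ b ∈ B, b • i = j)

theorem sum_fixedBy [Finite G] [Finite Ω] [MulAction.IsPretransitive G Ω] [Nonempty Ω]
    [Fintype G] :
    ∑ g : G, Nat.card (MulAction.fixedBy Ω g) = Nat.card G := by
  classical
  have : Fintype Ω := Fintype.ofFinite Ω
  have : Fintype (Quotient (MulAction.orbitRel G Ω)) := Fintype.ofFinite _
  have h := MulAction.sum_card_fixedBy_eq_card_orbits_mul_card_group G Ω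
  have h1 : Fintype.card (Quotient (MulAction.orbitRel G Ω)) = 1 := by
    rw [Fintype.card_eq_one_iff]
    obtain ⟨i⟩ := ‹Nonempty Ω›
    refine ⟨Quotient.mk _ i, ?_⟩
    intro y
    induction y using Quotient.inductionOn with
    | h j =>
    apply Quotient.sound
    obtain ⟨g, hg⟩ := MulAction.exists_smul_eq G i j
    exact ⟨g, hg⟩
  rw [h1, one_mul] at h
  rw [Nat.card_eq_fintype_card, ← h]
  refine Finset.sum_congr rfl fun g _ => ?_
  rw [Nat.card_eq_fintype_card]

theorem exists_derangement [Finite G] [Finite Ω] [MulAction.IsPretransitive G Ω]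
    [Nontrivial Ω] : ∃ g : G, ∀ i : Ω, g • i ≠ i := by
  classical
  have : Fintype G := Fintype.ofFinite G
  by_contra hcon
  push Not at hcon
  have h := sum_fixedBy (G := G) (Ω := Ω)
  have h1 : ∀ g : G, 1 ≤ Nat.card (MulAction.fixedBy Ω g) := by
    intro g
    obtain ⟨i, hi⟩ := hcon g
    have : Nonempty (MulAction.fixedBy Ω g) := ⟨⟨i, hi⟩⟩
    exact Nat.card_pos
  have h2 : 2 ≤ Nat.card (MulAction.fixedBy Ω (1 : G)) := by
    have : MulAction.fixedBy Ω (1 : G) = Set.univ := by
      ext i; simp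
    rw [this, Nat.card_univ]
    exact Finite.one_lt_card
  have h3 : ∑ g : G, 1 < ∑ g : G, Nat.card (MulAction.fixedBy Ω g) := by
    apply Finset.sum_lt_sum
    · intro g _
      exact h1 g
    · exact ⟨1, Finset.mem_univ _, h2⟩
  rw [h] at h3
  simp at h3

theorem smul_eq_of_trans {B : Subgroup G} (hB : ∀ i j : Ω, ∃ b ∈ B, b • i = j) {r : G} {i : Ω}
    (hr : ∀ b ∈ B, (b⁻¹ * r * b) • i = i) (j : Ω) : r • j = j := by
  obtain ⟨b, hb, rfl⟩ := hB i j
  have := hr b hb
  rw [mul_assoc, mul_smul, mul_smul] at this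
  exact inv_smul_eq_iff.1 this

/-- Gleason: in a faithful action with `FixOrTrans` a nontrivial element has at most one fixed
point. -/
theorem fixedBy_subsingleton [Finite G] [Finite Ω] [FaithfulSMul G Ω]
    [MulAction.IsPretransitive G Ω] (hD : FixOrTrans G Ω) {g : G} (hg : g ≠ 1) {i j : Ω}
    (hi : g • i = i) (hj : g • j = j) : i = j := by
  classical
  by_contra hij
  obtain ⟨r, hr, hrg⟩ := Nat.exists_prime_and_dvd (fun h => hg (orderOf_eq_one_iff.1 h))
  have : Fact r.Prime := ⟨hr⟩
  -- the set of nontrivial `r`-subgroups with two fixed points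
  let T : Set (Subgroup G) := {R | IsPGroup r R ∧ R ≠ ⊥ ∧
    ∃ i j : Ω, i ≠ j ∧ (∀ x ∈ R, x • i = i) ∧ (∀ x ∈ R, x • j = j)}
  have hT : T.Nonempty := by
    refine ⟨Subgroup.zpowers (g ^ (orderOf g / r)), ?_, ?_, i, j, hij, ?_, ?_⟩
    · have ho : orderOf (g ^ (orderOf g / r)) = r := by
        rw [orderOf_pow_of_dvd (Nat.pos_of_ne_zero ?_).ne' (Nat.div_dvd_of_dvd hrg)]
        · exact Nat.div_div_self hrg (orderOf_pos g).ne'
        · exact (Nat.div_pos (Nat.le_of_dvd (orderOf_pos g) hrg) hr.pos).ne'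
      apply IsPGroup.of_card (n := 1)
      rw [Nat.card_zpowers, ho, pow_one]
    · have ho : orderOf (g ^ (orderOf g / r)) = r := by
        rw [orderOf_pow_of_dvd (Nat.pos_of_ne_zero ?_).ne' (Nat.div_dvd_of_dvd hrg)]
        · exact Nat.div_div_self hrg (orderOf_pos g).ne'
        · exact (Nat.div_pos (Nat.le_of_dvd (orderOf_pos g) hrg) hr.pos).ne'
      intro h
      rw [Subgroup.zpowers_eq_bot] at h
      rw [h, orderOf_one] at ho
      exact hr.one_lt.ne ho
    · have : g ∈ MulAction.stabilizer G i := hi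
      have h2 : Subgroup.zpowers (g ^ (orderOf g / r)) ≤ MulAction.stabilizer G i := by
        rw [Subgroup.zpowers_le]; exact pow_mem this _
      exact fun x hx => h2 hx
    · have : g ∈ MulAction.stabilizer G j := hj
      have h2 : Subgroup.zpowers (g ^ (orderOf g / r)) ≤ MulAction.stabilizer G j := by
        rw [Subgroup.zpowers_le]; exact pow_mem this _
      exact fun x hx => h2 hx
  obtain ⟨R, hRT, hmax⟩ := Set.Finite.exists_maximal (Set.toFinite T) hT
  obtain ⟨hRp, hRne, i, j, hij, hRi, hRj⟩ := hRT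
  rcases hD (Subgroup.normalizer (R : Set G)) with ⟨i₀, hi₀⟩ | htr
  · -- the normalizer fixes `i₀`
    have hRi₀ : ∀ x ∈ R, x • i₀ = i₀ := fun x hx => hi₀ x (Subgroup.le_normalizer hx)
    obtain ⟨j, hj0, hRj⟩ : ∃ j : Ω, i₀ ≠ j ∧ ∀ x ∈ R, x • j = j := by
      by_cases h : i₀ = i
      · exact ⟨j, h ▸ hij, hRj⟩
      · exact ⟨i, h, hRi⟩
    have hRS : R ≤ MulAction.stabilizer G j := fun x hx => hRj x hx
    set S := MulAction.stabilizer G j with hS
    obtain ⟨Q, hQ⟩ := (hRp.comap_subtype (K := S)).exists_le_sylow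
    -- `R` is Sylow in `S`
    have hRQ : R.subgroupOf S = Q := by
      by_contra hne
      have hlt : (R.subgroupOf S).subgroupOf (Q : Subgroup S) < ⊤ := by
        rw [lt_top_iff_ne_top]
        intro h
        rw [Subgroup.subgroupOf_eq_top] at h
        exact hne (le_antisymm hQ h)
      have : Group.IsNilpotent (Q : Subgroup S) := Q.isPGroup'.isNilpotent
      have hnc := Group.normalizerCondition_of_isNilpotent (G := (Q : Subgroup S)) _ hlt
      obtain ⟨y, hy, hyn⟩ := SetLike.exists_of_lt hnc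
      -- the subgroup generated by `R` and `y`
      have hR2 : R ⊔ Subgroup.zpowers (y : G) ≤ ((Q : Subgroup S).map S.subtype) := by
        refine sup_le ?_ ?_
        · intro x hx
          exact ⟨⟨x, hRS hx⟩, hQ hx, rfl⟩
        · rw [Subgroup.zpowers_le]
          exact ⟨y.1, y.2, rfl⟩
      have hyN : (y : G) ∈ Subgroup.normalizer (R : Set G) := by
        rw [Subgroup.mem_normalizer_iff] at hy ⊢
        intro x
        constructor
        · intro hx
          have := (hy ⟨⟨x, hRS hx⟩, hQ hx⟩).1 hx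
          exact this
        · intro hx
          have hxS : (y : G) * x * (y : G)⁻¹ ∈ S := hRS hx
          have hxS' : x ∈ S := by
            have h1 := S.mul_mem (S.mul_mem (S.inv_mem y.1.2) hxS) y.1.2
            simpa [mul_assoc] using h1
          have hxQ : (⟨x, hxS'⟩ : S) ∈ (Q : Subgroup S) := by
            have h0 : (⟨(y : G) * x * (y : G)⁻¹, hxS⟩ : S) ∈ (Q : Subgroup S) := hQ hx
            have h1 := (Q : Subgroup S).mul_mem ((Q : Subgroup S).mul_mem
              ((Q : Subgroup S).inv_mem y.2) h0) y.2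
            have h2 : (y : S)⁻¹ * (⟨(y : G) * x * (y : G)⁻¹, hxS⟩ : S) * (y : S) =
                ⟨x, hxS'⟩ := by
              apply Subtype.ext
              simp [mul_assoc]
            rwa [h2] at h1
          exact (hy ⟨⟨x, hxS'⟩, hxQ⟩).2 hx
      have hmem : R ⊔ Subgroup.zpowers (y : G) ∈ T := by
        refine ⟨?_, ?_, i₀, j, hj0, ?_, ?_⟩
        · exact (Q.isPGroup'.map S.subtype).to_le hR2
        · exact fun h => hRne (le_bot_iff.1 (le_sup_left.trans h.le))
        · have : R ⊔ Subgroup.zpowers (y : G) ≤ MulAction.stabilizer G i₀ := by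
            refine sup_le (fun x hx => hRi₀ x hx) ?_
            rw [Subgroup.zpowers_le]
            exact hi₀ _ hyN
          exact fun x hx => this hx
        · have : R ⊔ Subgroup.zpowers (y : G) ≤ MulAction.stabilizer G j := by
            refine hR2.trans ?_
            rintro _ ⟨x, -, rfl⟩
            exact x.2
          exact fun x hx => this hx
      have hle := hmax hmem le_sup_left
      apply hyn
      rw [Subgroup.mem_subgroupOf, Subgroup.mem_subgroupOf]
      exact hle (Subgroup.mem_sup_right (Subgroup.mem_zpowers _))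
    obtain ⟨g, hg⟩ := MulAction.exists_smul_eq G i₀ j
    -- the conjugate `g R g⁻¹` is also Sylow in `S`
    let R' : Subgroup G := R.map (MulAut.conj g).toMonoidHom
    have hR'S : R' ≤ S := by
      rintro _ ⟨x, hx, rfl⟩
      show (g * x * g⁻¹) • j = j
      rw [← hg, smul_smul, inv_mul_cancel_right, mul_smul, hRi₀ x hx]
    have hR'p : IsPGroup r (R'.subgroupOf S) := (hRp.map _).comap_subtype
    obtain ⟨Q', hQ'⟩ := hR'p.exists_le_sylow
    have hcard : Nat.card (R'.subgroupOf S) = Nat.card (R.subgroupOf S) := by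
      rw [Nat.card_congr (Subgroup.subgroupOfEquivOfLe hR'S).toEquiv,
        Nat.card_congr (Subgroup.subgroupOfEquivOfLe hRS).toEquiv]
      exact Nat.card_congr (R.equivMapOfInjective _ (MulAut.conj g).injective).symm.toEquiv
    have hR'Q' : R'.subgroupOf S = Q' := by
      apply Subgroup.eq_of_le_of_card_ge hQ'
      rw [hcard, hRQ, Q.card_eq_multiplicity, Q'.card_eq_multiplicity]
    obtain ⟨s, hs⟩ := MulAction.exists_smul_eq S Q' Q
    have hsg : (s : G) * g ∈ Subgroup.normalizer (R : Set G) := by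
      have key : ∀ x ∈ R, (s : G) * g * x * ((s : G) * g)⁻¹ ∈ R := by
        intro x hx
        have h1 : (⟨g * x * g⁻¹, hR'S ⟨x, hx, rfl⟩⟩ : S) ∈ (Q' : Subgroup S) := by
          rw [← hR'Q']
          exact ⟨x, hx, rfl⟩
        have h2 : s * ⟨g * x * g⁻¹, hR'S ⟨x, hx, rfl⟩⟩ * s⁻¹ ∈ (Q : Subgroup S) := by
          rw [← hs, Sylow.coe_subgroup_smul]
          exact ⟨_, h1, rfl⟩
        rw [← hRQ] at h2
        have h3 : ((s * ⟨g * x * g⁻¹, hR'S ⟨x, hx, rfl⟩⟩ * s⁻¹ : S) : G) ∈ R := h2
        have h4 : ((s * ⟨g * x * g⁻¹, hR'S ⟨x, hx, rfl⟩⟩ * s⁻¹ : S) : G) =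
            (s : G) * g * x * ((s : G) * g)⁻¹ := by
          simp [mul_assoc]
        rwa [h4] at h3
      have h5 : R.map (MulAut.conj ((s : G) * g)).toMonoidHom = R := by
        apply Subgroup.eq_of_le_of_card_ge
        · rintro _ ⟨x, hx, rfl⟩
          exact key x hx
        · exact (Nat.card_congr (R.equivMapOfInjective _
            (MulAut.conj ((s : G) * g)).injective).symm.toEquiv).ge
      rw [Subgroup.mem_normalizer_iff]
      intro x
      refine ⟨key x, fun hx => ?_⟩
      rw [← h5] at hx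
      obtain ⟨z, hz, hzx⟩ := hx
      have : z = x := (MulAut.conj ((s : G) * g)).injective hzx
      rwa [← this]
    have h6 := hi₀ _ hsg
    rw [mul_smul, hg] at h6
    have h7 : (s : G) • j = j := s.2
    exact hj0 (h6.symm.trans h7)
  · -- the normalizer is transitive
    apply hRne
    rw [eq_bot_iff]
    intro x hx
    rw [Subgroup.mem_bot]
    apply FaithfulSMul.eq_of_smul_eq_smul (α := Ω)
    intro k
    rw [one_smul]
    refine smul_eq_of_trans htr (i := i) (fun b hb => hRi _ ?_) k
    have := (Subgroup.mem_normalizer_iff.1 (inv_mem hb) x).1 hx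
    simpa using this

theorem card_derangements [Finite G] [Finite Ω] [FaithfulSMul G Ω]
    [MulAction.IsPretransitive G Ω] [Nontrivial Ω] (hD : FixOrTrans G Ω) :
    Nat.card {g : G // ∀ i : Ω, g • i ≠ i} = Nat.card Ω - 1 := by
  classical
  have _ : Fintype G := Fintype.ofFinite G
  have hsum := sum_fixedBy (G := G) (Ω := Ω)
  have hpt : ∀ g : G, Nat.card (MulAction.fixedBy Ω g) + (if ∀ i : Ω, g • i ≠ i then 1 else 0) =
      1 + (if g = 1 then (Nat.card Ω - 1) else 0) := by
    intro g
    by_cases hg : g = 1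
    · subst hg
      have h1 : MulAction.fixedBy Ω (1 : G) = Set.univ := by
        ext i; simp
      rw [h1, Nat.card_univ, if_neg, if_pos rfl]
      · have : 1 < Nat.card Ω := Finite.one_lt_card
        omega
      · intro h
        obtain ⟨i, -⟩ := exists_pair_ne Ω
        exact h i (one_smul _ _)
    · rw [if_neg hg]
      by_cases hd : ∀ i : Ω, g • i ≠ i
      · rw [if_pos hd]
        have : IsEmpty (MulAction.fixedBy Ω g) := ⟨fun i => hd i.1 i.2⟩
        rw [Nat.card_of_isEmpty]
      · rw [if_neg hd]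
        push Not at hd
        obtain ⟨i, hi⟩ := hd
        have : Nat.card (MulAction.fixedBy Ω g) = 1 := by
          rw [Nat.card_eq_one_iff_unique]
          refine ⟨⟨fun a b => Subtype.ext (fixedBy_subsingleton hD hg a.2 b.2)⟩, ⟨⟨i, hi⟩⟩⟩
        rw [this]
  have h2 := Finset.sum_congr (rfl : (Finset.univ : Finset G) = Finset.univ)
    (fun g _ => hpt g)
  rw [Finset.sum_add_distrib, Finset.sum_add_distrib, hsum] at h2
  simp only [Finset.sum_ite_eq', Finset.mem_univ, if_true, Finset.sum_const, Finset.card_univ,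
    smul_eq_mul, mul_one, Finset.sum_boole, Nat.cast_id] at h2
  rw [← Nat.card_eq_fintype_card (α := G)] at h2
  rw [Nat.card_eq_fintype_card, Fintype.card_subtype]
  omega

theorem fixOrTrans_main [Finite G] [Finite Ω] [FaithfulSMul G Ω]
    [MulAction.IsPretransitive G Ω] [Nontrivial Ω] (hD : FixOrTrans G Ω) :
    ∃ p : ℕ, p.Prime ∧ Nat.card Ω = p ∧ Nat.card G ∣ p * (p - 1) ∧
      ⁅commutator G, commutator G⁆ = ⊥ := by
  classical
  obtain ⟨b, hb⟩ := exists_derangement (G := G) (Ω := Ω)
  obtain ⟨i₀, -⟩ := exists_pair_ne Ω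
  have hb1 : b ≠ 1 := by
    rintro rfl
    exact hb i₀ (one_smul _ _)
  have htb : ∀ i j : Ω, ∃ x ∈ Subgroup.zpowers b, x • i = j := by
    rcases hD (Subgroup.zpowers b) with ⟨i, hi⟩ | h
    · exact absurd (hi b (Subgroup.mem_zpowers b)) (hb i)
    · exact h
  obtain ⟨p, hp, hpb⟩ := Nat.exists_prime_and_dvd (fun h => hb1 (orderOf_eq_one_iff.1 h))
  have _ : Fact p.Prime := ⟨hp⟩
  set c := b ^ (orderOf b / p) with hc
  have hoc : orderOf c = p := by
    rw [hc, orderOf_pow_of_dvd _ (Nat.div_dvd_of_dvd hpb)]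
    · exact Nat.div_div_self hpb (orderOf_pos b).ne'
    · exact (Nat.div_pos (Nat.le_of_dvd (orderOf_pos b) hpb) hp.pos).ne'
  have hc1 : c ≠ 1 := by
    intro h
    rw [h, orderOf_one] at hoc
    exact hp.one_lt.ne hoc
  have htc : ∀ i j : Ω, ∃ x ∈ Subgroup.zpowers c, x • i = j := by
    rcases hD (Subgroup.zpowers c) with ⟨i, hi⟩ | h
    · exfalso
      apply hc1
      apply FaithfulSMul.eq_of_smul_eq_smul (α := Ω)
      intro k
      rw [one_smul]
      refine smul_eq_of_trans htb (i := i) (fun x hx => ?_) k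
      obtain ⟨n, rfl⟩ := Subgroup.mem_zpowers_iff.1 hx
      have : (b ^ n)⁻¹ * c * b ^ n = c := by
        have h1 : Commute c (b ^ n) := by
          rw [hc]; exact ((Commute.refl b).pow_left _).zpow_right _
        rw [mul_assoc, h1.eq, inv_mul_cancel_left]
      rw [this]
      exact hi c (Subgroup.mem_zpowers c)
    · exact h
  have hcardC : Nat.card (Subgroup.zpowers c) = p := by rw [Nat.card_zpowers, hoc]
  have htC : MulAction.IsPretransitive (Subgroup.zpowers c) Ω :=
    ⟨fun i j => by
      obtain ⟨x, hx, h⟩ := htc i j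
      exact ⟨⟨x, hx⟩, h⟩⟩
  have hcardΩ : Nat.card Ω = p := by
    have h1 : Nat.card Ω ∣ p := by
      rw [← MulAction.index_stabilizer_of_transitive (Subgroup.zpowers c) i₀, ← hcardC]
      exact Subgroup.index_dvd_card _
    rcases (Nat.dvd_prime hp).1 h1 with h | h
    · have : 1 < Nat.card Ω := Finite.one_lt_card
      omega
    · exact h
  -- nonidentity elements of `⟨c⟩` are derangements
  have hder : ∀ x ∈ Subgroup.zpowers c, x ≠ 1 → ∀ i : Ω, x • i ≠ i := by
    intro x hx hx1 i hi
    apply hx1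
    apply FaithfulSMul.eq_of_smul_eq_smul (α := Ω)
    intro k
    rw [one_smul]
    refine smul_eq_of_trans htc (i := i) (fun y hy => ?_) k
    obtain ⟨m, rfl⟩ := Subgroup.mem_zpowers_iff.1 hx
    obtain ⟨n, rfl⟩ := Subgroup.mem_zpowers_iff.1 hy
    have : (c ^ n)⁻¹ * c ^ m * c ^ n = c ^ m := by
      have h1 : Commute (c ^ m) (c ^ n) := ((Commute.refl c).zpow_left _).zpow_right _
      rw [mul_assoc, h1.eq, inv_mul_cancel_left]
    rw [this, hi]
  have hmemC : ∀ g : G, (∀ i : Ω, g • i ≠ i) → g ∈ Subgroup.zpowers c := by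
    have h1 : {x : G | x ∈ Subgroup.zpowers c ∧ x ≠ 1} ⊆ {g : G | ∀ i : Ω, g • i ≠ i} :=
      fun x hx => hder x hx.1 hx.2
    have h2 : {x : G | x ∈ Subgroup.zpowers c ∧ x ≠ 1} = {g : G | ∀ i : Ω, g • i ≠ i} := by
      apply Set.eq_of_subset_of_ncard_le h1 _ (Set.toFinite _)
      have h3 : {g : G | ∀ i : Ω, g • i ≠ i}.ncard = p - 1 := by
        rw [← hcardΩ, ← card_derangements hD]
        rfl
      have h4 : {x : G | x ∈ Subgroup.zpowers c ∧ x ≠ 1} =
          (Subgroup.zpowers c : Set G) \ {1} := by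
        ext x; simp
      rw [h3, h4, Set.ncard_sdiff_singleton_of_mem (Subgroup.one_mem _)]
      have h5 : (Subgroup.zpowers c : Set G).ncard = p := hcardC
      rw [h5]
    intro g hg
    have : g ∈ {x : G | x ∈ Subgroup.zpowers c ∧ x ≠ 1} := by rw [h2]; exact hg
    exact this.1
  have hnorm : (Subgroup.zpowers c).Normal := by
    refine ⟨fun x hx g => ?_⟩
    by_cases hx1 : x = 1
    · subst hx1; simp
    · apply hmemC
      intro i hi
      apply hder x hx hx1 (g⁻¹ • i)
      rw [mul_smul, mul_smul] at hi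
      rw [smul_eq_iff_eq_inv_smul] at hi
      rw [hi]
  let φ : G →* (ZMod (Nat.card (Subgroup.zpowers c)))ˣ :=
    (IsCyclic.mulAutMulEquiv (Subgroup.zpowers c)).toMonoidHom.comp
      (MulAut.conjNormal (H := Subgroup.zpowers c))
  have hker : ∀ g : G, g ∈ φ.ker → g * c = c * g := by
    intro g hg
    have h1 : (IsCyclic.mulAutMulEquiv (Subgroup.zpowers c))
      (MulAut.conjNormal (H := Subgroup.zpowers c) g) = 1 := hg
    rw [map_eq_one_iff _ (MulEquiv.injective _)] at h1
    have h2 : ((MulAut.conjNormal (H := Subgroup.zpowers c) g)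
      ⟨c, Subgroup.mem_zpowers c⟩ : G) = c := by
      rw [h1]; rfl
    rw [MulAut.conjNormal_apply] at h2
    exact mul_inv_eq_iff_eq_mul.1 h2
  have hcomm : ∀ g : G, g * c = c * g → ∀ i : Ω, g • i = i → g = 1 := by
    intro g hg i hi
    apply FaithfulSMul.eq_of_smul_eq_smul (α := Ω)
    intro k
    rw [one_smul]
    refine smul_eq_of_trans htc (i := i) (fun x hx => ?_) k
    obtain ⟨n, rfl⟩ := Subgroup.mem_zpowers_iff.1 hx
    have : (c ^ n)⁻¹ * g * c ^ n = g := by
      have h1 : Commute g (c ^ n) := Commute.zpow_right hg _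
      rw [mul_assoc, h1.eq, inv_mul_cancel_left]
    rw [this, hi]
  have hkerC : φ.ker ≤ Subgroup.zpowers c := by
    intro g hg
    obtain ⟨x, hx, h⟩ := htc i₀ (g • i₀)
    have h1 : x⁻¹ * g = 1 := by
      apply hcomm _ _ i₀
      · rw [mul_smul, ← h, inv_smul_smul]
      · have h2 := hker g hg
        obtain ⟨n, rfl⟩ := Subgroup.mem_zpowers_iff.1 hx
        have h3 : Commute ((c ^ n)⁻¹) c := by
          rw [← zpow_neg]; exact (Commute.refl c).zpow_left _
        exact (h3.mul_left h2).eq
    have h2 : g = x := by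
      rw [inv_mul_eq_one] at h1; exact h1.symm
    rwa [h2]
  refine ⟨p, hp, hcardΩ, ?_, ?_⟩
  · have h1 := Subgroup.index_mul_card (MulAction.stabilizer G i₀)
    rw [MulAction.index_stabilizer_of_transitive, hcardΩ] at h1
    rw [← h1]
    apply Nat.mul_dvd_mul_left
    have h2 : Function.Injective (φ.comp (MulAction.stabilizer G i₀).subtype) := by
      rw [injective_iff_map_eq_one]
      intro s hs
      apply Subtype.ext
      exact hcomm s (hker s hs) i₀ s.2
    have h3 := Subgroup.card_dvd_of_injective _ h2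
    have h4 : Nat.card (ZMod (Nat.card (Subgroup.zpowers c)))ˣ = p - 1 := by
      rw [hcardC, Nat.card_eq_fintype_card, ZMod.card_units_eq_totient, Nat.totient_prime hp]
    rwa [h4] at h3
  · have h1 : commutator G ≤ Subgroup.zpowers c :=
      (Abelianization.commutator_subset_ker φ).trans hkerC
    rw [eq_bot_iff]
    refine (Subgroup.commutator_mono h1 h1).trans ?_
    rw [Subgroup.commutator_le]
    rintro _ ⟨m, rfl⟩ _ ⟨n, rfl⟩
    rw [Subgroup.mem_bot, commutatorElement_eq_one_iff_commute]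
    exact ((Commute.refl c).zpow_left _).zpow_right _

end MP_5771ce_al
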