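import Mathlib

/-!
# Coprime complements of an abelian normal subgroup

If `D` is abelian, normalised by `W`, `W ≤ D H`, `D ∩ H = 1` and `|W|` is prime to `|D|`, then
`W` is conjugate by an element of `D` to a subgroup of `H`.
-/

open Subgroup

namespace MP_5771ce_al

variable {G : Type*} [Group G]

/-- Schur–Zassenhaus (conjugacy part) for an abelian subgroup `D`. -/
theorem sz_conj [Finite G] {D H W : Subgroup G}
    (hcomm : ∀ a ∈ D, ∀ b ∈ D, a * b = b * a)
    (hWD : ∀ w ∈ W, ∀ d ∈ D, w * d * w⁻¹ ∈ D)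
    (hHD : ∀ h ∈ H, ∀ d ∈ D, h * d * h⁻¹ ∈ D)
    (hDH : ∀ x ∈ D, x ∈ H → x = 1)
    (hmul : ∀ w ∈ W, ∃ d ∈ D, ∃ h ∈ H, w = d * h)
    (hcop : (Nat.card W).Coprime (Nat.card D)) :
    ∃ s ∈ D, ∀ w ∈ W, s⁻¹ * w * s ∈ H := by
  classical
  have : Fintype W := Fintype.ofFinite W
  choose! f hf h hh hw using hmul
  -- uniqueness of the decomposition
  have huniq : ∀ d ∈ D, ∀ d' ∈ D, ∀ k ∈ H, ∀ k' ∈ H, d * k = d' * k' → d = d' := by
    intro d hd d' hd' k hk k' hk' e
    have e1 : d'⁻¹ * d = k' * k⁻¹ := by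
      have := congrArg (fun z => d'⁻¹ * z * k⁻¹) e
      simpa [mul_assoc] using this
    have e2 : d'⁻¹ * d ∈ D := D.mul_mem (D.inv_mem hd') hd
    have e3 : d'⁻¹ * d = 1 := hDH _ e2 (e1 ▸ H.mul_mem hk' (H.inv_mem hk))
    exact (inv_mul_eq_one.1 e3).symm
  have hcoc : ∀ w ∈ W, ∀ w' ∈ W, f (w * w') = f w * (w * f w' * w⁻¹) := by
    intro w hw1 w' hw1'
    apply huniq _ (hf _ (W.mul_mem hw1 hw1')) _ _ (h (w * w')) (hh _ (W.mul_mem hw1 hw1'))
      (h w * h w') (H.mul_mem (hh _ hw1) (hh _ hw1'))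
    · rw [← hw _ (W.mul_mem hw1 hw1')]
      -- `w f(w') w⁻¹ = h(w) f(w') h(w)⁻¹`
      have e : w * f w' * w⁻¹ = h w * f w' * (h w)⁻¹ := by
        have e0 : w = f w * h w := hw w hw1
        have e1 : h w * f w' * (h w)⁻¹ ∈ D := hHD _ (hh _ hw1) _ (hf _ hw1')
        calc w * f w' * w⁻¹ = (f w * h w) * f w' * (f w * h w)⁻¹ := by rw [← e0]
          _ = f w * (h w * f w' * (h w)⁻¹) * (f w)⁻¹ := by group
          _ = h w * f w' * (h w)⁻¹ := by
            rw [hcomm _ (hf _ hw1) _ e1]; group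
      rw [e]
      calc w * w' = (f w * h w) * (f w' * h w') := by rw [← hw w hw1, ← hw w' hw1']
        _ = f w * (h w * f w' * (h w)⁻¹) * (h w * h w') := by group
    · exact D.mul_mem (hf _ hw1) (hWD _ hw1 _ (hf _ hw1'))
  -- work in the abelian group `D`
  let instD : CommGroup D := { (inferInstance : Group D) with
    mul_comm := fun a b => Subtype.ext (hcomm _ a.2 _ b.2) }
  let F : W → D := fun w => ⟨f w, hf _ w.2⟩
  let c : W → D →* D := fun w =>
    { toFun := fun d => ⟨w * d * (w : G)⁻¹, hWD _ w.2 _ d.2⟩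
      map_one' := by ext; simp
      map_mul' := by intro a b; ext; simp [mul_assoc] }
  have hF : ∀ w w' : W, F (w * w') = F w * c w (F w') := by
    intro w w'
    apply Subtype.ext
    exact hcoc _ w.2 _ w'.2
  let t : D := ∏ w : W, F w
  have ht : ∀ w : W, t = (F w) ^ (Nat.card W) * c w t := by
    intro w
    calc t = ∏ w' : W, F (w * w') := by
          exact (Fintype.prod_equiv (Equiv.mulLeft w) _ _ (fun x => rfl)).symm
      _ = ∏ w' : W, (F w * c w (F w')) := by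
          exact Finset.prod_congr rfl fun w' _ => hF w w'
      _ = (F w) ^ (Nat.card W) * c w t := by
          rw [Finset.prod_mul_distrib, Finset.prod_const, map_prod, Finset.card_univ,
            Nat.card_eq_fintype_card]
  have hcop' : (Nat.card D).Coprime (Nat.card W) := hcop.symm
  obtain ⟨s, hs⟩ := (powCoprime (G := D) hcop').surjective t
  have hs' : s ^ Nat.card W = t := hs
  refine ⟨s, s.2, fun w hw1 => ?_⟩
  have e1 : F ⟨w, hw1⟩ * c ⟨w, hw1⟩ s = s := by
    apply (powCoprime (G := D) hcop').injective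
    change (F ⟨w, hw1⟩ * c ⟨w, hw1⟩ s) ^ Nat.card W = s ^ Nat.card W
    rw [mul_pow, ← map_pow, hs', ← ht ⟨w, hw1⟩]
  have e2 : f w * (w * s * w⁻¹) = s := congrArg Subtype.val e1
  have e3 : w * s * w⁻¹ ∈ D := hWD _ hw1 _ s.2
  have e4 : (s : G)⁻¹ * w * s = h w := by
    have e5 : (f w)⁻¹ * w = h w := by
      have := hw w hw1
      rw [eq_comm, eq_inv_mul_iff_mul_eq]
      exact this.symm
    have e6 : (f w)⁻¹ = (w * s * w⁻¹) * (s : G)⁻¹ := by
      rw [inv_eq_iff_mul_eq_one, ← mul_assoc, e2, mul_inv_cancel]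
    rw [← e5, e6, hcomm _ e3 _ (D.inv_mem s.2)]
    group
  rw [e4]
  exact hh _ hw1

end MP_5771ce_al
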