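import Mathlib
import Pool.Agent.Lib.MP_5771ce_al.TreeSZ

/-!
# The coset graph and connectivity of the fixed graphs

Data: a finite group `G`, types `i : ι` with a root type `o`, subgroups `M i`, and for `i ≠ o` a
semidirect decomposition `M i = D i ⋊ H i` (`D i` abelian, coprime orders) with
`H i ≤ M (par i)`.  Vertices are the cosets of the `M i`, edges the cosets of the `H i`, `i ≠ o`.
-/

open Subgroup

namespace MP_5771ce_al

variable {G : Type*} [Group G] {ι : Type*}

/-- Local part of the hypotheses on the tree data. -/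
structure TreeBase (M D H : ι → Subgroup G) (o : ι) (par : ι → ι) (rk : ι → ℕ) : Prop where
  rk_par : ∀ i, i ≠ o → rk (par i) < rk i
  D_le : ∀ i, i ≠ o → D i ≤ M i
  H_le : ∀ i, i ≠ o → H i ≤ M i
  mul : ∀ i, i ≠ o → ∀ m ∈ M i, ∃ d ∈ D i, ∃ h ∈ H i, m = d * h
  norm : ∀ i, i ≠ o → ∀ m ∈ M i, ∀ d ∈ D i, m * d * m⁻¹ ∈ D i
  comm : ∀ i, i ≠ o → ∀ a ∈ D i, ∀ b ∈ D i, a * b = b * a
  cop : ∀ i, i ≠ o → (Nat.card (D i)).Coprime (Nat.card (H i))
  H_par : ∀ i, i ≠ o → H i ≤ M (par i)
  loc : ∀ p : ℕ, p.Prime → ∀ X : Subgroup G, IsPGroup p X → X ≠ ⊥ →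
    ∃ (i : ι) (g : G), ∀ y ∈ normalizer (X : Set G), g⁻¹ * y * g ∈ M i

/-- The vertex `(i, g M_i)`. -/
def vt (M : ι → Subgroup G) (i : ι) (g : G) : Σ i, G ⧸ M i := ⟨i, (g : G ⧸ M i)⟩

variable {M D H : ι → Subgroup G} {o : ι} {par : ι → ι} {rk : ι → ℕ}

theorem smul_vt (x : G) (i : ι) (g : G) : x • vt M i g = vt M i (x * g) := rfl

theorem vt_eq_iff {i : ι} {g h : G} : vt M i g = vt M i h ↔ g⁻¹ * h ∈ M i := by
  unfold vt
  rw [Sigma.mk.injEq]
  simp only [heq_eq_eq, true_and]
  exact QuotientGroup.eq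

theorem vt_eq {i j : ι} {g h : G} (e : vt M i g = vt M j h) : i = j ∧ g⁻¹ * h ∈ M i := by
  have h1 : i = j := congrArg Sigma.fst e
  subst h1
  exact ⟨rfl, vt_eq_iff.1 e⟩

theorem exists_vt (u : Σ i, G ⧸ M i) : ∃ i g, u = vt M i g := by
  obtain ⟨i, q⟩ := u
  obtain ⟨g, rfl⟩ := QuotientGroup.mk_surjective q
  exact ⟨i, g, rfl⟩

theorem smul_vt_eq_iff {x : G} {i : ι} {g : G} : x • vt M i g = vt M i g ↔ g⁻¹ * x * g ∈ M i := by
  rw [smul_vt, eq_comm, vt_eq_iff, mul_assoc]

/-- `X` fixes the vertex `u`. -/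
def FixV (X : Subgroup G) (u : Σ i, G ⧸ M i) : Prop := ∀ x ∈ X, x • u = u

theorem fixV_vt {X : Subgroup G} {i : ι} {g : G} :
    FixV X (vt M i g) ↔ ∀ x ∈ X, g⁻¹ * x * g ∈ M i :=
  forall₂_congr fun _ _ => smul_vt_eq_iff

/-- `u'` is a parent of `u` in the graph fixed by `X`. -/
def AdjV (H : ι → Subgroup G) (o : ι) (par : ι → ι) (X : Subgroup G) (u u' : Σ i, G ⧸ M i) :
    Prop :=
  ∃ i, i ≠ o ∧ ∃ y : G, (∀ x ∈ X, y⁻¹ * x * y ∈ H i) ∧ u = vt M i y ∧ u' = vt M (par i) y

theorem AdjV.mono {X X₁ : Subgroup G} (h : X ≤ X₁) {u u' : Σ i, G ⧸ M i}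
    (hu : AdjV H o par X₁ u u') : AdjV H o par X u u' := by
  obtain ⟨i, hi, y, hy, h1, h2⟩ := hu
  exact ⟨i, hi, y, fun x hx => hy x (h hx), h1, h2⟩

theorem AdjV.smul {X : Subgroup G} {n : G} (hn : ∀ x ∈ X, n⁻¹ * x * n ∈ X)
    {u u' : Σ i, G ⧸ M i} (hu : AdjV H o par X u u') : AdjV H o par X (n • u) (n • u') := by
  obtain ⟨i, hi, y, hy, rfl, rfl⟩ := hu
  refine ⟨i, hi, n * y, fun x hx => ?_, smul_vt _ _ _, smul_vt _ _ _⟩
  have := hy _ (hn x hx)
  have e : (n * y)⁻¹ * x * (n * y) = y⁻¹ * (n⁻¹ * x * n) * y := by group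
  rwa [e]

theorem eqvGen_smul {X : Subgroup G} {n : G} (hn : ∀ x ∈ X, n⁻¹ * x * n ∈ X)
    {u u' : Σ i, G ⧸ M i} (hu : Relation.EqvGen (AdjV H o par X) u u') :
    Relation.EqvGen (AdjV H o par X) (n • u) (n • u') := by
  induction hu with
  | rel a b h => exact Relation.EqvGen.rel _ _ (h.smul hn)
  | refl a => exact Relation.EqvGen.refl _
  | symm a b _ ih => exact Relation.EqvGen.symm _ _ ih
  | trans a b c _ _ ih1 ih2 => exact Relation.EqvGen.trans _ _ _ ih1 ih2

theorem eqvGen_mono {X X₁ : Subgroup G} (h : X ≤ X₁)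
    {u u' : Σ i, G ⧸ M i} (hu : Relation.EqvGen (AdjV H o par X₁) u u') :
    Relation.EqvGen (AdjV H o par X) u u' := by
  induction hu with
  | rel a b h1 => exact Relation.EqvGen.rel _ _ (h1.mono h)
  | refl a => exact Relation.EqvGen.refl _
  | symm a b _ ih => exact Relation.EqvGen.symm _ _ ih
  | trans a b c _ _ ih1 ih2 => exact Relation.EqvGen.trans _ _ _ ih1 ih2

/-- A coprime subgroup fixing the vertex `(i, g)` fixes a parent. -/
theorem TreeBase.exists_parent [Finite G] (T : TreeBase M D H o par rk) {X : Subgroup G} {i : ι}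
    (hi : i ≠ o) (hcop : (Nat.card X).Coprime (Nat.card (D i))) {g : G}
    (hX : FixV X (vt M i g)) :
    ∃ y : G, (∀ x ∈ X, y⁻¹ * x * y ∈ H i) ∧ vt M i g = vt M i y := by
  set W : Subgroup G := X.map (MulAut.conj g⁻¹).toMonoidHom with hW
  have hWX : ∀ w, w ∈ W ↔ ∃ x ∈ X, g⁻¹ * x * g = w := by
    intro w
    rw [hW, Subgroup.mem_map]
    simp
  have hWM : ∀ w ∈ W, w ∈ M i := by
    intro w hw
    obtain ⟨x, hx, rfl⟩ := (hWX w).1 hw
    exact fixV_vt.1 hX x hx
  have hcard : Nat.card W = Nat.card X :=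
    Nat.card_congr (X.equivMapOfInjective _ (MulAut.conj g⁻¹).injective).symm.toEquiv
  obtain ⟨s, hs, hsW⟩ := sz_conj (D := D i) (H := H i) (W := W) (T.comm i hi)
    (fun w hw d hd => T.norm i hi w (hWM w hw) d hd)
    (fun h hh d hd => T.norm i hi h (T.H_le i hi hh) d hd)
    (by
      intro x hx hx'
      have h1 : orderOf x ∣ Nat.card (D i) := Subgroup.orderOf_dvd_natCard _ hx
      have h2 : orderOf x ∣ Nat.card (H i) := Subgroup.orderOf_dvd_natCard _ hx'
      have h3 := Nat.dvd_gcd h1 h2
      rw [(T.cop i hi : Nat.gcd _ _ = 1)] at h3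
      exact orderOf_eq_one_iff.1 (Nat.dvd_one.1 h3))
    (fun w hw => T.mul i hi w (hWM w hw)) (by rw [hcard]; exact hcop)
  refine ⟨g * s, fun x hx => ?_, ?_⟩
  · have := hsW _ ((hWX _).2 ⟨x, hx, rfl⟩)
    have e : (g * s)⁻¹ * x * (g * s) = s⁻¹ * (g⁻¹ * x * g) * s := by group
    rwa [e]
  · rw [vt_eq_iff]
    simpa using T.D_le i hi hs

theorem AdjV.fix_left (T : TreeBase M D H o par rk) {X : Subgroup G} {u u' : Σ i, G ⧸ M i}
    (h : AdjV H o par X u u') : FixV X u := by
  obtain ⟨i, hi, y, hy, rfl, rfl⟩ := h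
  exact fixV_vt.2 fun x hx => T.H_le i hi (hy x hx)

theorem AdjV.fix_right (T : TreeBase M D H o par rk) {X : Subgroup G} {u u' : Σ i, G ⧸ M i}
    (h : AdjV H o par X u u') : FixV X u' := by
  obtain ⟨i, hi, y, hy, rfl, rfl⟩ := h
  exact fixV_vt.2 fun x hx => T.H_par i hi (hy x hx)

/-- Climbing to a root. -/
theorem TreeBase.climb [Finite G] (T : TreeBase M D H o par rk) {X : Subgroup G}
    (hcop : ∀ i, i ≠ o → (Nat.card X).Coprime (Nat.card (D i))) :
    ∀ (n : ℕ) (i : ι) (g : G), rk i < n → FixV X (vt M i g) →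
      ∃ a : G, FixV X (vt M o a) ∧ Relation.EqvGen (AdjV H o par X) (vt M i g) (vt M o a) := by
  intro n
  induction n with
  | zero => intro i g h; omega
  | succ n ih =>
    intro i g hn hX
    by_cases hi : i = o
    · subst hi
      exact ⟨g, hX, Relation.EqvGen.refl _⟩
    · obtain ⟨y, hy, e⟩ := T.exists_parent hi (hcop i hi) hX
      have hadj : AdjV H o par X (vt M i g) (vt M (par i) y) := ⟨i, hi, y, hy, e, rfl⟩
      have hlt : rk (par i) < n := lt_of_lt_of_le (T.rk_par i hi) (by omega)
      obtain ⟨a, ha, h1⟩ := ih (par i) y hlt (hadj.fix_right T)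
      exact ⟨a, ha, Relation.EqvGen.trans _ _ _ (Relation.EqvGen.rel _ _ hadj) h1⟩

/-- **Connectivity** of the graph fixed by a nontrivial `p`-group `X`, where `p` divides no
`|D i|`. -/
theorem TreeBase.conn [Finite G] (T : TreeBase M D H o par rk) {p : ℕ} [hp : Fact p.Prime]
    (hpD : ∀ i, i ≠ o → ¬ p ∣ Nat.card (D i)) :
    ∀ (n : ℕ) (X : Subgroup G), Nat.card G < n + Nat.card X → IsPGroup p X → X ≠ ⊥ →
      ∀ u u' : Σ i, G ⧸ M i, FixV X u → FixV X u' → Relation.EqvGen (AdjV H o par X) u u' := by
  intro n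
  induction n with
  | zero =>
    intro X h
    have := Subgroup.card_le_card_group X
    omega
  | succ n ih =>
    intro X hn hXp hX1
    have hcop : ∀ i, i ≠ o → (Nat.card X).Coprime (Nat.card (D i)) := by
      intro i hi
      obtain ⟨a, ha⟩ := IsPGroup.iff_card.1 hXp
      rw [ha]
      exact Nat.Coprime.pow_left _ ((Nat.Prime.coprime_iff_not_dvd hp.out).2 (hpD i hi))
    obtain ⟨ie, ge, hge⟩ := T.loc p hp.out X hXp hX1
    set e := vt M ie ge with he
    have hefix : ∀ y ∈ normalizer (X : Set G), y • e = e := fun y hy =>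
      smul_vt_eq_iff.2 (hge y hy)
    have hXe : FixV X e := fun x hx => hefix x (Subgroup.le_normalizer hx)
    -- bigger subgroups fixing a vertex `v` and `e`
    have hstep : ∀ v : Σ i, G ⧸ M i, ∀ X₁ : Subgroup G, IsPGroup p X₁ → X < X₁ →
        X₁ ≤ normalizer (X : Set G) → FixV X₁ v → Relation.EqvGen (AdjV H o par X) v e := by
      intro v X₁ hX₁ hlt hle hfix
      have hc : Nat.card X < Nat.card X₁ := by
        refine lt_of_le_of_ne (Subgroup.card_le_of_le hlt.le) fun h => ?_
        exact hlt.ne (Subgroup.eq_of_le_of_card_ge hlt.le h.ge)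
      exact eqvGen_mono hlt.le (ih X₁ (by omega) hX₁ (ne_bot_of_le_ne_bot hX1 hlt.le) v e hfix
        fun x hx => hefix x (hle hx))
    -- roots
    have hroot : ∀ a : G, FixV X (vt M o a) → Relation.EqvGen (AdjV H o par X) (vt M o a) e := by
      intro a ha
      obtain ⟨k, hk⟩ := IsPGroup.iff_card.1 hXp
      -- the conjugates of `M o`
      have hmo : ∀ b : G, ∀ x, x ∈ (M o).map (MulAut.conj b).toMonoidHom ↔ b⁻¹ * x * b ∈ M o := by
        intro b x
        rw [Subgroup.mem_map]
        constructor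
        · rintro ⟨m, hm, rfl⟩
          simpa [mul_assoc] using hm
        · intro h
          exact ⟨_, h, by simp [mul_assoc]⟩
      have hmc : ∀ b : G, Nat.card ((M o).map (MulAut.conj b).toMonoidHom) = Nat.card (M o) :=
        fun b => Nat.card_congr
          ((M o).equivMapOfInjective _ (MulAut.conj b).injective).symm.toEquiv
      by_cases hdvd : p ^ (k + 1) ∣ Nat.card (M o)
      · -- enlarge inside the stabiliser of the root
        set R := (M o).map (MulAut.conj a).toMonoidHom with hR
        have hXR : X ≤ R := fun x hx => (hmo a x).2 (fixV_vt.1 ha x hx)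
        have hcX : Nat.card (X.subgroupOf R) = p ^ k := by
          rw [← hk]
          exact Nat.card_congr (Subgroup.subgroupOfEquivOfLe hXR).toEquiv
        obtain ⟨K, hK1, hK2⟩ := Sylow.exists_subgroup_card_pow_succ (G := R) (p := p) (n := k)
          (by rw [hmc a]; exact hdvd) hcX
        set X₁ := K.map R.subtype with hX₁
        have hX₁c : Nat.card X₁ = p ^ (k + 1) := by
          rw [← hK1]
          exact Nat.card_congr
            (K.equivMapOfInjective _ R.subtype_injective).symm.toEquiv
        have hXX₁ : X ≤ X₁ := by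
          intro x hx
          rw [hX₁, Subgroup.mem_map]
          exact ⟨⟨x, hXR hx⟩, hK2 (Subgroup.mem_subgroupOf.2 hx), rfl⟩
        have hlt : X < X₁ := by
          refine lt_of_le_of_ne hXX₁ fun h => ?_
          have : Nat.card X = Nat.card X₁ := by rw [h]
          rw [hk, hX₁c] at this
          exact absurd this (Nat.pow_lt_pow_right hp.out.one_lt (Nat.lt_succ_self k)).ne
        have hX₁p : IsPGroup p X₁ := IsPGroup.of_card hX₁c
        have hnorm : X₁ ≤ normalizer (X : Set G) := by
          have hidx : (X.subgroupOf X₁).index = p := by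
            have h1 := Subgroup.card_mul_index (X.subgroupOf X₁)
            have h2 : Nat.card (X.subgroupOf X₁) = p ^ k := by
              rw [← hk]
              exact Nat.card_congr (Subgroup.subgroupOfEquivOfLe hXX₁).toEquiv
            rw [h2, hX₁c, pow_succ] at h1
            exact Nat.eq_of_mul_eq_mul_left (pow_pos hp.out.pos k) h1
          have hn : (X.subgroupOf X₁).Normal := by
            apply Subgroup.normal_of_index_eq_minFac_card
            rw [hidx, hX₁c, Nat.Prime.pow_minFac hp.out (by omega)]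
          exact Subgroup.normal_subgroupOf_iff_le_normalizer hXX₁ |>.1 hn
        apply hstep _ X₁ hX₁p hlt hnorm
        rw [fixV_vt]
        intro x hx
        rw [hX₁, Subgroup.mem_map] at hx
        obtain ⟨z, hz, rfl⟩ := hx
        exact (hmo a _).1 z.2
      · -- `X` is a Sylow subgroup of all root stabilisers
        obtain ⟨b, hb, hbe⟩ := T.climb hcop (rk ie + 1) ie ge (Nat.lt_succ_self _) hXe
        have hsyl : ∀ c : G, FixV X (vt M o c) →
            ∃ P : Sylow p (M o), ∀ z : M o, z ∈ P ↔ c * z * c⁻¹ ∈ X := by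
          intro c hc
          have hcc := fixV_vt.1 hc
          set Y : Subgroup (M o) := (X.map (MulAut.conj c⁻¹).toMonoidHom).subgroupOf (M o)
          have hYm : ∀ z : M o, z ∈ Y ↔ c * z * c⁻¹ ∈ X := by
            intro z
            rw [Subgroup.mem_subgroupOf, Subgroup.mem_map]
            constructor
            · rintro ⟨x, hx, h⟩
              rw [← h]
              simpa [mul_assoc] using hx
            · intro h
              exact ⟨_, h, by simp [mul_assoc]⟩
          have hYc : Nat.card Y = p ^ k := by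
            rw [← hk]
            have h1 : X.map (MulAut.conj c⁻¹).toMonoidHom ≤ M o := by
              intro z hz
              rw [Subgroup.mem_map] at hz
              obtain ⟨x, hx, rfl⟩ := hz
              simpa using hcc x hx
            calc Nat.card Y = Nat.card (X.map (MulAut.conj c⁻¹).toMonoidHom) :=
                  Nat.card_congr (Subgroup.subgroupOfEquivOfLe h1).toEquiv
              _ = Nat.card X := Nat.card_congr
                  (X.equivMapOfInjective _ (MulAut.conj c⁻¹).injective).symm.toEquiv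
          have hYs : Nat.card Y = p ^ (Nat.card (M o)).factorization p := by
            rw [hYc]
            congr 1
            apply le_antisymm
            · rw [← hp.out.pow_dvd_iff_le_factorization Nat.card_pos.ne']
              rw [← hYc]
              exact Subgroup.card_subgroup_dvd_card Y
            · by_contra hlt
              push Not at hlt
              apply hdvd
              exact (hp.out.pow_dvd_iff_le_factorization Nat.card_pos.ne').2 hlt
          exact ⟨Sylow.ofCard Y hYs, fun z => hYm z⟩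
        obtain ⟨P, hP⟩ := hsyl a ha
        obtain ⟨Q, hQ⟩ := hsyl b hb
        obtain ⟨m, hm⟩ := MulAction.exists_smul_eq (M o) Q P
        -- `n = a m b⁻¹` normalises `X` and maps the root `b` to the root `a`
        have hn : ∀ x, x ∈ X → (a * m * b⁻¹) * x * (a * m * b⁻¹)⁻¹ ∈ X := by
          intro x hx
          have hxM : b⁻¹ * x * b ∈ M o := fixV_vt.1 hb x hx
          have h1 : (⟨b⁻¹ * x * b, hxM⟩ : M o) ∈ Q := by
            rw [hQ]
            simpa [mul_assoc] using hx
          have h2 : m * (⟨b⁻¹ * x * b, hxM⟩ : M o) * m⁻¹ ∈ P := by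
            rw [← hm]
            have := Subgroup.smul_mem_pointwise_smul (⟨b⁻¹ * x * b, hxM⟩ : M o) (MulAut.conj m)
              (Q : Subgroup (M o)) h1
            exact this
          rw [hP] at h2
          have e1 : a * ((m * (⟨b⁻¹ * x * b, hxM⟩ : M o) * m⁻¹ : M o) : G) * a⁻¹
              = (a * m * b⁻¹) * x * (a * m * b⁻¹)⁻¹ := by
            push_cast
            group
          rwa [e1] at h2
        have hnN : (a * m * b⁻¹) ∈ normalizer (X : Set G) := by
          have hfin : Finite X := inferInstance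
          rw [Subgroup.mem_normalizer_iff]
          intro x
          constructor
          · exact hn x
          · intro hx
            -- the conjugation is injective on the finite set `X`, so surjective
            have hinj : Function.Injective
                (fun z : X => (⟨_, hn z z.2⟩ : X)) := by
              intro z z' h
              have := congrArg Subtype.val h
              simp only [mul_left_inj, mul_right_inj] at this
              exact Subtype.ext this
            obtain ⟨z, hz⟩ := (Finite.injective_iff_surjective.1 hinj) ⟨_, hx⟩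
            have h3 := congrArg Subtype.val hz
            simp only [mul_left_inj, mul_right_inj] at h3
            rw [← h3]
            exact z.2
        have hne : (a * m * b⁻¹) • e = e := hefix _ hnN
        have hnb : (a * m * b⁻¹) • vt M o b = vt M o a := by
          rw [smul_vt, eq_comm, vt_eq_iff]
          have : a⁻¹ * (a * m * b⁻¹ * b) = m := by group
          rw [this]
          exact m.2
        have hninv : ∀ x ∈ X, (a * m * b⁻¹)⁻¹ * x * (a * m * b⁻¹) ∈ X := by
          intro x hx
          have := (Subgroup.mem_normalizer_iff.1 (Subgroup.inv_mem _ hnN) x).1 hx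
          simpa using this
        have h5 := eqvGen_smul (o := o) (par := par) hninv hbe
        rw [hne, hnb] at h5
        exact Relation.EqvGen.symm _ _ h5
    -- all vertices
    have hall : ∀ u : Σ i, G ⧸ M i, FixV X u → Relation.EqvGen (AdjV H o par X) u e := by
      intro u hu
      obtain ⟨i, g, rfl⟩ := exists_vt u
      obtain ⟨a, ha, h1⟩ := T.climb hcop (rk i + 1) i g (Nat.lt_succ_self _) hu
      exact Relation.EqvGen.trans _ _ _ h1 (hroot a ha)
    intro u u' hu hu'
    exact Relation.EqvGen.trans _ _ _ (hall u hu) (Relation.EqvGen.symm _ _ (hall u' hu'))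

end MP_5771ce_al
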