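import Mathlib
import Pool.Agent.Lib.MP_5771ce_al.TreeConn

/-!
# Fixed points of one element: the inequality `θ(w) ≤ 1`
-/

open Subgroup

namespace MP_5771ce_al

variable {G : Type*} [Group G] {ι : Type*}
variable {M D H : ι → Subgroup G} {o : ι} {par : ι → ι} {rk : ι → ℕ}

/-- The hypotheses of the tree theorem. -/
structure TreeHyp (M D H : ι → Subgroup G) (o : ι) (par : ι → ι) (rk : ι → ℕ) : Prop extends
    TreeBase M D H o par rk where
  ne : ∀ i, i ≠ o → D i ≠ ⊥
  cop_root : ∀ i, i ≠ o → (Nat.card (D i)).Coprime (Nat.card (M o))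
  hall : ∀ i, i ≠ o → ∀ x : G, (orderOf x).Prime → orderOf x ∣ Nat.card (D i) →
    ∃ j, j ≠ o ∧ ∃ g : G, g⁻¹ * x * g ∈ D j
  uq : ∀ x : G, (orderOf x).Prime → ∀ (i : ι) (g : G),
    (∀ y ∈ normalizer (zpowers x : Set G), g⁻¹ * y * g ∈ M i) →
    ∀ j, j ≠ o → ∀ h : G, h⁻¹ * x * h ∈ M j → ∀ d : G, d ≠ 1 → h⁻¹ * d * h ∈ D j → d * x = x * d →
      i = j ∧ g⁻¹ * h ∈ M i
  ne_top : ∀ i, M i ≠ ⊤

theorem TreeBase.inf_eq_one (T : TreeBase M D H o par rk) [Finite G] {i : ι} (hi : i ≠ o)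
    {x : G} (hx : x ∈ D i) (hx' : x ∈ H i) : x = 1 := by
  have h1 : orderOf x ∣ Nat.card (D i) := Subgroup.orderOf_dvd_natCard _ hx
  have h2 : orderOf x ∣ Nat.card (H i) := Subgroup.orderOf_dvd_natCard _ hx'
  have h3 := Nat.dvd_gcd h1 h2
  rw [(T.cop i hi : Nat.gcd _ _ = 1)] at h3
  exact orderOf_eq_one_iff.1 (Nat.dvd_one.1 h3)

/-- Two `x`-fixed edges over the same vertex `y M_i` have a common upper end, or there is a
nontrivial element of `D_u` commuting with `x`. -/
theorem TreeBase.edge_unique [Finite G] (T : TreeBase M D H o par rk) {i : ι} (hi : i ≠ o)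
    {x y y' : G} (hy : y⁻¹ * x * y ∈ H i) (hy' : y'⁻¹ * x * y' ∈ H i) (hyy : y⁻¹ * y' ∈ M i)
    (hne : y⁻¹ * y' ∉ H i) :
    ∃ d : G, d ≠ 1 ∧ y⁻¹ * d * y ∈ D i ∧ d * x = x * d := by
  obtain ⟨d₀, hd₀, h, hh, e⟩ := T.mul i hi _ hyy
  refine ⟨y * d₀ * y⁻¹, ?_, by simpa [mul_assoc] using hd₀, ?_⟩
  · intro h1
    have : d₀ = 1 := by
      have := congrArg (fun z => y⁻¹ * z * y) h1
      simpa [mul_assoc] using this
    rw [this, one_mul] at e
    exact hne (e ▸ hh)
  · -- `y' = y d₀ h`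
    set z := y⁻¹ * x * y with hz
    have e1 : y' = y * (d₀ * h) := by rw [← e]; group
    have e2 : d₀⁻¹ * z * d₀ ∈ H i := by
      have e3 : y'⁻¹ * x * y' = h⁻¹ * (d₀⁻¹ * z * d₀) * h := by rw [e1, hz]; group
      rw [e3] at hy'
      have := (H i).mul_mem ((H i).mul_mem hh hy') ((H i).inv_mem hh)
      have e4 : h * (h⁻¹ * (d₀⁻¹ * z * d₀) * h) * h⁻¹ = d₀⁻¹ * z * d₀ := by group
      rwa [e4] at this
    have e5 : d₀⁻¹ * z * d₀ * z⁻¹ ∈ H i := (H i).mul_mem e2 ((H i).inv_mem hy)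
    have e6 : d₀⁻¹ * z * d₀ * z⁻¹ ∈ D i := by
      have : d₀⁻¹ * z * d₀ * z⁻¹ = d₀⁻¹ * (z * d₀ * z⁻¹) := by group
      rw [this]
      exact (D i).mul_mem ((D i).inv_mem hd₀) (T.norm i hi z (T.H_le i hi hy) d₀ hd₀)
    have e7 : d₀⁻¹ * z * d₀ * z⁻¹ = 1 := T.inf_eq_one hi e6 e5
    have e8 : z * d₀ = d₀ * z := by
      have := congrArg (fun t => d₀ * t * z) e7
      simpa [mul_assoc] using this
    have e9 : x = y * z * y⁻¹ := by rw [hz]; group
    rw [e9]
    calc y * d₀ * y⁻¹ * (y * z * y⁻¹) = y * (d₀ * z) * y⁻¹ := by group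
      _ = y * (z * d₀) * y⁻¹ := by rw [e8]
      _ = y * z * y⁻¹ * (y * d₀ * y⁻¹) := by group

/-- Upward chains in the graph fixed by `X`. -/
def Up (H : ι → Subgroup G) (o : ι) (par : ι → ι) (X : Subgroup G) (u u' : Σ i, G ⧸ M i) : Prop :=
  Relation.ReflTransGen (AdjV H o par X) u u'

theorem Up.smul {X : Subgroup G} {n : G} (hn : ∀ x ∈ X, n⁻¹ * x * n ∈ X)
    {u u' : Σ i, G ⧸ M i} (hu : Up H o par X u u') : Up H o par X (n • u) (n • u') := by
  unfold Up at *
  induction hu with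
  | refl => exact Relation.ReflTransGen.refl
  | tail _ h2 ih => exact Relation.ReflTransGen.tail ih (h2.smul hn)

/-- Roots have no parents. -/
theorem Up.eq_of_root {X : Subgroup G} {a : G} {u : Σ i, G ⧸ M i}
    (hu : Up H o par X (vt M o a) u) : u = vt M o a := by
  rcases Relation.ReflTransGen.cases_head hu with h | ⟨c, hc, _⟩
  · exact h.symm
  · obtain ⟨i, hi, y, _, h1, _⟩ := hc
    exact absurd (vt_eq h1).1.symm hi

variable [Finite G]

/-- Context: an element `x` of prime order and the vertex `e = (ie, ge)` containing its local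
subgroup. -/
structure TreeHyp.Ctx (T : TreeHyp M D H o par rk) (x : G) (ie : ι) (ge : G) : Prop where
  prime : (orderOf x).Prime
  loc : ∀ y ∈ normalizer (zpowers x : Set G), ge⁻¹ * y * ge ∈ M ie

omit [Finite G] in
theorem zpowers_forall_iff {x : G} {K : Subgroup G} {y : G} :
    (∀ z ∈ zpowers x, y⁻¹ * z * y ∈ K) ↔ y⁻¹ * x * y ∈ K := by
  constructor
  · intro h
    exact h x (mem_zpowers x)
  · intro h z hz
    obtain ⟨n, rfl⟩ := mem_zpowers_iff.1 hz
    have e : y⁻¹ * x ^ n * y = (y⁻¹ * x * y) ^ n := by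
      have := conj_zpow (i := n) (a := y⁻¹) (b := x)
      simpa using this.symm
    rw [e]
    exact K.zpow_mem h n

/-- Uniqueness of the fixed parent away from `e`. -/
theorem TreeHyp.parent_unique (T : TreeHyp M D H o par rk) {x : G} {ie : ι} {ge : G}
    (c : T.Ctx x ie ge) {u u₁ u₂ : Σ i, G ⧸ M i} (hu : u ≠ vt M ie ge)
    (h1 : AdjV H o par (zpowers x) u u₁) (h2 : AdjV H o par (zpowers x) u u₂) : u₁ = u₂ := by
  obtain ⟨i, hi, y, hy, rfl, rfl⟩ := h1
  obtain ⟨i', hi', y', hy', h3, rfl⟩ := h2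
  obtain ⟨rfl, h4⟩ := vt_eq h3
  by_cases hH : y⁻¹ * y' ∈ H i
  · exact vt_eq_iff.2 (T.H_par i hi hH)
  · exfalso
    obtain ⟨d, hd1, hdD, hdx⟩ := T.edge_unique hi (zpowers_forall_iff.1 hy)
      (zpowers_forall_iff.1 hy') h4 hH
    obtain ⟨rfl, h5⟩ := T.uq x c.prime ie ge c.loc i hi y
      (T.H_le i hi (zpowers_forall_iff.1 hy)) d hd1 hdD hdx
    exact hu (vt_eq_iff.2 (by simpa using (M ie).inv_mem h5))

/-- Below `e` in rank, the root above a vertex is unique. -/
theorem TreeHyp.up_unique (T : TreeHyp M D H o par rk) {x : G} {ie : ι} {ge : G}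
    (c : T.Ctx x ie ge) :
    ∀ (n : ℕ) (i : ι) (g a b : G), rk i < n → (ie ≠ o → rk i < rk ie) →
      Up H o par (zpowers x) (vt M i g) (vt M o a) →
      Up H o par (zpowers x) (vt M i g) (vt M o b) → vt M o a = vt M o b := by
  intro n
  induction n with
  | zero => intro i g a b h; omega
  | succ n ih =>
    intro i g a b hn hlt ha hb
    by_cases hi : i = o
    · subst hi
      rw [ha.eq_of_root, hb.eq_of_root]
    · have hne : vt M i g ≠ vt M ie ge := by
        intro h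
        obtain ⟨rfl, _⟩ := vt_eq h
        exact lt_irrefl _ (hlt hi)
      rcases Relation.ReflTransGen.cases_head ha with h | ⟨u₁, h1, h2⟩
      · exact absurd (vt_eq h).1 hi
      rcases Relation.ReflTransGen.cases_head hb with h | ⟨u₂, h3, h4⟩
      · exact absurd (vt_eq h).1 hi
      have h5 := T.parent_unique c hne h1 h3
      subst h5
      obtain ⟨i', hi', y, hy, e1, rfl⟩ := h1
      obtain ⟨rfl, _⟩ := vt_eq e1
      have hr := T.rk_par i hi
      exact ih (par i) y a b (by omega) (fun h => lt_trans hr (hlt h)) h2 h4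

/-- If the fixed graph is connected, every fixed root is above `e`. -/
theorem TreeHyp.root_above (T : TreeHyp M D H o par rk) {x : G} {ie : ι} {ge : G}
    (c : T.Ctx x ie ge)
    (hconn : ∀ u u' : Σ i, G ⧸ M i, FixV (zpowers x) u → FixV (zpowers x) u' →
      Relation.EqvGen (AdjV H o par (zpowers x)) u u')
    {a : G} (ha : FixV (zpowers x) (vt M o a)) :
    Up H o par (zpowers x) (vt M ie ge) (vt M o a) := by
  set e := vt M ie ge with he
  have hfe : FixV (zpowers x) e := fixV_vt.2 fun z hz =>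
    c.loc z (Subgroup.le_normalizer hz)
  have hP : ∀ u u' : Σ i, G ⧸ M i, Relation.EqvGen (AdjV H o par (zpowers x)) u u' →
      ((∀ b : G, Up H o par (zpowers x) u (vt M o b) → Up H o par (zpowers x) e (vt M o b)) ↔
       (∀ b : G, Up H o par (zpowers x) u' (vt M o b) → Up H o par (zpowers x) e (vt M o b))) := by
    intro u u' h
    induction h with
    | rel u u' h =>
      constructor
      · intro hu b hb
        exact hu b (Relation.ReflTransGen.head h hb)
      · intro hu b hb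
        by_cases hue : u = e
        · rw [← hue]; exact hb
        · rcases Relation.ReflTransGen.cases_head hb with h1 | ⟨u₁, h1, h2⟩
          · obtain ⟨i, hi, y, _, h3, _⟩ := h
            rw [h1] at h3
            exact absurd (vt_eq h3).1.symm hi
          · rw [T.parent_unique c hue h1 h] at h2
            exact hu b h2
    | refl => exact Iff.rfl
    | symm _ _ _ ih => exact ih.symm
    | trans _ _ _ _ _ ih1 ih2 => exact ih1.trans ih2
  have h1 := hP e (vt M o a) (hconn _ _ hfe ha)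
  exact (h1.1 fun b hb => hb) a Relation.ReflTransGen.refl

/-- The fibre lemma: over a `w`-fixed root above `e` there is a `w`-fixed edge at `e`. -/
theorem TreeHyp.fixed_edge (T : TreeHyp M D H o par rk) {x : G} {ie : ι} {ge : G}
    (c : T.Ctx x ie ge) (hie : ie ≠ o) {w : G} (hxw : x ∈ zpowers w)
    (hcop : (Nat.card (zpowers w)).Coprime (Nat.card (D ie))) {a : G}
    (haw : w • vt M o a = vt M o a)
    (hup : Up H o par (zpowers x) (vt M ie ge) (vt M o a)) :
    ∃ y : G, y⁻¹ * w * y ∈ H ie ∧ vt M ie y = vt M ie ge ∧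
      Up H o par (zpowers x) (vt M (par ie) y) (vt M o a) := by
  -- an `x`-fixed edge
  rcases Relation.ReflTransGen.cases_head hup with h | ⟨u₁, h1, h2⟩
  · exact absurd (vt_eq h).1 hie
  obtain ⟨i, hi, y, hy, e1, rfl⟩ := h1
  obtain ⟨rfl, e1'⟩ := vt_eq e1
  have hyx : y⁻¹ * x * y ∈ H ie := zpowers_forall_iff.1 hy
  have hcomm : ∀ z ∈ zpowers w, z * x = x * z := by
    intro z hz
    obtain ⟨m, rfl⟩ := mem_zpowers_iff.1 hz
    obtain ⟨n, rfl⟩ := mem_zpowers_iff.1 hxw
    rw [← zpow_add, ← zpow_add, add_comm]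
  -- elements of `⟨w⟩` fix `e`
  have hwe : ∀ z ∈ zpowers w, y⁻¹ * z * y ∈ M ie := by
    intro z hz
    have hzn : z ∈ normalizer (zpowers x : Set G) := by
      rw [Subgroup.mem_normalizer_iff]
      have hz' := hcomm z hz
      intro t
      constructor
      · intro ht
        obtain ⟨n, rfl⟩ := mem_zpowers_iff.1 ht
        have h5 : Commute z (x ^ n) := (show Commute z x from hz').zpow_right n
        rw [h5.eq, mul_inv_cancel_right]
        exact ht
      · intro ht
        obtain ⟨n, hn⟩ := mem_zpowers_iff.1 ht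
        have h5 : Commute z (x ^ n) := (show Commute z x from hz').zpow_right n
        have h6 : t = x ^ n := by
          have : t = z⁻¹ * (x ^ n) * z := by rw [hn]; group
          rw [this, mul_assoc, ← h5.eq]; group
        rw [h6]
        exact Subgroup.zpow_mem _ (mem_zpowers x) n
    have h3 := c.loc z hzn
    have h4 : y⁻¹ * z * y = (ge⁻¹ * y)⁻¹ * (ge⁻¹ * z * ge) * (ge⁻¹ * y) := by group
    rw [h4]
    exact (M ie).mul_mem ((M ie).mul_mem ((M ie).inv_mem e1') h3) e1'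
  have hwa : ∀ z ∈ zpowers w, z • vt M o a = vt M o a := by
    intro z hz
    have : w ∈ MulAction.stabilizer G (vt M o a) := haw
    have h3 : zpowers w ≤ MulAction.stabilizer G (vt M o a) := zpowers_le.2 this
    exact h3 hz
  -- the two subgroups
  let C₁ : Subgroup G :=
    { carrier := {d | y⁻¹ * d * y ∈ D ie ∧ d * x = x * d ∧ d • vt M o a = vt M o a}
      mul_mem' := by
        rintro d d' ⟨h3, h4, h5⟩ ⟨h6, h7, h8⟩
        refine ⟨?_, ?_, ?_⟩
        · have : y⁻¹ * (d * d') * y = (y⁻¹ * d * y) * (y⁻¹ * d' * y) := by group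
          rw [this]; exact (D ie).mul_mem h3 h6
        · rw [mul_assoc, h7, ← mul_assoc, h4, mul_assoc]
        · rw [mul_smul, h8, h5]
      one_mem' := ⟨by simp, by simp, by simp⟩
      inv_mem' := by
        rintro d ⟨h3, h4, h5⟩
        refine ⟨?_, ?_, ?_⟩
        · have : y⁻¹ * d⁻¹ * y = (y⁻¹ * d * y)⁻¹ := by group
          rw [this]; exact (D ie).inv_mem h3
        · exact ((show Commute d x from h4).inv_left).eq
        · rw [inv_smul_eq_iff, h5] }
  let K : Subgroup G :=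
    { carrier := {k | y⁻¹ * k * y ∈ H ie ∧ k * x = x * k ∧ k • vt M o a = vt M o a}
      mul_mem' := by
        rintro d d' ⟨h3, h4, h5⟩ ⟨h6, h7, h8⟩
        refine ⟨?_, ?_, ?_⟩
        · have : y⁻¹ * (d * d') * y = (y⁻¹ * d * y) * (y⁻¹ * d' * y) := by group
          rw [this]; exact (H ie).mul_mem h3 h6
        · rw [mul_assoc, h7, ← mul_assoc, h4, mul_assoc]
        · rw [mul_smul, h8, h5]
      one_mem' := ⟨by simp, by simp, by simp⟩
      inv_mem' := by
        rintro d ⟨h3, h4, h5⟩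
        refine ⟨?_, ?_, ?_⟩
        · have : y⁻¹ * d⁻¹ * y = (y⁻¹ * d * y)⁻¹ := by group
          rw [this]; exact (H ie).inv_mem h3
        · exact ((show Commute d x from h4).inv_left).eq
        · rw [inv_smul_eq_iff, h5] }
  have hnormC : ∀ k : G, y⁻¹ * k * y ∈ M ie → k * x = x * k → k • vt M o a = vt M o a →
      ∀ d ∈ C₁, k * d * k⁻¹ ∈ C₁ := by
    rintro k hk1 hk2 hk3 d ⟨h3, h4, h5⟩
    refine ⟨?_, ?_, ?_⟩
    · have : y⁻¹ * (k * d * k⁻¹) * y = (y⁻¹ * k * y) * (y⁻¹ * d * y) * (y⁻¹ * k * y)⁻¹ := by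
        group
      rw [this]
      exact T.norm ie hie _ hk1 _ h3
    · have c1 : Commute k x := hk2
      have c2 : Commute d x := h4
      exact ((c1.mul_left c2).mul_left c1.inv_left).eq
    · rw [mul_smul, mul_smul, inv_smul_eq_iff.2 hk3.symm, h5, hk3]
  have hmem : ∀ z ∈ zpowers w, ∃ d ∈ C₁, ∃ k ∈ K, z = d * k := by
    intro z hz
    obtain ⟨d₀, hd₀, h₀, hh₀, e2⟩ := T.mul ie hie _ (hwe z hz)
    have hzx := hcomm z hz
    -- `d₀` commutes with `y⁻¹ x y`
    set q := y⁻¹ * x * y with hq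
    have e3 : (d₀ * h₀) * q = q * (d₀ * h₀) := by
      rw [← e2, hq]
      calc y⁻¹ * z * y * (y⁻¹ * x * y) = y⁻¹ * (z * x) * y := by group
        _ = y⁻¹ * (x * z) * y := by rw [hzx]
        _ = y⁻¹ * x * y * (y⁻¹ * z * y) := by group
    have e4 : d₀⁻¹ * (q * d₀ * q⁻¹) = h₀ * q * h₀⁻¹ * q⁻¹ := by
      have e5 : q * d₀ = d₀ * h₀ * q * h₀⁻¹ := by rw [e3]; group
      rw [e5]; group
    have e6 : d₀⁻¹ * (q * d₀ * q⁻¹) = 1 := by
      apply T.inf_eq_one hie
      · exact (D ie).mul_mem ((D ie).inv_mem hd₀) (T.norm ie hie q (T.H_le ie hie hyx) d₀ hd₀)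
      · rw [e4]
        exact (H ie).mul_mem ((H ie).mul_mem ((H ie).mul_mem hh₀ hyx) ((H ie).inv_mem hh₀))
          ((H ie).inv_mem hyx)
    have e7 : Commute d₀ q := by
      have := congrArg (fun t => d₀ * t * q) e6
      have h7 : q * d₀ = d₀ * q := by simpa [mul_assoc] using this
      exact h7.symm
    have e8 : Commute h₀ q := by
      have h8 : h₀ * q * h₀⁻¹ * q⁻¹ = 1 := by rw [← e4, e6]
      have := congrArg (fun t => t * q * h₀) h8
      have h9 : h₀ * q = q * h₀ := by simpa [mul_assoc] using this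
      exact h9
    have hx : x = y * q * y⁻¹ := by rw [hq]; group
    have hdx : (y * d₀ * y⁻¹) * x = x * (y * d₀ * y⁻¹) := by
      rw [hx]
      calc y * d₀ * y⁻¹ * (y * q * y⁻¹) = y * (d₀ * q) * y⁻¹ := by group
        _ = y * (q * d₀) * y⁻¹ := by rw [e7.eq]
        _ = y * q * y⁻¹ * (y * d₀ * y⁻¹) := by group
    have hkx : (y * h₀ * y⁻¹) * x = x * (y * h₀ * y⁻¹) := by
      rw [hx]
      calc y * h₀ * y⁻¹ * (y * q * y⁻¹) = y * (h₀ * q) * y⁻¹ := by group
        _ = y * (q * h₀) * y⁻¹ := by rw [e8.eq]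
        _ = y * q * y⁻¹ * (y * h₀ * y⁻¹) := by group
    have hnk : ∀ k : G, k * x = x * k → ∀ t ∈ zpowers x, k⁻¹ * t * k ∈ zpowers x := by
      intro k hk t ht
      obtain ⟨n, rfl⟩ := mem_zpowers_iff.1 ht
      have h5 : Commute k (x ^ n) := (show Commute k x from hk).zpow_right n
      rw [mul_assoc, ← h5.eq, inv_mul_cancel_left]
      exact ht
    -- `k = y h₀ y⁻¹` fixes the root
    have hka : (y * h₀ * y⁻¹) • vt M o a = vt M o a := by
      have h3 := Up.smul (hnk _ hkx) h2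
      rw [smul_vt, smul_vt] at h3
      have h4 : vt M (par ie) (y * h₀ * y⁻¹ * y) = vt M (par ie) y := by
        rw [vt_eq_iff]
        have : (y * h₀ * y⁻¹ * y)⁻¹ * y = h₀⁻¹ := by group
        rw [this]
        exact T.H_par ie hie ((H ie).inv_mem hh₀)
      rw [h4] at h3
      have hr := T.rk_par ie hie
      exact T.up_unique c (rk (par ie) + 1) (par ie) y _ _ (Nat.lt_succ_self _)
        (fun _ => hr) h3 h2
    have hz3 : z = (y * d₀ * y⁻¹) * (y * h₀ * y⁻¹) := by
      have : z = y * (y⁻¹ * z * y) * y⁻¹ := by group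
      rw [this, e2]; group
    have hda : (y * d₀ * y⁻¹) • vt M o a = vt M o a := by
      have h3 := hwa z hz
      rw [hz3, mul_smul, hka] at h3
      exact h3
    exact ⟨y * d₀ * y⁻¹, ⟨by simpa [mul_assoc] using hd₀, hdx, hda⟩,
      y * h₀ * y⁻¹, ⟨by simpa [mul_assoc] using hh₀, hkx, hka⟩, hz3⟩
  have hC₁card : Nat.card C₁ ∣ Nat.card (D ie) := by
    have hle : C₁.map (MulAut.conj y⁻¹).toMonoidHom ≤ D ie := by
      intro z hz
      rw [Subgroup.mem_map] at hz
      obtain ⟨d, hd, rfl⟩ := hz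
      simpa using hd.1
    have h3 := Subgroup.card_dvd_of_le hle
    rwa [Nat.card_congr (C₁.equivMapOfInjective _ (MulAut.conj y⁻¹).injective).symm.toEquiv] at h3
  obtain ⟨s, hs, hsw⟩ := sz_conj (D := C₁) (H := K) (W := zpowers w)
    (by
      rintro d ⟨h3, _, _⟩ d' ⟨h4, _, _⟩
      have h5 := T.comm ie hie _ h3 _ h4
      have := congrArg (fun t => y * t * y⁻¹) h5
      simpa [mul_assoc] using this)
    (fun z hz d hd => hnormC z (hwe z hz) (hcomm z hz) (hwa z hz) d hd)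
    (fun k hk d hd => hnormC k (T.H_le ie hie hk.1) hk.2.1 hk.2.2 d hd)
    (by
      rintro z ⟨h3, _, _⟩ ⟨h4, _, _⟩
      have h5 := T.inf_eq_one hie h3 h4
      have := congrArg (fun t => y * t * y⁻¹) h5
      simpa [mul_assoc] using this)
    hmem (Nat.Coprime.coprime_dvd_right hC₁card hcop)
  obtain ⟨hs1, hs2, hs3⟩ := hs
  refine ⟨s * y, ?_, ?_, ?_⟩
  · have h3 := (hsw w (mem_zpowers w)).1
    have h4 : (s * y)⁻¹ * w * (s * y) = y⁻¹ * (s⁻¹ * w * s) * y := by group
    rwa [h4]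
  · rw [e1, vt_eq_iff]
    have h3 : (s * y)⁻¹ * y = (y⁻¹ * s * y)⁻¹ := by group
    rw [h3]
    exact (M ie).inv_mem (T.D_le ie hie hs1)
  · have hns : ∀ t ∈ zpowers x, s⁻¹ * t * s ∈ zpowers x := by
      intro t ht
      obtain ⟨n, rfl⟩ := mem_zpowers_iff.1 ht
      have h5 : Commute s (x ^ n) := (show Commute s x from hs2).zpow_right n
      rw [mul_assoc, ← h5.eq, inv_mul_cancel_left]
      exact ht
    have h3 := Up.smul hns h2
    rwa [smul_vt, hs3] at h3

end MP_5771ce_al
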