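import Mathlib
import Pool.Agent.Lib.MP_5771ce_al.TreeCount
import Pool.Agent.Lib.MP_5771ce_al.Prime

/-!
# The tree theorem

For `w ≠ 1` the number of fixed vertices is at most the number of fixed edges plus one; counting
over all `w` contradicts `1/|M_o| + ∑ (1/|M_i| - 1/|H_i|) ≤ 0`.
-/

open Subgroup

namespace MP_5771ce_al

variable {G : Type*} [Group G] {ι : Type*}
variable {M D H : ι → Subgroup G} {o : ι} {par : ι → ι} {rk : ι → ℕ}

theorem smul_mk_eq_iff {K : Subgroup G} {w y : G} :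
    w • (y : G ⧸ K) = (y : G ⧸ K) ↔ y⁻¹ * w * y ∈ K := by
  rw [MulAction.Quotient.smul_coe, smul_eq_mul, eq_comm, QuotientGroup.eq, mul_assoc]

/-- Number of fixed cosets. -/
noncomputable def nfix (K : Subgroup G) (w : G) : ℕ := Nat.card (MulAction.fixedBy (G ⧸ K) w)

theorem card_le_of_forall_exists {α β : Type*} [Finite α] [Finite β] (f : α → β)
    (h : ∀ b, ∃ a, f a = b) : Nat.card β ≤ Nat.card α :=
  Nat.card_le_card_of_surjective f h

theorem mem_fixedBy_mk {K : Subgroup G} {w y : G} (h : y⁻¹ * w * y ∈ K) :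
    (y : G ⧸ K) ∈ MulAction.fixedBy (G ⧸ K) w := smul_mk_eq_iff.2 h

theorem exists_rep {K : Subgroup G} {w : G} (q : MulAction.fixedBy (G ⧸ K) w) :
    ∃ (y : G) (h : y⁻¹ * w * y ∈ K), q = ⟨(y : G ⧸ K), mem_fixedBy_mk h⟩ := by
  obtain ⟨q, hq⟩ := q
  obtain ⟨y, rfl⟩ := QuotientGroup.mk_surjective q
  exact ⟨y, smul_mk_eq_iff.1 hq, rfl⟩

variable [Finite G]

/-- Fixed vertices versus fixed edges for one type, no exception. -/
theorem nfix_le (T : TreeBase M D H o par rk) {i : ι} (hi : i ≠ o) {w : G}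
    (h : ∀ g : G, g⁻¹ * w * g ∈ M i → ∃ y : G, y⁻¹ * w * y ∈ H i ∧ g⁻¹ * y ∈ M i) :
    nfix (M i) w ≤ nfix (H i) w := by
  classical
  unfold nfix
  choose! F hF1 hF2 using h
  refine Nat.card_le_card_of_injective
    (fun q : MulAction.fixedBy (G ⧸ M i) w =>
      (⟨((F (Quotient.out q.1) : G) : G ⧸ H i), mem_fixedBy_mk (hF1 _ ?_)⟩ :
        MulAction.fixedBy (G ⧸ H i) w)) ?_
  · have h1 := q.2
    rw [MulAction.mem_fixedBy] at h1
    rw [← smul_mk_eq_iff]
    rw [QuotientGroup.out_eq']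
    exact h1
  · intro q q' h1
    have h2 := congrArg Subtype.val h1
    simp only at h2
    rw [QuotientGroup.eq] at h2
    have hq : (Quotient.out q.1)⁻¹ * w * (Quotient.out q.1) ∈ M i := by
      rw [← smul_mk_eq_iff, QuotientGroup.out_eq']; exact q.2
    have hq' : (Quotient.out q'.1)⁻¹ * w * (Quotient.out q'.1) ∈ M i := by
      rw [← smul_mk_eq_iff, QuotientGroup.out_eq']; exact q'.2
    have h3 := hF2 _ hq
    have h4 := hF2 _ hq'
    apply Subtype.ext
    rw [← QuotientGroup.out_eq' q.1, ← QuotientGroup.out_eq' q'.1, QuotientGroup.eq]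
    have e : (Quotient.out q.1)⁻¹ * Quotient.out q'.1 =
        ((Quotient.out q.1)⁻¹ * F (Quotient.out q.1)) *
        ((F (Quotient.out q.1))⁻¹ * F (Quotient.out q'.1)) *
        ((Quotient.out q'.1)⁻¹ * F (Quotient.out q'.1))⁻¹ := by group
    rw [e]
    exact (M i).mul_mem ((M i).mul_mem h3 (T.H_le i hi h2)) ((M i).inv_mem h4)

/-- General injection: fixed vertices of type `i`, all but possibly the vertex `e = g₀ M_i`, and
fixed roots are injected into the fixed edges of type `i`, plus one. -/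
theorem nfix_add_le (T : TreeBase M D H o par rk) {i : ι} (hi : i ≠ o) {w g₀ : G}
    (h : ∀ g : G, g⁻¹ * w * g ∈ M i → g⁻¹ * g₀ ∉ M i →
      ∃ y : G, y⁻¹ * w * y ∈ H i ∧ g⁻¹ * y ∈ M i)
    (R : G → G → Prop)
    (hR : ∀ a : G, a⁻¹ * w * a ∈ M o → ∃ y : G, y⁻¹ * w * y ∈ H i ∧ g₀⁻¹ * y ∈ M i ∧ R a y)
    (hR' : ∀ a b y y' : G, R a y → R b y' → y⁻¹ * y' ∈ H i → a⁻¹ * b ∈ M o) :
    nfix (M i) w + nfix (M o) w ≤ nfix (H i) w + 1 := by
  classical
  unfold nfix
  choose! F hF1 hF2 using h
  choose! F' hG1 hG2 hG3 using hR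
  have hv : ∀ q : MulAction.fixedBy (G ⧸ M i) w,
      (Quotient.out q.1)⁻¹ * w * (Quotient.out q.1) ∈ M i := by
    intro q
    rw [← smul_mk_eq_iff, QuotientGroup.out_eq']; exact q.2
  have hr : ∀ q : MulAction.fixedBy (G ⧸ M o) w,
      (Quotient.out q.1)⁻¹ * w * (Quotient.out q.1) ∈ M o := by
    intro q
    rw [← smul_mk_eq_iff, QuotientGroup.out_eq']; exact q.2
  let Φ : (MulAction.fixedBy (G ⧸ M i) w) ⊕ (MulAction.fixedBy (G ⧸ M o) w) →
      Option (MulAction.fixedBy (G ⧸ H i) w) := fun z =>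
    match z with
    | Sum.inl q => if hq : (Quotient.out q.1)⁻¹ * g₀ ∈ M i then none else
        some ⟨((F (Quotient.out q.1) : G) : G ⧸ H i), mem_fixedBy_mk (hF1 _ (hv q) hq)⟩
    | Sum.inr q => some ⟨((F' (Quotient.out q.1) : G) : G ⧸ H i), mem_fixedBy_mk (hG1 _ (hr q))⟩
  have hinj : Function.Injective Φ := by
    rintro (q | q) (q' | q') hqq
    · by_cases hq : (Quotient.out q.1)⁻¹ * g₀ ∈ M i
      · by_cases hq' : (Quotient.out q'.1)⁻¹ * g₀ ∈ M i
        · congr 1
          apply Subtype.ext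
          rw [← QuotientGroup.out_eq' q.1, ← QuotientGroup.out_eq' q'.1, QuotientGroup.eq]
          have e : (Quotient.out q.1)⁻¹ * Quotient.out q'.1 =
            ((Quotient.out q.1)⁻¹ * g₀) * ((Quotient.out q'.1)⁻¹ * g₀)⁻¹ := by group
          rw [e]
          exact (M i).mul_mem hq ((M i).inv_mem hq')
        · simp only [Φ, dif_pos hq, dif_neg hq'] at hqq
          exact absurd hqq (by simp)
      · by_cases hq' : (Quotient.out q'.1)⁻¹ * g₀ ∈ M i
        · simp only [Φ, dif_pos hq', dif_neg hq] at hqq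
          exact absurd hqq (by simp)
        · simp only [Φ, dif_neg hq, dif_neg hq', Option.some.injEq, Subtype.mk.injEq] at hqq
          rw [QuotientGroup.eq] at hqq
          congr 1
          apply Subtype.ext
          rw [← QuotientGroup.out_eq' q.1, ← QuotientGroup.out_eq' q'.1, QuotientGroup.eq]
          have e : (Quotient.out q.1)⁻¹ * Quotient.out q'.1 =
            ((Quotient.out q.1)⁻¹ * F (Quotient.out q.1)) *
            ((F (Quotient.out q.1))⁻¹ * F (Quotient.out q'.1)) *
            ((Quotient.out q'.1)⁻¹ * F (Quotient.out q'.1))⁻¹ := by group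
          rw [e]
          exact (M i).mul_mem ((M i).mul_mem (hF2 _ (hv q) hq) (T.H_le i hi hqq))
            ((M i).inv_mem (hF2 _ (hv q') hq'))
    · by_cases hq : (Quotient.out q.1)⁻¹ * g₀ ∈ M i
      · simp only [Φ, dif_pos hq] at hqq
        exact absurd hqq (by simp)
      · exfalso
        simp only [Φ, dif_neg hq, Option.some.injEq, Subtype.mk.injEq] at hqq
        rw [QuotientGroup.eq] at hqq
        apply hq
        have e : (Quotient.out q.1)⁻¹ * g₀ =
            ((Quotient.out q.1)⁻¹ * F (Quotient.out q.1)) *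
            ((F (Quotient.out q.1))⁻¹ * F' (Quotient.out q'.1)) *
            (g₀⁻¹ * F' (Quotient.out q'.1))⁻¹ := by group
        rw [e]
        exact (M i).mul_mem ((M i).mul_mem (hF2 _ (hv q) hq) (T.H_le i hi hqq))
            ((M i).inv_mem (hG2 _ (hr q')))
    · by_cases hq : (Quotient.out q'.1)⁻¹ * g₀ ∈ M i
      · simp only [Φ, dif_pos hq] at hqq
        exact absurd hqq (by simp)
      · exfalso
        simp only [Φ, dif_neg hq, Option.some.injEq, Subtype.mk.injEq] at hqq
        rw [QuotientGroup.eq] at hqq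
        apply hq
        have e : (Quotient.out q'.1)⁻¹ * g₀ =
            ((Quotient.out q'.1)⁻¹ * F (Quotient.out q'.1)) *
            ((F' (Quotient.out q.1))⁻¹ * F (Quotient.out q'.1))⁻¹ *
            (g₀⁻¹ * F' (Quotient.out q.1))⁻¹ := by group
        rw [e]
        exact (M i).mul_mem ((M i).mul_mem (hF2 _ (hv q') hq)
          ((M i).inv_mem (T.H_le i hi hqq))) ((M i).inv_mem (hG2 _ (hr q)))
    · simp only [Φ, Option.some.injEq, Subtype.mk.injEq] at hqq
      rw [QuotientGroup.eq] at hqq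
      congr 1
      apply Subtype.ext
      rw [← QuotientGroup.out_eq' q.1, ← QuotientGroup.out_eq' q'.1, QuotientGroup.eq]
      exact hR' _ _ _ _ (hG3 _ (hr q)) (hG3 _ (hr q')) hqq
  have h1 := Nat.card_le_card_of_injective Φ hinj
  rw [Nat.card_sum] at h1
  have h2 : Nat.card (Option (MulAction.fixedBy (G ⧸ H i) w)) =
      Nat.card (MulAction.fixedBy (G ⧸ H i) w) + 1 := by
    have : Fintype (MulAction.fixedBy (G ⧸ H i) w) := Fintype.ofFinite _
    rw [Nat.card_eq_fintype_card, Fintype.card_option, Nat.card_eq_fintype_card]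
  rw [h2] at h1
  exact h1

/-- An element of prime order `l ∣ |D i|` of `M i` lies in `D i`. -/
theorem TreeBase.mem_D (T : TreeBase M D H o par rk) {i : ι} (hi : i ≠ o) {m : G} (hm : m ∈ M i)
    (hd : orderOf m ∣ Nat.card (D i)) : m ∈ D i := by
  obtain ⟨d, hdD, h, hhH, e⟩ := T.mul i hi m hm
  have hpow : ∀ n : ℕ, ∃ δ ∈ D i, m ^ n = δ * h ^ n := by
    intro n
    induction n with
    | zero => exact ⟨1, (D i).one_mem, by simp⟩
    | succ n ih =>
      obtain ⟨δ, hδ, h1⟩ := ih
      refine ⟨δ * (h ^ n * d * (h ^ n)⁻¹), (D i).mul_mem hδ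
        (T.norm i hi _ ((M i).pow_mem (T.H_le i hi hhH) n) _ hdD), ?_⟩
      rw [pow_succ, h1, e, pow_succ]
      group
  obtain ⟨δ, hδ, h1⟩ := hpow (orderOf m)
  rw [pow_orderOf_eq_one] at h1
  have h2 : h ^ orderOf m = δ⁻¹ := by
    rw [eq_comm, inv_eq_iff_mul_eq_one, ← h1]
  have h3 : h ^ orderOf m = 1 :=
    T.inf_eq_one hi (h2 ▸ (D i).inv_mem hδ) ((H i).pow_mem hhH _)
  have h4 : orderOf h ∣ orderOf m := orderOf_dvd_of_pow_eq_one h3
  have h5 : orderOf h ∣ Nat.card (H i) := Subgroup.orderOf_dvd_natCard _ hhH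
  have h6 : orderOf h = 1 := by
    have h7 := Nat.dvd_gcd (h4.trans hd) h5
    rw [(T.cop i hi : Nat.gcd _ _ = 1)] at h7
    exact Nat.dvd_one.1 h7
  rw [orderOf_eq_one_iff] at h6
  rw [e, h6, mul_one]
  exact hdD

omit [Finite G] in
theorem mem_zpowers_conj {K : Subgroup G} {w x g : G} (hx : x ∈ zpowers w)
    (hw : g⁻¹ * w * g ∈ K) : g⁻¹ * x * g ∈ K :=
  (zpowers_forall_iff (x := w) (K := K) (y := g)).2 hw x hx

/-- An element of prime order in a cyclic group. -/
theorem exists_prime_power_mem {w : G} {l : ℕ} (hd : l ∣ orderOf w) :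
    ∃ x ∈ zpowers w, orderOf x = l := by
  obtain ⟨k, hk⟩ := hd
  have hpos := orderOf_pos w
  have hk0 : k ≠ 0 := by
    rintro rfl
    rw [mul_zero] at hk
    omega
  refine ⟨w ^ k, Subgroup.pow_mem _ (mem_zpowers w) k, ?_⟩
  rw [orderOf_pow' w hk0, hk, Nat.gcd_eq_right (Dvd.intro_left l rfl), Nat.mul_div_cancel]
  exact Nat.pos_of_ne_zero hk0

omit [Finite G] in
theorem orderOf_conj' (g x : G) : orderOf (g⁻¹ * x * g) = orderOf x := by
  have : g⁻¹ * x * g = MulAut.conj g⁻¹ x := by simp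
  rw [this]
  exact orderOf_injective (MulAut.conj g⁻¹).toMonoidHom (MulAut.conj g⁻¹).injective x

/-- **Key inequality**, in the form: per type, with one exceptional type. -/
theorem TreeHyp.theta (T : TreeHyp M D H o par rk) {w : G} (hw : w ≠ 1) :
    ∃ j, (∀ i, i ≠ o → i ≠ j → nfix (M i) w ≤ nfix (H i) w) ∧
      ((j = o ∧ nfix (M o) w ≤ 1) ∨
        (j ≠ o ∧ nfix (M j) w + nfix (M o) w ≤ nfix (H j) w + 1)) := by
  have hcw : Nat.card (zpowers w) = orderOf w := Nat.card_zpowers w
  by_cases hI : ∃ l : ℕ, l.Prime ∧ l ∣ orderOf w ∧ ∃ i, i ≠ o ∧ l ∣ Nat.card (D i)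
  · -- Case I
    obtain ⟨l, hl, hlw, i₀, hi₀, hli⟩ := hI
    have : Fact l.Prime := ⟨hl⟩
    obtain ⟨x, hxw, hxl⟩ := exists_prime_power_mem hlw
    obtain ⟨j, hj, g, hg⟩ := T.hall i₀ hi₀ x (hxl ▸ hl) (hxl ▸ hli)
    have hx1 : x ≠ 1 := by
      intro h; rw [h, orderOf_one] at hxl; exact hl.one_lt.ne hxl
    obtain ⟨ie, ge, hloc⟩ := T.loc l hl (zpowers x)
      (IsPGroup.of_card (n := 1) (by rw [Nat.card_zpowers, hxl, pow_one]))
      (by rw [Ne, zpowers_eq_bot]; exact hx1)
    obtain ⟨rfl, hgg⟩ := T.uq x (hxl ▸ hl) ie ge hloc j hj g (T.D_le j hj hg) x hx1 hg rfl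
    -- the vertices different from `e`
    have hne : ∀ i, i ≠ o → ∀ g' : G, g'⁻¹ * w * g' ∈ M i →
        ¬ (ie = i ∧ ge⁻¹ * g' ∈ M ie) → ∃ y : G, y⁻¹ * w * y ∈ H i ∧ g'⁻¹ * y ∈ M i := by
      intro i hi g' hg' hcon
      have hcop : (Nat.card (zpowers w)).Coprime (Nat.card (D i)) := by
        rw [hcw]
        by_contra hnc
        obtain ⟨l', hl', h1, h2⟩ := Nat.Prime.not_coprime_iff_dvd.1 hnc
        obtain ⟨x', hx'w, hx'l⟩ := exists_prime_power_mem h1
        apply hcon
        have hx'1 : x' ≠ 1 := by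
          intro h; rw [h, orderOf_one] at hx'l; exact hl'.one_lt.ne hx'l
        have hx'M : g'⁻¹ * x' * g' ∈ M i := mem_zpowers_conj hx'w hg'
        refine T.uq x (hxl ▸ hl) ie ge hloc i hi g' (mem_zpowers_conj hxw hg') x' hx'1
          (T.mem_D hi hx'M (by rw [orderOf_conj', hx'l]; exact h2)) ?_
        obtain ⟨m, rfl⟩ := mem_zpowers_iff.1 hx'w
        obtain ⟨n, rfl⟩ := mem_zpowers_iff.1 hxw
        rw [← zpow_add, ← zpow_add, add_comm]
      obtain ⟨y, hy, e⟩ := T.exists_parent hi hcop (g := g')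
        (fixV_vt.2 (zpowers_forall_iff.2 hg'))
      exact ⟨y, zpowers_forall_iff.1 hy, vt_eq_iff.1 e⟩
    refine ⟨ie, fun i hi hij => nfix_le T.toTreeBase hi fun g' hg' =>
      hne i hi g' hg' fun h => hij h.1.symm, Or.inr ⟨hj, ?_⟩⟩
    refine nfix_add_le T.toTreeBase hj (g₀ := ge) (fun g' hg' h1 => hne ie hj g' hg' ?_)
      (fun _ _ => False) ?_ ?_
    · rintro ⟨_, h2⟩
      exact h1 (by simpa using (M ie).inv_mem h2)
    · intro a ha
      exfalso
      have h1 : a⁻¹ * x * a ∈ M o := mem_zpowers_conj hxw ha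
      have h2 : orderOf (a⁻¹ * x * a) ∣ Nat.card (M o) := Subgroup.orderOf_dvd_natCard _ h1
      rw [orderOf_conj', hxl] at h2
      have h3 := Nat.dvd_gcd hli h2
      rw [(T.cop_root i₀ hi₀ : Nat.gcd _ _ = 1)] at h3
      exact hl.one_lt.ne (Nat.dvd_one.1 h3).symm
    · intro a b y y' h _ _
      exact h.elim
  · -- Case II
    push Not at hI
    have hcop : ∀ i, i ≠ o → (Nat.card (zpowers w)).Coprime (Nat.card (D i)) := by
      intro i hi
      rw [hcw]
      by_contra hnc
      obtain ⟨l', hl', h1, h2⟩ := Nat.Prime.not_coprime_iff_dvd.1 hnc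
      exact hI l' hl' h1 i hi h2
    have hw1 : orderOf w ≠ 1 := by rwa [Ne, orderOf_eq_one_iff]
    obtain ⟨l, hl, hlw⟩ := Nat.exists_prime_and_dvd hw1
    have : Fact l.Prime := ⟨hl⟩
    obtain ⟨x, hxw, hxl⟩ := exists_prime_power_mem hlw
    have hx1 : x ≠ 1 := by
      intro h; rw [h, orderOf_one] at hxl; exact hl.one_lt.ne hxl
    have hxp : IsPGroup l (zpowers x) :=
      IsPGroup.of_card (n := 1) (by rw [Nat.card_zpowers, hxl, pow_one])
    have hxb : zpowers x ≠ ⊥ := by rw [Ne, zpowers_eq_bot]; exact hx1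
    obtain ⟨ie, ge, hloc⟩ := T.loc l hl (zpowers x) hxp hxb
    have c : T.Ctx x ie ge := ⟨hxl ▸ hl, hloc⟩
    have hconn := T.conn (p := l) (fun i hi h => hI l hl hlw i hi h) (Nat.card G + 1) (zpowers x)
      (by omega) hxp hxb
    have hedge : ∀ i, i ≠ o → ∀ g' : G, g'⁻¹ * w * g' ∈ M i →
        ∃ y : G, y⁻¹ * w * y ∈ H i ∧ g'⁻¹ * y ∈ M i := by
      intro i hi g' hg'
      obtain ⟨y, hy, e⟩ := T.exists_parent hi (hcop i hi) (g := g')
        (fixV_vt.2 (zpowers_forall_iff.2 hg'))
      exact ⟨y, zpowers_forall_iff.1 hy, vt_eq_iff.1 e⟩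
    have hup : ∀ a : G, a⁻¹ * w * a ∈ M o →
        Up H o par (zpowers x) (vt M ie ge) (vt M o a) := by
      intro a ha
      exact T.root_above c hconn (fixV_vt.2 (zpowers_forall_iff.2 (mem_zpowers_conj hxw ha)))
    refine ⟨ie, fun i hi _ => nfix_le T.toTreeBase hi (hedge i hi), ?_⟩
    by_cases hie : ie = o
    · left
      refine ⟨hie, ?_⟩
      subst hie
      unfold nfix
      rw [← Nat.card_unique (α := Unit)]
      refine Nat.card_le_card_of_injective (fun _ => ()) ?_
      intro q q' _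
      obtain ⟨y, hy, rfl⟩ := exists_rep q
      obtain ⟨y', hy', rfl⟩ := exists_rep q'
      have h1 := (hup y hy).eq_of_root
      have h2 := (hup y' hy').eq_of_root
      have h3 := vt_eq_iff.1 (h1.trans h2.symm)
      exact Subtype.ext (QuotientGroup.eq.2 h3)
    · right
      refine ⟨hie, ?_⟩
      refine nfix_add_le T.toTreeBase hie (g₀ := ge) (fun g' hg' _ => hedge ie hie g' hg')
        (fun a y => Up H o par (zpowers x) (vt M (par ie) y) (vt M o a)) ?_ ?_
      · intro a ha
        obtain ⟨y, h1, h2, h3⟩ := T.fixed_edge c hie hxw (hcop ie hie)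
          (smul_vt_eq_iff.2 ha) (hup a ha)
        exact ⟨y, h1, vt_eq_iff.1 h2.symm, h3⟩
      · intro a b y y' ha hb hyy
        have h1 : vt M (par ie) y' = vt M (par ie) y :=
          (vt_eq_iff.2 (T.H_par ie hie hyy)).symm
        rw [h1] at hb
        have hr := T.rk_par ie hie
        exact vt_eq_iff.1 (T.up_unique c (rk (par ie) + 1) (par ie) y a b (Nat.lt_succ_self _)
          (fun _ => hr) ha hb)

theorem sum_nfix [Fintype G] (K : Subgroup G) : ∑ w : G, nfix K w = Nat.card G :=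
  sum_fixedBy (G := G) (Ω := G ⧸ K)

omit [Finite G] in
theorem nfix_one (K : Subgroup G) : nfix K 1 = K.index := by
  unfold nfix Subgroup.index
  have : MulAction.fixedBy (G ⧸ K) (1 : G) = Set.univ := by
    ext i; simp
  rw [this, Nat.card_univ]

theorem two_mul_index_le {A B : Subgroup G} (h : A ≤ B) (hne : ¬ B ≤ A) :
    2 * B.index ≤ A.index := by
  have h1 := Subgroup.relIndex_mul_index h
  have h2 : A.relIndex B ≠ 1 := by
    rw [Ne, Subgroup.relIndex_eq_one]; exact hne
  have h3 : A.relIndex B ≠ 0 := by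
    intro h0
    rw [h0, zero_mul] at h1
    exact Subgroup.index_ne_zero_of_finite h1.symm
  rw [← h1]
  exact Nat.mul_le_mul_right _ (by omega)

omit [Finite G] in
/-- The numerical step: either the vertices are at most as heavy as the edges, or the types form a
chain and one of the `M i` contains all of them. -/
theorem tree_num (M : ι → Subgroup G) (par : ι → ι) (rk : ι → ℕ) (x y : ι → ℕ)
    [DecidableEq ι] : ∀ (n : ℕ) (I : Finset ι) (o : ι), I.card = n → o ∉ I →
      (∀ i ∈ I, par i = o ∨ par i ∈ I) → (∀ i ∈ I, rk (par i) < rk i) →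
      (∀ i ∈ I, 2 * x i ≤ y i) →
      (∀ i ∈ I, 2 * x (par i) ≤ y i ∨ (y i = x (par i) ∧ M (par i) ≤ M i)) →
      x o + ∑ i ∈ I, x i ≤ ∑ i ∈ I, y i ∨ ∃ m, ∀ i, (i = o ∨ i ∈ I) → M i ≤ M m := by
  intro n
  induction n with
  | zero =>
    intro I o hn _ _ _ _ _
    right
    rw [Finset.card_eq_zero] at hn
    subst hn
    refine ⟨o, fun i hi => ?_⟩
    rcases hi with rfl | hi
    · exact le_rfl
    · exact absurd hi (Finset.notMem_empty _)
  | succ n ih =>
    intro I o hn ho hpar hrk h2 hy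
    have hne : I.Nonempty := by
      rw [← Finset.card_pos]; omega
    -- a child of the root
    obtain ⟨j, hj, hjmin⟩ := Finset.exists_min_image I rk hne
    have hjo : par j = o := by
      rcases hpar j hj with h | h
      · exact h
      · exact absurd (hjmin _ h) (not_le.2 (hrk j hj))
    have hsum : 2 * ∑ i ∈ I, x i ≤ ∑ i ∈ I, y i := by
      rw [Finset.mul_sum]
      exact Finset.sum_le_sum h2
    by_cases hA : ∃ i ∈ I, par i = o ∧ 2 * x o ≤ y i
    · left
      obtain ⟨i, hi, _, hio⟩ := hA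
      have h3 : y i ≤ ∑ i ∈ I, y i := Finset.single_le_sum (fun _ _ => Nat.zero_le _) hi
      omega
    · push Not at hA
      have hB : ∀ i ∈ I, par i = o → y i = x o ∧ M o ≤ M i := by
        intro i hi hio
        rcases hy i hi with h | h
        · rw [hio] at h
          exact absurd h (not_le.2 (hA i hi hio))
        · rwa [hio] at h
      by_cases hC : ∃ i ∈ I, i ≠ j ∧ par i = o
      · left
        obtain ⟨i, hi, hij, hio⟩ := hC
        have h3 : y i + y j ≤ ∑ i ∈ I, y i := by
          rw [← Finset.add_sum_erase I y hj]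
          have h4 : y i ≤ ∑ i ∈ I.erase j, y i :=
            Finset.single_le_sum (fun _ _ => Nat.zero_le _) (Finset.mem_erase.2 ⟨hij, hi⟩)
          omega
        have h4 := (hB i hi hio).1
        have h5 := (hB j hj hjo).1
        omega
      · push Not at hC
        have hsub := ih (I.erase j) j (by rw [Finset.card_erase_of_mem hj]; omega)
          (Finset.notMem_erase j I)
          (by
            intro i hi
            rw [Finset.mem_erase] at hi
            rcases hpar i hi.2 with h | h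
            · exact absurd h (hC i hi.2 hi.1)
            · by_cases h' : par i = j
              · exact Or.inl h'
              · exact Or.inr (Finset.mem_erase.2 ⟨h', h⟩))
          (fun i hi => hrk i (Finset.mem_of_mem_erase hi))
          (fun i hi => h2 i (Finset.mem_of_mem_erase hi))
          (fun i hi => hy i (Finset.mem_of_mem_erase hi))
        obtain ⟨hjx, hjM⟩ := hB j hj hjo
        rcases hsub with h | ⟨m, hm⟩
        · left
          rw [← Finset.add_sum_erase I y hj, ← Finset.add_sum_erase I x hj]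
          omega
        · right
          refine ⟨m, fun i hi => ?_⟩
          rcases hi with rfl | hi
          · exact hjM.trans (hm j (Or.inl rfl))
          · by_cases hij : i = j
            · exact hm i (Or.inl hij)
            · exact hm i (Or.inr (Finset.mem_erase.2 ⟨hij, hi⟩))

/-- If all `M i` lie in `M m` then `M m = ⊤`. -/
theorem TreeBase.eq_top (T : TreeBase M D H o par rk) {m : ι} (hm : ∀ i, M i ≤ M m) :
    M m = ⊤ := by
  rw [← Subgroup.index_eq_one]
  by_contra hne
  obtain ⟨p, hp, hdvd⟩ := Nat.exists_prime_and_dvd hne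
  have : Fact p.Prime := ⟨hp⟩
  obtain ⟨P⟩ : Nonempty (Sylow p G) := inferInstance
  have hcard := Sylow.card_eq_multiplicity P
  have hPG : p ∣ Nat.card G := hdvd.trans (Subgroup.index_dvd_card _)
  have hP1 : (P : Subgroup G) ≠ ⊥ := by
    intro h
    rw [h, Subgroup.card_bot] at hcard
    have h1 : (Nat.card G).factorization p ≠ 0 :=
      (hp.factorization_pos_of_dvd Nat.card_pos.ne' hPG).ne'
    exact absurd hcard (Nat.one_lt_pow h1 hp.one_lt).ne
  obtain ⟨i, g, hg⟩ := T.loc p hp P P.isPGroup' hP1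
  have hle : (P : Subgroup G).map (MulAut.conj g⁻¹).toMonoidHom ≤ M m := by
    intro z hz
    rw [Subgroup.mem_map] at hz
    obtain ⟨y, hy, rfl⟩ := hz
    apply hm i
    simpa using hg y (Subgroup.le_normalizer hy)
  have h2 := Subgroup.card_dvd_of_le hle
  rw [Nat.card_congr ((P : Subgroup G).equivMapOfInjective _
    (MulAut.conj g⁻¹).injective).symm.toEquiv] at h2
  have h3 := Subgroup.card_mul_index (M m)
  have h4 : p ^ ((Nat.card G).factorization p + 1) ∣ Nat.card G := by
    have h5 := mul_dvd_mul h2 hdvd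
    rw [h3, hcard] at h5
    rw [pow_succ]
    exact h5
  exact Nat.pow_succ_factorization_not_dvd Nat.card_pos.ne' hp h4

/-- **The tree theorem**: the hypotheses are contradictory. -/
theorem TreeHyp.false [Finite ι] (T : TreeHyp M D H o par rk) : False := by
  classical
  have : Fintype G := Fintype.ofFinite G
  have : Fintype ι := Fintype.ofFinite ι
  set I : Finset ι := Finset.univ.erase o with hI
  have hIm : ∀ i, i ∈ I ↔ i ≠ o := by intro i; simp [hI]
  -- the inequality for `w ≠ 1`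
  have hw : ∀ w : G, w ≠ 1 →
      nfix (M o) w + ∑ i ∈ I, nfix (M i) w ≤ 1 + ∑ i ∈ I, nfix (H i) w := by
    intro w hw
    obtain ⟨j, h1, h2⟩ := T.theta hw
    rcases h2 with ⟨rfl, h2⟩ | ⟨hj, h2⟩
    · exact Nat.add_le_add h2 (Finset.sum_le_sum fun i hi =>
        h1 i ((hIm i).1 hi) ((hIm i).1 hi))
    · have hjI : j ∈ I := (hIm j).2 hj
      rw [← Finset.add_sum_erase I _ hjI, ← Finset.add_sum_erase I (fun i => nfix (H i) w) hjI]
      have h3 : ∑ i ∈ I.erase j, nfix (M i) w ≤ ∑ i ∈ I.erase j, nfix (H i) w :=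
        Finset.sum_le_sum fun i hi => by
          rw [Finset.mem_erase] at hi
          exact h1 i ((hIm i).1 hi.2) hi.1
      omega
  -- `w = 1`
  have h1 : nfix (M o) 1 + ∑ i ∈ I, nfix (M i) 1 ≤ ∑ i ∈ I, nfix (H i) 1 := by
    simp only [nfix_one]
    have hnum := tree_num M par rk (fun i => (M i).index) (fun i => (H i).index) I.card I o rfl
      (by simp [hI])
      (by
        intro i _
        by_cases h : par i = o
        · exact Or.inl h
        · exact Or.inr ((hIm _).2 h))
      (fun i hi => T.rk_par i ((hIm i).1 hi))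
      (by
        intro i hi
        have hio := (hIm i).1 hi
        refine two_mul_index_le (T.H_le i hio) fun hle => ?_
        apply T.ne i hio
        rw [eq_bot_iff]
        intro x hx
        rw [Subgroup.mem_bot]
        exact T.inf_eq_one hio hx (hle (T.D_le i hio hx)))
      (by
        intro i hi
        have hio := (hIm i).1 hi
        by_cases hle : M (par i) ≤ H i
        · right
          have he : M (par i) = H i := le_antisymm hle (T.H_par i hio)
          exact ⟨by simp only [he], hle.trans (T.H_le i hio)⟩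
        · left
          exact two_mul_index_le (T.H_par i hio) hle)
    rcases hnum with h | ⟨m, hm⟩
    · exact h
    · exfalso
      refine T.ne_top m (T.eq_top fun i => hm i ?_)
      by_cases h : i = o
      · exact Or.inl h
      · exact Or.inr ((hIm i).2 h)
  -- summation
  have h2 : ∑ w : G, (nfix (M o) w + ∑ i ∈ I, nfix (M i) w) = Nat.card G + I.card * Nat.card G := by
    rw [Finset.sum_add_distrib, sum_nfix, Finset.sum_comm]
    simp only [sum_nfix, Finset.sum_const, smul_eq_mul]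
  have h3 : ∑ w : G, ∑ i ∈ I, nfix (H i) w = I.card * Nat.card G := by
    rw [Finset.sum_comm]
    simp only [sum_nfix, Finset.sum_const, smul_eq_mul]
  have h4 : ∑ w ∈ Finset.univ.erase (1 : G), (nfix (M o) w + ∑ i ∈ I, nfix (M i) w) ≤
      ∑ w ∈ Finset.univ.erase (1 : G), (1 + ∑ i ∈ I, nfix (H i) w) :=
    Finset.sum_le_sum fun w hw' => hw w (Finset.mem_erase.1 hw').1
  have h5 := Finset.add_sum_erase (Finset.univ : Finset G)
    (fun w => nfix (M o) w + ∑ i ∈ I, nfix (M i) w) (Finset.mem_univ 1)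
  have h6 := Finset.add_sum_erase (Finset.univ : Finset G)
    (fun w => ∑ i ∈ I, nfix (H i) w) (Finset.mem_univ 1)
  have h7 : ∑ w ∈ Finset.univ.erase (1 : G), (1 + ∑ i ∈ I, nfix (H i) w) + 1 =
      Nat.card G + ∑ w ∈ Finset.univ.erase (1 : G), ∑ i ∈ I, nfix (H i) w := by
    rw [Finset.sum_add_distrib, Finset.sum_const, Finset.card_erase_of_mem (Finset.mem_univ _),
      Finset.card_univ, ← Nat.card_eq_fintype_card, smul_eq_mul, mul_one]
    have : 0 < Nat.card G := Nat.card_pos
    omega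
  rw [h2] at h5
  rw [h3] at h6
  omega

end MP_5771ce_al

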